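import Pool.Agent.Work.Tools.Subspace.Defs

/-!
# The Subspace theorem: number fields, statements
-/

namespace Pool.Agent.Work.Tools.Subspace

open Finset Matrix MvPolynomial NumberField Height

section

variable (K : Type) [Field K] [NumberField K] (S : Finset (FinitePlace K))

/-- the places in `S` together with the infinite places -/
abbrev NV : Type := InfinitePlace K ⊕ {v : FinitePlace K // v ∈ S}

variable {K}

/-- the absolute values -/
noncomputable def nabv : NV K S → AbsoluteValue K ℝ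
  | Sum.inl v => v.val
  | Sum.inr v => v.val.val

/-- the local degrees at infinite places, `0` at the finite places -/
noncomputable def ne : NV K S → ℕ
  | Sum.inl v => v.mult
  | Sum.inr _ => 0

/-- normalised absolute values -/
noncomputable def nN (v : NV K S) (x : K) : ℝ := nabv S v x ^ max (ne S v) 1

/-- the ring of `S`-integers -/
noncomputable def nO : Subring K where
  carrier := {x | ∀ v : FinitePlace K, v ∉ S → v x ≤ 1}
  mul_mem' := by
    intro a b ha hb v hv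
    rw [map_mul]
    exact mul_le_one₀ (ha v hv) (apply_nonneg v b) (hb v hv)
  one_mem' := by intro v _; rw [map_one]
  add_mem' := by
    intro a b ha hb v hv
    exact (FinitePlace.add_le v a b).trans (max_le (ha v hv) (hb v hv))
  zero_mem' := by intro v _; rw [map_zero]; exact zero_le_one
  neg_mem' := by
    intro a ha v hv
    rw [map_neg_eq_map]
    exact ha v hv

end

/-! ### Module P: the places of a number field -/

/-- P1: denominators -/
def ClaimP1 : Prop :=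
  ∀ (K : Type) [Field K] [NumberField K] (x : K), ∃ c : 𝓞 K, c ≠ 0 ∧ ∃ y : 𝓞 K, (c : K) * x = y

/-- P2: product formula for `S`-integers -/
def ClaimP2 : Prop :=
  ∀ (K : Type) [Field K] [NumberField K] (S : Finset (FinitePlace K)) (x : K), x ∈ nO S → x ≠ 0 →
    1 ≤ ∏ v, nN S v x

/-- P3a: pigeonhole at a finite place -/
def ClaimP3a : Prop :=
  ∀ (K : Type) [Field K] [NumberField K] (v : FinitePlace K) (ι : Type) [Fintype ι] (a : ι → K),
    ∃ C : ℝ, 0 < C ∧ ∀ θ : ℝ, 0 < θ → θ ≤ 1 → ∃ (N : ℕ) (φ : (ι → 𝓞 K) → Fin N), (N : ℝ) ≤ C / θ ∧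
      ∀ x y, φ x = φ y → v (∑ i, a i * ((x i : K) - y i)) ≤ θ

/-- P3b: pigeonhole at an infinite place -/
def ClaimP3b : Prop :=
  ∀ (K : Type) [Field K] [NumberField K] (v : InfinitePlace K) (ι β : Type) [Fintype ι] [Fintype β]
    (ω : Module.Basis β ℤ (𝓞 K)) (a : ι → K), ∃ C : ℝ, 0 < C ∧ ∀ θ : ℝ, 0 < θ → ∀ T : ℕ, 0 < T →
      θ ≤ (T : ℝ) ^ v.mult → ∃ (N : ℕ) (φ : (ι → 𝓞 K) → Fin N), (N : ℝ) ≤ C * T ^ v.mult / θ ∧
      ∀ x y, (∀ i j, 0 ≤ ω.repr (x i) j ∧ ω.repr (x i) j ≤ T) →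
        (∀ i j, 0 ≤ ω.repr (y i) j ∧ ω.repr (y i) j ≤ T) → φ x = φ y →
        v (∑ i, a i * ((x i : K) - y i)) ^ v.mult ≤ θ

/-- P3c: units that are small at the finite places of `S` -/
def ClaimP3c : Prop :=
  ∀ (K : Type) [Field K] [NumberField K] (S : Finset (FinitePlace K)) (ε : ℝ), 0 < ε →
    ∃ b : K, b ≠ 0 ∧ (∀ v : FinitePlace K, v ∉ S → v b = 1) ∧ ∀ v ∈ S, v b ≤ ε

/-- P3: the pigeonhole principle -/
def ClaimP3 : Prop :=
  ∀ (K : Type) [Field K] [NumberField K] (S : Finset (FinitePlace K)) (ι : Type) [Fintype ι]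
    [DecidableEq ι] [Nonempty ι] (A : NV K S → Matrix ι ι K),
    ∃ C : ℝ, 0 < C ∧ ∀ θ : NV K S → ι → ℝ, (∀ v i, 0 < θ v i) → C ≤ ∏ v, ∏ i, θ v i →
      ∃ x : ι → K, (∀ i, x i ∈ nO S) ∧ x ≠ 0 ∧ ∀ v i, nN S v ((A v *ᵥ x) i) ≤ θ v i

/-- P4: rounding at the infinite places -/
def ClaimP4 : Prop :=
  ∀ (K : Type) [Field K] [NumberField K], ∃ C : ℝ, ∀ t : InfinitePlace K → K, ∃ a : 𝓞 K,
    ∀ v : InfinitePlace K, v (t v - a) ≤ C

/-- P5: the height of a tuple of `S`-integers -/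
def ClaimP5 : Prop :=
  ∀ (K : Type) [Field K] [NumberField K] (S : Finset (FinitePlace K)) (ι : Type) [Fintype ι]
    (x : ι → K), (∀ i, x i ∈ nO S) → x ≠ 0 →
    mulHeight x ≤ ∏ v, (⨆ i, nabv S v (x i)) ^ max (ne S v) 1

/-- P6: linear forms -/
def ClaimP6 : Prop :=
  ∀ (K : Type) [Field K] [NumberField K] (S : Finset (FinitePlace K)) (ι : Type) [Fintype ι]
    (M x : ι → K), (∀ i, x i ∈ nO S) → M ⬝ᵥ x ≠ 0 →
    ∏ v, (⨆ i, nabv S v (M i)) ^ max (ne S v) 1 ≤ mulHeight M * ∏ v, nN S v (M ⬝ᵥ x)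

/-- P7: the height of a tuple and of its ratios -/
def ClaimP7 : Prop :=
  ∀ (K : Type) [Field K] [NumberField K] (ι : Type) [Fintype ι] [DecidableEq ι] (M : ι → K) (a : ι),
    M a ≠ 0 → mulHeight M ≤ ∏ b ∈ univ.erase a, mulHeight ![-(M b / M a), 1]

/-- P8a: one infinite place -/
def ClaimP8a : Prop :=
  ∀ (p g : Polynomial ℂ) (ξ : ℂ) (k d : ℕ) (B : ℝ), p = (Polynomial.X - Polynomial.C ξ) ^ k * g →
    p ≠ 0 → p.natDegree ≤ d → (∀ i, ‖p.coeff i‖ ≤ B) → ∀ i, max ‖ξ‖ 1 ^ k * ‖g.coeff i‖ ≤ 4 ^ d * B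

/-- P8b: a nonarchimedean absolute value -/
def ClaimP8b : Prop :=
  ∀ (K : Type) [Field K] (v : AbsoluteValue K ℝ), IsNonarchimedean v →
    ∀ (p g : Polynomial K) (ξ : K) (k : ℕ), p = (Polynomial.X - Polynomial.C ξ) ^ k * g →
      (∀ i, v (p.coeff i) ≤ 1) → ∀ i, max (v ξ) 1 ^ k * v (g.coeff i) ≤ 1

/-- P8: the height of a zero of large multiplicity -/
def ClaimP8 : Prop :=
  ∀ (K : Type) [Field K] [NumberField K] (p : Polynomial ℤ) (k : ℕ) (ξ : K) (B : ℝ) (d : ℕ),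
    p ≠ 0 → p.natDegree ≤ d → (∀ i, |(p.coeff i : ℝ)| ≤ B) →
    (Polynomial.X - Polynomial.C ξ) ^ k ∣ p.map (algebraMap ℤ K) →
    mulHeight ![ξ, 1] ^ k ≤ (4 ^ Module.finrank ℚ K) ^ d * B ^ Module.finrank ℚ K

/-- P9: coordinates -/
def ClaimP9 : Prop :=
  ∀ (K : Type) [Field K] [NumberField K], ∃ (D C : ℕ) (co : K →+ (Fin D → ℚ)),
    Function.Injective co ∧
    (∀ (x y : K) (a b : ℕ), (∀ i, ∃ z : ℤ, co x i = z ∧ |z| ≤ a) →
      (∀ i, ∃ z : ℤ, co y i = z ∧ |z| ≤ b) → ∀ i, ∃ z : ℤ, co (x * y) i = z ∧ |z| ≤ C * a * b) ∧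
    ∀ x : K, ∃ d : ℕ, 0 < d ∧ ∀ i, ∃ z : ℤ, co (d • x) i = z

/-! ### Module N: the Subspace theorem over number fields -/

/-- the sup norm at a place -/
noncomputable def nnrm {K : Type} [Field K] [NumberField K] (S : Finset (FinitePlace K))
    {ι : Type} (v : NV K S) (x : ι → K) : ℝ := (⨆ i, nabv S v (x i)) ^ max (ne S v) 1

/-- N1: the Subspace theorem for `S`-integral points, without a lower bound for the height -/
def ClaimN1 : Prop :=
  ∀ (K : Type) [Field K] [NumberField K] (S : Finset (FinitePlace K)) (n : ℕ)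
    (A : NV K S → Matrix (Fin n) (Fin n) K) (δ : ℝ), 2 ≤ n → (∀ v, (A v).det ≠ 0) → 0 < δ →
    ∃ T : Set (Submodule K (Fin n → K)), T.Finite ∧ (∀ W ∈ T, W ≠ ⊤) ∧
      ∀ x : Fin n → K, (∀ i, x i ∈ nO S) → x ≠ 0 →
        ∏ v, ∏ i, nN S v ((A v *ᵥ x) i) ≤ (∏ v, nnrm S v x) ^ (-δ) → ∃ W ∈ T, x ∈ W

/-- N2: every point can be scaled to an `S`-integral point of minimal size -/
def ClaimN2 : Prop :=
  ∀ (K : Type) [Field K] [NumberField K] (S : Finset (FinitePlace K)), ∃ C : ℝ, 0 < C ∧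
    ∀ (ι : Type) [Fintype ι] (x : ι → K), x ≠ 0 → ∃ c : K, c ≠ 0 ∧ (∀ i, c * x i ∈ nO S) ∧
      ∏ v, nnrm S v (c • x) ≤ C * mulHeight x

/-- N: the Subspace theorem of Schmidt and Schlickewei: for linearly independent linear forms over
`K` at the places of `S`, the solutions `x` of
`∏_{v ∈ S} ∏_i |L_{v,i}(x)|_v / ‖x‖_v ≤ H(x)^{-n-δ}` lie in finitely many proper subspaces -/
def ClaimN : Prop :=
  ∀ (K : Type) [Field K] [NumberField K] (S : Finset (FinitePlace K)) (n : ℕ)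
    (A : NV K S → Matrix (Fin n) (Fin n) K) (δ : ℝ), 2 ≤ n → (∀ v, (A v).det ≠ 0) → 0 < δ →
    ∃ T : Set (Submodule K (Fin n → K)), T.Finite ∧ (∀ W ∈ T, W ≠ ⊤) ∧
      ∀ x : Fin n → K, x ≠ 0 →
        ∏ v, ∏ i, nN S v ((A v *ᵥ x) i) / nnrm S v x ≤ mulHeight x ^ (-(n : ℝ) - δ) →
        ∃ W ∈ T, x ∈ W

/-- the group of `S`-units, as a subset of `K` -/
def nU {K : Type} [Field K] [NumberField K] (S : Finset (FinitePlace K)) : Set K :=
  {x | x ≠ 0 ∧ ∀ v : FinitePlace K, v ∉ S → v x = 1}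

/-- U1: the Subspace theorem for `S`-units: `S`-units with a small sum -/
def ClaimU1 : Prop :=
  ∀ (K : Type) [Field K] [NumberField K] (S : Finset (FinitePlace K)) (n : ℕ) (a : Fin n → K)
    (ε : ℝ) (v₀ : NV K S), 2 ≤ n → (∀ i, a i ≠ 0) → 0 < ε →
    ∃ T : Set (Submodule K (Fin n → K)), T.Finite ∧ (∀ W ∈ T, W ≠ ⊤) ∧
      ∀ x : Fin n → K, (∀ i, x i ∈ nU S) →
        nN S v₀ (∑ i, a i * x i) ≤ nnrm S v₀ x * mulHeight x ^ (-ε) → ∃ W ∈ T, x ∈ W

/-- U2: the theorem of Evertse: nondegenerate sums of `S`-units are not small -/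
def ClaimU2 : Prop :=
  ∀ (K : Type) [Field K] [NumberField K] (S : Finset (FinitePlace K)) (n : ℕ) (a : Fin n → K)
    (ε : ℝ) (v₀ : NV K S), 0 < n → (∀ i, a i ≠ 0) → 0 < ε →
    ∃ C : ℝ, 0 < C ∧ ∀ x : Fin n → K, (∀ i, x i ∈ nU S) →
      (∀ I : Finset (Fin n), I.Nonempty → ∑ i ∈ I, a i * x i ≠ 0) →
      C * nnrm S v₀ x * mulHeight x ^ (-ε) ≤ nN S v₀ (∑ i, a i * x i)

/-- the nondegenerate solutions of an `S`-unit equation -/
def USol {K : Type} [Field K] [NumberField K] (S : Finset (FinitePlace K)) {n : ℕ}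
    (a : Fin n → K) : Set (Fin n → K) :=
  {x | (∀ i, x i ∈ nU S) ∧ ∑ i, a i * x i = 1 ∧
      ∀ I : Finset (Fin n), I.Nonempty → ∑ i ∈ I, a i * x i ≠ 0}

/-- U0: in a relation between `S`-units some ratio has only finitely many values -/
def ClaimU0 : Prop :=
  ∀ (K : Type) [Field K] [NumberField K] (S : Finset (FinitePlace K)) (n : ℕ),
    (∀ (m : ℕ) (a : Fin m → K), m < n → (USol S a).Finite) →
    ∀ b : Fin n → K, b ≠ 0 → ∃ L : Set K, L.Finite ∧ ∀ x : Fin n → K, (∀ i, x i ∈ nU S) →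
      ∑ i, b i * x i = 0 → ∃ i j, i ≠ j ∧ x i / x j ∈ L

/-- U3: finitely many nondegenerate solutions of the `S`-unit equation -/
def ClaimU3 : Prop :=
  ∀ (K : Type) [Field K] [NumberField K] (S : Finset (FinitePlace K)) (n : ℕ) (a : Fin n → K),
    (USol S a).Finite

end Pool.Agent.Work.Tools.Subspace
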