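import Pool.Agent.Work.Tools.Subspace.Basic
import Pool.Agent.Work.Tools.Subspace.Stmts3

/-!
# P2: product formula for `S`-integers
-/

namespace Pool.Agent.Work.Tools.Subspace

open Finset Matrix MvPolynomial NumberField Height

namespace IP2

/-- a finite product split along a finset -/
theorem finprod_split {α : Type*} [DecidableEq α] (S : Finset α) (f : α → ℝ)
    (hf : f.HasFiniteMulSupport) :
    ∏ᶠ v, f v = (∏ v ∈ S, f v) * ∏ v ∈ (hf : f.mulSupport.Finite).toFinset \ S, f v := by
  have h1 : ∏ᶠ v, f v = ∏ v ∈ (hf : f.mulSupport.Finite).toFinset ∪ S, f v := by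
    apply finprod_eq_prod_of_mulSupport_subset
    intro v hv
    rw [Finset.coe_union]
    left
    simpa using hv
  rw [h1, ← Finset.sdiff_union_self_eq_union, Finset.prod_union Finset.sdiff_disjoint, mul_comm]

/-- an upper bound of a finite product by the product over a finset -/
theorem finprod_le {α : Type*} (S : Finset α) (f : α → ℝ) (hf : f.HasFiniteMulSupport)
    (h0 : ∀ v, 0 ≤ f v) (h1 : ∀ v, v ∉ S → f v ≤ 1) : ∏ᶠ v, f v ≤ ∏ v ∈ S, f v := by
  classical
  rw [finprod_split S f hf]
  refine mul_le_of_le_one_right (Finset.prod_nonneg fun v _ => h0 v) ?_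
  refine Finset.prod_le_one (fun v _ => h0 v) fun v hv => h1 v ?_
  exact (Finset.mem_sdiff.1 hv).2

variable {K : Type} [Field K] [NumberField K] (S : Finset (FinitePlace K))

theorem prod_NV (f : NV K S → ℝ) (g : FinitePlace K → ℝ)
    (hg : ∀ v : {v : FinitePlace K // v ∈ S}, f (Sum.inr v) = g v) :
    ∏ v, f v = (∏ v : InfinitePlace K, f (Sum.inl v)) * ∏ v ∈ S, g v := by
  rw [Fintype.prod_sum_type]
  congr 1
  rw [← Finset.prod_coe_sort S g]
  exact Finset.prod_congr rfl fun v _ => hg v

omit [NumberField K] in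
theorem max_mult (v : InfinitePlace K) : max v.mult 1 = v.mult :=
  max_eq_left InfinitePlace.mult_pos

theorem nN_inl (v : InfinitePlace K) (x : K) : nN S (Sum.inl v) x = v x ^ v.mult := by
  change v.val x ^ max v.mult 1 = _
  rw [max_mult]
  rfl

theorem nN_inr (v : {v : FinitePlace K // v ∈ S}) (x : K) : nN S (Sum.inr v) x = v.val x := by
  change v.val.val x ^ max 0 1 = _
  rw [max_eq_right zero_le_one, pow_one]
  rfl

theorem prod_nN (x : K) :
    ∏ v, nN S v x = (∏ v : InfinitePlace K, v x ^ v.mult) * ∏ v ∈ S, v x := by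
  rw [prod_NV S (fun v => nN S v x) (fun v => v x) (fun v => nN_inr S v x)]
  congr 1
  exact Finset.prod_congr rfl fun v _ => nN_inl S v x

theorem nN_nonneg (v : NV K S) (x : K) : 0 ≤ nN S v x := pow_nonneg (AbsoluteValue.nonneg _ _) _

theorem nN_pos (v : NV K S) {x : K} (hx : x ≠ 0) : 0 < nN S v x :=
  pow_pos (AbsoluteValue.pos _ hx) _

theorem nN_mul (v : NV K S) (x y : K) : nN S v (x * y) = nN S v x * nN S v y := by
  unfold nN
  rw [map_mul, mul_pow]

/-- the product of the normalised absolute values of an element which is a unit outside `S` -/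
theorem prod_nN_eq_one {x : K} (hx : x ≠ 0) (h : ∀ v : FinitePlace K, v ∉ S → v x = 1) :
    ∏ v, nN S v x = 1 := by
  classical
  rw [prod_nN, ← prod_abs_eq_one hx, finprod_split S (fun v : FinitePlace K => v x)
    (FinitePlace.hasFiniteMulSupport hx)]
  congr 1
  have : ∏ v ∈ (FinitePlace.hasFiniteMulSupport hx :
      (fun v : FinitePlace K => v x).mulSupport.Finite).toFinset \ S, v x = 1 :=
    Finset.prod_eq_one fun v hv => h v (Finset.mem_sdiff.1 hv).2
  rw [this, mul_one]

end IP2

theorem prfP2 : ClaimP2 := by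
  intro K _ _ S x hx h0
  rw [IP2.prod_nN, ← prod_abs_eq_one h0]
  refine mul_le_mul_of_nonneg_left ?_ (Finset.prod_nonneg fun v _ => by positivity)
  exact IP2.finprod_le S (fun v : FinitePlace K => v x) (FinitePlace.hasFiniteMulSupport h0)
    (fun v => apply_nonneg v x) hx

end Pool.Agent.Work.Tools.Subspace
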