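import Pool.Agent.Work.Tools.Subspace.Defs

/-!
# The Subspace theorem: statements

`K` is a field of characteristic zero with places `P`. Every claim is proved in its own file
`Item<name>.lean`; other claims may be used as hypotheses.
-/

namespace Pool.Agent.Work.Tools.Subspace

open Finset Matrix MvPolynomial

/-! ### Module T: Hasse derivatives -/

/-- T1: monomials -/
def ClaimT1 : Prop :=
  ∀ (σ R : Type) [Fintype σ] [CommRing R] (k s : σ →₀ ℕ) (a : R),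
    hd k (monomial s a) = monomial (s - k) (a * ∏ i, ((s i).choose (k i) : R))

/-- T2: composition -/
def ClaimT2 : Prop :=
  ∀ (σ R : Type) [Fintype σ] [CommRing R] (k l : σ →₀ ℕ) (F : MvPolynomial σ R),
    hd k (hd l F) = C (∏ i, ((k i + l i).choose (k i) : R)) * hd (k + l) F

/-- T3: bounds for the coefficients and the degrees of derivatives of integer polynomials -/
def ClaimT3 : Prop :=
  ∀ (σ : Type) [Fintype σ] (k : σ →₀ ℕ) (F : MvPolynomial σ ℤ) (d : σ → ℕ) (B : ℝ),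
    CoefLe F B → (∀ i, degreeOf i F ≤ d i) → CoefLe (hd k F) (2 ^ (∑ i, d i) * B) ∧
      ∀ i, degreeOf i (hd k F) ≤ d i - k i

/-- T4: homogeneity of derivatives in blocks -/
def ClaimT4 : Prop :=
  ∀ (m : ℕ) (ι R : Type) [Fintype ι] [CommRing R] (r : Fin m → ℕ) (F : MvPolynomial (Fin m × ι) R)
    (k : Fin m × ι →₀ ℕ), MH r F → MH (fun h => r h - ∑ i, k (h, i)) (hd k F) ∧
      ((∃ h, r h < ∑ i, k (h, i)) → hd k F = 0)

/-- T5: product of coefficient bounds: integer polynomials with few variables -/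
def ClaimT5 : Prop :=
  ∀ (σ : Type) [Fintype σ] (F G : MvPolynomial σ ℤ) (d : σ → ℕ) (B B' : ℝ), 0 ≤ B → 0 ≤ B' →
    CoefLe F B → CoefLe G B' → (∀ i, degreeOf i F ≤ d i) →
    CoefLe (F * G) (2 ^ (∑ i, d i) * B * B')

/-! ### Module R: the lemma of Roth -/

/-- R1: one variable -/
def ClaimR1 : Prop :=
  ∀ (K : Type) [Field K] [CharZero K] (P : Places K) (ε : ℝ), 0 < ε →
    ∃ ω : ℝ, 0 < ω ∧ ∀ (r : Fin 1 → ℕ) (ξ : Fin 1 → K) (p : MvPolynomial (Fin 1) ℤ) (B G : ℝ),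
      0 < r 0 → p ≠ 0 → degreeOf 0 p ≤ r 0 → 1 ≤ B → CoefLe p B →
      G ≤ r 0 * Real.log (P.H ![ξ 0, 1]) → Real.log B + r 0 ≤ ω * G → 0 < G →
      ¬ IndGe p ξ r ε

/-- the lemma of Roth in `m + 1` variables -/
def RothLemma (m : ℕ) : Prop :=
  ∀ (K : Type) [Field K] [CharZero K] (P : Places K) (ε : ℝ), 0 < ε →
    ∃ ω : ℝ, 0 < ω ∧ ω ≤ 1 ∧ ∀ (r : Fin (m + 1) → ℕ) (ξ : Fin (m + 1) → K)
      (p : MvPolynomial (Fin (m + 1)) ℤ) (B G : ℝ),
      (∀ h, 0 < r h) → (∀ h h', h < h' → (r h : ℝ) ≤ ω * r h') → p ≠ 0 →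
      (∀ h, degreeOf h p ≤ r h) → 1 ≤ B → CoefLe p B →
      (∀ h, G ≤ r h * Real.log (P.H ![ξ h, 1])) → 0 < G →
      Real.log B + r (Fin.last m) ≤ ω * G → ¬ IndGe p ξ r ε

/-- R2: the one variable Wronskian -/
def ClaimR2 : Prop :=
  ∀ (l : ℕ) (f : Fin l → Polynomial ℚ), LinearIndependent ℚ f →
    (Matrix.of fun i j : Fin l => Polynomial.hasseDeriv (i : ℕ) (f j)).det ≠ 0

/-- R3: generalised Wronskians -/
def ClaimR3 : Prop :=
  ∀ (m l : ℕ) (f : Fin l → MvPolynomial (Fin m) ℚ), LinearIndependent ℚ f →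
    ∃ κ : Fin l → Fin m →₀ ℕ, (∀ i, ∑ h, κ i h ≤ i) ∧
      (Matrix.of fun i j : Fin l => hd (κ i) (f j)).det ≠ 0

/-- R4: decomposition of a polynomial in `x_0` and `x' = (x_1, …)` with linearly independent
factors on both sides -/
def ClaimR4 : Prop :=
  ∀ (m d : ℕ) (p : MvPolynomial (Fin (m + 1)) ℚ), p ≠ 0 → degreeOf 0 p ≤ d →
    ∃ (l : ℕ) (g : Fin l → Polynomial ℚ) (f : Fin l → MvPolynomial (Fin m) ℚ), 0 < l ∧ l ≤ d + 1 ∧
      LinearIndependent ℚ g ∧ LinearIndependent ℚ f ∧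
      p = ∑ t, Polynomial.aeval (X (0 : Fin (m + 1)) : MvPolynomial (Fin (m + 1)) ℚ) (g t) *
        rename Fin.succ (f t)

/-- R5: the Wronskian of an integer polynomial factors over the integers -/
def ClaimR5 : Prop :=
  ∀ (m d : ℕ) (p : MvPolynomial (Fin (m + 1)) ℤ), p ≠ 0 → degreeOf 0 p ≤ d →
    ∃ (l : ℕ) (κ : Fin l → Fin (m + 1) →₀ ℕ) (u : MvPolynomial (Fin m) ℤ) (w : Polynomial ℤ),
      0 < l ∧ l ≤ d + 1 ∧ (∀ i, κ i 0 = 0) ∧ (∀ i, ∑ h, κ i h ≤ i) ∧ u ≠ 0 ∧ w ≠ 0 ∧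
      (Matrix.of fun i j : Fin l => hd (κ i + Finsupp.single 0 (j : ℕ)) p).det =
        Polynomial.aeval (X (0 : Fin (m + 1)) : MvPolynomial (Fin (m + 1)) ℤ) w *
          rename Fin.succ u

/-- R6: coefficients and degrees of the factors -/
def ClaimR6 : Prop :=
  ∀ (m : ℕ) (r : Fin (m + 1) → ℕ) (p : MvPolynomial (Fin (m + 1)) ℤ) (B : ℝ) (l : ℕ)
    (κ : Fin l → Fin (m + 1) →₀ ℕ) (u : MvPolynomial (Fin m) ℤ) (w : Polynomial ℤ),
    1 ≤ B → CoefLe p B → (∀ h, degreeOf h p ≤ r h) → 0 < l → u ≠ 0 → w ≠ 0 →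
    (Matrix.of fun i j : Fin l => hd (κ i + Finsupp.single 0 (j : ℕ)) p).det =
      Polynomial.aeval (X (0 : Fin (m + 1)) : MvPolynomial (Fin (m + 1)) ℤ) w *
        rename Fin.succ u →
    CoefLe u ((l * 4 ^ (∑ h, r h) * B) ^ l) ∧
    (∀ i, |(w.coeff i : ℝ)| ≤ (l * 4 ^ (∑ h, r h) * B) ^ l) ∧
    (∀ h, degreeOf h u ≤ l * r h.succ) ∧ w.natDegree ≤ l * r 0

/-- R7: index of a determinant -/
def ClaimR7 : Prop :=
  ∀ (K : Type) [Field K] [CharZero K] (m : ℕ) (r : Fin (m + 1) → ℕ) (ξ : Fin (m + 1) → K)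
    (p : MvPolynomial (Fin (m + 1)) ℤ) (l : ℕ) (κ : Fin l → Fin (m + 1) →₀ ℕ) (θ ω : ℝ),
    (∀ h, 0 < r h) → (∀ h : Fin m, (r 0 : ℝ) ≤ ω * r h.succ) → l ≤ r 0 + 1 → 0 ≤ ω →
    (∀ i, κ i 0 = 0) → (∀ i, ∑ h, κ i h ≤ i) → IndGe p ξ r θ →
    IndGe (Matrix.of fun i j : Fin l => hd (κ i + Finsupp.single 0 (j : ℕ)) p).det ξ r
      (∑ j : Fin l, max 0 (θ - ω - j / r 0))

/-- R8: index of a product of polynomials in separate variables -/
def ClaimR8 : Prop :=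
  ∀ (K : Type) [Field K] [CharZero K] (m : ℕ) (r : Fin (m + 1) → ℕ) (ξ : Fin (m + 1) → K)
    (u : MvPolynomial (Fin m) ℤ) (w : Polynomial ℤ) (θ a b : ℝ), (∀ h, 0 < r h) →
    IndGe (Polynomial.aeval (X (0 : Fin (m + 1)) : MvPolynomial (Fin (m + 1)) ℤ) w *
        rename Fin.succ u) ξ r θ →
    ¬ IndGe u (fun h => ξ h.succ) (fun h => r h.succ) a →
    ¬ IndGe (Polynomial.aeval (X (0 : Fin 1) : MvPolynomial (Fin 1) ℤ) w) (fun _ => ξ 0)
      (fun _ => r 0) b → θ < a + b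

/-- R9: the numerical inequality -/
def ClaimR9 : Prop :=
  ∀ (l r : ℕ) (θ ε : ℝ), 0 < r → 0 < l → l ≤ r + 1 → 0 < θ → θ ≤ 1 →
    ∑ j : Fin l, max 0 (θ - (j : ℝ) / r) ≤ l * ε → θ ^ 2 ≤ 4 * ε

/-- R10: the induction step -/
def ClaimR10 : Prop := ∀ m, RothLemma m → RothLemma (m + 1)

/-- R11: the lemma of Roth -/
def ClaimR : Prop := ∀ m, RothLemma m

/-! ### Module X: from a multihomogeneous polynomial to a polynomial in few variables -/

/-- many derivatives of `F` vanish on the product of the hyperplanes with normal vectors `M h` -/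
def VanH {K : Type} [Field K] {m : ℕ} {ι : Type} [Fintype ι] (r : Fin m → ℕ) (θ : ℝ)
    (M : Fin m → ι → K) (F : MvPolynomial (Fin m × ι) ℤ) : Prop :=
  ∀ k : Fin m × ι →₀ ℕ, wt r k ≤ θ → ∀ y : Fin m → ι → K, (∀ h, M h ⬝ᵥ y h = 0) →
    tc F k (fun p => y p.1 p.2) = 0

/-- X1a: division by a variable -/
def ClaimX1a : Prop :=
  ∀ (K : Type) [Field K] [CharZero K] (m : ℕ) (ι : Type) [Fintype ι] [DecidableEq ι]
    (r : Fin m → ℕ) (F : MvPolynomial (Fin m × ι) ℤ) (M : Fin m → ι → K) (a : Fin m → ι)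
    (θ : ℝ) (h : Fin m) (i : ι), (∀ h, M h (a h) ≠ 0) → i ≠ a h →
    VanH r θ M (X (h, i) * F) → VanH r θ M F

/-- X1b: a variable is put equal to zero -/
def ClaimX1b : Prop :=
  ∀ (K : Type) [Field K] [CharZero K] (m : ℕ) (ι : Type) [Fintype ι] [DecidableEq ι]
    (r : Fin m → ℕ) (F : MvPolynomial (Fin m × ι) ℤ) (M : Fin m → ι → K)
    (θ : ℝ) (h : Fin m) (i : ι), VanH r θ M F →
    VanH r θ (Function.update M h (Function.update (M h) i 0))
      (aeval (Function.update X (h, i) 0 : Fin m × ι → MvPolynomial (Fin m × ι) ℤ) F)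

/-- X1c: dehomogenisation -/
def ClaimX1c : Prop :=
  ∀ (K : Type) [Field K] [CharZero K] (m : ℕ) (ι : Type) [Fintype ι] [DecidableEq ι]
    (r r' : Fin m → ℕ) (F : MvPolynomial (Fin m × ι) ℤ) (M : Fin m → ι → K) (a b : Fin m → ι)
    (θ B : ℝ), F ≠ 0 → MH r' F → (∀ h, r' h ≤ r h) → CoefLe F B → (∀ h, M h (a h) ≠ 0) →
    (∀ h, a h ≠ b h) → (∀ h i, i ≠ a h → i ≠ b h → degreeOf (h, i) F = 0) →
    VanH r θ M F →
    ∃ p : MvPolynomial (Fin m) ℤ, p ≠ 0 ∧ CoefLe p B ∧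
      (∀ h, degreeOf h p ≤ r h) ∧ IndGe p (fun h => -(M h (b h) / M h (a h))) r θ

/-- X1: if many derivatives of `F` vanish on the product of the hyperplanes `W h`, then there is a
nonzero polynomial in one variable for each block with large index at the point given by ratios of
two coordinates of the normal vectors -/
def ClaimX1 : Prop :=
  ∀ (K : Type) [Field K] [CharZero K] (m : ℕ) (ι : Type) [Fintype ι] [DecidableEq ι]
    (r : Fin m → ℕ) (F : MvPolynomial (Fin m × ι) ℤ) (M : Fin m → ι → K) (a b : Fin m → ι)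
    (θ B : ℝ), F ≠ 0 → MH r F → CoefLe F B → (∀ h, 0 < r h) →
    (∀ h, M h (a h) ≠ 0) → (∀ h, a h ≠ b h) →
    (∀ k : Fin m × ι →₀ ℕ, wt r k ≤ θ → ∀ y : Fin m → ι → K, (∀ h, M h ⬝ᵥ y h = 0) →
      tc F k (fun p => y p.1 p.2) = 0) →
    ∃ p : MvPolynomial (Fin m) ℤ, p ≠ 0 ∧ CoefLe p B ∧
      (∀ h, degreeOf h p ≤ r h) ∧ IndGe p (fun h => -(M h (b h) / M h (a h))) r θ

/-! ### Module G: vanishing on a grid of bounded size -/

/-- G1: one variable with multiplicities, many variables: a polynomial vanishing to high order in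
each variable at all points of a small grid is zero -/
def ClaimG1 : Prop :=
  ∀ (K : Type) [Field K] [CharZero K] (σ : Type) [Fintype σ] (f : MvPolynomial σ K) (d : σ → ℕ)
    (o : σ → ℕ) (B : ℕ), (∀ i, degreeOf i f ≤ d i) → (∀ i, d i < (B + 1) * (o i + 1)) →
    (∀ (k : σ →₀ ℕ) (y : σ → ℕ), (∀ i, k i ≤ o i) → (∀ i, y i ≤ B) →
      aeval (fun i => ((y i : ℕ) : K)) (hd k f) = 0) → f = 0

/-- G2: derivatives of the restriction of `F` to parametrised subspaces are combinations of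
derivatives of `F` of the same order in each block -/
def ClaimG2 : Prop :=
  ∀ (K : Type) [Field K] [CharZero K] (m ν : ℕ) (ι : Type) [Fintype ι]
    (F : MvPolynomial (Fin m × ι) K) (x : Fin m → Fin ν → ι → K) (k : Fin m × Fin ν →₀ ℕ)
    (a : Fin m × Fin ν → K),
    (∀ l : Fin m × ι →₀ ℕ, (∀ h, ∑ i, l (h, i) = ∑ j, k (h, j)) →
      aeval (fun p => ∑ j, a (p.1, j) * x p.1 j p.2) (hd l F) = 0) →
    aeval a (hd k (aeval (fun p => ∑ j, C (x p.1 j p.2) * X (p.1, j) :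
      Fin m × ι → MvPolynomial (Fin m × Fin ν) K) F)) = 0

/-- G3: vanishing on the grid implies vanishing on the product of the subspaces -/
def ClaimG3 : Prop :=
  ∀ (K : Type) [Field K] [CharZero K] (m ν : ℕ) (ι : Type) [Fintype ι] (r : Fin m → ℕ)
    (F : MvPolynomial (Fin m × ι) ℤ) (x : Fin m → Fin ν → ι → K) (θ : ℝ) (B : ℕ),
    MH r F → (∀ h, 0 < r h) → 0 < m → 0 < ν → 0 < θ → (m : ℝ) * ν < (B + 1) * θ →
    (∀ k : Fin m × ι →₀ ℕ, wt r k ≤ 2 * θ → ∀ y : Fin m → Fin ν → ℕ, (∀ h j, y h j ≤ B) →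
      tc F k (fun p => ∑ j, (y p.1 j : K) * x p.1 j p.2) = 0) →
    ∀ k : Fin m × ι →₀ ℕ, wt r k ≤ θ → ∀ y : Fin m → ι → K,
      (∀ h, y h ∈ Submodule.span K (Set.range (x h))) → tc F k (fun p => y p.1 p.2) = 0

end Pool.Agent.Work.Tools.Subspace
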