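import Pool.Agent.Work.Tools.Subspace.Defs

/-!
# The Subspace theorem: statements, second part
-/

namespace Pool.Agent.Work.Tools.Subspace

open Finset Matrix MvPolynomial

/-- exponents of the multihomogeneous monomials of degree `r` -/
noncomputable def mons {m : ℕ} {ι : Type} [Fintype ι] [DecidableEq ι] (r : Fin m → ℕ) :
    Finset (Fin m → ι → ℕ) :=
  Fintype.piFinset fun h => Finset.piAntidiag univ (r h)

/-- exponents as a finitely supported function -/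
noncomputable def toF {m : ℕ} {ι : Type} [Fintype ι] (s : Fin m → ι → ℕ) : Fin m × ι →₀ ℕ :=
  Finsupp.equivFunOnFinite.symm fun p => s p.1 p.2

/-- the condition on the monomials of the auxiliary polynomial in the coordinates `A v` -/
def Balanced {K : Type} [Field K] (P : Places K) {m : ℕ} {ι : Type} [Fintype ι] [DecidableEq ι]
    (A : P.V → Matrix ι ι K) (r : Fin m → ℕ) (ε : ℝ) (F : MvPolynomial (Fin m × ι) ℤ) : Prop :=
  ∀ v, ∀ s ∈ (lsub (A v)⁻¹ F).support, ∀ i,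
    (1 / (Fintype.card ι : ℝ) - ε) * m ≤ ∑ h, (s (h, i) : ℝ) / r h

/-! ### Module A: the auxiliary polynomial -/

/-- A0: linear substitutions in every block preserve the degrees -/
def ClaimA0 : Prop :=
  ∀ (K R : Type) [Field K] [CommRing R] [Algebra R K] (m : ℕ) (ι : Type) [Fintype ι]
    (B : Matrix ι ι K) (r : Fin m → ℕ) (F : MvPolynomial (Fin m × ι) R), MH r F → MH r (lsub B F)

/-- A1: few monomials are unbalanced (Chebyshev) -/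
def ClaimA1 : Prop :=
  ∀ (m : ℕ) (ι : Type) [Fintype ι] [DecidableEq ι] [Nonempty ι] (r : Fin m → ℕ) (ε : ℝ),
    (∀ h, 0 < r h) → 0 < ε →
    (((mons (ι := ι) r).filter fun s => ∃ i, ∑ h, (s h i : ℝ) / r h <
      (1 / (Fintype.card ι : ℝ) - ε) * m).card : ℝ) * (ε ^ 2 * m) ≤ (mons (ι := ι) r).card

/-- A2: the lemma of Siegel with integral unknowns and coefficients in `K` -/
def ClaimA2 : Prop :=
  ∀ (K : Type) [Field K] [CharZero K] (P : Places K) (α β : Type) [Fintype α] [Fintype β]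
    (κ : β → α → K) (d M : ℕ), 0 < Fintype.card α → 2 * P.D₂ * Fintype.card β ≤ Fintype.card α →
    0 < d → 1 ≤ M → (∀ b a i, ∃ z : ℤ, P.co (d • κ b a) i = z ∧ |z| ≤ M) →
    ∃ x : α → ℤ, x ≠ 0 ∧ (∀ a, |x a| ≤ Fintype.card α * M) ∧ ∀ b, ∑ a, κ b a * (x a : K) = 0

/-- A3: integral coordinates of the coefficients of products of linear forms -/
def ClaimA3 : Prop :=
  ∀ (K : Type) [Field K] [CharZero K] (P : Places K) (ι : Type) [Fintype ι] [DecidableEq ι]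
    (B : Matrix ι ι K), ∃ d C : ℕ, 0 < d ∧ 1 ≤ C ∧ ∀ (m : ℕ) (r : Fin m → ℕ), ∀ s ∈ mons r,
      ∀ (t : Fin m × ι →₀ ℕ) (i : Fin P.D₂), ∃ z : ℤ,
        P.co (d ^ (∑ h, r h + 1) • coeff t (lsub B (monomial (toF s) (1 : ℤ)))) i = z ∧
          |z| ≤ C ^ (∑ h, r h + 1)

/-- A4: the number of monomials -/
def ClaimA4 : Prop :=
  ∀ (m : ℕ) (ι : Type) [Fintype ι] [DecidableEq ι] (r : Fin m → ℕ),
    (mons (ι := ι) r).card ≤ 2 ^ (Fintype.card ι * ∑ h, r h)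

/-- A5: the auxiliary polynomial -/
def ClaimA : Prop :=
  ∀ (K : Type) [Field K] [CharZero K] (P : Places K) (ι : Type) [Fintype ι] [DecidableEq ι]
    [Nonempty ι] (A : P.V → Matrix ι ι K), (∀ v, (A v).det ≠ 0) → ∀ ε : ℝ, 0 < ε →
    ∃ m₀ : ℕ, ∀ m, m₀ ≤ m → 0 < m → ∃ C : ℝ, 1 ≤ C ∧ ∀ r : Fin m → ℕ, (∀ h, 0 < r h) →
      ∃ F : MvPolynomial (Fin m × ι) ℤ, F ≠ 0 ∧ MH r F ∧ CoefLe F (C ^ (∑ h, r h)) ∧
        Balanced P A r ε F

/-! ### Module E: evaluation -/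

/-- E0: Taylor coefficients in terms of the coordinates given by the forms `A` -/
def ClaimE0 : Prop :=
  ∀ (K : Type) [Field K] [CharZero K] (m : ℕ) (ι : Type) [Fintype ι] [DecidableEq ι]
    (A : Matrix ι ι K) (F : MvPolynomial (Fin m × ι) ℤ) (k : Fin m × ι →₀ ℕ)
    (y : Fin m × ι → K), A.det ≠ 0 →
    tc F k y = ∑ s ∈ (lsub A⁻¹ F).support, ∑ u ∈ Finset.Iic s,
      coeff s (lsub A⁻¹ F) * (∏ p, (((s p).choose (u p) : ℕ) : K)) *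
        (∏ p : Fin m × ι, (A *ᵥ (fun i => y (p.1, i))) p.2 ^ (s p - u p)) *
          coeff k (lsub A (monomial u (1 : ℤ)))

/-- E1: size of the coefficients after a linear substitution -/
def ClaimE1 : Prop :=
  ∀ (K : Type) [Field K] [CharZero K] (P : Places K) (v : P.V) (ι : Type) [Fintype ι]
    [DecidableEq ι] (B : Matrix ι ι K), ∃ C : ℝ, 1 ≤ C ∧ ∀ (m : ℕ) (r : Fin m → ℕ)
      (F : MvPolynomial (Fin m × ι) ℤ) (b : ℝ), MH r F → CoefLe F b → 1 ≤ b →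
      ∀ t, P.N v (coeff t (lsub B F)) ≤ C ^ (∑ h, r h) * b ^ P.e v

/-- E2: size of a Taylor coefficient at a place -/
def ClaimE2 : Prop :=
  ∀ (K : Type) [Field K] [CharZero K] (P : Places K) (v : P.V) (ι : Type) [Fintype ι]
    [DecidableEq ι] (A : Matrix ι ι K), A.det ≠ 0 → ∃ C : ℝ, 1 ≤ C ∧ ∀ (m : ℕ) (r : Fin m → ℕ)
      (F : MvPolynomial (Fin m × ι) ℤ) (b : ℝ) (k : Fin m × ι →₀ ℕ) (y : Fin m × ι → K)
      (β : Fin m × ι → ℝ), MH r F → CoefLe F b → 1 ≤ b → (∀ p, 0 < β p) →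
      (∀ p, P.N v ((A *ᵥ (fun i => y (p.1, i))) p.2) ≤ β p) → tc F k y ≠ 0 →
      ∃ s ∈ (lsub A⁻¹ F).support, ∃ u : Fin m × ι →₀ ℕ, u ≤ s ∧
        (∀ h, ∑ i, u (h, i) = ∑ i, k (h, i)) ∧
        P.N v (tc F k y) ≤ C ^ (∑ h, r h) * b ^ P.e v * ∏ p, β p ^ (s p - u p)

/-- E3: the numerical inequality -/
def ClaimE3 : Prop :=
  ∀ (V ι : Type) [Fintype V] [Fintype ι] [Nonempty ι] (c : V → ι → ℝ) (δ ε R : ℝ) (m : ℕ)
    (r : Fin m → ℕ) (q : Fin m → ℝ) (κ : Fin m → ℕ) (s u : V → Fin m → ι → ℕ),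
    0 < δ → ∑ v, ∑ i, c v i ≤ -δ → 0 < ε → ε ≤ 1 →
    2 * (Fintype.card ι) * (3 * (Fintype.card ι) + 2) * ε * (∑ v, ∑ i, |c v i|) ≤ δ →
    0 < R → (∀ h, 0 < r h) → (∀ h, R ≤ r h * q h) → (∀ h, r h * q h ≤ (1 + ε) * R) →
    (∀ v h i, u v h i ≤ s v h i) → (∀ v h, ∑ i, s v h i = r h) → (∀ v h, ∑ i, u v h i = κ h) →
    ∑ h, (κ h : ℝ) / r h ≤ 2 * (ε * m) →
    (∀ v i, (1 / (Fintype.card ι : ℝ) - ε) * m ≤ ∑ h, (s v h i : ℝ) / r h) →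
    ∑ v, ∑ h, ∑ i, q h * c v i * ((s v h i : ℝ) - u v h i) ≤
      -(R * m * δ / (2 * Fintype.card ι))

/-- E: Taylor coefficients of the auxiliary polynomial at small integral points vanish -/
def ClaimE : Prop :=
  ∀ (K : Type) [Field K] [CharZero K] (P : Places K) (ι : Type) [Fintype ι] [DecidableEq ι]
    [Nonempty ι] (A : P.V → Matrix ι ι K) (c : P.V → ι → ℝ), (∀ v, (A v).det ≠ 0) →
    ∑ v, ∑ i, c v i < 0 →
    ∃ ε₀ : ℝ, 0 < ε₀ ∧ ∀ ε, 0 < ε → ε ≤ ε₀ → ∀ m : ℕ, 0 < m → ∀ C β : ℝ, 1 ≤ C → 1 ≤ β →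
      ∃ q₁ : ℝ, 0 < q₁ ∧ ∀ (r : Fin m → ℕ) (q : Fin m → ℝ) (R : ℝ) (τ : Fin m → P.V → ℝ)
        (F : MvPolynomial (Fin m × ι) ℤ) (k : Fin m × ι →₀ ℕ) (y : Fin m × ι → K),
        (∀ h, 0 < r h) → (∀ h, q₁ ≤ q h) → 0 < R → (∀ h, R ≤ r h * q h) →
        (∀ h, r h * q h ≤ (1 + ε) * R) → MH r F → CoefLe F (C ^ (∑ h, r h)) →
        Balanced P A r ε F → (∀ h v, 0 < τ h v) → (∀ h, ∏ v, τ h v = 1) → (∀ p, y p ∈ P.O) →
        (∀ v h i, P.N v ((A v *ᵥ (fun j => y (h, j))) i) ≤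
          β ^ P.e v * (τ h v * Real.exp (c v i * q h))) →
        wt r k ≤ 2 * (ε * m) → tc F k y = 0

/-! ### Module L: hyperplanes of small height -/

/-- L1: Liouville inequality -/
def ClaimL1 : Prop :=
  ∀ (K : Type) [Field K] [CharZero K] (P : Places K) (ι : Type) [Fintype ι] (u : ι → K),
    ∃ C : ℝ, 1 ≤ C ∧ ∀ X : ι → K, X ⬝ᵥ u ≠ 0 → ∀ v, P.nrm v X ≤ C * P.H X * P.N v (X ⬝ᵥ u)

/-- L2: exponents of an instance in terms of the height of its normal vector -/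
def ClaimL2 : Prop :=
  ∀ (K : Type) [Field K] [CharZero K] (P : Places K) (ι : Type) [Fintype ι] [DecidableEq ι]
    [Nonempty ι] (A : P.V → Matrix ι ι K) (c : P.V → ι → ℝ), (∀ v, (A v).det ≠ 0) →
    ∃ C : ℝ, ∀ (q : ℝ) (τ : P.V → ℝ) (W : Submodule K (ι → K)) (M : ι → K), 0 ≤ q →
      InstW P A c q τ W → IsNormal M W → ∀ i : P.V → ι, (∀ v, (M ᵥ* (A v)⁻¹) (i v) ≠ 0) →
      (∑ v, c v (i v)) * q ≤ (∑ v, ∑ j, c v j) * q + Fintype.card P.V * Real.log (P.H M) + C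

/-- L3: integral points of the domain off a hyperplane -/
def ClaimL3 : Prop :=
  ∀ (K : Type) [Field K] [CharZero K] (P : Places K) (ι : Type) [Fintype ι] [DecidableEq ι]
    [Nonempty ι] (A : P.V → Matrix ι ι K) (c : P.V → ι → ℝ), (∀ v, (A v).det ≠ 0) →
    ∃ C : ℝ, ∀ (q : ℝ) (τ : P.V → ℝ) (M x : ι → K) (i : P.V → ι), 0 ≤ q → (∀ v, 0 < τ v) →
      ∏ v, τ v = 1 → P.IsO x → (∀ v j, P.N v ((A v *ᵥ x) j) ≤ τ v * Real.exp (c v j * q)) →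
      (∀ v j, (M ᵥ* (A v)⁻¹) j ≠ 0 → c v j ≤ c v (i v)) → M ⬝ᵥ x ≠ 0 →
      0 ≤ Real.log (P.H M) + C + (∑ v, c v (i v)) * q

/-- L: an instance of small height contains all later points -/
def ClaimL : Prop :=
  ∀ (K : Type) [Field K] [CharZero K] (P : Places K) (ι : Type) [Fintype ι] [DecidableEq ι]
    [Nonempty ι] (A : P.V → Matrix ι ι K) (c : P.V → ι → ℝ), (∀ v, (A v).det ≠ 0) →
    ∑ v, ∑ i, c v i < 0 →
    ∃ c₁ q₁ : ℝ, 0 < c₁ ∧ 0 < q₁ ∧ ∀ (q : ℝ) (τ : P.V → ℝ) (W : Submodule K (ι → K)) (M : ι → K),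
      q₁ ≤ q → InstW P A c q τ W → IsNormal M W → P.H M ≤ Real.exp (c₁ * q) →
      ∀ (q' : ℝ) (τ' : P.V → ℝ) (x : ι → K), q ≤ q' → (∀ v, 0 < τ' v) → ∏ v, τ' v = 1 →
        P.IsO x → (∀ v i, P.N v ((A v *ᵥ x) i) ≤ τ' v * Real.exp (c v i * q')) → x ∈ W

/-! ### Module M: the machine -/

/-- M1: choice of the degrees -/
def ClaimM1 : Prop :=
  ∀ (m : ℕ) (ω ε : ℝ), 0 < ω → 0 < ε → ∃ ρ : ℝ, 1 ≤ ρ ∧ ∀ q : Fin m → ℝ, (∀ h, 0 < q h) →
    (∀ h h', h < h' → ρ * q h' ≤ q h) → ∃ (R : ℝ) (r : Fin m → ℕ), 0 < R ∧ (∀ h, 0 < r h) ∧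
      (∀ h, R ≤ r h * q h) ∧ (∀ h, r h * q h ≤ (1 + ε) * R) ∧
      ∀ h h', h < h' → (r h : ℝ) ≤ ω * r h'

/-- M2: a pair of coordinates of large height -/
def ClaimM2 : Prop :=
  ∀ (K : Type) [Field K] [CharZero K] (P : Places K) (ι : Type) [Fintype ι] [DecidableEq ι]
    (M : ι → K) (g : ℝ), M ≠ 0 → 0 < g → Real.exp g < P.H M → ∃ a b, a ≠ b ∧ M a ≠ 0 ∧
      g ≤ (Fintype.card ι - 1 : ℕ) * Real.log (P.H ![-(M b / M a), 1])

/-- M: there is no long sequence of hyperplanes of large height -/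
def ClaimM : Prop :=
  ∀ (K : Type) [Field K] [CharZero K] (P : Places K) (ι : Type) [Fintype ι] [DecidableEq ι]
    [Nonempty ι] (A : P.V → Matrix ι ι K) (c : P.V → ι → ℝ), (∀ v, (A v).det ≠ 0) →
    ∑ v, ∑ i, c v i < 0 → ∀ c₁ : ℝ, 0 < c₁ → ∃ (m : ℕ) (ρ q₁ : ℝ), 1 ≤ ρ ∧ 0 < q₁ ∧
      ∀ (q : Fin m → ℝ) (τ : Fin m → P.V → ℝ) (W : Fin m → Submodule K (ι → K))
        (M : Fin m → ι → K), (∀ h, q₁ ≤ q h) → (∀ h h', h < h' → ρ * q h' ≤ q h) →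
        (∀ h, InstW P A c (q h) (τ h) (W h)) → (∀ h, IsNormal (M h) (W h)) →
        (∀ h, Real.exp (c₁ * q h) < P.H (M h)) → False

/-- HC: the hyperplane case -/
def ClaimHC : Prop :=
  ∀ (K : Type) [Field K] [CharZero K] (P : Places K) (ι : Type) [Fintype ι] [DecidableEq ι]
    [Nonempty ι] (A : P.V → Matrix ι ι K) (c : P.V → ι → ℝ), (∀ v, (A v).det ≠ 0) →
    ∑ v, ∑ i, c v i < 0 → ∃ (q₀ : ℝ) (W₀ : Submodule K (ι → K)), ∀ (q : ℝ) (τ : P.V → ℝ)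
      (W : Submodule K (ι → K)), q₀ ≤ q → InstW P A c q τ W → W = W₀

/-! ### Module Q: successive minima -/

/-- Q1: the first minimum is positive -/
def ClaimQ1 : Prop :=
  ∀ (K : Type) [Field K] [CharZero K] (P : Places K) (ι : Type) [Fintype ι] [DecidableEq ι]
    (A : P.V → Matrix ι ι K), (∀ v, (A v).det ≠ 0) → ∃ C : ℝ, 0 < C ∧
    ∀ (θ : P.V → ι → ℝ) (T : P.V → ℝ) (lam : ℝ) (y : ι → K), (∀ v i, 0 < θ v i) →
      (∀ v i, θ v i ≤ T v) → 0 < lam → y ≠ 0 → InDom P A θ lam y → 1 ≤ C * lam ^ P.D * ∏ v, T v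

/-- Q2: integral points of the domains span -/
def ClaimQ2 : Prop :=
  ∀ (K : Type) [Field K] [CharZero K] (P : Places K) (ι : Type) [Fintype ι] [DecidableEq ι]
    (A : P.V → Matrix ι ι K) (θ : P.V → ι → ℝ) (T : Submodule K (ι → K)), (∀ v i, 0 < θ v i) →
    T ≠ ⊤ → ∃ (lam : ℝ) (y : ι → K), 0 < lam ∧ InDom P A θ lam y ∧ y ∉ T

/-- Q3: successive minima -/
def ClaimQ3 : Prop :=
  ∀ (K : Type) [Field K] [CharZero K] (P : Places K) (n : ℕ) (A : P.V → Matrix (Fin n) (Fin n) K)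
    (θ : P.V → Fin n → ℝ), (∀ v, (A v).det ≠ 0) → (∀ v i, 0 < θ v i) →
    ∃ (μ : Fin n → ℝ) (x : Fin n → Fin n → K), (∀ j, 0 < μ j) ∧ Monotone μ ∧
      LinearIndependent K x ∧ (∀ j, InDom P A θ (2 * μ j) (x j)) ∧
      ∀ (j : Fin n) (lam : ℝ) (y : Fin n → K), 0 < lam → InDom P A θ lam y → y ∉ Fl x j → μ j ≤ lam

/-- Q4: adapted orderings of the forms -/
def ClaimQ4 : Prop :=
  ∀ (K : Type) [Field K] [CharZero K] (P : Places K) (v : P.V) (n : ℕ)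
    (A : Matrix (Fin n) (Fin n) K) (θ : Fin n → ℝ) (x : Fin n → Fin n → K),
    A.det ≠ 0 → (∀ i, 0 < θ i) → LinearIndependent K x →
    ∃ π : Fin n ≃ Fin n, Adapted P v A θ x π ((n : ℝ) ^ n)

/-- Q5: reduction of a basis -/
def ClaimQ5 : Prop :=
  ∀ (K : Type) [Field K] [CharZero K] (P : Places K) (n : ℕ) (A : P.V → Matrix (Fin n) (Fin n) K)
    (C₀ : ℝ), (∀ v, (A v).det ≠ 0) → 1 ≤ C₀ → ∃ C : ℝ, 1 ≤ C ∧
    ∀ (θ : P.V → Fin n → ℝ) (μ : Fin n → ℝ) (x : Fin n → Fin n → K) (π : P.V → Fin n ≃ Fin n),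
      (∀ v i, 0 < θ v i) → (∀ j, 0 < μ j) → Monotone μ →
      LinearIndependent K x → (∀ j, InDom P A θ (2 * μ j) (x j)) →
      (∀ v, Adapted P v (A v) (θ v) x (π v) C₀) →
      ∃ x' : Fin n → Fin n → K, LinearIndependent K x' ∧ (∀ j, P.IsO (x' j)) ∧
        (∀ j : ℕ, Fl x' j = Fl x j) ∧
        ∀ v i j, P.N v ((A v *ᵥ x' j) (π v i)) ≤ (C * μ (min i j)) ^ P.e v * θ v (π v i)

/-- Q6: Minkowski's second theorem, upper bound -/
def ClaimQ6 : Prop :=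
  ∀ (K : Type) [Field K] [CharZero K] (P : Places K) (n : ℕ) (A : P.V → Matrix (Fin n) (Fin n) K)
    (C₀ : ℝ), 0 < n → (∀ v, (A v).det ≠ 0) → 1 ≤ C₀ → ∃ C : ℝ, 1 ≤ C ∧
    ∀ (θ : P.V → Fin n → ℝ) (μ : Fin n → ℝ) (x : Fin n → Fin n → K) (π : P.V → Fin n ≃ Fin n),
      (∀ v i, 0 < θ v i) → (∀ j, 0 < μ j) → Monotone μ → LinearIndependent K x →
      (∀ v, Adapted P v (A v) (θ v) x (π v) C₀) →
      (∀ (j : Fin n) (lam : ℝ) (y : Fin n → K), 0 < lam → InDom P A θ lam y → y ∉ Fl x j →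
        μ j ≤ lam) →
      (∏ j, μ j) ^ P.D * ∏ v, ∏ i, θ v i ≤ C

/-- Q7: lower bound for a product of sizes of independent integral points -/
def ClaimQ7 : Prop :=
  ∀ (K : Type) [Field K] [CharZero K] (P : Places K) (n : ℕ) (A : P.V → Matrix (Fin n) (Fin n) K),
    (∀ v, (A v).det ≠ 0) → ∃ C : ℝ, 1 ≤ C ∧
    ∀ (θ : P.V → Fin n → ℝ) (lam : Fin n → ℝ) (x : Fin n → Fin n → K),
      (∀ v i, 0 < θ v i) → (∀ j, 0 < lam j) → LinearIndependent K x →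
      (∀ j, InDom P A θ (lam j) (x j)) → 1 ≤ C * ((∏ j, lam j) ^ P.D * ∏ v, ∏ i, θ v i)

/-- the data of a reduced basis -/
def Nice {K : Type} [Field K] (P : Places K) {n : ℕ} (A : P.V → Matrix (Fin n) (Fin n) K)
    (θ : P.V → Fin n → ℝ) (μ : Fin n → ℝ) (x : Fin n → Fin n → K) (π : P.V → Fin n ≃ Fin n)
    (C : ℝ) : Prop :=
  (∀ j, 0 < μ j) ∧ Monotone μ ∧ LinearIndependent K x ∧ (∀ j, P.IsO (x j)) ∧
    (∀ v i j, P.N v ((A v *ᵥ x j) (π v i)) ≤ (C * μ (min i j)) ^ P.e v * θ v (π v i)) ∧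
    1 ≤ C * ((∏ j, μ j) ^ P.D * ∏ v, ∏ i, θ v i) ∧ (∏ j, μ j) ^ P.D * ∏ v, ∏ i, θ v i ≤ C

/-- Q: reduced bases exist -/
def ClaimQ : Prop :=
  ∀ (K : Type) [Field K] [CharZero K] (P : Places K) (n : ℕ) (A : P.V → Matrix (Fin n) (Fin n) K),
    0 < n → (∀ v, (A v).det ≠ 0) → ∃ C : ℝ, 1 ≤ C ∧ ∀ θ : P.V → Fin n → ℝ, (∀ v i, 0 < θ v i) →
      ∃ (μ : Fin n → ℝ) (x : Fin n → Fin n → K) (π : P.V → Fin n ≃ Fin n),
        Nice P A θ μ x π C ∧ ∀ (j : Fin n) (lam : ℝ) (y : Fin n → K), 0 < lam →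
          InDom P A θ lam y → y ∉ Fl x j → μ j ≤ lam

/-! ### Module C: compound matrices -/

/-- C0: the formula of Cauchy and Binet -/
def ClaimC0 : Prop :=
  ∀ (R : Type) [CommRing R] (n p : ℕ) (A : Matrix (Fin p) (Fin n) R) (B : Matrix (Fin n) (Fin p) R),
    (A * B).det = ∑ J : Fin p ↪o Fin n, (A.submatrix id J).det * (B.submatrix J id).det

/-- C1: compound matrices are multiplicative -/
def ClaimC1 : Prop :=
  ∀ (R : Type) [CommRing R] (n p : ℕ) (A B : Matrix (Fin n) (Fin n) R),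
    cmp p (A * B) = cmp p A * cmp p B

/-- C2: compound matrices of invertible matrices -/
def ClaimC2 : Prop :=
  ∀ (K : Type) [Field K] (n p : ℕ) (A : Matrix (Fin n) (Fin n) K), A.det ≠ 0 →
    (cmp p A).det ≠ 0 ∧ (cmp p A)⁻¹ = cmp p A⁻¹

/-- the size of the compound form with index set `S`, when the first `k` vectors are small -/
noncomputable def wsz {n : ℕ} (μ : Fin n → ℝ) (k : ℕ) (S : Finset (Fin n)) (g : ℝ) : ℝ :=
  (∏ i ∈ S, μ i) * if ∀ i ∈ S, k ≤ (i : ℕ) then g else 1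

/-- C3: bound for minors -/
def ClaimC3 : Prop :=
  ∀ (K : Type) [Field K] [CharZero K] (P : Places K) (v : P.V) (n p : ℕ) (k : Fin n)
    (μ : Fin n → ℝ) (θ : Fin n → ℝ) (π : Fin n ≃ Fin n) (C : ℝ) (E : Matrix (Fin n) (Fin n) K)
    (g : ℝ) (I J : Fin p ↪o Fin n),
    (∀ j, 0 < μ j) → Monotone μ → (∀ i, 0 < θ i) → 1 ≤ C →
    (∀ i j, P.N v (E (π i) j) ≤ (C * μ (min i j)) ^ P.e v * θ (π i)) → 0 < g →
    (∀ j : Fin n, j < k → μ j ≤ g * μ k) → (∃ a, J a < k) →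
    P.N v ((E.submatrix I J).det) ≤ ((p.factorial : ℝ) * C ^ p *
      wsz μ k ((univ.map I.toEmbedding).map π.symm.toEmbedding) g) ^ P.e v * ∏ a, θ (I a)

/-- C4: products over all subsets with `p` elements -/
def ClaimC4 : Prop :=
  ∀ (n p : ℕ) (f : Fin n → ℝ), 0 < p → (∀ i, 0 < f i) →
    ∏ I : Fin p ↪o Fin n, ∏ a, f (I a) = (∏ i, f i) ^ (n - 1).choose (p - 1)

/-- C5: the product of the sizes -/
def ClaimC5 : Prop :=
  ∀ (n p k : ℕ) (μ : Fin n → ℝ) (π : Fin n ≃ Fin n) (g : ℝ), 0 < p → k + p = n →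
    (∀ i, 0 < μ i) → 0 < g →
    ∏ I : Fin p ↪o Fin n, wsz μ k ((univ.map I.toEmbedding).map π.symm.toEmbedding) g =
      (∏ i, μ i) ^ (n - 1).choose (p - 1) * g

/-- the hyperplane of the compound space attached to the first `k` vectors of a basis -/
def CW {K : Type} [Field K] {n : ℕ} (p k : ℕ) (x : Fin n → Fin n → K) :
    Submodule K ((Fin p ↪o Fin n) → K) :=
  Submodule.span K {w | ∃ J : Fin p ↪o Fin n, (∃ a, (J a : ℕ) < k) ∧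
    w = fun I => cmp p (Matrix.of fun i j => x j i) I J}

/-- C6: the hyperplane determines the flag -/
def ClaimC6 : Prop :=
  ∀ (K : Type) [Field K] (n p k : ℕ) (x x' : Fin n → Fin n → K), 0 < p → k + p = n →
    LinearIndependent K x → LinearIndependent K x' → CW p k x = CW p k x' → Fl x k = Fl x' k

/-- C7: the vectors of the hyperplane form an instance -/
def ClaimC7 : Prop :=
  ∀ (K : Type) [Field K] [CharZero K] (P : Places K) (n p k : ℕ)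
    (A : P.V → Matrix (Fin n) (Fin n) K) (x : Fin n → Fin n → K) (c : P.V → (Fin p ↪o Fin n) → ℝ)
    (q : ℝ) (τ : P.V → ℝ), 0 < p → k + p = n → LinearIndependent K x → (∀ j, P.IsO (x j)) →
    (∀ v, 0 < τ v) → ∏ v, τ v = 1 →
    (∀ v (I J : Fin p ↪o Fin n), (∃ a, (J a : ℕ) < k) →
      P.N v (((A v * Matrix.of fun i j => x j i).submatrix I J).det) ≤
        τ v * Real.exp (c v I * q)) →
    InstW P (fun v => cmp p (A v)) c q τ (CW p k x)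

/-- C8: the minima are between powers of `e ^ q` -/
def ClaimC8 : Prop :=
  ∀ (K : Type) [Field K] [CharZero K] (P : Places K) (n : ℕ) (A : P.V → Matrix (Fin n) (Fin n) K)
    (c : P.V → Fin n → ℝ) (C : ℝ), 0 < n → (∀ v, (A v).det ≠ 0) → 1 ≤ C → ∃ C' : ℝ, 0 < C' ∧
    ∀ (q : ℝ) (τ : P.V → ℝ) (μ : Fin n → ℝ) (x : Fin n → Fin n → K) (π : P.V → Fin n ≃ Fin n),
      1 ≤ q → (∀ v, 0 < τ v) → ∏ v, τ v = 1 →
      Nice P A (fun v i => τ v * Real.exp (c v i * q)) μ x π C → ∀ j, |Real.log (μ j)| ≤ C' * q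

/-- C9: a gap after `k` minima puts the span of the first `k` vectors in a finite set -/
def ClaimC9 : Prop :=
  ∀ (K : Type) [Field K] [CharZero K] (P : Places K) (n : ℕ) (A : P.V → Matrix (Fin n) (Fin n) K)
    (c : P.V → Fin n → ℝ) (η C : ℝ) (k : Fin n), (∀ v, (A v).det ≠ 0) → 0 < η → 1 ≤ C →
    (k : ℕ) ≠ 0 → ∃ (q₀ : ℝ) (T : Set (Submodule K (Fin n → K))), T.Finite ∧
    ∀ (q : ℝ) (τ : P.V → ℝ) (μ : Fin n → ℝ) (x : Fin n → Fin n → K) (π : P.V → Fin n ≃ Fin n),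
      q₀ ≤ q → (∀ v, 0 < τ v) → ∏ v, τ v = 1 →
      Nice P A (fun v i => τ v * Real.exp (c v i * q)) μ x π C →
      (∀ j, j < k → Real.exp (η * q) * μ j ≤ μ k) → Fl x k ∈ T

/-! ### Module S: the theorem -/

/-- S1: the gap -/
def ClaimS1 : Prop :=
  ∀ (n : ℕ) (μ : Fin n → ℝ) (g : ℝ), 0 < n → (∀ j, 0 < μ j) → Monotone μ → 1 ≤ g →
    (∃ j, μ j ≤ 1) → (∃ j, g ^ n < μ j) → ∃ k : Fin n, (k : ℕ) ≠ 0 ∧ 1 < μ k ∧
      ∀ j, j < k → g * μ j ≤ μ k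

/-- PT: the parametric Subspace theorem -/
def ClaimPT : Prop :=
  ∀ (K : Type) [Field K] [CharZero K] (P : Places K) (n : ℕ) (A : P.V → Matrix (Fin n) (Fin n) K)
    (c : P.V → Fin n → ℝ), (∀ v, (A v).det ≠ 0) → ∑ v, ∑ i, c v i < 0 →
    ∃ (q₀ : ℝ) (T : Set (Submodule K (Fin n → K))), T.Finite ∧ (∀ W ∈ T, W ≠ ⊤) ∧
      ∀ (q : ℝ) (τ : P.V → ℝ) (x : Fin n → K), q₀ ≤ q → (∀ v, 0 < τ v) → ∏ v, τ v = 1 →
        x ≠ 0 → P.IsO x → (∀ v i, P.N v ((A v *ᵥ x) i) ≤ τ v * Real.exp (c v i * q)) →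
        ∃ W ∈ T, x ∈ W

/-- ST: the Subspace theorem -/
def ClaimST : Prop :=
  ∀ (K : Type) [Field K] [CharZero K] (P : Places K) (n : ℕ) (A : P.V → Matrix (Fin n) (Fin n) K)
    (δ : ℝ), (∀ v, (A v).det ≠ 0) → 0 < δ →
    ∃ (C : ℝ) (T : Set (Submodule K (Fin n → K))), T.Finite ∧ (∀ W ∈ T, W ≠ ⊤) ∧
      ∀ x : Fin n → K, P.IsO x → x ≠ 0 → C ≤ ∏ v, P.nrm v x →
        ∏ v, ∏ i, P.N v ((A v *ᵥ x) i) ≤ (∏ v, P.nrm v x) ^ (-δ) → ∃ W ∈ T, x ∈ W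

end Pool.Agent.Work.Tools.Subspace
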