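import Pool.Agent.Work.Tools.Subspace.Basic
import Pool.Agent.Work.Tools.Subspace.Stmts
import Pool.Agent.Work.Tools.Subspace.Stmts2
import Pool.Agent.Work.Tools.Subspace.Stmts3

/-!
# The Subspace theorem: nondegenerate sums of units are not small
-/

namespace Pool.Agent.Work.Tools.Subspace

open Finset Matrix NumberField Height

namespace IU2

variable {K : Type} [Field K] [NumberField K] (S : Finset (FinitePlace K))

theorem nN_nonneg (v : NV K S) (x : K) : 0 ≤ nN S v x := pow_nonneg (AbsoluteValue.nonneg _ _) _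

theorem nN_pos (v : NV K S) {x : K} (hx : x ≠ 0) : 0 < nN S v x :=
  pow_pos ((nabv S v).pos hx) _

theorem nN_mul (v : NV K S) (x y : K) : nN S v (x * y) = nN S v x * nN S v y := by
  simp [nN, mul_pow]

theorem nN_le_nnrm {ι : Type} [Finite ι] (v : NV K S) (x : ι → K) (i : ι) :
    nN S v (x i) ≤ nnrm S v x := by
  unfold nN nnrm
  exact pow_le_pow_left₀ (AbsoluteValue.nonneg _ _)
    (le_ciSup (f := fun i => nabv S v (x i)) (Set.finite_range _).bddAbove i) _

theorem nnrm_nonneg {ι : Type} (v : NV K S) (x : ι → K) : 0 ≤ nnrm S v x := by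
  unfold nnrm
  exact pow_nonneg (Real.iSup_nonneg fun i => AbsoluteValue.nonneg _ _) _

theorem exists_nN_eq_nnrm {ι : Type} [Finite ι] [Nonempty ι] (v : NV K S) (x : ι → K) :
    ∃ i, nnrm S v x = nN S v (x i) := by
  obtain ⟨i, hi⟩ := exists_eq_ciSup_of_finite (f := fun i => nabv S v (x i))
  refine ⟨i, ?_⟩
  unfold nnrm nN
  rw [← hi]

theorem exists_min {α : Type} (F : Set α) (hF : F.Finite) (f : α → ℝ) (hf : ∀ a ∈ F, 0 < f a) :
    ∃ c : ℝ, 0 < c ∧ c ≤ 1 ∧ ∀ a ∈ F, c ≤ f a := by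
  rcases F.eq_empty_or_nonempty with rfl | hne
  · exact ⟨1, one_pos, le_rfl, fun a ha => absurd ha (Set.notMem_empty a)⟩
  · obtain ⟨a, ha, hmin⟩ := Set.exists_min_image F f hF hne
    exact ⟨min 1 (f a), lt_min one_pos (hf a ha), min_le_left _ _,
      fun b hb => (min_le_right _ _).trans (hmin b hb)⟩

omit [NumberField K] in
theorem exists_relation {m : ℕ} {W : Submodule K (Fin m → K)} (hW : W ≠ ⊤) :
    ∃ b : Fin m → K, b ≠ 0 ∧ ∀ y ∈ W, ∑ i, b i * y i = 0 := by
  obtain ⟨f, hf, hWf⟩ := Submodule.exists_le_ker_of_lt_top W (lt_top_iff_ne_top.mpr hW)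
  have h : ∀ y, f y = ∑ i, f (Pi.single i 1) * y i := by
    intro y
    conv_lhs => rw [← Finset.univ_sum_single y]
    rw [map_sum]
    refine Finset.sum_congr rfl fun i _ => ?_
    have : (Pi.single i (y i) : Fin m → K) = y i • Pi.single i 1 := by
      rw [← Pi.single_smul, smul_eq_mul, mul_one]
    rw [this, map_smul, smul_eq_mul, mul_comm]
  refine ⟨fun i => f (Pi.single i 1), ?_, fun y hy => ?_⟩
  · intro h0
    apply hf
    ext i
    have := congrFun h0 i
    simpa using this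
  · rw [← h]; exact hWf hy

/-- the property in the theorem -/
def Good (n : ℕ) (v₀ : NV K S) (ε : ℝ) (a x : Fin n → K) (C : ℝ) : Prop :=
  C * nnrm S v₀ x * mulHeight x ^ (-ε) ≤ nN S v₀ (∑ i, a i * x i)

/-- one ratio is fixed -/
theorem fixed {n : ℕ} (v₀ : NV K S) {ε : ℝ} (hε : 0 < ε)
    (ih : ∀ a : Fin n → K, (∀ i, a i ≠ 0) → ∃ C : ℝ, 0 < C ∧ ∀ x : Fin n → K,
      (∀ i, x i ∈ nU S) → (∀ I : Finset (Fin n), I.Nonempty → ∑ i ∈ I, a i * x i ≠ 0) →
      Good S n v₀ ε a x C)
    (a : Fin (n + 1) → K) (ha : ∀ i, a i ≠ 0) (i j : Fin (n + 1)) (lam : K) : ∃ C : ℝ, 0 < C ∧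
      (i ≠ j → ∀ x : Fin (n + 1) → K,
      (∀ i, x i ∈ nU S) → (∀ I : Finset (Fin (n + 1)), I.Nonempty → ∑ i ∈ I, a i * x i ≠ 0) →
      x i = lam * x j → Good S (n + 1) v₀ ε a x C) := by
  classical
  by_cases hij : i = j
  · exact ⟨1, one_pos, fun h => absurd hij h⟩
  by_cases hlam : lam = 0
  · refine ⟨1, one_pos, fun _ x hx _ h => ?_⟩
    rw [hlam, zero_mul] at h
    exact absurd h (hx i).1
  obtain ⟨j', hj'⟩ := Fin.exists_succAbove_eq (Ne.symm hij)
  set a' : Fin n → K := fun k => a (i.succAbove k) + if k = j' then a i * lam else 0 with ha'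
  have hsum : ∀ (x : Fin (n + 1) → K), x i = lam * x j → ∀ I : Finset (Fin n),
      ∑ k ∈ I, a' k * x (i.succAbove k) =
        ∑ l ∈ (if j' ∈ I then insert i (I.map i.succAboveEmb) else
          I.map i.succAboveEmb), a l * x l := by
    intro x hx I
    have hni : i ∉ I.map i.succAboveEmb := by
      intro h
      obtain ⟨k, -, hk⟩ := Finset.mem_map.mp h
      exact Fin.succAbove_ne i k hk
    have h1 : ∑ k ∈ I, a' k * x (i.succAbove k) =
        ∑ k ∈ I, a (i.succAbove k) * x (i.succAbove k) +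
          ∑ k ∈ I, if k = j' then a i * x i else 0 := by
      rw [← Finset.sum_add_distrib]
      refine Finset.sum_congr rfl fun k _ => ?_
      rw [ha']
      by_cases hk : k = j'
      · subst hk
        simp only [if_true]
        rw [hx, ← hj']; ring
      · simp [hk]
    have h2 : ∑ k ∈ I, a (i.succAbove k) * x (i.succAbove k) =
        ∑ l ∈ I.map i.succAboveEmb, a l * x l := by
      rw [Finset.sum_map]; rfl
    rw [h1, Finset.sum_ite_eq', h2]
    by_cases hjI : j' ∈ I
    · rw [if_pos hjI, if_pos hjI, Finset.sum_insert hni, add_comm]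
    · rw [if_neg hjI, if_neg hjI, add_zero]
  by_cases hz : a' j' = 0
  · refine ⟨1, one_pos, fun _ x hx hnd h => ?_⟩
    exfalso
    have h1 := hsum x h {j'}
    rw [Finset.sum_singleton, hz, zero_mul, if_pos (Finset.mem_singleton_self j')] at h1
    exact hnd _ (Finset.insert_nonempty _ _) h1.symm
  · have ha'0 : ∀ k, a' k ≠ 0 := by
      intro k
      by_cases hk : k = j'
      · rw [hk]; exact hz
      · simp only [ha', if_neg hk, add_zero]; exact ha _
    obtain ⟨C, hC, hC'⟩ := ih a' ha'0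
    have hM : 0 < max 1 (nN S v₀ lam) := lt_max_of_lt_left one_pos
    refine ⟨C / max 1 (nN S v₀ lam), by positivity, fun _ x hx hnd h => ?_⟩
    have h1 := hC' (fun k => x (i.succAbove k)) (fun k => hx _) (fun I hI => by
      rw [hsum x h I]
      refine hnd _ ?_
      by_cases hjI : j' ∈ I
      · rw [if_pos hjI]; exact Finset.insert_nonempty _ _
      · rw [if_neg hjI]; exact hI.map)
    have h2 : ∑ k, a' k * x (i.succAbove k) = ∑ l, a l * x l := by
      rw [hsum x h univ, if_pos (mem_univ _)]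
      congr 1
      ext l
      simp only [mem_insert, mem_map, mem_univ, true_and, iff_true]
      by_cases hl : l = i
      · exact Or.inl hl
      · obtain ⟨k, hk⟩ := Fin.exists_succAbove_eq hl
        exact Or.inr ⟨k, hk⟩
    unfold Good at h1 ⊢
    rw [h2] at h1
    refine le_trans ?_ h1
    have h3 : nnrm S v₀ x ≤ max 1 (nN S v₀ lam) * nnrm S v₀ (fun k => x (i.succAbove k)) := by
      obtain ⟨l, hl⟩ := exists_nN_eq_nnrm S v₀ x
      rw [hl]
      have h5 := nnrm_nonneg S v₀ (fun k => x (i.succAbove k))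
      by_cases hli : l = i
      · rw [hli, h, nN_mul, ← hj']
        exact mul_le_mul (le_max_right _ _) (nN_le_nnrm S v₀ (fun k => x (i.succAbove k)) j')
          (nN_nonneg S _ _) hM.le
      · obtain ⟨k, hk⟩ := Fin.exists_succAbove_eq hli
        rw [← hk]
        refine (nN_le_nnrm S v₀ (fun k => x (i.succAbove k)) k).trans ?_
        exact le_mul_of_one_le_left h5 (le_max_left _ _)
    have h4 : mulHeight x ^ (-ε) ≤ mulHeight (fun k => x (i.succAbove k)) ^ (-ε) :=
      Real.rpow_le_rpow_of_nonpos (mulHeight_pos _) (mulHeight_comp_le i.succAbove x)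
        (by linarith)
    have h6 : 0 ≤ mulHeight x ^ (-ε) := Real.rpow_nonneg (mulHeight_pos _).le _
    have h7 := nnrm_nonneg S v₀ (fun k => x (i.succAbove k))
    calc C / max 1 (nN S v₀ lam) * nnrm S v₀ x * mulHeight x ^ (-ε)
        ≤ C / max 1 (nN S v₀ lam) * (max 1 (nN S v₀ lam) *
            nnrm S v₀ (fun k => x (i.succAbove k))) *
            mulHeight (fun k => x (i.succAbove k)) ^ (-ε) := by gcongr
      _ = C * nnrm S v₀ (fun k => x (i.succAbove k)) *
            mulHeight (fun k => x (i.succAbove k)) ^ (-ε) := by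
          field_simp

end IU2

open IU2 in
theorem prfU2 (h0 : ClaimU0) (h1 : ClaimU1) (h3 : ClaimU3) : ClaimU2 := by
  intro K _ _ S n a ε v₀ hn ha hε
  have key : ∀ n : ℕ, 0 < n → ∀ a : Fin n → K, (∀ i, a i ≠ 0) → ∃ C : ℝ, 0 < C ∧
      ∀ x : Fin n → K, (∀ i, x i ∈ nU S) →
      (∀ I : Finset (Fin n), I.Nonempty → ∑ i ∈ I, a i * x i ≠ 0) → Good S n v₀ ε a x C := by
    intro n hn
    induction n, hn using Nat.le_induction with
    | base =>
      intro a ha
      refine ⟨nN S v₀ (a 0), nN_pos S v₀ (ha 0), fun x hx _ => ?_⟩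
      unfold Good
      obtain ⟨l, hl⟩ := exists_nN_eq_nnrm S v₀ x
      rw [mulHeight_eq_one_of_subsingleton, Real.one_rpow, mul_one, Fin.sum_univ_one, nN_mul, hl,
        Subsingleton.elim l 0]
    | succ n hn ih =>
      intro a ha
      obtain ⟨T, hT, hTne, hTx⟩ := h1 K S (n + 1) a ε v₀ (by omega) ha hε
      have hL : ∀ W : Submodule K (Fin (n + 1) → K), ∃ L : Set K, L.Finite ∧ (W ≠ ⊤ →
          ∀ x : Fin (n + 1) → K, (∀ i, x i ∈ nU S) → x ∈ W → ∃ i j, i ≠ j ∧ x i / x j ∈ L) := by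
        intro W
        by_cases hW : W = ⊤
        · exact ⟨∅, Set.finite_empty, fun h => absurd hW h⟩
        · obtain ⟨b, hb, hbW⟩ := exists_relation hW
          obtain ⟨L, hL, hLx⟩ := h0 K S (n + 1) (fun m a _ => h3 K S m a) b hb
          exact ⟨L, hL, fun _ x hx hxW => hLx x hx (hbW x hxW)⟩
      choose L hLf hLx using hL
      choose Cf hCf hCf' using fixed S v₀ hε ih a ha
      obtain ⟨c, hc, hc1, hcmin⟩ := exists_min (⋃ W ∈ T, L W) (hT.biUnion fun W _ => hLf W)
        (fun lam => univ.inf' ⟨((0 : Fin (n + 1)), (0 : Fin (n + 1))), mem_univ _⟩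
          fun p : Fin (n + 1) × Fin (n + 1) => Cf p.1 p.2 lam)
        (fun lam _ => by
          rw [Finset.lt_inf'_iff]
          exact fun p _ => hCf _ _ _)
      refine ⟨c, hc, fun x hx hnd => ?_⟩
      have hm : 0 ≤ nnrm S v₀ x * mulHeight x ^ (-ε) :=
        mul_nonneg (nnrm_nonneg S v₀ x) (Real.rpow_nonneg (mulHeight_pos _).le _)
      unfold Good
      rw [mul_assoc]
      by_cases hsmall : nN S v₀ (∑ i, a i * x i) ≤ nnrm S v₀ x * mulHeight x ^ (-ε)
      · obtain ⟨W, hW, hxW⟩ := hTx x hx hsmall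
        obtain ⟨i, j, hij, hL⟩ := hLx W (hTne W hW) x hx hxW
        have h5 := hCf' i j (x i / x j) hij x hx hnd (by field_simp [(hx j).1])
        unfold Good at h5
        rw [mul_assoc] at h5
        refine (mul_le_mul_of_nonneg_right ?_ hm).trans h5
        refine (hcmin (x i / x j) (Set.mem_biUnion hW hL)).trans ?_
        exact Finset.inf'_le _ (mem_univ ((i, j) : Fin (n + 1) × Fin (n + 1)))
      · refine (mul_le_of_le_one_left hm hc1).trans (not_le.mp hsmall).le
  obtain ⟨C, hC, h⟩ := key n hn a ha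
  exact ⟨C, hC, h⟩

end Pool.Agent.Work.Tools.Subspace
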