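import Pool.Agent.Work.Tools.Subspace.Basic
import Pool.Agent.Work.Tools.Subspace.Stmts
import Pool.Agent.Work.Tools.Subspace.Stmts2

/-!
# A0: linear substitutions preserve block degrees
-/

set_option autoImplicit false

namespace Pool.Agent.Work.Tools.Subspace

open Finset MvPolynomial

section

variable {m : ℕ} {ι R : Type} [Fintype ι] [CommRing R]

theorem MH_zero (d : Fin m → ℕ) : MH d (0 : MvPolynomial (Fin m × ι) R) := by
  intro s hs
  simp at hs

theorem MH_add {d : Fin m → ℕ} {F G : MvPolynomial (Fin m × ι) R} (hF : MH d F) (hG : MH d G) :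
    MH d (F + G) := by
  classical
  intro s hs h
  rcases Finset.mem_union.1 (support_add hs) with h1 | h1
  · exact hF s h1 h
  · exact hG s h1 h

theorem MH_sum {α : Type} (S : Finset α) {d : Fin m → ℕ} {f : α → MvPolynomial (Fin m × ι) R}
    (hf : ∀ a ∈ S, MH d (f a)) : MH d (∑ a ∈ S, f a) := by
  classical
  induction S using Finset.induction_on with
  | empty => rw [Finset.sum_empty]; exact MH_zero d
  | insert a S ha ih =>
    rw [Finset.sum_insert ha]
    exact MH_add (hf a (Finset.mem_insert_self a S))
      (ih fun b hb => hf b (Finset.mem_insert_of_mem hb))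

theorem MH_mul {d d' : Fin m → ℕ} {F G : MvPolynomial (Fin m × ι) R} (hF : MH d F)
    (hG : MH d' G) : MH (d + d') (F * G) := by
  classical
  intro s hs h
  obtain ⟨a, ha, b, hb, rfl⟩ := Finset.mem_add.1 (support_mul F G hs)
  simp only [Finsupp.add_apply, Finset.sum_add_distrib, Pi.add_apply]
  rw [hF a ha h, hG b hb h]

theorem MH_C (c : R) : MH (0 : Fin m → ℕ) (C c : MvPolynomial (Fin m × ι) R) := by
  classical
  intro s hs h
  rw [mem_support_iff, coeff_C] at hs
  have : 0 = s := by
    by_contra hne
    rw [if_neg hne] at hs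
    exact hs rfl
  rw [← this]
  simp

theorem MH_prod {α : Type} (S : Finset α) {d : α → Fin m → ℕ}
    {f : α → MvPolynomial (Fin m × ι) R} (hf : ∀ a ∈ S, MH (d a) (f a)) :
    MH (∑ a ∈ S, d a) (∏ a ∈ S, f a) := by
  classical
  induction S using Finset.induction_on with
  | empty => rw [Finset.sum_empty, Finset.prod_empty, ← C_1]; exact MH_C 1
  | insert a S ha ih =>
    rw [Finset.sum_insert ha, Finset.prod_insert ha]
    exact MH_mul (hf a (Finset.mem_insert_self a S))
      (ih fun b hb => hf b (Finset.mem_insert_of_mem hb))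

theorem MH_pow {d : Fin m → ℕ} {F : MvPolynomial (Fin m × ι) R} (hF : MH d F) (n : ℕ) :
    MH (n • d) (F ^ n) := by
  have := MH_prod (Finset.range n) (d := fun _ => d) (f := fun _ => F) (fun _ _ => hF)
  simpa using this

theorem MH_X (p : Fin m × ι) : MH (Pi.single p.1 1) (X p : MvPolynomial (Fin m × ι) R) := by
  classical
  intro s hs h
  rw [mem_support_iff, coeff_X'] at hs
  have : Finsupp.single p 1 = s := by
    by_contra hne
    rw [if_neg hne] at hs
    exact hs rfl
  rw [← this]
  simp only [Finsupp.single_apply, Pi.single_apply]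
  by_cases h1 : h = p.1
  · subst h1
    rw [if_pos rfl, Finset.sum_eq_single p.2]
    · simp
    · intro b _ hb
      rw [if_neg]
      intro h2
      apply hb
      rw [h2]
    · intro h2; exact absurd (Finset.mem_univ _) h2
  · rw [if_neg h1]
    refine Finset.sum_eq_zero ?_
    intro i _
    rw [if_neg]
    intro h2
    apply h1
    rw [h2]

theorem MH_lin (h : Fin m) (b : ι → R) :
    MH (Pi.single h 1) (∑ j, C (b j) * X (h, j) : MvPolynomial (Fin m × ι) R) := by
  refine MH_sum _ fun j _ => ?_
  have := MH_mul (MH_C (m := m) (ι := ι) (b j)) (MH_X (R := R) (h, j))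
  rwa [zero_add] at this

end

theorem prfA0 : ClaimA0 := by
  classical
  intro K R _ _ _ m ι _ B r F hF
  have h1 : lsub B F = ∑ s ∈ F.support, lsub B (monomial s (coeff s F)) := by
    rw [← lsub_sum, ← MvPolynomial.as_sum]
  rw [h1]
  refine MH_sum _ fun s hs => ?_
  rw [lsub_monomial]
  have h2 := MH_mul (MH_C (m := m) (ι := ι) (algebraMap R K (coeff s F)))
    (MH_prod (Finset.univ : Finset (Fin m × ι)) (d := fun p => s p • Pi.single p.1 1)
      (f := fun p => (∑ j, C (B p.2 j) * X (p.1, j)) ^ s p)
      (fun p _ => MH_pow (MH_lin p.1 (fun j => B p.2 j)) (s p)))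
  have h3 : (0 : Fin m → ℕ) + ∑ p : Fin m × ι, s p • (Pi.single p.1 1 : Fin m → ℕ) = r := by
    funext h
    rw [zero_add, Finset.sum_apply, Fintype.sum_prod_type, Finset.sum_eq_single h]
    · simpa using hF s hs h
    · intro b _ hb
      refine Finset.sum_eq_zero ?_
      intro i _
      simp [hb.symm]
    · intro h4; exact absurd (Finset.mem_univ _) h4
  rw [h3] at h2
  exact h2

end Pool.Agent.Work.Tools.Subspace
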