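import Pool.Agent.Work.Tools.Subspace.Basic
import Pool.Agent.Work.Tools.Subspace.Stmts
import Pool.Agent.Work.Tools.Subspace.Stmts2

/-!
# Item A1: Chebyshev
-/

namespace Pool.Agent.Work.Tools.Subspace

open Finset Matrix MvPolynomial

namespace IA1

variable {ι : Type} [Fintype ι] [DecidableEq ι]

theorem mem_Y (r : ℕ) (t : ι → ℕ) : t ∈ Finset.piAntidiag (univ : Finset ι) r ↔ ∑ i, t i = r := by
  rw [Finset.mem_piAntidiag]
  simp

theorem sum_symm (r : ℕ) (i j : ι) :
    ∑ t ∈ Finset.piAntidiag (univ : Finset ι) r, (t i : ℝ) =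
      ∑ t ∈ Finset.piAntidiag (univ : Finset ι) r, (t j : ℝ) := by
  refine Finset.sum_bij' (fun t _ => t ∘ Equiv.swap i j) (fun t _ => t ∘ Equiv.swap i j)
    ?_ ?_ ?_ ?_ ?_
  · intro t ht
    rw [mem_Y] at ht ⊢
    rw [← ht]
    exact Equiv.sum_comp (Equiv.swap i j) t
  · intro t ht
    rw [mem_Y] at ht ⊢
    rw [← ht]
    exact Equiv.sum_comp (Equiv.swap i j) t
  · intro t _
    funext k
    simp
  · intro t _
    funext k
    simp
  · intro t _
    simp

theorem sum_one [Nonempty ι] (r : ℕ) (hr : 0 < r) (i : ι) :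
    ∑ t ∈ Finset.piAntidiag (univ : Finset ι) r, ((t i : ℝ) / r - 1 / (Fintype.card ι : ℝ)) =
      0 := by
  have hn : (0 : ℝ) < Fintype.card ι := by exact_mod_cast Fintype.card_pos
  have hr' : (0 : ℝ) < r := by exact_mod_cast hr
  have h1 : ∑ j : ι, ∑ t ∈ Finset.piAntidiag (univ : Finset ι) r, (t j : ℝ) =
      (Finset.piAntidiag (univ : Finset ι) r).card * r := by
    rw [Finset.sum_comm]
    rw [Finset.sum_congr rfl (fun t ht => by
      show ∑ j : ι, (t j : ℝ) = (r : ℝ)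
      have := (mem_Y r t).1 ht
      exact_mod_cast this)]
    simp
  have h2 : ∑ j : ι, ∑ t ∈ Finset.piAntidiag (univ : Finset ι) r, (t j : ℝ) =
      (Fintype.card ι : ℝ) * ∑ t ∈ Finset.piAntidiag (univ : Finset ι) r, (t i : ℝ) := by
    rw [Finset.sum_congr rfl (fun j _ => sum_symm r j i)]
    simp
  rw [Finset.sum_sub_distrib, ← Finset.sum_div]
  simp only [Finset.sum_const, nsmul_eq_mul]
  rw [h1] at h2
  field_simp
  linarith

theorem sum_sq [Nonempty ι] (r : ℕ) (hr : 0 < r) (i : ι) :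
    ∑ t ∈ Finset.piAntidiag (univ : Finset ι) r,
      ((t i : ℝ) / r - 1 / (Fintype.card ι : ℝ)) ^ 2 ≤
      ((Finset.piAntidiag (univ : Finset ι) r).card : ℝ) / (Fintype.card ι : ℝ) := by
  have hr' : (0 : ℝ) < r := by exact_mod_cast hr
  have hn : (1 : ℝ) ≤ Fintype.card ι := by exact_mod_cast Fintype.card_pos
  have hn0 : (0 : ℝ) < Fintype.card ι := by linarith
  set n : ℝ := (Fintype.card ι : ℝ) with hndef
  have h1 : ∀ t ∈ Finset.piAntidiag (univ : Finset ι) r,
      ((t i : ℝ) / r - 1 / n) ^ 2 ≤ ((t i : ℝ) / r - 1 / n) * (1 - 2 / n) + 1 / n := by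
    intro t ht
    rw [mem_Y] at ht
    have h2 : t i ≤ r := by
      rw [← ht]
      exact Finset.single_le_sum (fun j _ => Nat.zero_le _) (mem_univ i)
    have h3 : (t i : ℝ) / r ≤ 1 := by
      rw [div_le_one hr']
      exact_mod_cast h2
    have h4 : 0 ≤ (t i : ℝ) / r := by positivity
    set x : ℝ := (t i : ℝ) / r
    have h5 : x ^ 2 ≤ x := by nlinarith
    have h6 : (x - 1 / n) * (1 - 2 / n) + 1 / n - (x - 1 / n) ^ 2 = (x - x ^ 2) + (1 / n) ^ 2 := by
      ring
    nlinarith [sq_nonneg (1 / n)]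
  refine (Finset.sum_le_sum h1).trans ?_
  rw [Finset.sum_add_distrib, ← Finset.sum_mul, sum_one r hr i, zero_mul, zero_add,
    Finset.sum_const, nsmul_eq_mul, mul_one_div]

theorem sum_pi {m : ℕ} (Y : Fin m → Finset (ι → ℕ)) (u : Fin m → (ι → ℕ) → ℝ) :
    ∑ s ∈ Fintype.piFinset Y, ∏ k, u k (s k) = ∏ k, ∑ t ∈ Y k, u k t :=
  (Finset.prod_univ_sum Y u).symm

/-- mixed terms vanish -/
theorem sum_mixed {m : ℕ} (Y : Fin m → Finset (ι → ℕ)) (f : Fin m → (ι → ℕ) → ℝ)
    (hf : ∀ h, ∑ t ∈ Y h, f h t = 0) (h h' : Fin m) (hne : h ≠ h') :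
    ∑ s ∈ Fintype.piFinset Y, f h (s h) * f h' (s h') = 0 := by
  have h1 := sum_pi Y (fun k t => (if k = h then f h t else 1) * (if k = h' then f h' t else 1))
  have h2 : ∀ s : Fin m → ι → ℕ,
      ∏ k, ((if k = h then f h (s k) else 1) * (if k = h' then f h' (s k) else 1)) =
        f h (s h) * f h' (s h') := by
    intro s
    rw [Finset.prod_mul_distrib]
    simp
  rw [Finset.sum_congr rfl (fun s _ => h2 s)] at h1
  rw [h1]
  apply Finset.prod_eq_zero (mem_univ h)
  show (∑ t ∈ Y h, (if h = h then f h t else 1) * if h = h' then f h' t else 1) = 0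
  rw [Finset.sum_congr rfl (fun t _ => by
    show ((if h = h then f h t else 1) * if h = h' then f h' t else 1) = f h t
    rw [if_pos rfl, if_neg hne, mul_one])]
  exact hf h

theorem sum_diag {m : ℕ} (Y : Fin m → Finset (ι → ℕ)) (f : Fin m → (ι → ℕ) → ℝ) (n : ℝ)
    (hf : ∀ h, ∑ t ∈ Y h, f h t ^ 2 ≤ ((Y h).card : ℝ) / n) (h : Fin m) :
    ∑ s ∈ Fintype.piFinset Y, f h (s h) * f h (s h) ≤ ((Fintype.piFinset Y).card : ℝ) / n := by
  have h1 := sum_pi Y (fun k t => if k = h then f h t ^ 2 else 1)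
  have h2 : ∀ s : Fin m → ι → ℕ,
      ∏ k, (if k = h then f h (s k) ^ 2 else 1) = f h (s h) * f h (s h) := by
    intro s
    rw [Finset.prod_ite_eq' Finset.univ h (fun k => f h (s k) ^ 2)]
    simp [sq]
  rw [Finset.sum_congr rfl (fun s _ => h2 s)] at h1
  rw [h1, ← Finset.mul_prod_erase univ _ (mem_univ h)]
  simp only [if_true]
  have h3 : ∏ k ∈ univ.erase h, ∑ t ∈ Y k, (if k = h then f h t ^ 2 else (1 : ℝ)) =
      ∏ k ∈ univ.erase h, ((Y k).card : ℝ) := by
    apply Finset.prod_congr rfl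
    intro k hk
    rw [Finset.sum_congr rfl (fun t _ => if_neg (Finset.ne_of_mem_erase hk))]
    simp
  rw [h3, Fintype.card_piFinset]
  push_cast
  rw [← Finset.mul_prod_erase univ (fun k => ((Y k).card : ℝ)) (mem_univ h), mul_div_right_comm]
  exact mul_le_mul_of_nonneg_right (hf h) (Finset.prod_nonneg fun _ _ => by positivity)

end IA1

theorem prfA1 : ClaimA1 := by
  intro m ι _ _ _ r ε hr hε
  classical
  set Y : Fin m → Finset (ι → ℕ) := fun h => Finset.piAntidiag (univ : Finset ι) (r h) with hY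
  have hmons : (mons r : Finset (Fin m → ι → ℕ)) = Fintype.piFinset Y := rfl
  rw [hmons]
  set N : ℝ := ((Fintype.piFinset Y).card : ℝ) with hN
  set n : ℝ := (Fintype.card ι : ℝ) with hn
  have hn0 : 0 < n := by
    rw [hn]
    exact_mod_cast Fintype.card_pos
  rcases Nat.eq_zero_or_pos m with hm | hm
  · subst hm
    simp only [Nat.cast_zero, mul_zero]
    positivity
  have hm' : (0 : ℝ) < m := by exact_mod_cast hm
  -- second moment
  have hsq : ∀ i : ι, ∑ s ∈ Fintype.piFinset Y,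
      (∑ h, ((s h i : ℝ) / r h - 1 / n)) ^ 2 ≤ m * (N / n) := by
    intro i
    have e1 : ∀ s : Fin m → ι → ℕ, (∑ h, ((s h i : ℝ) / r h - 1 / n)) ^ 2 =
        ∑ h, ∑ h', ((s h i : ℝ) / r h - 1 / n) * ((s h' i : ℝ) / r h' - 1 / n) := by
      intro s
      rw [sq, Finset.sum_mul_sum]
    rw [Finset.sum_congr rfl (fun s _ => e1 s), Finset.sum_comm]
    have e2 : ∀ h ∈ (univ : Finset (Fin m)), ∑ s ∈ Fintype.piFinset Y,
        ∑ h', ((s h i : ℝ) / r h - 1 / n) * ((s h' i : ℝ) / r h' - 1 / n) ≤ N / n := by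
      intro h _
      rw [Finset.sum_comm]
      rw [Finset.sum_eq_single h]
      · exact IA1.sum_diag Y (fun h t => (t i : ℝ) / r h - 1 / n) n
          (fun h => IA1.sum_sq (r h) (hr h) i) h
      · intro h' _ hne
        exact IA1.sum_mixed Y (fun h t => (t i : ℝ) / r h - 1 / n)
          (fun h => IA1.sum_one (r h) (hr h) i) h h' (Ne.symm hne)
      · intro h1
        exact absurd (mem_univ h) h1
    refine (Finset.sum_le_card_nsmul _ _ _ e2).trans ?_
    simp
  -- the bad tuples for one coordinate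
  have hbad : ∀ i : ι, (((Fintype.piFinset Y).filter fun s => ∑ h, (s h i : ℝ) / r h <
      (1 / n - ε) * m).card : ℝ) * (ε ^ 2 * m ^ 2) ≤ m * (N / n) := by
    intro i
    refine le_trans ?_ (hsq i)
    rw [← nsmul_eq_mul]
    refine le_trans (Finset.card_nsmul_le_sum _ _ _ ?_)
      (Finset.sum_le_sum_of_subset_of_nonneg (Finset.filter_subset _ _)
        (fun s _ _ => sq_nonneg _))
    intro s hs
    rw [Finset.mem_filter] at hs
    have h1 := hs.2
    have h2 : ∑ h, ((s h i : ℝ) / r h - 1 / n) = (∑ h, (s h i : ℝ) / r h) - m * (1 / n) := by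
      rw [Finset.sum_sub_distrib]
      simp
    rw [h2]
    have h3 : ε * m ≤ -((∑ h, (s h i : ℝ) / r h) - m * (1 / n)) := by
      nlinarith
    have h4 : 0 ≤ ε * m := by positivity
    nlinarith
  have hcard : (((Fintype.piFinset Y).filter fun s => ∃ i, ∑ h, (s h i : ℝ) / r h <
      (1 / n - ε) * m).card : ℝ) ≤ ∑ i : ι, (((Fintype.piFinset Y).filter fun s =>
        ∑ h, (s h i : ℝ) / r h < (1 / n - ε) * m).card : ℝ) := by
    have h1 : ((Fintype.piFinset Y).filter fun s => ∃ i, ∑ h, (s h i : ℝ) / r h <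
      (1 / n - ε) * m) ⊆ (univ : Finset ι).biUnion fun i => ((Fintype.piFinset Y).filter fun s =>
        ∑ h, (s h i : ℝ) / r h < (1 / n - ε) * m) := by
      intro s hs
      rw [Finset.mem_filter] at hs
      obtain ⟨i, hi⟩ := hs.2
      rw [Finset.mem_biUnion]
      exact ⟨i, mem_univ i, Finset.mem_filter.2 ⟨hs.1, hi⟩⟩
    have h2 := (Finset.card_le_card h1).trans Finset.card_biUnion_le
    exact_mod_cast h2
  have htot : (((Fintype.piFinset Y).filter fun s => ∃ i, ∑ h, (s h i : ℝ) / r h <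
      (1 / n - ε) * m).card : ℝ) * (ε ^ 2 * m ^ 2) ≤ m * N := by
    refine (mul_le_mul_of_nonneg_right hcard (by positivity)).trans ?_
    rw [Finset.sum_mul]
    refine (Finset.sum_le_card_nsmul _ _ _ (fun i _ => hbad i)).trans ?_
    rw [Finset.card_univ, nsmul_eq_mul, ← hn]
    apply le_of_eq
    field_simp
  have h5 : (((Fintype.piFinset Y).filter fun s => ∃ i, ∑ h, (s h i : ℝ) / r h <
      (1 / n - ε) * m).card : ℝ) * (ε ^ 2 * m) * m ≤ N * m := by
    nlinarith
  exact le_of_mul_le_mul_right h5 hm'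

end Pool.Agent.Work.Tools.Subspace
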