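import Pool.Agent.Work.Tools.Subspace.Basic
import Pool.Agent.Work.Tools.Subspace.Stmts
import Pool.Agent.Work.Tools.Subspace.Stmts2

set_option autoImplicit false

namespace Pool.Agent.Work.Tools.Subspace

open Finset Matrix

attribute [local instance] Matrix.seminormedAddCommGroup

theorem prfA2 : ClaimA2 := by
  intro K _ _ P α β _ _ κ d M hα hcard hd hM hz
  classical
  choose z hz1 hz2 using hz
  have : Nonempty α := Fintype.card_pos_iff.mp hα
  have hαM : (1 : ℤ) ≤ (Fintype.card α : ℤ) * M := by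
    have h1 : 1 ≤ Fintype.card α * M := Nat.one_le_iff_ne_zero.mpr
      (Nat.mul_ne_zero (by omega) (by omega))
    exact_mod_cast h1
  have hD : P.D₂ ≠ 0 := by
    intro h0
    have : IsEmpty (Fin P.D₂) := by rw [h0]; infer_instance
    exact one_ne_zero (P.co_inj (Subsingleton.elim (P.co (1 : K)) (P.co 0)))
  let A : Matrix (β × Fin P.D₂) α ℤ := fun p a => z p.1 a p.2
  have key : ∃ t : α → ℤ, t ≠ 0 ∧ A *ᵥ t = 0 ∧ ∀ a, |t a| ≤ (Fintype.card α : ℤ) * M := by
    by_cases hN : Fintype.card (β × Fin P.D₂) = 0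
    · have hE : IsEmpty (β × Fin P.D₂) := Fintype.card_eq_zero_iff.mp hN
      refine ⟨fun _ => 1, ?_, ?_, ?_⟩
      · intro h
        have := congrFun h (Classical.arbitrary α)
        simp at this
      · ext p
        exact (hE.false p).elim
      · intro a
        simpa using hαM
    · have hN' : 0 < Fintype.card (β × Fin P.D₂) := Nat.pos_of_ne_zero hN
      have hc : Fintype.card (β × Fin P.D₂) = Fintype.card β * P.D₂ := by
        rw [Fintype.card_prod, Fintype.card_fin]
      have h2 : 2 * Fintype.card (β × Fin P.D₂) ≤ Fintype.card α := by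
        rw [hc]
        calc 2 * (Fintype.card β * P.D₂) = 2 * P.D₂ * Fintype.card β := by ring
          _ ≤ _ := hcard
      obtain ⟨t, ht0, htA, htn⟩ := Int.Matrix.exists_ne_zero_int_vec_norm_le A (by omega) hN'
      refine ⟨t, ht0, htA, ?_⟩
      intro a
      have hA : ‖A‖ ≤ (M : ℝ) := by
        rw [Matrix.norm_le_iff (by positivity)]
        intro p b
        rw [Int.norm_eq_abs]
        have h3 := hz2 p.1 b p.2
        have h4 : (|z p.1 b p.2| : ℤ) ≤ (M : ℤ) := h3
        exact_mod_cast h4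
      have hM1 : (1 : ℝ) ≤ M := by exact_mod_cast hM
      have hmax : max 1 ‖A‖ ≤ (M : ℝ) := max_le hM1 hA
      have hα1 : (1 : ℝ) ≤ (Fintype.card α : ℝ) := by exact_mod_cast hα
      have hbase : (1 : ℝ) ≤ (Fintype.card α : ℝ) * max 1 ‖A‖ :=
        one_le_mul_of_one_le_of_one_le hα1 (le_max_left _ _)
      have hNr : (0 : ℝ) < (Fintype.card (β × Fin P.D₂) : ℝ) := by exact_mod_cast hN'
      have h2r : 2 * (Fintype.card (β × Fin P.D₂) : ℝ) ≤ (Fintype.card α : ℝ) := by
        exact_mod_cast h2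
      have hexp : (Fintype.card (β × Fin P.D₂) : ℝ) /
          ((Fintype.card α : ℝ) - (Fintype.card (β × Fin P.D₂) : ℝ)) ≤ 1 := by
        rw [div_le_one (by linarith)]
        linarith
      have h5 : ‖t‖ ≤ (Fintype.card α : ℝ) * M := by
        calc ‖t‖ ≤ _ := htn
          _ ≤ ((Fintype.card α : ℝ) * max 1 ‖A‖) ^ (1 : ℝ) :=
            Real.rpow_le_rpow_of_exponent_le hbase hexp
          _ = (Fintype.card α : ℝ) * max 1 ‖A‖ := Real.rpow_one _
          _ ≤ _ := mul_le_mul_of_nonneg_left hmax (by positivity)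
      have h6 : ‖t a‖ ≤ (Fintype.card α : ℝ) * M := (norm_le_pi_norm t a).trans h5
      rw [Int.norm_eq_abs] at h6
      exact_mod_cast h6
  obtain ⟨t, ht0, htA, htb⟩ := key
  refine ⟨t, ht0, htb, ?_⟩
  intro b
  have h1 : ∀ i, P.co (∑ a, (t a) • (d • κ b a)) i = 0 := by
    intro i
    rw [map_sum, Finset.sum_apply]
    have h2 : ∀ a, P.co ((t a) • (d • κ b a)) i = ((z b a i * t a : ℤ) : ℚ) := by
      intro a
      rw [map_zsmul, Pi.smul_apply, hz1, zsmul_eq_mul]
      push_cast
      ring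
    rw [Finset.sum_congr rfl (fun a _ => h2 a), ← Int.cast_sum]
    have h3 := congrFun htA (b, i)
    simp only [Matrix.mulVec, dotProduct, A, Pi.zero_apply] at h3
    rw [h3]
    simp
  have h4 : ∑ a, (t a) • (d • κ b a) = 0 := by
    apply P.co_inj
    rw [map_zero]
    funext i
    exact h1 i
  have h5 : ∑ a, (t a) • (d • κ b a) = (d : K) * ∑ a, κ b a * (t a : K) := by
    rw [Finset.mul_sum]
    apply Finset.sum_congr rfl
    intro a _
    rw [zsmul_eq_mul, nsmul_eq_mul]
    ring
  rw [h5] at h4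
  have hdK : (d : K) ≠ 0 := by exact_mod_cast (by omega : d ≠ 0)
  exact (mul_eq_zero.mp h4).resolve_left hdK

end Pool.Agent.Work.Tools.Subspace
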