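import Pool.Agent.Work.Tools.Subspace.Basic
import Pool.Agent.Work.Tools.Subspace.Stmts
import Pool.Agent.Work.Tools.Subspace.Stmts2

set_option autoImplicit false

namespace Pool.Agent.Work.Tools.Subspace

open Finset Matrix MvPolynomial

namespace IA3

variable {K : Type} [Field K] (P : Places K)

/-- all coordinates are integers bounded by `b` -/
def IL (x : K) (b : ℕ) : Prop := ∀ i, ∃ z : ℤ, P.co x i = z ∧ |z| ≤ b

lemma IL_zero (b : ℕ) : IL P 0 b := fun i => ⟨0, by simp, by simp⟩

lemma IL_mono {x : K} {a b : ℕ} (h : IL P x a) (hab : a ≤ b) : IL P x b := fun i => by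
  obtain ⟨z, h1, h2⟩ := h i
  exact ⟨z, h1, h2.trans (by exact_mod_cast hab)⟩

lemma IL_add {x y : K} {a b : ℕ} (hx : IL P x a) (hy : IL P y b) : IL P (x + y) (a + b) :=
  fun i => by
  obtain ⟨z, h1, h2⟩ := hx i
  obtain ⟨w, h3, h4⟩ := hy i
  refine ⟨z + w, ?_, ?_⟩
  · rw [map_add, Pi.add_apply, h1, h3]; push_cast; rfl
  · push_cast
    exact (abs_add_le z w).trans (add_le_add h2 h4)

lemma IL_sum {ι : Type} (s : Finset ι) (f : ι → K) (b : ℕ) (h : ∀ j ∈ s, IL P (f j) b) :
    IL P (∑ j ∈ s, f j) (s.card * b) := by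
  classical
  induction s using Finset.induction_on with
  | empty => simpa using IL_zero P 0
  | insert a s ha ih =>
    rw [Finset.sum_insert ha, Finset.card_insert_of_notMem ha]
    have h1 := IL_add P (h a (Finset.mem_insert_self a s))
      (ih (fun j hj => h j (Finset.mem_insert_of_mem hj)))
    exact IL_mono P h1 (le_of_eq (by ring))

lemma IL_nsmul {x : K} {b : ℕ} (n : ℕ) (h : IL P x b) : IL P (n • x) (n * b) := fun i => by
  obtain ⟨z, h1, h2⟩ := h i
  refine ⟨n * z, ?_, ?_⟩
  · rw [map_nsmul, Pi.smul_apply, h1, nsmul_eq_mul]; push_cast; rfl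
  · rw [abs_mul, Nat.abs_cast]
    push_cast
    exact mul_le_mul_of_nonneg_left h2 (by positivity)

lemma IL_mul {x y : K} {a b : ℕ} (hx : IL P x a) (hy : IL P y b) :
    IL P (x * y) (P.Cco * a * b) := fun i => by
  obtain ⟨z, h1, h2⟩ := P.co_mul x y a b hx hy i
  exact ⟨z, h1, by push_cast; exact h2⟩

lemma exists_IL (x : K) : ∃ d : ℕ, 0 < d ∧ ∃ b, IL P (d • x) b := by
  obtain ⟨d, hd, h⟩ := P.co_int x
  choose z hz using h
  refine ⟨d, hd, ∑ i, (z i).natAbs, fun i => ⟨z i, hz i, ?_⟩⟩
  have h1 : (z i).natAbs ≤ ∑ i, (z i).natAbs :=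
    Finset.single_le_sum (f := fun i => (z i).natAbs) (fun _ _ => Nat.zero_le _) (mem_univ i)
  rw [Int.abs_eq_natAbs]
  exact_mod_cast h1

lemma exists_common {α : Type} (s : Finset α) (f : α → K) :
    ∃ d : ℕ, 0 < d ∧ ∃ b, ∀ a ∈ s, IL P (d • f a) b := by
  classical
  induction s using Finset.induction_on with
  | empty => exact ⟨1, one_pos, 0, by simp⟩
  | insert a s ha ih =>
    obtain ⟨d, hd, b, hb⟩ := ih
    obtain ⟨d', hd', b', hb'⟩ := exists_IL P (f a)
    refine ⟨d * d', Nat.mul_pos hd hd', d * b' + d' * b, ?_⟩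
    intro c hc
    rcases Finset.mem_insert.mp hc with rfl | hc
    · rw [mul_smul]
      exact IL_mono P (IL_nsmul P d hb') (Nat.le_add_right _ _)
    · rw [mul_comm, mul_smul]
      exact IL_mono P (IL_nsmul P d' (hb c hc)) (Nat.le_add_left _ _)

/-- the coefficients of `G` have integral coordinates after multiplication by `d ^ (N + 1)` -/
def Good {σ : Type} (d N b : ℕ) (G : MvPolynomial σ K) : Prop :=
  ∀ t, IL P (d ^ (N + 1) • coeff t G) b

variable {ι : Type} [Fintype ι] {σ : Type}

lemma Good_mul_lin (d M N b : ℕ) (G : MvPolynomial σ K) (c : ι → K) (v : ι → σ)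
    (hc : ∀ j, IL P (d • c j) M) (hG : Good P d N b G) :
    Good P d (N + 1) (Fintype.card ι * (P.Cco * M) * b) (G * ∑ j, C (c j) * X (v j)) := by
  classical
  intro t
  have h1 : coeff t (G * ∑ j, C (c j) * X (v j)) =
      ∑ j, c j * (if v j ∈ t.support then coeff (t - Finsupp.single (v j) 1) G else 0) := by
    rw [Finset.mul_sum, coeff_sum]
    refine Finset.sum_congr rfl fun j _ => ?_
    rw [show G * (C (c j) * X (v j)) = C (c j) * (G * X (v j)) by ring, coeff_C_mul, coeff_mul_X']
  rw [h1, Finset.smul_sum]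
  refine IL_mono P (IL_sum P univ _ (P.Cco * M * b) fun j _ => ?_) (le_of_eq ?_)
  · have h2 : d ^ (N + 1 + 1) • (c j *
        (if v j ∈ t.support then coeff (t - Finsupp.single (v j) 1) G else 0)) =
        (d • c j) * (d ^ (N + 1) •
          (if v j ∈ t.support then coeff (t - Finsupp.single (v j) 1) G else 0)) := by
      simp only [nsmul_eq_mul]
      push_cast
      ring
    rw [h2]
    refine IL_mul P (hc j) ?_
    split_ifs
    · exact hG _
    · rw [smul_zero]; exact IL_zero P b
  · rw [Finset.card_univ]; ring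

lemma Good_mul_pow (d M : ℕ) (c : ι → K) (v : ι → σ) (hc : ∀ j, IL P (d • c j) M) (k : ℕ) :
    ∀ (N b : ℕ) (G : MvPolynomial σ K), Good P d N b G →
    Good P d (N + k) ((Fintype.card ι * (P.Cco * M)) ^ k * b)
      (G * (∑ j, C (c j) * X (v j)) ^ k) := by
  induction k with
  | zero => intro N b G h; simpa using h
  | succ k ih =>
    intro N b G h
    have h1 := Good_mul_lin P d M (N + k) _ _ c v hc (ih N b G h)
    have h2 : G * (∑ j, C (c j) * X (v j)) ^ (k + 1) =
        G * (∑ j, C (c j) * X (v j)) ^ k * ∑ j, C (c j) * X (v j) := by ring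
    rw [h2]
    intro t
    exact IL_mono P (h1 t) (le_of_eq (by ring))

end IA3

open IA3 in
theorem prfA3 : ClaimA3 := by
  intro K _ _ P ι _ _ B
  classical
  obtain ⟨d, hd, M0, hM0⟩ := exists_common P (univ : Finset (Option (ι × ι)))
    (fun o => o.elim 1 (fun q => B q.1 q.2))
  have hB : ∀ i j, IL P (d • B i j) M0 := fun i j => hM0 (some (i, j)) (mem_univ _)
  have h1 : IL P (d • (1 : K)) M0 := hM0 none (mem_univ _)
  set c := Fintype.card ι * (P.Cco * M0) with hc
  refine ⟨d, 1 + c + M0, hd, by omega, ?_⟩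
  intro m r s hs t
  have hsum : ∑ p, toF s p = ∑ h, r h := by
    rw [Fintype.sum_prod_type]
    refine Finset.sum_congr rfl fun h _ => ?_
    have h2 : s h ∈ Finset.piAntidiag univ (r h) := Fintype.mem_piFinset.mp hs h
    rw [Finset.mem_piAntidiag] at h2
    exact h2.1
  have key : ∀ S : Finset (Fin m × ι), Good P d (∑ p ∈ S, toF s p)
      (c ^ (∑ p ∈ S, toF s p) * M0)
      (∏ p ∈ S, (∑ j, C (B p.2 j) * X (p.1, j)) ^ toF s p) := by
    intro S
    induction S using Finset.induction_on with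
    | empty =>
      intro u
      simp only [Finset.sum_empty, Finset.prod_empty, zero_add, pow_one, pow_zero, one_mul]
      rw [MvPolynomial.coeff_one]
      split_ifs
      · exact h1
      · rw [smul_zero]; exact IL_zero P M0
    | insert p S hp ih =>
      rw [Finset.sum_insert hp, Finset.prod_insert hp]
      have h3 := Good_mul_pow P d M0 (fun j => B p.2 j) (fun j => (p.1, j)) (hB p.2) (toF s p) _ _ _
        ih
      intro u
      have h4 := h3 u
      rw [mul_comm (∏ p ∈ S, _)] at h4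
      rw [add_comm (toF s p)]
      refine IL_mono P h4 (le_of_eq ?_)
      rw [← hc]
      ring
  have h5 := key univ t
  rw [hsum] at h5
  rw [lsub_monomial, map_one, C_1, one_mul]
  have h6 : c ^ (∑ h, r h) * M0 ≤ (1 + c + M0) ^ (∑ h, r h + 1) := by
    rw [pow_succ]
    exact Nat.mul_le_mul (Nat.pow_le_pow_left (by omega) _) (by omega)
  intro i
  obtain ⟨z, hz1, hz2⟩ := IL_mono P h5 h6 i
  refine ⟨z, hz1, ?_⟩
  push_cast at hz2 ⊢
  exact hz2

end Pool.Agent.Work.Tools.Subspace
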