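import Pool.Agent.Work.Tools.Subspace.Basic
import Pool.Agent.Work.Tools.Subspace.Stmts
import Pool.Agent.Work.Tools.Subspace.Stmts2

/-!
# A4: the number of monomials
-/

set_option autoImplicit false

namespace Pool.Agent.Work.Tools.Subspace

open Finset

theorem prfA4 : ClaimA4 := by
  intro m ι _ _ r
  unfold mons
  rw [Fintype.card_piFinset, Finset.mul_sum, ← Finset.prod_pow_eq_pow_sum]
  refine Finset.prod_le_prod' ?_
  intro h _
  have h1 : (Finset.piAntidiag (univ : Finset ι) (r h)).card ≤
      (Fintype.piFinset fun _ : ι => range (r h + 1)).card := by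
    refine Finset.card_le_card ?_
    intro f hf
    rw [Finset.mem_piAntidiag] at hf
    rw [Fintype.mem_piFinset]
    intro i
    rw [Finset.mem_range]
    have h2 := Finset.single_le_sum (f := f) (fun i _ => Nat.zero_le _) (Finset.mem_univ i)
    exact Nat.lt_succ_of_le (h2.trans_eq hf.1)
  refine h1.trans ?_
  rw [Fintype.card_piFinset, Finset.prod_const, Finset.card_univ, card_range, mul_comm, pow_mul]
  exact Nat.pow_le_pow_left Nat.lt_two_pow_self _

end Pool.Agent.Work.Tools.Subspace
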