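import Pool.Agent.Work.Tools.Subspace.Basic
import Pool.Agent.Work.Tools.Subspace.Stmts
import Pool.Agent.Work.Tools.Subspace.Stmts2

/-!
# Subspace theorem: the formula of Cauchy and Binet
-/

namespace Pool.Agent.Work.Tools.Subspace

namespace IC0

theorem det_mul_sum {R : Type} [CommRing R] {n p : ℕ} (A : Matrix (Fin p) (Fin n) R)
    (B : Matrix (Fin n) (Fin p) R) :
    (A * B).det = ∑ f : Fin p → Fin n, (A.submatrix id f).det * ∏ i, B (f i) i := by
  have h1 : (A * B).det = ∑ σ : Equiv.Perm (Fin p), ∑ f : Fin p → Fin n,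
      ((Equiv.Perm.sign σ : ℤ) : R) * ∏ i, (A (σ i) (f i) * B (f i) i) := by
    rw [Matrix.det_apply']
    refine Finset.sum_congr rfl fun σ _ => ?_
    have : ∏ i, (A * B) (σ i) i = ∑ f : Fin p → Fin n, ∏ i, (A (σ i) (f i) * B (f i) i) := by
      simp only [Matrix.mul_apply]
      rw [Finset.prod_univ_sum]
      rw [Fintype.piFinset_univ]
    rw [this, Finset.mul_sum]
  rw [h1, Finset.sum_comm]
  refine Finset.sum_congr rfl fun f _ => ?_
  rw [Matrix.det_apply', Finset.sum_mul]
  refine Finset.sum_congr rfl fun σ _ => ?_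
  rw [Finset.prod_mul_distrib, mul_assoc]
  rfl

theorem comp_injective {n p : ℕ} :
    Function.Injective (fun x : (Fin p ↪o Fin n) × Equiv.Perm (Fin p) =>
      ((fun i => x.1 (x.2 i)) : Fin p → Fin n)) := by
  rintro ⟨J, σ⟩ ⟨J', σ'⟩ h
  have hr : Set.range J = Set.range J' := by
    have e1 : Set.range J = Set.range (fun i => J (σ i)) := by
      ext x; constructor
      · rintro ⟨i, rfl⟩; exact ⟨σ.symm i, by simp⟩
      · rintro ⟨i, rfl⟩; exact ⟨σ i, rfl⟩
    have e2 : Set.range J' = Set.range (fun i => J' (σ' i)) := by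
      ext x; constructor
      · rintro ⟨i, rfl⟩; exact ⟨σ'.symm i, by simp⟩
      · rintro ⟨i, rfl⟩; exact ⟨σ' i, rfl⟩
    rw [e1, e2]
    exact congrArg Set.range h
  have hJ : J = J' := OrderEmbedding.range_inj.1 hr
  subst hJ
  have hσ : σ = σ' := by
    ext i
    have := congrFun h i
    exact congrArg Fin.val (J.injective this)
  rw [hσ]

theorem exists_of_injective {n p : ℕ} {f : Fin p → Fin n} (hf : Function.Injective f) :
    ∃ x : (Fin p ↪o Fin n) × Equiv.Perm (Fin p), (fun i => x.1 (x.2 i)) = f := by
  classical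
  set s : Finset (Fin n) := Finset.univ.image f with hs
  have hcard : s.card = p := by
    rw [hs, Finset.card_image_of_injective _ hf, Finset.card_univ, Fintype.card_fin]
  set J := s.orderEmbOfFin hcard with hJ
  have hmem : ∀ i, ∃ j, J j = f i := by
    intro i
    have h1 : f i ∈ Set.range J := by
      rw [hJ, Finset.range_orderEmbOfFin]
      rw [hs]; simp
    exact h1
  choose g hg using hmem
  have hginj : Function.Injective g := by
    intro a b hab
    apply hf
    rw [← hg a, ← hg b, hab]
  refine ⟨⟨J, Equiv.ofBijective g (Finite.injective_iff_bijective.1 hginj)⟩, ?_⟩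
  funext i
  exact hg i

end IC0

theorem prfC0 : ClaimC0 := by
  intro R _ n p A B
  rw [IC0.det_mul_sum]
  have h := Fintype.sum_of_injective
    (fun x : (Fin p ↪o Fin n) × Equiv.Perm (Fin p) => ((fun i => x.1 (x.2 i)) : Fin p → Fin n))
    IC0.comp_injective
    (fun x => (A.submatrix id (fun i => x.1 (x.2 i))).det * ∏ i, B (x.1 (x.2 i)) i)
    (fun f => (A.submatrix id f).det * ∏ i, B (f i) i)
    (by
      intro f hf
      have hninj : ¬ Function.Injective f := fun hinj => hf (IC0.exists_of_injective hinj)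
      unfold Function.Injective at hninj
      push Not at hninj
      obtain ⟨a, b, hab, hne⟩ := hninj
      have : (A.submatrix id f).det = 0 :=
        Matrix.det_zero_of_column_eq hne (fun i => by simp [Matrix.submatrix_apply, hab])
      rw [this, zero_mul])
    (fun _ => rfl)
  rw [← h, Fintype.sum_prod_type]
  refine Finset.sum_congr rfl fun J _ => ?_
  rw [Matrix.det_apply' (B.submatrix J id), Finset.mul_sum]
  refine Finset.sum_congr rfl fun σ _ => ?_
  have h1 : (A.submatrix id (fun i => J (σ i))) = (A.submatrix id J).submatrix id σ := rfl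
  show (A.submatrix id (fun i => J (σ i))).det * ∏ i, B (J (σ i)) i = _
  rw [h1, Matrix.det_permute']
  simp only [Matrix.submatrix_apply, id]
  ring

end Pool.Agent.Work.Tools.Subspace
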