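import Pool.Agent.Work.Tools.Subspace.Basic
import Pool.Agent.Work.Tools.Subspace.Stmts
import Pool.Agent.Work.Tools.Subspace.Stmts2

/-!
# C1: compound matrices are multiplicative
-/

set_option autoImplicit false

namespace Pool.Agent.Work.Tools.Subspace

theorem prfC1 (h0 : ClaimC0) : ClaimC1 := by
  intro R _ n p A B
  ext I J
  rw [Matrix.mul_apply]
  unfold cmp
  have h1 : (A * B).submatrix I J = (A.submatrix I id) * (B.submatrix id J) := by
    ext i j
    simp [Matrix.mul_apply]
  rw [h1, h0]
  rfl

end Pool.Agent.Work.Tools.Subspace
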