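import Pool.Agent.Work.Tools.Subspace.Basic
import Pool.Agent.Work.Tools.Subspace.Stmts
import Pool.Agent.Work.Tools.Subspace.Stmts2

/-!
# The Subspace theorem: item C2, compound matrices of invertible matrices
-/

namespace Pool.Agent.Work.Tools.Subspace

open Finset Matrix MvPolynomial

namespace IC2

theorem cmp_one {R : Type} [CommRing R] (n p : ℕ) :
    cmp p (1 : Matrix (Fin n) (Fin n) R) = 1 := by
  ext I J
  by_cases h : I = J
  · subst h
    rw [Matrix.one_apply_eq, cmp, Matrix.submatrix_one _ I.injective, Matrix.det_one]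
  · rw [Matrix.one_apply_ne h, cmp]
    obtain ⟨a, ha⟩ : ∃ a, I a ∉ Set.range J := by
      by_contra hcon
      push Not at hcon
      apply h
      have hsub : Set.range I ⊆ Set.range J := by rintro _ ⟨a, rfl⟩; exact hcon a
      have hI : (Set.range I).ncard = p := by
        rw [← Set.image_univ, Set.ncard_image_of_injective _ I.injective, Set.ncard_univ,
          Nat.card_eq_fintype_card, Fintype.card_fin]
      have hJ : (Set.range J).ncard = p := by
        rw [← Set.image_univ, Set.ncard_image_of_injective _ J.injective, Set.ncard_univ,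
          Nat.card_eq_fintype_card, Fintype.card_fin]
      have heq : Set.range I = Set.range J :=
        Set.eq_of_subset_of_ncard_le hsub (by rw [hI, hJ]) (Set.toFinite _)
      exact OrderEmbedding.range_inj.mp heq
    refine Matrix.det_eq_zero_of_row_eq_zero a fun b => ?_
    rw [Matrix.submatrix_apply, Matrix.one_apply_ne]
    intro hab
    exact ha ⟨b, hab.symm⟩

end IC2

/-- C2: compound matrices of invertible matrices -/
theorem prfC2 (h1 : ClaimC1) : ClaimC2 := by
  intro K _ n p A hA
  have h : cmp p A * cmp p A⁻¹ = 1 := by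
    rw [← h1 K n p A A⁻¹, Matrix.mul_nonsing_inv _ (isUnit_iff_ne_zero.mpr hA), IC2.cmp_one]
  refine ⟨?_, Matrix.inv_eq_right_inv h⟩
  intro h0
  have h2 := congrArg Matrix.det h
  rw [Matrix.det_mul, h0, zero_mul, Matrix.det_one] at h2
  exact zero_ne_one h2

end Pool.Agent.Work.Tools.Subspace
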