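import Pool.Agent.Work.Tools.Subspace.Basic
import Pool.Agent.Work.Tools.Subspace.Stmts2

/-!
# Item C3: bound for minors
-/

namespace Pool.Agent.Work.Tools.Subspace

open Finset Matrix

namespace IC3

theorem prod_mu {n p : ℕ} (μ : Fin n → ℝ) (π : Fin n ≃ Fin n) (I : Fin p ↪o Fin n)
    (σ : Equiv.Perm (Fin p)) :
    ∏ i ∈ (univ.map I.toEmbedding).map π.symm.toEmbedding, μ i =
      ∏ a, μ (π.symm (I (σ a))) := by
  rw [Finset.prod_map, Finset.prod_map]
  exact (Equiv.prod_comp σ fun a => μ (π.symm (I a))).symm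

theorem key {n p : ℕ} (k : Fin n) (μ : Fin n → ℝ) (π : Fin n ≃ Fin n) (g : ℝ)
    (I J : Fin p ↪o Fin n) (hμ : ∀ j, 0 < μ j) (hmono : Monotone μ) (hg : 0 < g)
    (hgap : ∀ j : Fin n, j < k → μ j ≤ g * μ k) (hJ : ∃ a, J a < k) (σ : Equiv.Perm (Fin p)) :
    ∏ a, μ (min (π.symm (I (σ a))) (J a)) ≤
      wsz μ k ((univ.map I.toEmbedding).map π.symm.toEmbedding) g := by
  classical
  unfold wsz
  rw [prod_mu μ π I σ]
  have h1 : ∀ a, μ (min (π.symm (I (σ a))) (J a)) ≤ μ (π.symm (I (σ a))) :=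
    fun a => hmono (min_le_left _ _)
  split_ifs with hS
  · obtain ⟨a₀, ha₀⟩ := hJ
    have hk : k ≤ π.symm (I (σ a₀)) := by
      have := hS (π.symm (I (σ a₀))) (by
        rw [Finset.mem_map]
        refine ⟨I (σ a₀), ?_, rfl⟩
        rw [Finset.mem_map]
        exact ⟨σ a₀, mem_univ _, rfl⟩)
      exact this
    have h2 : μ (min (π.symm (I (σ a₀))) (J a₀)) ≤ μ (π.symm (I (σ a₀))) * g := by
      rw [min_eq_right (ha₀.le.trans hk)]
      refine (hgap _ ha₀).trans ?_
      rw [mul_comm]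
      exact mul_le_mul_of_nonneg_right (hmono hk) hg.le
    rw [← Finset.mul_prod_erase univ (fun a => μ (min (π.symm (I (σ a))) (J a))) (mem_univ a₀),
      ← Finset.mul_prod_erase univ (fun a => μ (π.symm (I (σ a)))) (mem_univ a₀)]
    calc _ ≤ (μ (π.symm (I (σ a₀))) * g) * ∏ a ∈ univ.erase a₀, μ (π.symm (I (σ a))) := by
          refine mul_le_mul h2 ?_ (Finset.prod_nonneg fun a _ => (hμ _).le)
            (mul_nonneg (hμ _).le hg.le)
          exact Finset.prod_le_prod (fun a _ => (hμ _).le) fun a _ => h1 a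
      _ = _ := by ring
  · rw [mul_one]
    exact Finset.prod_le_prod (fun a _ => (hμ _).le) fun a _ => h1 a

end IC3

theorem prfC3 : ClaimC3 := by
  classical
  intro K _ _ P v n p k μ θ π C E g I J hμ hmono hθ hC hE hg hgap hJ
  set w := wsz μ k ((univ.map I.toEmbedding).map π.symm.toEmbedding) g with hw
  have hC0 : 0 ≤ C := zero_le_one.trans hC
  have hw0 : 0 ≤ w := by
    rw [hw]
    unfold wsz
    refine mul_nonneg (Finset.prod_nonneg fun a _ => (hμ _).le) ?_
    split_ifs
    · exact hg.le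
    · exact zero_le_one
  have hB : 0 ≤ (C ^ p * w) ^ P.e v * ∏ a, θ (I a) :=
    mul_nonneg (by positivity) (Finset.prod_nonneg fun a _ => (hθ _).le)
  have h := N_det_le P v (E.submatrix I J) ((C ^ p * w) ^ P.e v * ∏ a, θ (I a)) (by
    intro σ
    have h1 : ∀ a, P.N v (E (I (σ a)) (J a)) ≤
        (C * μ (min (π.symm (I (σ a))) (J a))) ^ P.e v * θ (I (σ a)) := by
      intro a
      have := hE (π.symm (I (σ a))) (J a)
      rwa [Equiv.apply_symm_apply] at this
    calc ∏ a, P.N v ((E.submatrix I J) (σ a) a) ≤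
        ∏ a, ((C * μ (min (π.symm (I (σ a))) (J a))) ^ P.e v * θ (I (σ a))) :=
          Finset.prod_le_prod (fun a _ => N_nonneg P v _) fun a _ => h1 a
      _ = (C ^ p * ∏ a, μ (min (π.symm (I (σ a))) (J a))) ^ P.e v * ∏ a, θ (I a) := by
          rw [Finset.prod_mul_distrib, Finset.prod_pow, Finset.prod_mul_distrib,
            Finset.prod_const, Finset.card_univ, Fintype.card_fin,
            Equiv.prod_comp σ fun a => θ (I a)]
      _ ≤ _ := by
          refine mul_le_mul_of_nonneg_right ?_ (Finset.prod_nonneg fun a _ => (hθ _).le)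
          refine pow_le_pow_left₀ (mul_nonneg (by positivity)
            (Finset.prod_nonneg fun a _ => (hμ _).le)) ?_ _
          exact mul_le_mul_of_nonneg_left (IC3.key k μ π g I J hμ hmono hg hgap hJ σ)
            (by positivity)) hB
  refine h.trans (le_of_eq ?_)
  rw [mul_assoc (p.factorial : ℝ), mul_pow (p.factorial : ℝ)]
  ring

end Pool.Agent.Work.Tools.Subspace
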