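import Pool.Agent.Work.Tools.Subspace.Basic
import Pool.Agent.Work.Tools.Subspace.Stmts
import Pool.Agent.Work.Tools.Subspace.Stmts2

/-!
Item C4: products over all subsets with `p` elements.
-/

namespace Pool.Agent.Work.Tools.Subspace

open Finset

namespace IC4

/-- order embeddings and subsets with `p` elements -/
def equiv (n p : ℕ) : (Fin p ↪o Fin n) ≃ {S : Finset (Fin n) // S.card = p} where
  toFun I := ⟨univ.map I.toEmbedding, by rw [card_map, card_univ, Fintype.card_fin]⟩
  invFun S := S.1.orderEmbOfFin S.2
  left_inv I := by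
    symm
    apply Finset.orderEmbOfFin_unique'
    intro a
    simp
  right_inv S := by
    apply Subtype.ext
    ext x
    simp only [mem_map, mem_univ, true_and]
    constructor
    · rintro ⟨a, rfl⟩
      exact Finset.orderEmbOfFin_mem _ _ a
    · intro hx
      have h1 : x ∈ Set.range (S.1.orderEmbOfFin S.2) := by
        rw [Finset.range_orderEmbOfFin]; exact hx
      obtain ⟨a, ha⟩ := h1
      exact ⟨a, ha⟩

theorem equiv_apply (n p : ℕ) (I : Fin p ↪o Fin n) :
    (equiv n p I).1 = univ.map I.toEmbedding := rfl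

/-- a product over order embeddings is a product over subsets -/
theorem prod_emb {M : Type*} [CommMonoid M] (n p : ℕ) (F : Finset (Fin n) → M) :
    ∏ I : Fin p ↪o Fin n, F (univ.map I.toEmbedding) = ∏ S ∈ powersetCard p univ, F S := by
  have h1 : ∏ I : Fin p ↪o Fin n, F (univ.map I.toEmbedding) =
      ∏ S : {S : Finset (Fin n) // S.card = p}, F S.1 :=
    Fintype.prod_equiv (equiv n p) _ _ (fun I => rfl)
  rw [h1]
  refine Finset.prod_bij (fun S _ => S.1) ?_ ?_ ?_ ?_
  · intro S _
    rw [mem_powersetCard]
    exact ⟨subset_univ _, S.2⟩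
  · intro S _ T _ h
    exact Subtype.ext h
  · intro S hS
    exact ⟨⟨S, (mem_powersetCard.1 hS).2⟩, mem_univ _, rfl⟩
  · intro S _
    rfl

/-- the number of subsets with `p` elements which contain a given element -/
theorem card_contain (n p : ℕ) (hp : 0 < p) (i : Fin n) :
    ((powersetCard p (univ : Finset (Fin n))).filter (fun S => i ∈ S)).card =
      (n - 1).choose (p - 1) := by
  have h1 : (powersetCard (p - 1) ((univ : Finset (Fin n)).erase i)).card =
      (n - 1).choose (p - 1) := by
    rw [card_powersetCard, card_erase_of_mem (mem_univ i), card_univ, Fintype.card_fin]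
  rw [← h1]
  refine Finset.card_bij (fun S _ => S.erase i) ?_ ?_ ?_
  · intro S hS
    rw [mem_filter, mem_powersetCard] at hS
    rw [mem_powersetCard, card_erase_of_mem hS.2, hS.1.2]
    exact ⟨erase_subset_erase i (subset_univ S), rfl⟩
  · intro S hS T hT h
    rw [mem_filter] at hS hT
    rw [← insert_erase hS.2, ← insert_erase hT.2, h]
  · intro T hT
    rw [mem_powersetCard] at hT
    have hi : i ∉ T := fun h => (notMem_erase i univ) (hT.1 h)
    refine ⟨insert i T, ?_, erase_insert hi⟩
    rw [mem_filter, mem_powersetCard, card_insert_of_notMem hi, hT.2]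
    exact ⟨⟨subset_univ _, by omega⟩, mem_insert_self i T⟩

end IC4

theorem prfC4 : ClaimC4 := by
  intro n p f hp _
  have h1 : ∀ I : Fin p ↪o Fin n, ∏ a, f (I a) = ∏ i ∈ univ.map I.toEmbedding, f i := by
    intro I
    rw [prod_map]
    rfl
  simp only [h1]
  rw [IC4.prod_emb n p (fun S => ∏ i ∈ S, f i)]
  have h2 : ∀ S ∈ powersetCard p (univ : Finset (Fin n)), ∏ i ∈ S, f i =
      ∏ i, if i ∈ S then f i else 1 := by
    intro S _
    rw [prod_ite_mem, univ_inter]
  rw [prod_congr rfl h2, prod_comm, ← prod_pow]
  refine prod_congr rfl (fun i _ => ?_)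
  rw [← prod_filter, prod_const, IC4.card_contain n p hp i]

end Pool.Agent.Work.Tools.Subspace
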