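import Pool.Agent.Work.Tools.Subspace.Basic
import Pool.Agent.Work.Tools.Subspace.Stmts
import Pool.Agent.Work.Tools.Subspace.Stmts2

set_option autoImplicit false

/-!
# Item C6: the hyperplane determines the flag
-/

namespace Pool.Agent.Work.Tools.Subspace

open Finset Matrix MvPolynomial

namespace IC6

variable {K : Type} [Field K] {n p k : ℕ}

/-- The matrix with columns `x j`. -/
def XM (x : Fin n → Fin n → K) : Matrix (Fin n) (Fin n) K := Matrix.of fun i j => x j i

theorem det_ne {x : Fin n → Fin n → K} (hx : LinearIndependent K x) : (XM x).det ≠ 0 := by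
  have h : LinearIndependent K (XM x).col := hx
  rw [Matrix.linearIndependent_cols_iff_isUnit, Matrix.isUnit_iff_isUnit_det] at h
  exact h.ne_zero

theorem inv_mulVec_col {m : Type} [Fintype m] [DecidableEq m] {A : Matrix m m K}
    (hA : A.det ≠ 0) (j i : m) : (A⁻¹ *ᵥ fun l => A l j) i = (1 : Matrix m m K) i j := by
  rw [← Matrix.nonsing_inv_mul A (isUnit_iff_ne_zero.2 hA)]
  rfl

theorem mem_Fl_iff {x : Fin n → Fin n → K} (hx : LinearIndependent K x) (y : Fin n → K) :
    y ∈ Fl x k ↔ ∀ i : Fin n, k ≤ (i : ℕ) → ((XM x)⁻¹ *ᵥ y) i = 0 := by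
  have hd := det_ne hx
  constructor
  · intro hy
    induction hy using Submodule.span_induction with
    | mem y hy =>
      obtain ⟨j, hj, rfl⟩ := hy
      intro i hi
      have hij : i ≠ j := by
        rintro rfl
        exact absurd (show (i : ℕ) < k from hj) (by omega)
      have h := inv_mulVec_col hd j i
      rw [Matrix.one_apply_ne hij] at h
      exact h
    | zero =>
      intro i _
      rw [Matrix.mulVec_zero]
      rfl
    | add a b _ _ ha hb =>
      intro i hi
      rw [Matrix.mulVec_add, Pi.add_apply, ha i hi, hb i hi, add_zero]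
    | smul c a _ ha =>
      intro i hi
      rw [Matrix.mulVec_smul, Pi.smul_apply, ha i hi, smul_zero]
  · intro h
    have h1 : y = XM x *ᵥ ((XM x)⁻¹ *ᵥ y) := by
      rw [Matrix.mulVec_mulVec, Matrix.mul_nonsing_inv _ (isUnit_iff_ne_zero.2 hd),
        Matrix.one_mulVec]
    have h2 : y = ∑ j, ((XM x)⁻¹ *ᵥ y) j • x j := by
      funext i
      conv_lhs => rw [h1]
      rw [Finset.sum_apply]
      unfold Matrix.mulVec dotProduct
      refine Finset.sum_congr rfl fun j _ => ?_
      rw [Pi.smul_apply, smul_eq_mul, mul_comm]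
      rfl
    rw [h2]
    refine Submodule.sum_mem _ fun j _ => ?_
    by_cases hj : k ≤ (j : ℕ)
    · rw [h j hj, zero_smul]
      exact Submodule.zero_mem _
    · exact Submodule.smul_mem _ _ (Submodule.subset_span ⟨j, by
        show (j : ℕ) < k
        omega, rfl⟩)

/-- The vector of the maximal minors. -/
def wv (Y : Matrix (Fin n) (Fin p) K) : (Fin p ↪o Fin n) → K := fun I => (Y.submatrix I id).det

theorem wv_eq (h0 : ClaimC0) {x : Fin n → Fin n → K} (hx : LinearIndependent K x)
    (Y : Matrix (Fin n) (Fin p) K) :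
    wv Y = cmp p (XM x) *ᵥ fun J => (((XM x)⁻¹ * Y).submatrix J id).det := by
  have hd := det_ne hx
  funext I
  have h1 : Y.submatrix I id = ((XM x).submatrix I id) * ((XM x)⁻¹ * Y) := by
    have h2 : Y = XM x * ((XM x)⁻¹ * Y) := by
      rw [← Matrix.mul_assoc, Matrix.mul_nonsing_inv _ (isUnit_iff_ne_zero.2 hd), Matrix.one_mul]
    conv_lhs => rw [h2]
    rfl
  unfold wv
  rw [h1, h0 K n p]
  rfl

/-- A matrix with one column in the flag. -/
theorem wv_mem (h0 : ClaimC0) {x : Fin n → Fin n → K} (hx : LinearIndependent K x)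
    (Y : Matrix (Fin n) (Fin p) K) (a : Fin p) (ha : (fun i => Y i a) ∈ Fl x k) :
    wv Y ∈ CW p k x := by
  rw [mem_Fl_iff hx] at ha
  have h1 : wv Y = ∑ J : Fin p ↪o Fin n, (((XM x)⁻¹ * Y).submatrix J id).det •
      (fun I => cmp p (XM x) I J) := by
    rw [wv_eq h0 hx Y]
    funext I
    rw [Finset.sum_apply]
    unfold Matrix.mulVec dotProduct
    refine Finset.sum_congr rfl fun J _ => ?_
    rw [Pi.smul_apply, smul_eq_mul, mul_comm]
  rw [h1]
  refine Submodule.sum_mem _ fun J _ => ?_
  by_cases hJ : ∃ a, (J a : ℕ) < k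
  · exact Submodule.smul_mem _ _ (Submodule.subset_span ⟨J, hJ, rfl⟩)
  · push Not at hJ
    have h2 : (((XM x)⁻¹ * Y).submatrix J id).det = 0 := by
      refine Matrix.det_eq_zero_of_column_eq_zero a fun b => ?_
      exact ha (J b) (hJ b)
    rw [h2, zero_smul]
    exact Submodule.zero_mem _

theorem coord_of_mem (h2 : ClaimC2) {x : Fin n → Fin n → K} (hx : LinearIndependent K x)
    (J0 : Fin p ↪o Fin n) (hJ0 : ∀ a, k ≤ (J0 a : ℕ)) {z : (Fin p ↪o Fin n) → K}
    (hz : z ∈ CW p k x) : ((cmp p (XM x))⁻¹ *ᵥ z) J0 = 0 := by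
  have hd := (h2 K n p (XM x) (det_ne hx)).1
  induction hz using Submodule.span_induction with
  | mem y hy =>
    obtain ⟨J, ⟨a, ha⟩, rfl⟩ := hy
    have hne : J0 ≠ J := by
      rintro rfl
      exact absurd (hJ0 a) (by omega)
    have h := inv_mulVec_col hd J J0
    rw [Matrix.one_apply_ne hne] at h
    exact h
  | zero =>
    rw [Matrix.mulVec_zero]
    rfl
  | add a b _ _ ha hb => rw [Matrix.mulVec_add, Pi.add_apply, ha, hb, add_zero]
  | smul c a _ ha => rw [Matrix.mulVec_smul, Pi.smul_apply, ha, smul_zero]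

/-- One inclusion. -/
theorem fl_le (h0 : ClaimC0) (h2 : ClaimC2) (hkp : k + p = n) {x x' : Fin n → Fin n → K}
    (hx : LinearIndependent K x) (hx' : LinearIndependent K x') (hCW : CW p k x = CW p k x') :
    Fl x' k ≤ Fl x k := by
  intro y hy
  rw [mem_Fl_iff hx]
  intro i hi
  subst hkp
  -- the increasing embedding onto the last indices
  let J0 : Fin p ↪o Fin (k + p) := Fin.natAddOrderEmb k
  have hJ0 : ∀ a, (J0 a : ℕ) = k + a := fun a => rfl
  obtain ⟨a, rfl⟩ : ∃ a, J0 a = i := by
    refine ⟨⟨(i : ℕ) - k, by omega⟩, ?_⟩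
    apply Fin.ext
    rw [hJ0]
    simp only
    omega
  set Y : Matrix (Fin (k + p)) (Fin p) K := ((XM x).submatrix id J0).updateCol a y with hY
  have h3 : wv Y ∈ CW p k x := by
    rw [hCW]
    refine wv_mem h0 hx' Y a ?_
    have : (fun i => Y i a) = y := by
      funext i
      rw [hY, Matrix.updateCol_self]
    rw [this]
    exact hy
  have h4 := coord_of_mem h2 hx J0 (fun a => by rw [hJ0]; omega) h3
  have hd := (h2 K (k + p) p (XM x) (det_ne hx)).1
  rw [wv_eq h0 hx Y, Matrix.mulVec_mulVec, Matrix.nonsing_inv_mul _ (isUnit_iff_ne_zero.2 hd),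
    Matrix.one_mulVec] at h4
  have h5 : ((XM x)⁻¹ * Y).submatrix J0 id =
      (1 : Matrix (Fin p) (Fin p) K).updateCol a (fun b => ((XM x)⁻¹ *ᵥ y) (J0 b)) := by
    ext b b'
    rw [Matrix.submatrix_apply, Matrix.updateCol_apply]
    by_cases hb : b' = a
    · rw [if_pos hb, hb, Matrix.mul_apply]
      unfold Matrix.mulVec dotProduct
      refine Finset.sum_congr rfl fun l _ => ?_
      rw [hY, id, Matrix.updateCol_self]
    · rw [if_neg hb, Matrix.mul_apply]
      have h6 := inv_mulVec_col (det_ne hx) (J0 b') (J0 b)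
      have h7 : (1 : Matrix (Fin (k + p)) (Fin (k + p)) K) (J0 b) (J0 b') =
          (1 : Matrix (Fin p) (Fin p) K) b b' := by
        rw [Matrix.one_apply, Matrix.one_apply]
        simp only [EmbeddingLike.apply_eq_iff_eq]
      rw [h7] at h6
      rw [← h6]
      unfold Matrix.mulVec dotProduct
      refine Finset.sum_congr rfl fun l _ => ?_
      rw [hY, id, Matrix.updateCol_ne hb]
      rfl
  rw [h5, ← Matrix.cramer_apply, Matrix.cramer_one] at h4
  exact h4

end IC6

open IC6 in
/-- C6: the hyperplane determines the flag. -/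
theorem prfC6 (h0 : ClaimC0) (h2 : ClaimC2) : ClaimC6 := by
  intro K _ n p k x x' _ hkp hx hx' hCW
  exact le_antisymm (fl_le h0 h2 hkp hx' hx hCW.symm) (fl_le h0 h2 hkp hx hx' hCW)

end Pool.Agent.Work.Tools.Subspace
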