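import Pool.Agent.Work.Tools.Subspace.Basic
import Pool.Agent.Work.Tools.Subspace.Stmts2

/-!
# Item C7: the hyperplane of the compound space is an instance
-/

namespace Pool.Agent.Work.Tools.Subspace

open Finset Matrix

namespace IC7

/-- the index set of the large vectors -/
def J0 {n p k : ℕ} (h : k + p = n) : Fin p ↪o Fin n :=
  OrderEmbedding.ofStrictMono (fun a => ⟨k + a, by omega⟩) (fun a b hab => by
    rw [Fin.mk_lt_mk]
    exact Nat.add_lt_add_left hab k)

theorem eq_J0 {n p k : ℕ} (h : k + p = n) (J : Fin p ↪o Fin n) (hJ : ∀ a, k ≤ (J a : ℕ)) :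
    J = J0 h := by
  have h1 : Set.range J = {i : Fin n | k ≤ (i : ℕ)} := by
    have hsub : Set.range J ⊆ {i : Fin n | k ≤ (i : ℕ)} := by
      rintro _ ⟨a, rfl⟩
      exact hJ a
    have hcard : ({i : Fin n | k ≤ (i : ℕ)} : Set (Fin n)).ncard ≤ (Set.range J).ncard := by
      have e1 : (Set.range J).ncard = p := by
        rw [← Set.image_univ, Set.ncard_image_of_injective _ J.injective, Set.ncard_univ,
          Nat.card_eq_fintype_card, Fintype.card_fin]
      have e2 : {i : Fin n | k ≤ (i : ℕ)} = Set.range (J0 h) := by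
        ext i
        constructor
        · intro hi
          have hi' : k ≤ (i : ℕ) := hi
          refine ⟨⟨i - k, by omega⟩, ?_⟩
          apply Fin.ext
          simp only [J0, OrderEmbedding.coe_ofStrictMono]
          omega
        · rintro ⟨a, rfl⟩
          simp [J0]
      have e3 : (Set.range (J0 h)).ncard = p := by
        rw [← Set.image_univ, Set.ncard_image_of_injective _ (J0 h).injective, Set.ncard_univ,
          Nat.card_eq_fintype_card, Fintype.card_fin]
      rw [e1, e2, e3]
    exact Set.eq_of_subset_of_ncard_le hsub hcard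
  have h2 : Set.range (J0 h) = {i : Fin n | k ≤ (i : ℕ)} := by
    ext i
    constructor
    · rintro ⟨a, rfl⟩
      simp [J0]
    · intro hi
      have hi' : k ≤ (i : ℕ) := hi
      refine ⟨⟨i - k, by omega⟩, ?_⟩
      apply Fin.ext
      simp only [J0, OrderEmbedding.coe_ofStrictMono]
      omega
  have h3 := (StrictMono.range_inj J.strictMono (J0 h).strictMono).1 (h1.trans h2.symm)
  exact DFunLike.coe_injective h3

theorem card_eq {n p k : ℕ} (h : k + p = n) :
    Fintype.card {J : Fin p ↪o Fin n // ∃ a, (J a : ℕ) < k} =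
      Fintype.card (Fin p ↪o Fin n) - 1 := by
  classical
  have h1 : Fintype.card {J : Fin p ↪o Fin n // ¬ ∃ a, (J a : ℕ) < k} = 1 := by
    rw [Fintype.card_eq_one_iff]
    refine ⟨⟨J0 h, ?_⟩, ?_⟩
    · rintro ⟨a, ha⟩
      simp [J0] at ha
    · rintro ⟨J, hJ⟩
      apply Subtype.ext
      apply eq_J0 h J
      intro a
      by_contra hcon
      exact hJ ⟨a, by omega⟩
  have h2 := Fintype.card_subtype_compl (fun J : Fin p ↪o Fin n => ∃ a, (J a : ℕ) < k)
  rw [h1] at h2
  have h3 : Fintype.card {J : Fin p ↪o Fin n // ∃ a, (J a : ℕ) < k} ≤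
      Fintype.card (Fin p ↪o Fin n) := Fintype.card_subtype_le _
  omega

end IC7

theorem prfC7 (h1 : ClaimC1) (h2 : ClaimC2) : ClaimC7 := by
  classical
  intro K _ _ P n p k A x c q τ hp hkp hx hO hτ hτ1 hb
  set X : Matrix (Fin n) (Fin n) K := Matrix.of fun i j => x j i with hX
  have hdet : X.det ≠ 0 := by
    have h3 : LinearIndependent K X.col := hx
    rw [Matrix.linearIndependent_cols_iff_isUnit, Matrix.isUnit_iff_isUnit_det] at h3
    exact h3.ne_zero
  obtain ⟨hd, -⟩ := h2 K n p X hdet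
  have hw : LinearIndependent K (cmp p X).col := by
    rw [Matrix.linearIndependent_cols_iff_isUnit, Matrix.isUnit_iff_isUnit_det]
    exact hd.isUnit
  have e : Fin (Fintype.card (Fin p ↪o Fin n) - 1) ≃
      {J : Fin p ↪o Fin n // ∃ a, (J a : ℕ) < k} :=
    (Fintype.equivFinOfCardEq (IC7.card_eq hkp)).symm
  refine ⟨hτ, hτ1, fun j => (cmp p X).col (e j), ?_, ?_, ?_, ?_⟩
  · exact hw.comp (fun j => (e j : Fin p ↪o Fin n)) (fun i j hij => e.injective (Subtype.ext hij))
  · intro j I
    exact det_mem P fun a b => hO _ _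
  · intro v I j
    have h5 : (cmp p (A v) *ᵥ (cmp p X).col (e j)) I =
        ((A v * X).submatrix I (e j : Fin p ↪o Fin n)).det := by
      have h6 : (cmp p (A v) *ᵥ (cmp p X).col (e j)) I =
          (cmp p (A v) * cmp p X) I (e j) := rfl
      rw [h6, ← h1]
      rfl
    rw [h5]
    exact hb v I (e j) (e j).2
  · unfold CW
    congr 1
    ext w
    constructor
    · rintro ⟨J, hJ, rfl⟩
      refine ⟨e.symm ⟨J, hJ⟩, ?_⟩
      have h7 : ((e (e.symm ⟨J, hJ⟩) : {J : Fin p ↪o Fin n // ∃ a, (J a : ℕ) < k}) :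
          Fin p ↪o Fin n) = J := by rw [Equiv.apply_symm_apply]
      show (cmp p X).col (e (e.symm ⟨J, hJ⟩)) = _
      rw [h7]
      rfl
    · rintro ⟨j, rfl⟩
      exact ⟨e j, (e j).2, rfl⟩

end Pool.Agent.Work.Tools.Subspace
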