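import Pool.Agent.Work.Tools.Subspace.Basic
import Pool.Agent.Work.Tools.Subspace.Stmts
import Pool.Agent.Work.Tools.Subspace.Stmts2

/-!
# The Subspace theorem: item C8, the minima are between powers of `e ^ q`
-/

namespace Pool.Agent.Work.Tools.Subspace

open Finset Matrix MvPolynomial

namespace IC8

theorem le_of_mul_le {D t R : ℝ} (hD : 1 ≤ D) (hR : 0 ≤ R) (h : D * t ≤ R) : t ≤ R := by
  rcases le_or_gt t 0 with ht | ht
  · exact ht.trans hR
  · nlinarith

theorem prod_theta {K : Type} [Field K] (P : Places K) {n : ℕ}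
    (c : P.V → Fin n → ℝ) (q : ℝ) (τ : P.V → ℝ) (hτ1 : ∏ v, τ v = 1) :
    ∏ v, ∏ i, (τ v * Real.exp (c v i * q)) = Real.exp (q * ∑ v, ∑ i, c v i) := by
  have h1 : ∀ v, ∏ i, (τ v * Real.exp (c v i * q)) = τ v ^ n * Real.exp (q * ∑ i, c v i) := by
    intro v
    rw [Finset.prod_mul_distrib, Finset.prod_const, Finset.card_univ, Fintype.card_fin,
      ← Real.exp_sum, Finset.mul_sum]
    congr 2
    exact Finset.sum_congr rfl fun i _ => mul_comm _ _
  rw [Finset.prod_congr rfl fun v _ => h1 v, Finset.prod_mul_distrib, Finset.prod_pow, hτ1,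
    one_pow, one_mul, ← Real.exp_sum, Finset.mul_sum]

end IC8

/-- C8: the minima are between powers of `e ^ q` -/
theorem prfC8 (h1 : ClaimQ1) : ClaimC8 := by
  intro K _ _ P n A c C hn hA hC
  obtain ⟨C1, hC1, hQ1⟩ := h1 K P (Fin n) A hA
  have hD1 : (1 : ℝ) ≤ P.D := by exact_mod_cast D_pos P
  have hlC : 0 ≤ Real.log C := Real.log_nonneg hC
  set cm : ℝ := ∑ v, ∑ i, |c v i| with hcm
  have hcm0 : 0 ≤ cm := Finset.sum_nonneg fun v _ => Finset.sum_nonneg fun i _ => abs_nonneg _
  have hcM : ∀ v i, c v i ≤ cm := fun v i => (le_abs_self _).trans <|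
    (Finset.single_le_sum (f := fun i => |c v i|) (fun i _ => abs_nonneg _) (mem_univ i)).trans
      (Finset.single_le_sum (f := fun v => ∑ i, |c v i|)
        (fun v _ => Finset.sum_nonneg fun i _ => abs_nonneg _) (mem_univ v))
  set B1 : ℝ := |Real.log C1| + P.D * Real.log C + Fintype.card P.V * cm with hB1
  have hB0 : 0 ≤ B1 := by positivity
  refine ⟨B1 + Real.log C + cm + P.D * (n * B1) + 1, by positivity, ?_⟩
  intro q τ μ x π hq hτ hτ1 hnice j
  have hq0 : 0 < q := by linarith
  obtain ⟨hμ, hmono, hli, hO, hA', -, hup⟩ := hnice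
  have hlow : ∀ j, -(B1 * q) ≤ Real.log (μ j) := by
    intro j
    have hdom : InDom P A (fun v i => τ v * Real.exp (c v i * q)) (C * μ j) (x j) := by
      refine ⟨hO j, fun v i => ?_⟩
      have h := hA' v ((π v).symm i) j
      rw [Equiv.apply_symm_apply] at h
      refine h.trans (mul_le_mul_of_nonneg_right ?_ (mul_pos (hτ v) (Real.exp_pos _)).le)
      refine pow_le_pow_left₀ (mul_nonneg (by linarith) (hμ _).le) ?_ _
      exact mul_le_mul_of_nonneg_left (hmono (min_le_right _ _)) (by linarith)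
    have h := hQ1 (fun v i => τ v * Real.exp (c v i * q)) (fun v => τ v * Real.exp (cm * q))
      (C * μ j) (x j) (fun v i => mul_pos (hτ v) (Real.exp_pos _))
      (fun v i => mul_le_mul_of_nonneg_left
        (Real.exp_le_exp.mpr (mul_le_mul_of_nonneg_right (hcM v i) hq0.le)) (hτ v).le)
      (mul_pos (by linarith) (hμ j)) (hli.ne_zero j) hdom
    rw [Finset.prod_mul_distrib, hτ1, one_mul, Finset.prod_const, Finset.card_univ,
      ← Real.exp_nat_mul] at h
    have hCμ : 0 < C * μ j := mul_pos (by linarith) (hμ j)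
    have h' := Real.log_le_log one_pos h
    rw [Real.log_one, Real.log_mul (mul_pos hC1 (pow_pos hCμ _)).ne' (Real.exp_pos _).ne',
      Real.log_mul hC1.ne' (pow_pos hCμ _).ne', Real.log_pow,
      Real.log_mul (by linarith : C ≠ 0) (hμ j).ne', Real.log_exp] at h'
    have h3 : (P.D : ℝ) * (-Real.log (μ j)) ≤ B1 * q := by
      have e1 : Real.log C1 ≤ |Real.log C1| * q :=
        (le_abs_self _).trans (le_mul_of_one_le_right (abs_nonneg _) hq)
      have e2 : P.D * Real.log C ≤ P.D * Real.log C * q :=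
        le_mul_of_one_le_right (by positivity) hq
      rw [hB1]
      nlinarith
    have := IC8.le_of_mul_le hD1 (by positivity) h3
    linarith
  have hupj : Real.log (μ j) ≤ (Real.log C + cm + P.D * (n * B1)) * q := by
    rw [IC8.prod_theta P c q τ hτ1] at hup
    have hpos : 0 < (∏ j, μ j) ^ P.D := pow_pos (Finset.prod_pos fun i _ => hμ i) _
    have h := Real.log_le_log (mul_pos hpos (Real.exp_pos _)) hup
    rw [Real.log_mul hpos.ne' (Real.exp_pos _).ne', Real.log_pow, Real.log_exp,
      Real.log_prod (fun i _ => (hμ i).ne')] at h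
    have e1 : -cm ≤ ∑ v, ∑ i, c v i := by
      rw [hcm, ← Finset.sum_neg_distrib]
      refine Finset.sum_le_sum fun v _ => ?_
      rw [← Finset.sum_neg_distrib]
      exact Finset.sum_le_sum fun i _ => neg_abs_le _
    have e2 : Real.log (μ j) - n * (B1 * q) ≤ ∑ i, Real.log (μ i) := by
      rw [← Finset.add_sum_erase _ _ (mem_univ j)]
      have e3 : -(n * (B1 * q)) ≤ ∑ i ∈ univ.erase j, Real.log (μ i) := by
        have e4 := Finset.card_nsmul_le_sum (univ.erase j) (fun i => Real.log (μ i))
          (-(B1 * q)) (fun i _ => hlow i)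
        refine le_trans ?_ e4
        rw [nsmul_eq_mul, mul_neg, neg_le_neg_iff]
        refine mul_le_mul_of_nonneg_right ?_ (by positivity)
        have := Finset.card_le_univ (univ.erase j)
        rw [Fintype.card_fin] at this
        exact_mod_cast this
      linarith
    refine IC8.le_of_mul_le hD1 (by positivity) ?_
    have e5 : (P.D : ℝ) * (Real.log (μ j) - n * (B1 * q)) ≤ P.D * ∑ i, Real.log (μ i) :=
      mul_le_mul_of_nonneg_left e2 (by linarith)
    have e6 : q * (-cm) ≤ q * ∑ v, ∑ i, c v i := mul_le_mul_of_nonneg_left e1 hq0.le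
    have e7 : Real.log C ≤ Real.log C * q := le_mul_of_one_le_right hlC hq
    nlinarith
  rw [abs_le]
  have hl := hlow j
  have e1 : 0 ≤ (Real.log C + cm + P.D * (n * B1) + 1) * q := by positivity
  have e2 : 0 ≤ (B1 + 1) * q := by positivity
  constructor <;> nlinarith

end Pool.Agent.Work.Tools.Subspace
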