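import Pool.Agent.Work.Tools.Subspace.Basic
import Pool.Agent.Work.Tools.Subspace.Stmts
import Pool.Agent.Work.Tools.Subspace.Stmts2

/-!
# The Subspace theorem: item C9, a gap puts the flag in a finite set
-/

namespace Pool.Agent.Work.Tools.Subspace

open Finset Matrix MvPolynomial

namespace IC9

/-- the index set belonging to a minor -/
def sz {n p : ℕ} (π : Fin n ≃ Fin n) (I : Fin p ↪o Fin n) : Finset (Fin n) :=
  (univ.map I.toEmbedding).map π.symm.toEmbedding

/-- the true exponents -/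
noncomputable def ct {n p : ℕ} (e : ℕ) (c : Fin n → ℝ) (μ : Fin n → ℝ) (k : ℕ)
    (π : Fin n ≃ Fin n) (L η q : ℝ) (I : Fin p ↪o Fin n) : ℝ :=
  e * (L + Real.log (wsz μ k (sz π I) (Real.exp (-(η * q))))) / q + ∑ a, c (I a)

theorem wsz_pos {n : ℕ} (μ : Fin n → ℝ) (k : ℕ) (S : Finset (Fin n)) (g : ℝ)
    (hμ : ∀ j, 0 < μ j) (hg : 0 < g) : 0 < wsz μ k S g := by
  unfold wsz
  refine mul_pos (Finset.prod_pos fun i _ => hμ i) ?_
  split_ifs
  · exact hg
  · exact one_pos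

theorem abs_log_wsz {n : ℕ} (μ : Fin n → ℝ) (k : ℕ) (S : Finset (Fin n)) (η q B : ℝ)
    (hμ : ∀ j, 0 < μ j) (hB0 : 0 ≤ B) (hB : ∀ j, |Real.log (μ j)| ≤ B) (hηq : 0 ≤ η * q) :
    |Real.log (wsz μ k S (Real.exp (-(η * q))))| ≤ n * B + η * q := by
  have h1 : |∑ i ∈ S, Real.log (μ i)| ≤ n * B := by
    refine (Finset.abs_sum_le_sum_abs _ _).trans ?_
    refine (Finset.sum_le_card_nsmul _ _ _ fun i _ => hB i).trans ?_
    rw [nsmul_eq_mul]
    refine mul_le_mul_of_nonneg_right ?_ hB0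
    have := Finset.card_le_univ S
    rw [Fintype.card_fin] at this
    exact_mod_cast this
  unfold wsz
  have hp : (∏ i ∈ S, μ i) ≠ 0 := (Finset.prod_pos fun i _ => hμ i).ne'
  by_cases hS : ∀ i ∈ S, k ≤ (i : ℕ)
  · rw [if_pos hS, Real.log_mul hp (Real.exp_pos _).ne', Real.log_exp,
      Real.log_prod (fun i _ => (hμ i).ne')]
    refine (abs_add_le _ _).trans (add_le_add h1 ?_)
    rw [abs_neg, abs_of_nonneg hηq]
  · rw [if_neg hS, mul_one, Real.log_prod (fun i _ => (hμ i).ne')]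
    linarith

theorem abs_ct {n p : ℕ} (e : ℕ) (c : Fin n → ℝ) (μ : Fin n → ℝ) (k : ℕ) (π : Fin n ≃ Fin n)
    (L η q C' D M : ℝ) (I : Fin p ↪o Fin n) (hL : 0 ≤ L) (hη : 0 ≤ η) (hq : 1 ≤ q)
    (hC' : 0 ≤ C') (hμ : ∀ j, 0 < μ j) (hB : ∀ j, |Real.log (μ j)| ≤ C' * q) (he : (e : ℝ) ≤ D)
    (hM : ∀ i, |c i| ≤ M) :
    |ct e c μ k π L η q I| ≤ D * (L + (n * C' + η)) + p * M := by
  have hq0 : 0 < q := by linarith
  unfold ct
  refine (abs_add_le _ _).trans (add_le_add ?_ ?_)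
  · have h1 := abs_log_wsz μ k (sz π I) η q (C' * q) hμ (by positivity) hB (by positivity)
    rw [abs_div, abs_mul, Nat.abs_cast, abs_of_pos hq0, div_le_iff₀ hq0, mul_assoc]
    refine mul_le_mul he ?_ (abs_nonneg _) ((Nat.cast_nonneg e).trans he)
    refine (abs_add_le _ _).trans ?_
    rw [abs_of_nonneg hL]
    have : L ≤ L * q := by nlinarith
    nlinarith
  · refine (Finset.abs_sum_le_sum_abs _ _).trans ?_
    refine (Finset.sum_le_card_nsmul _ _ _ fun a _ => hM (I a)).trans ?_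
    simp

theorem sum_ct (h4 : ClaimC4) (h5 : ClaimC5) {n p : ℕ} (e : ℕ) (c : Fin n → ℝ) (μ : Fin n → ℝ)
    (k : ℕ) (π : Fin n ≃ Fin n) (L η q : ℝ) (hp : 0 < p) (hkp : k + p = n)
    (hμ : ∀ j, 0 < μ j) :
    ∑ I : Fin p ↪o Fin n, ct e c μ k π L η q I =
      e * (Fintype.card (Fin p ↪o Fin n) * L +
        ((n - 1).choose (p - 1) : ℝ) * (∑ i, Real.log (μ i)) - η * q) / q +
      ((n - 1).choose (p - 1) : ℝ) * ∑ i, c i := by
  have e4 : ∑ I : Fin p ↪o Fin n, ∑ a, c (I a) = ((n - 1).choose (p - 1) : ℝ) * ∑ i, c i := by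
    have h := h4 n p (fun i => Real.exp (c i)) hp (fun i => Real.exp_pos _)
    have h' := congrArg Real.log h
    simp only [← Real.exp_sum] at h'
    rw [Real.log_exp, ← Real.exp_nat_mul, Real.log_exp] at h'
    exact h'
  have e5 : ∑ I : Fin p ↪o Fin n, Real.log (wsz μ k (sz π I) (Real.exp (-(η * q)))) =
      ((n - 1).choose (p - 1) : ℝ) * (∑ i, Real.log (μ i)) - η * q := by
    have h := h5 n p k μ π (Real.exp (-(η * q))) hp hkp hμ (Real.exp_pos _)
    have h' := congrArg Real.log h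
    rw [Real.log_prod (fun I _ => (wsz_pos μ k _ _ hμ (Real.exp_pos _)).ne'),
      Real.log_mul (pow_pos (Finset.prod_pos fun i _ => hμ i) _).ne' (Real.exp_pos _).ne',
      Real.log_pow, Real.log_exp, Real.log_prod (fun i _ => (hμ i).ne')] at h'
    rw [← sub_eq_add_neg] at h'
    exact h'
  unfold ct
  rw [Finset.sum_add_distrib, e4, ← Finset.sum_div, ← Finset.mul_sum, Finset.sum_add_distrib, e5]
  simp only [Finset.sum_const, Finset.card_univ, nsmul_eq_mul]
  ring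

/-- the sum of the true exponents -/
theorem sum_sum_ct (h4 : ClaimC4) (h5 : ClaimC5) {K : Type} [Field K] (P : Places K) {n p : ℕ}
    (c : P.V → Fin n → ℝ) (μ : Fin n → ℝ) (k : ℕ) (π : P.V → Fin n ≃ Fin n) (L η q C : ℝ)
    (τ : P.V → ℝ) (hp : 0 < p) (hkp : k + p = n) (hq : 0 < q) (hμ : ∀ j, 0 < μ j)
    (hτ1 : ∏ v, τ v = 1)
    (hN : (∏ j, μ j) ^ P.D * ∏ v, ∏ i, (τ v * Real.exp (c v i * q)) ≤ C) :
    ∑ v, ∑ I : Fin p ↪o Fin n, ct (P.e v) (c v) μ k (π v) L η q I ≤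
      (P.D * (Fintype.card (Fin p ↪o Fin n) * L) +
        ((n - 1).choose (p - 1) : ℝ) * Real.log C) / q - P.D * η := by
  have e1 : ∏ v, ∏ i, (τ v * Real.exp (c v i * q)) = Real.exp (q * ∑ v, ∑ i, c v i) := by
    have h1 : ∀ v, ∏ i, (τ v * Real.exp (c v i * q)) = τ v ^ n * Real.exp (q * ∑ i, c v i) := by
      intro v
      rw [Finset.prod_mul_distrib, Finset.prod_const, Finset.card_univ, Fintype.card_fin,
        ← Real.exp_sum, Finset.mul_sum]
      congr 2
      exact Finset.sum_congr rfl fun i _ => mul_comm _ _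
    rw [Finset.prod_congr rfl fun v _ => h1 v, Finset.prod_mul_distrib, Finset.prod_pow, hτ1,
      one_pow, one_mul, ← Real.exp_sum, Finset.mul_sum]
  have e2 : (P.D : ℝ) * (∑ i, Real.log (μ i)) + q * ∑ v, ∑ i, c v i ≤ Real.log C := by
    rw [e1] at hN
    have hpos : 0 < (∏ j, μ j) ^ P.D := pow_pos (Finset.prod_pos fun i _ => hμ i) _
    have h := Real.log_le_log (mul_pos hpos (Real.exp_pos _)) hN
    rw [Real.log_mul hpos.ne' (Real.exp_pos _).ne', Real.log_pow, Real.log_exp,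
      Real.log_prod (fun i _ => (hμ i).ne')] at h
    exact h
  have e3 : ∑ v, ∑ I : Fin p ↪o Fin n, ct (P.e v) (c v) μ k (π v) L η q I =
      (P.D * (Fintype.card (Fin p ↪o Fin n) * L) + ((n - 1).choose (p - 1) : ℝ) *
        (P.D * (∑ i, Real.log (μ i)) + q * ∑ v, ∑ i, c v i)) / q - P.D * η := by
    rw [Finset.sum_congr rfl fun v _ => sum_ct h4 h5 (P.e v) (c v) μ k (π v) L η q hp hkp hμ,
      Finset.sum_add_distrib, ← Finset.mul_sum, ← Finset.sum_div, ← Finset.sum_mul]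
    have hD : (∑ v, (P.e v : ℝ)) = P.D := by simp [Places.D]
    rw [hD]
    field_simp
    ring
  rw [e3]
  have : (0 : ℝ) ≤ ((n - 1).choose (p - 1) : ℝ) := Nat.cast_nonneg _
  gcongr

/-- the size of a minor in terms of the true exponents -/
theorem minor_le (h3 : ClaimC3) {K : Type} [Field K] [CharZero K] (P : Places K) (v : P.V)
    {n p : ℕ} (k : Fin n) (A : Matrix (Fin n) (Fin n) K) (c : Fin n → ℝ) (μ : Fin n → ℝ)
    (x : Fin n → Fin n → K) (π : Fin n ≃ Fin n) (η q C τ : ℝ) (I J : Fin p ↪o Fin n)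
    (hμ : ∀ j, 0 < μ j) (hmono : Monotone μ) (hτ : 0 < τ) (hq : 0 < q) (hC : 1 ≤ C)
    (hA : ∀ i j, P.N v ((A *ᵥ x j) (π i)) ≤
      (C * μ (min i j)) ^ P.e v * (τ * Real.exp (c (π i) * q)))
    (hgap : ∀ j, j < k → Real.exp (η * q) * μ j ≤ μ k) (hJ : ∃ a, (J a : ℕ) < k) :
    P.N v (((A * Matrix.of fun i j => x j i).submatrix I J).det) ≤
      τ ^ p * Real.exp (ct (P.e v) c μ k π (Real.log ((p.factorial : ℝ) * C ^ p)) η q I * q) := by
  have hF : 0 < (p.factorial : ℝ) * C ^ p := by positivity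
  have hw : 0 < wsz μ k (sz π I) (Real.exp (-(η * q))) := wsz_pos μ k _ _ hμ (Real.exp_pos _)
  have h := h3 K P v n p k μ (fun i => τ * Real.exp (c i * q)) π C
    (A * Matrix.of fun i j => x j i) (Real.exp (-(η * q))) I J hμ hmono
    (fun i => mul_pos hτ (Real.exp_pos _)) hC (fun i j => hA i j) (Real.exp_pos _)
    (fun j hj => by
      have h1 := mul_le_mul_of_nonneg_left (hgap j hj) (Real.exp_pos (-(η * q))).le
      rw [← mul_assoc, ← Real.exp_add, neg_add_cancel, Real.exp_zero, one_mul] at h1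
      exact h1)
    (by obtain ⟨a, ha⟩ := hJ; exact ⟨a, Fin.lt_def.mpr ha⟩)
  refine h.trans (le_of_eq ?_)
  rw [Finset.prod_mul_distrib, Finset.prod_const, Finset.card_univ, Fintype.card_fin,
    ← Real.exp_sum]
  have h2 : ((p.factorial : ℝ) * C ^ p * wsz μ k ((univ.map I.toEmbedding).map
      π.symm.toEmbedding) (Real.exp (-(η * q)))) ^ P.e v =
      Real.exp (P.e v * (Real.log ((p.factorial : ℝ) * C ^ p) +
        Real.log (wsz μ k (sz π I) (Real.exp (-(η * q)))))) := by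
    rw [← Real.log_mul hF.ne' hw.ne', Real.exp_nat_mul, Real.exp_log (mul_pos hF hw)]
    rfl
  rw [h2, mul_left_comm, ← Real.exp_add]
  congr 2
  unfold ct
  rw [add_mul, div_mul_cancel₀ _ hq.ne', Finset.sum_mul]

end IC9

/-- C9: a gap after `k` minima puts the span of the first `k` vectors in a finite set -/
theorem prfC9 (hHC : ClaimHC) (h2 : ClaimC2) (h3 : ClaimC3) (h4 : ClaimC4) (h5 : ClaimC5)
    (h6 : ClaimC6) (h7 : ClaimC7) (h8 : ClaimC8) : ClaimC9 := by
  intro K _ _ P n A c η C k hA hη hC hk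
  classical
  have hn : 0 < n := lt_of_le_of_lt (Nat.zero_le _) k.2
  obtain ⟨C', hC'0, hC'⟩ := h8 K P n A c C hn hA hC
  obtain ⟨p, hp, hkp⟩ : ∃ p, 0 < p ∧ (k : ℕ) + p = n := ⟨n - k, by omega, by omega⟩
  have : Nonempty (Fin p ↪o Fin n) := ⟨Fin.castLEOrderEmb (by omega)⟩
  set L := Real.log ((p.factorial : ℝ) * C ^ p) with hLdef
  have hL : 0 ≤ L := Real.log_nonneg
    (one_le_mul_of_one_le_of_one_le (by exact_mod_cast Nat.factorial_pos p) (one_le_pow₀ hC))
  have hD' : (0 : ℝ) < P.D := by exact_mod_cast D_pos P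
  set m : ℝ := (Fintype.card P.V : ℝ) * (Fintype.card (Fin p ↪o Fin n) : ℝ) with hm
  have hm0 : 0 < m := mul_pos (by exact_mod_cast card_V_pos P)
    (by exact_mod_cast Fintype.card_pos)
  set s : ℝ := P.D * η / (4 * m) with hsdef
  have hs : 0 < s := by positivity
  set M : ℝ := ∑ v, ∑ i, |c v i| with hM
  have hcM : ∀ v i, |c v i| ≤ M := fun v i =>
    (Finset.single_le_sum (f := fun i => |c v i|) (fun i _ => abs_nonneg _) (mem_univ i)).trans
      (Finset.single_le_sum (f := fun v => ∑ i, |c v i|)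
        (fun v _ => Finset.sum_nonneg fun i _ => abs_nonneg _) (mem_univ v))
  set Bd : ℝ := P.D * (L + (n * C' + η)) + p * M with hBd
  set K1 : ℝ := P.D * (Fintype.card (Fin p ↪o Fin n) * L) +
        ((n - 1).choose (p - 1) : ℝ) * Real.log C with hK1
  set F : Set ℝ := (fun z : ℤ => s * (z : ℝ)) '' Set.Icc (-(⌈Bd / s⌉ + 1)) (⌈Bd / s⌉ + 1) with hF
  have hFf : F.Finite := (Set.finite_Icc _ _).image _
  set Z : Set (P.V → (Fin p ↪o Fin n) → ℝ) := {c' | ∀ v, c' v ∈ {d | ∀ I, d I ∈ F}} with hZdef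
  have hZ : Z.Finite := Set.Finite.pi' fun v => Set.Finite.pi' fun I => hFf
  have hH : ∀ c' : P.V → (Fin p ↪o Fin n) → ℝ,
      ∃ (q₀ : ℝ) (W₀ : Submodule K ((Fin p ↪o Fin n) → K)), ∑ v, ∑ I, c' v I < 0 →
        ∀ (q : ℝ) (τ : P.V → ℝ) (W : Submodule K ((Fin p ↪o Fin n) → K)), q₀ ≤ q →
          InstW P (fun v => cmp p (A v)) c' q τ W → W = W₀ := by
    intro c'
    by_cases hc : ∑ v, ∑ I, c' v I < 0
    · obtain ⟨q₀, W₀, h⟩ := hHC K P (Fin p ↪o Fin n) (fun v => cmp p (A v)) c'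
        (fun v => (h2 K n p (A v) (hA v)).1) hc
      exact ⟨q₀, W₀, fun _ => h⟩
    · exact ⟨0, ⊥, fun h => absurd h hc⟩
  choose Q W hQW using hH
  obtain ⟨B, hB⟩ := (hZ.image Q).bddAbove
  have hB' : ∀ c' ∈ Z, Q c' ≤ B := fun c' h => hB (Set.mem_image_of_mem _ h)
  refine ⟨max (max 1 B) (4 * |K1| / (P.D * η)), {F' | ∃ x : Fin n → Fin n → K,
    LinearIndependent K x ∧ CW p k x ∈ W '' Z ∧ F' = Fl x k}, ?_, ?_⟩
  · set Φ : Submodule K ((Fin p ↪o Fin n) → K) → Submodule K (Fin n → K) := fun W' =>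
      if h : ∃ x : Fin n → Fin n → K, LinearIndependent K x ∧ CW p k x = W' then
        Fl h.choose k else ⊥ with hΦ
    refine ((hZ.image W).image Φ).subset ?_
    rintro F' ⟨x, hx, hxW, rfl⟩
    refine ⟨CW p k x, hxW, ?_⟩
    have hex : ∃ x' : Fin n → Fin n → K, LinearIndependent K x' ∧ CW p k x' = CW p k x :=
      ⟨x, hx, rfl⟩
    simp only [hΦ, dif_pos hex]
    exact h6 K n p k _ x hp hkp hex.choose_spec.1 hx hex.choose_spec.2
  · intro q τ μ x π hq hτ hτ1 hnice hgap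
    have hq1 : 1 ≤ q := (le_max_left _ _).trans ((le_max_left _ _).trans hq)
    have hqB : B ≤ q := (le_max_right _ _).trans ((le_max_left _ _).trans hq)
    have hqK : 4 * |K1| / (P.D * η) ≤ q := (le_max_right _ _).trans hq
    have hq0 : 0 < q := by linarith
    have hlog := hC' q τ μ x π hq1 hτ hτ1 hnice
    obtain ⟨hμ, hmono, hli, hO, hA', -, hup⟩ := hnice
    set cr : P.V → (Fin p ↪o Fin n) → ℝ := fun v I =>
      s * (⌈IC9.ct (P.e v) (c v) μ k (π v) L η q I / s⌉ : ℝ) with hcr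
    have hcr1 : ∀ v I, IC9.ct (P.e v) (c v) μ k (π v) L η q I ≤ cr v I := by
      intro v I
      have h := Int.le_ceil (IC9.ct (P.e v) (c v) μ k (π v) L η q I / s)
      rw [div_le_iff₀ hs] at h
      rw [hcr]
      simp only
      linarith
    have hcr2 : ∀ v I, cr v I ≤ IC9.ct (P.e v) (c v) μ k (π v) L η q I + s := by
      intro v I
      have h := (Int.ceil_lt_add_one (IC9.ct (P.e v) (c v) μ k (π v) L η q I / s)).le
      have h' := mul_le_mul_of_nonneg_left h hs.le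
      rw [mul_add, mul_one, mul_div_cancel₀ _ hs.ne'] at h'
      exact h'
    have hcrZ : cr ∈ Z := by
      intro v I
      have he : (P.e v : ℝ) ≤ P.D := by
        have := Finset.single_le_sum (f := fun v => P.e v) (fun v _ => Nat.zero_le _) (mem_univ v)
        exact_mod_cast this
      have h := IC9.abs_ct (P.e v) (c v) μ k (π v) L η q C' P.D M I hL hη.le hq1 hC'0.le hμ hlog he
        (hcM v)
      rw [← hBd, abs_le] at h
      refine ⟨⌈IC9.ct (P.e v) (c v) μ k (π v) L η q I / s⌉, ⟨?_, ?_⟩, rfl⟩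
      · have e1 : -(Bd / s) ≤ IC9.ct (P.e v) (c v) μ k (π v) L η q I / s := by
          rw [← neg_div]; exact div_le_div_of_nonneg_right h.1 hs.le
        have e2 := Int.le_ceil (Bd / s)
        have e3 := Int.le_ceil (IC9.ct (P.e v) (c v) μ k (π v) L η q I / s)
        have e4 : ((-⌈Bd / s⌉ : ℤ) : ℝ) ≤
            ((⌈IC9.ct (P.e v) (c v) μ k (π v) L η q I / s⌉ : ℤ) : ℝ) := by
          rw [Int.cast_neg]; linarith
        have e5 := Int.cast_le.mp e4
        linarith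
      · refine (Int.ceil_le_ceil (div_le_div_of_nonneg_right h.2 hs.le)).trans ?_
        linarith
    have hsum : ∑ v, ∑ I, cr v I < 0 := by
      have h1 : ∑ v, ∑ I, cr v I ≤
          ∑ v, ∑ I : Fin p ↪o Fin n, IC9.ct (P.e v) (c v) μ k (π v) L η q I + m * s := by
        refine (Finset.sum_le_sum fun v _ => Finset.sum_le_sum fun I _ => hcr2 v I).trans ?_
        simp only [Finset.sum_add_distrib, Finset.sum_const, Finset.card_univ, nsmul_eq_mul]
        rw [hm, mul_assoc]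
      have h2 := IC9.sum_sum_ct h4 h5 P c μ k π L η q C τ hp hkp hq0 hμ hτ1 hup
      rw [← hK1] at h2
      have h3 : K1 / q ≤ P.D * η / 4 := by
        rw [div_le_iff₀ hq0]
        rw [div_le_iff₀ (by positivity)] at hqK
        have := le_abs_self K1
        nlinarith
      have h4 : m * s = P.D * η / 4 := by
        rw [hsdef]; field_simp
      have h5 : 0 < P.D * η := by positivity
      linarith
    have hinst : InstW P (fun v => cmp p (A v)) cr q (fun v => τ v ^ p) (CW p k x) := by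
      refine h7 K P n p k A x cr q (fun v => τ v ^ p) hp hkp hli hO (fun v => pow_pos (hτ v) _)
        (by rw [Finset.prod_pow, hτ1, one_pow]) ?_
      intro v I J hJ
      refine (IC9.minor_le h3 P v k (A v) (c v) μ x (π v) η q C (τ v) I J hμ hmono (hτ v) hq0 hC
        (hA' v) hgap hJ).trans ?_
      refine mul_le_mul_of_nonneg_left ?_ (pow_pos (hτ v) _).le
      rw [Real.exp_le_exp]
      exact mul_le_mul_of_nonneg_right (hcr1 v I) hq0.le
    have := hQW cr hsum q _ _ ((hB' cr hcrZ).trans hqB) hinst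
    exact ⟨x, hli, ⟨cr, hcrZ, this.symm⟩, rfl⟩

end Pool.Agent.Work.Tools.Subspace
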