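import Pool.Agent.Work.Tools.Subspace.Basic
import Pool.Agent.Work.Tools.Subspace.Stmts
import Pool.Agent.Work.Tools.Subspace.Stmts2

/-!
# The Subspace theorem, item E: Taylor coefficients at small integral points vanish
-/

namespace Pool.Agent.Work.Tools.Subspace

open Finset Matrix MvPolynomial

namespace IE

theorem aeval_mem {K : Type} [Field K] (O : Subring K) {σ : Type} (G : MvPolynomial σ ℤ)
    (y : σ → K) (hy : ∀ p, y p ∈ O) : aeval y G ∈ O := by
  induction G using MvPolynomial.induction_on with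
  | C a => simp
  | add p q hp hq => rw [map_add]; exact O.add_mem hp hq
  | mul_X p i hp => rw [map_mul, aeval_X]; exact O.mul_mem hp (hy i)

/-- evaluation of the product of the bounds of the coordinates -/
theorem prod_eq {m : ℕ} {ι : Type} [Fintype ι] (t : Fin m × ι → ℕ) (b : ℝ) (τ : Fin m → ℝ)
    (c : ι → ℝ) (q : Fin m → ℝ) :
    ∏ p : Fin m × ι, (b * (τ p.1 * Real.exp (c p.2 * q p.1))) ^ t p =
      b ^ (∑ p, t p) * (∏ h, τ h ^ (∑ i, t (h, i))) *
        Real.exp (∑ h, ∑ i, q h * c i * (t (h, i) : ℝ)) := by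
  have h1 : ∀ p : Fin m × ι, (b * (τ p.1 * Real.exp (c p.2 * q p.1))) ^ t p =
      b ^ t p * (τ p.1 ^ t p * Real.exp (q p.1 * c p.2 * (t p : ℝ))) := by
    intro p
    rw [mul_pow, mul_pow, ← Real.exp_nat_mul]
    congr 3
    ring
  rw [Finset.prod_congr rfl fun p _ => h1 p, Finset.prod_mul_distrib, Finset.prod_mul_distrib,
    Finset.prod_pow_eq_pow_sum, ← Real.exp_sum, mul_assoc]
  congr 2
  · rw [Fintype.prod_prod_type]
    refine Finset.prod_congr rfl fun h _ => ?_
    exact Finset.prod_pow_eq_pow_sum univ (fun i => t (h, i)) (τ h)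
  · rw [Fintype.sum_prod_type]

end IE

theorem prfE (h0 : ClaimA0) (h2 : ClaimE2) (h3 : ClaimE3) : ClaimE := by
  intro K _ _ P ι _ _ _ A c hdet hsum
  set δ : ℝ := -∑ v, ∑ i, c v i with hδdef
  have hδ : 0 < δ := by linarith
  set n : ℕ := Fintype.card ι with hndef
  have hn : 0 < n := Fintype.card_pos
  have hn' : (0 : ℝ) < n := by exact_mod_cast hn
  set Sc : ℝ := ∑ v, ∑ i, |c v i| with hScdef
  have hSc : 0 ≤ Sc := Finset.sum_nonneg fun v _ => Finset.sum_nonneg fun i _ => abs_nonneg _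
  choose Cv hCv hE2 using fun v => h2 K P v ι (A v) (hdet v)
  refine ⟨min 1 (δ / (2 * n * (3 * n + 2) * (1 + Sc))), lt_min one_pos (by positivity),
    fun ε hε hεle m hm C β hC hβ => ?_⟩
  have hε1 : ε ≤ 1 := hεle.trans (min_le_left _ _)
  have hεδ : 2 * (n : ℝ) * (3 * n + 2) * ε * Sc ≤ δ := by
    have h4 := hεle.trans (min_le_right _ _)
    rw [le_div_iff₀ (by positivity)] at h4
    have h5 : 2 * (n : ℝ) * (3 * n + 2) * ε * Sc ≤ ε * (2 * n * (3 * n + 2) * (1 + Sc)) := by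
      have : 0 ≤ ε * (2 * (n : ℝ) * (3 * n + 2)) := by positivity
      nlinarith
    linarith
  set C' : ℝ := ∏ v, (Cv v * C ^ P.e v * β ^ P.e v) with hC'def
  have hC' : 1 ≤ C' := by
    refine Finset.one_le_prod fun v _ => ?_
    have h5 : 1 ≤ C ^ P.e v := one_le_pow₀ hC
    have h6 : 1 ≤ β ^ P.e v := one_le_pow₀ hβ
    exact one_le_mul_of_one_le_of_one_le (one_le_mul_of_one_le_of_one_le (hCv v) h5) h6
  have hlog : 0 ≤ Real.log C' := Real.log_nonneg hC'
  refine ⟨1 + 4 * n * Real.log C' / δ, by positivity, ?_⟩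
  intro r q R τ F k y hr hq hR hRr hrR hMH hCoef hBal hτ hτ1 hyO hyN hwt
  by_contra hz
  have hzO : tc F k y ∈ P.O := IE.aeval_mem P.O _ y hyO
  have h1 := one_le_prod_N P hzO hz
  have hmpos : (0 : ℝ) < m := by exact_mod_cast hm
  -- the choice of the monomials
  have hch : ∀ v, ∃ s ∈ (lsub (A v)⁻¹ F).support, ∃ u : Fin m × ι →₀ ℕ, u ≤ s ∧
      (∀ h, ∑ i, u (h, i) = ∑ i, k (h, i)) ∧
      P.N v (tc F k y) ≤ Cv v ^ (∑ h, r h) * (C ^ (∑ h, r h)) ^ P.e v *
        ∏ p : Fin m × ι, (β ^ P.e v * (τ p.1 v * Real.exp (c v p.2 * q p.1))) ^ (s p - u p) := by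
    intro v
    exact hE2 v m r F (C ^ (∑ h, r h)) k y
      (fun p => β ^ P.e v * (τ p.1 v * Real.exp (c v p.2 * q p.1))) hMH hCoef (one_le_pow₀ hC)
      (fun p => mul_pos (by positivity) (mul_pos (hτ _ _) (Real.exp_pos _)))
      (fun p => hyN v p.1 p.2) hz
  choose s hs u hus huk hN using hch
  have hMHs : ∀ v h, ∑ i, s v (h, i) = r h := fun v h =>
    h0 K ℤ m ι (A v)⁻¹ r F hMH (s v) (hs v) h
  -- the numerical inequality
  have hnum := h3 P.V ι c δ ε R m r q (fun h => ∑ i, k (h, i)) (fun v h i => s v (h, i))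
    (fun v h i => u v (h, i)) hδ (by linarith) hε hε1 hεδ hR hr hRr hrR
    (fun v h i => hus v (h, i)) hMHs (fun v h => huk v h)
    (by
      have : ∑ h, ((∑ i, k (h, i) : ℕ) : ℝ) / r h = wt r k := by
        simp [wt]
      rw [this]; exact hwt)
    (fun v i => hBal v (s v) (hs v) i)
  -- bound at every place
  set S : ℕ := ∑ h, r h with hSdef
  have hplace : ∀ v, P.N v (tc F k y) ≤ (Cv v * C ^ P.e v * β ^ P.e v) ^ S *
      ((∏ h, τ h v ^ (r h - ∑ i, k (h, i))) *
        Real.exp (∑ h, ∑ i, q h * c v i * ((s v (h, i) : ℝ) - u v (h, i)))) := by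
    intro v
    refine (hN v).trans ?_
    rw [IE.prod_eq (fun p => s v p - u v p) (β ^ P.e v) (fun h => τ h v) (c v) q]
    have e1 : ∀ h, ∑ i, (s v (h, i) - u v (h, i)) = r h - ∑ i, k (h, i) := by
      intro h
      rw [Finset.sum_tsub_distrib _ (fun i _ => hus v (h, i)), hMHs, huk]
    have e2 : ∑ p, (s v p - u v p) ≤ S := by
      rw [Fintype.sum_prod_type]
      refine Finset.sum_le_sum fun h _ => ?_
      rw [e1]; exact Nat.sub_le _ _
    have e3 : ∀ h i, ((s v (h, i) - u v (h, i) : ℕ) : ℝ) = (s v (h, i) : ℝ) - u v (h, i) :=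
      fun h i => Nat.cast_sub (hus v (h, i))
    simp only [e1, e3]
    have e4 : (β ^ P.e v) ^ (∑ p, (s v p - u v p)) ≤ (β ^ P.e v) ^ S :=
      pow_le_pow_right₀ (one_le_pow₀ hβ) e2
    have e5 : 0 ≤ (∏ h, τ h v ^ (r h - ∑ i, k (h, i))) *
        Real.exp (∑ h, ∑ i, q h * c v i * ((s v (h, i) : ℝ) - u v (h, i))) := by
      refine mul_nonneg (Finset.prod_nonneg fun h _ => pow_nonneg (hτ h v).le _)
        (Real.exp_pos _).le
    have e6 : 0 ≤ Cv v ^ S * (C ^ S) ^ P.e v := by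
      have := hCv v
      positivity
    calc Cv v ^ S * (C ^ S) ^ P.e v * ((β ^ P.e v) ^ (∑ p, (s v p - u v p)) *
          (∏ h, τ h v ^ (r h - ∑ i, k (h, i))) *
          Real.exp (∑ h, ∑ i, q h * c v i * ((s v (h, i) : ℝ) - u v (h, i))))
        = Cv v ^ S * (C ^ S) ^ P.e v * ((β ^ P.e v) ^ (∑ p, (s v p - u v p)) *
          ((∏ h, τ h v ^ (r h - ∑ i, k (h, i))) *
          Real.exp (∑ h, ∑ i, q h * c v i * ((s v (h, i) : ℝ) - u v (h, i))))) := by ring
      _ ≤ Cv v ^ S * (C ^ S) ^ P.e v * ((β ^ P.e v) ^ S *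
          ((∏ h, τ h v ^ (r h - ∑ i, k (h, i))) *
          Real.exp (∑ h, ∑ i, q h * c v i * ((s v (h, i) : ℝ) - u v (h, i))))) :=
          mul_le_mul_of_nonneg_left (mul_le_mul_of_nonneg_right e4 e5) e6
      _ = _ := by
          rw [mul_pow, mul_pow]
          have : (C ^ S) ^ P.e v = (C ^ P.e v) ^ S := by rw [← pow_mul, ← pow_mul, mul_comm]
          rw [this]
          ring
  have hprod : ∏ v, P.N v (tc F k y) ≤ C' ^ S * Real.exp (-(R * m * δ / (2 * n))) := by
    refine (Finset.prod_le_prod (fun v _ => N_nonneg P v _) fun v _ => hplace v).trans ?_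
    rw [Finset.prod_mul_distrib, Finset.prod_mul_distrib, Finset.prod_pow, Finset.prod_comm,
      ← Real.exp_sum]
    have e1 : ∏ h, ∏ v, τ h v ^ (r h - ∑ i, k (h, i)) = 1 := by
      refine Finset.prod_eq_one fun h _ => ?_
      rw [Finset.prod_pow, hτ1, one_pow]
    rw [e1, one_mul]
    refine mul_le_mul_of_nonneg_left (Real.exp_le_exp.mpr hnum) (by positivity)
  have h5 : 0 ≤ S * Real.log C' - R * m * δ / (2 * n) := by
    have h6 := h1.trans hprod
    have h7 := Real.log_nonneg h6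
    rw [Real.log_mul (by positivity) (Real.exp_pos _).ne', Real.log_pow, Real.log_exp] at h7
    linarith
  -- the final contradiction
  set q₁ : ℝ := 1 + 4 * n * Real.log C' / δ with hq₁
  have hq₁pos : 0 < q₁ := by positivity
  have hrh : ∀ h, (r h : ℝ) ≤ 2 * R / q₁ := by
    intro h
    rw [le_div_iff₀ hq₁pos]
    calc (r h : ℝ) * q₁ ≤ r h * q h := mul_le_mul_of_nonneg_left (hq h) (Nat.cast_nonneg _)
      _ ≤ (1 + ε) * R := hrR h
      _ ≤ 2 * R := by nlinarith
  have hS : (S : ℝ) ≤ m * (2 * R / q₁) := by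
    rw [hSdef, Nat.cast_sum]
    refine (Finset.sum_le_card_nsmul _ _ _ (fun h _ => hrh h)).trans ?_
    rw [Finset.card_univ, Fintype.card_fin, nsmul_eq_mul]
  have h8 : (S : ℝ) * Real.log C' ≤ m * (2 * R / q₁) * Real.log C' :=
    mul_le_mul_of_nonneg_right hS hlog
  have h9 : m * (2 * R / q₁) * Real.log C' < R * m * δ / (2 * n) := by
    have h10 : 4 * n * Real.log C' < q₁ * δ := by
      rw [hq₁, add_mul, div_mul_cancel₀ _ hδ.ne']
      linarith
    have h11 : m * (2 * R / q₁) * Real.log C' = (m * R / (2 * n * q₁)) * (4 * n * Real.log C') := by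
      field_simp
      ring
    have h12 : R * m * δ / (2 * n) = (m * R / (2 * n * q₁)) * (q₁ * δ) := by
      field_simp
    rw [h11, h12]
    exact mul_lt_mul_of_pos_left h10 (by positivity)
  linarith

end Pool.Agent.Work.Tools.Subspace
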