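import Pool.Agent.Work.Tools.Subspace.Basic
import Pool.Agent.Work.Tools.Subspace.Stmts2

/-!
# Subspace theorem, item E0: Taylor coefficients in the coordinates `A`
-/

namespace Pool.Agent.Work.Tools.Subspace

open Finset Matrix MvPolynomial

namespace IE0

theorem pow_expand {σ K : Type} [Fintype σ] [DecidableEq σ] [Field K] (L : σ → K)
    (Q : σ → MvPolynomial σ K) (s : σ →₀ ℕ) :
    ∏ p, (C (L p) + Q p) ^ s p = ∑ u ∈ Finset.Iic s,
      C ((∏ p, (((s p).choose (u p) : ℕ) : K)) * ∏ p, L p ^ (s p - u p)) * ∏ p, Q p ^ u p := by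
  have h1 : ∀ p, (C (L p) + Q p) ^ s p = ∑ m ∈ Finset.range (s p + 1),
      C (((s p).choose m : ℕ) : K) * C (L p ^ (s p - m)) * Q p ^ m := by
    intro p
    rw [add_comm, add_pow]
    refine Finset.sum_congr rfl fun m _ => ?_
    rw [C_pow]
    simp only [map_natCast]
    ring
  simp_rw [h1]
  rw [Finset.prod_univ_sum]
  refine Finset.sum_nbij' (fun f => Finsupp.equivFunOnFinite.symm f) (fun u => ⇑u) ?_ ?_ ?_ ?_ ?_
  · intro f hf
    rw [Fintype.mem_piFinset] at hf
    rw [Finset.mem_Iic]
    intro p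
    have := hf p
    rw [Finset.mem_range] at this
    simp only [Finsupp.equivFunOnFinite_symm_apply_apply]
    omega
  · intro u hu
    rw [Finset.mem_Iic] at hu
    rw [Fintype.mem_piFinset]
    intro p
    rw [Finset.mem_range]
    have := hu p
    omega
  · intro f _
    rfl
  · intro u _
    ext p
    rfl
  · intro f _
    rw [Finset.prod_mul_distrib, Finset.prod_mul_distrib]
    simp only [Finsupp.equivFunOnFinite_symm_apply_apply, map_mul, map_prod]

end IE0

theorem prfE0 : ClaimE0 := by
  intro K _ _ m ι _ _ A F k y hA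
  have hu : IsUnit A.det := isUnit_iff_ne_zero.mpr hA
  set G := lsub A⁻¹ F with hG
  have h1 : lsub A G = MvPolynomial.map (algebraMap ℤ K) F := by
    rw [hG, lsub_lsub, Matrix.nonsing_inv_mul A hu, lsub_one]
  have h2 : (aeval (fun i => (C (y i) + X i : MvPolynomial (Fin m × ι) K)) F) =
      aeval (fun p : Fin m × ι => (C ((A *ᵥ (fun i => y (p.1, i))) p.2) +
        ∑ j, C (A p.2 j) * X (p.1, j) : MvPolynomial (Fin m × ι) K)) G := by
    have h3 := aeval_map_algebraMap K (fun i => (C (y i) + X i : MvPolynomial (Fin m × ι) K)) F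
    rw [← h3, ← h1, aeval_lsub]
    congr 1
    congr 1
    funext p
    simp only [MvPolynomial.algebraMap_eq, mul_add, Finset.sum_add_distrib]
    congr 1
    rw [Matrix.mulVec, dotProduct, map_sum]
    simp only [map_mul]
  rw [tc, aeval_hd, h2, aeval_def, eval₂_eq', coeff_sum]
  refine Finset.sum_congr rfl fun s _ => ?_
  rw [MvPolynomial.algebraMap_eq, coeff_C_mul, IE0.pow_expand, coeff_sum, Finset.mul_sum]
  refine Finset.sum_congr rfl fun u _ => ?_
  rw [coeff_C_mul, lsub_monomial, map_one, map_one, one_mul]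
  ring

end Pool.Agent.Work.Tools.Subspace
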