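import Pool.Agent.Work.Tools.Subspace.Basic
import Pool.Agent.Work.Tools.Subspace.Stmts2

/-!
# Subspace theorem, item E1: size of coefficients after a linear substitution
-/

namespace Pool.Agent.Work.Tools.Subspace

open Finset Matrix MvPolynomial

namespace IE1

variable {K : Type} [Field K] (P : Places K) (v : P.V)

/-- the coefficients are bounded -/
def Bd {σ : Type} (M : ℝ) (Q : MvPolynomial σ K) : Prop := ∀ t, P.N v (coeff t Q) ≤ M

theorem Bd_one {σ : Type} : Bd P v 1 (1 : MvPolynomial σ K) := by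
  classical
  intro t
  rw [coeff_one]
  split_ifs
  · rw [N_one]
  · rw [N_zero]; norm_num

theorem Bd_lin {m : ℕ} {ι : Type} [Fintype ι] (B : Matrix ι ι K) (p : Fin m × ι)
    (b1 M : ℝ) (hb : ∀ i j, P.N v (B i j) ≤ b1) (hb0 : 0 ≤ b1) (hM : 0 ≤ M)
    (Q : MvPolynomial (Fin m × ι) K) (hQ : Bd P v M Q) :
    Bd P v (((Fintype.card ι : ℝ) + 1) ^ P.e v * b1 * M)
      ((∑ j, C (B p.2 j) * X (p.1, j)) * Q) := by
  classical
  intro t
  rw [Finset.sum_mul, coeff_sum]
  have h1 : ∀ j ∈ (univ : Finset ι), P.N v (coeff t (C (B p.2 j) * X (p.1, j) * Q)) ≤ b1 * M := by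
    intro j _
    rw [mul_assoc, coeff_C_mul, N_mul]
    refine mul_le_mul (hb _ _) ?_ (N_nonneg P v _) hb0
    rw [coeff_X_mul']
    split_ifs
    · exact hQ _
    · rw [N_zero]; exact hM
  refine (N_sum_le P v univ _ _ (by positivity) h1).trans ?_
  rw [mul_assoc]
  refine mul_le_mul_of_nonneg_right ?_ (by positivity)
  refine pow_le_pow_left₀ (Nat.cast_nonneg _) ?_ _
  rw [Finset.card_univ]
  linarith

theorem Bd_lin_pow {m : ℕ} {ι : Type} [Fintype ι] (B : Matrix ι ι K) (p : Fin m × ι)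
    (b1 M : ℝ) (hb : ∀ i j, P.N v (B i j) ≤ b1) (hb0 : 0 ≤ b1) (hM : 0 ≤ M)
    (Q : MvPolynomial (Fin m × ι) K) (hQ : Bd P v M Q) (k : ℕ) :
    Bd P v ((((Fintype.card ι : ℝ) + 1) ^ P.e v * b1) ^ k * M)
      ((∑ j, C (B p.2 j) * X (p.1, j)) ^ k * Q) := by
  induction k with
  | zero => simpa using hQ
  | succ k ih =>
    have h := Bd_lin P v B p b1 _ hb hb0 (by positivity) _ ih
    have e1 : (∑ j, C (B p.2 j) * X (p.1, j)) ^ (k + 1) * Q =
        (∑ j, C (B p.2 j) * X (p.1, j)) * ((∑ j, C (B p.2 j) * X (p.1, j)) ^ k * Q) := by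
      rw [pow_succ]; ring
    rw [e1]
    convert h using 1
    rw [pow_succ]; ring

theorem Bd_prod {m : ℕ} {ι : Type} [Fintype ι] [DecidableEq ι] (B : Matrix ι ι K)
    (b1 : ℝ) (hb : ∀ i j, P.N v (B i j) ≤ b1) (hb0 : 0 ≤ b1) (s : Fin m × ι →₀ ℕ)
    (T : Finset (Fin m × ι)) :
    Bd P v ((((Fintype.card ι : ℝ) + 1) ^ P.e v * b1) ^ (∑ p ∈ T, s p))
      (∏ p ∈ T, (∑ j, C (B p.2 j) * X (p.1, j)) ^ s p) := by
  induction T using Finset.induction_on with
  | empty => simpa using Bd_one P v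
  | insert p T hp ih =>
    rw [Finset.prod_insert hp, Finset.sum_insert hp, pow_add]
    exact Bd_lin_pow P v B p b1 _ hb hb0 (by positivity) _ ih _

end IE1

theorem prfE1 (h4 : ClaimA4) : ClaimE1 := by
  intro K _ _ P v ι _ _ B
  have hsum : 0 ≤ ∑ i, ∑ j, P.N v (B i j) :=
    Finset.sum_nonneg fun i _ => Finset.sum_nonneg fun j _ => N_nonneg P v _
  obtain ⟨b1, hb1⟩ : ∃ b1 : ℝ, b1 = 1 + ∑ i, ∑ j, P.N v (B i j) := ⟨_, rfl⟩
  have hb1' : 1 ≤ b1 := by rw [hb1]; linarith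
  have hb : ∀ i j, P.N v (B i j) ≤ b1 := by
    intro i j
    have h1 := Finset.single_le_sum (f := fun j => P.N v (B i j)) (fun j _ => N_nonneg P v (B i j))
      (mem_univ j)
    have h2 := Finset.single_le_sum (f := fun i => ∑ j, P.N v (B i j))
      (fun i _ => Finset.sum_nonneg fun j _ => N_nonneg P v (B i j)) (mem_univ i)
    rw [hb1]; linarith
  obtain ⟨c, hc⟩ : ∃ c : ℝ, c = ((Fintype.card ι : ℝ) + 1) ^ P.e v * b1 := ⟨_, rfl⟩
  have hc1 : 1 ≤ c := by
    rw [hc]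
    have : (1 : ℝ) ≤ ((Fintype.card ι : ℝ) + 1) ^ P.e v :=
      one_le_pow₀ (by have : (0 : ℝ) ≤ Fintype.card ι := Nat.cast_nonneg _; linarith)
    nlinarith
  refine ⟨((2 : ℝ) ^ Fintype.card ι) ^ P.e v * c, ?_, ?_⟩
  · have : (1 : ℝ) ≤ ((2 : ℝ) ^ Fintype.card ι) ^ P.e v :=
      one_le_pow₀ (one_le_pow₀ (by norm_num))
    nlinarith
  intro m r F b hF hFb hb' t
  have hdec : lsub B F = ∑ s ∈ F.support, lsub B (monomial s (coeff s F)) := by
    conv_lhs => rw [F.as_sum]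
    rw [lsub_sum]
  have hcard : (F.support.card : ℝ) ≤ (2 : ℝ) ^ (Fintype.card ι * ∑ h, r h) := by
    have h1 : F.support.card ≤ (mons (ι := ι) r).card := by
      refine Finset.card_le_card_of_injOn (fun s h i => s (h, i)) ?_ ?_
      · intro s hs
        rw [mons, Finset.mem_coe, Fintype.mem_piFinset]
        intro h
        rw [Finset.mem_piAntidiag]
        exact ⟨hF s hs h, fun i _ => mem_univ i⟩
      · intro s _ s' _ he
        ext ⟨h, i⟩
        exact congrFun (congrFun he h) i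
    have h2 := h1.trans (h4 m ι r)
    exact_mod_cast h2
  rw [hdec, coeff_sum]
  have hterm : ∀ s ∈ F.support, P.N v (coeff t (lsub B (monomial s (coeff s F)))) ≤
      b ^ P.e v * c ^ (∑ h, r h) := by
    intro s hs
    rw [lsub_monomial, coeff_C_mul, N_mul]
    refine mul_le_mul ?_ ?_ (N_nonneg P v _) (by positivity)
    · have := N_intCast_le P v (coeff s F) hb' (hFb s)
      simpa using this
    · have h1 := IE1.Bd_prod P v B b1 hb (by linarith) s univ t
      have h2 : ∑ p, s p = ∑ h, r h := by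
        rw [Fintype.sum_prod_type]
        exact Finset.sum_congr rfl fun h _ => hF s hs h
      rw [h2, ← hc] at h1
      exact h1
  refine (N_sum_le P v _ _ _ (by positivity) hterm).trans ?_
  calc (F.support.card : ℝ) ^ P.e v * (b ^ P.e v * c ^ (∑ h, r h))
      ≤ ((2 : ℝ) ^ (Fintype.card ι * ∑ h, r h)) ^ P.e v * (b ^ P.e v * c ^ (∑ h, r h)) := by
        refine mul_le_mul_of_nonneg_right ?_ (by positivity)
        exact pow_le_pow_left₀ (Nat.cast_nonneg _) hcard _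
    _ = (((2 : ℝ) ^ Fintype.card ι) ^ P.e v * c) ^ (∑ h, r h) * b ^ P.e v := by
        rw [mul_pow, ← pow_mul, ← pow_mul, ← pow_mul]
        ring

end Pool.Agent.Work.Tools.Subspace
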