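import Pool.Agent.Work.Tools.Subspace.Basic
import Pool.Agent.Work.Tools.Subspace.Stmts
import Pool.Agent.Work.Tools.Subspace.Stmts2

/-!
# The Subspace theorem: item E2 (size of a Taylor coefficient)
-/

namespace Pool.Agent.Work.Tools.Subspace

open Finset Matrix MvPolynomial

namespace IE2

theorem sum_pairs {m : ℕ} {ι : Type} [Fintype ι] (s : Fin m × ι →₀ ℕ) :
    ∑ p, s p = ∑ h, ∑ i, s (h, i) := by
  rw [← Finset.univ_product_univ, Finset.sum_product]

theorem MH_sum {m : ℕ} {ι R : Type} [Fintype ι] [CommRing R] {r : Fin m → ℕ}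
    {F : MvPolynomial (Fin m × ι) R} (hF : MH r F) {s : Fin m × ι →₀ ℕ} (hs : s ∈ F.support) :
    ∑ p, s p = ∑ h, r h := by
  rw [sum_pairs]
  exact Finset.sum_congr rfl fun h _ => hF s hs h

theorem card_support_le (h4 : ClaimA4) {m : ℕ} {ι R : Type} [Fintype ι] [DecidableEq ι]
    [CommRing R] {r : Fin m → ℕ} {F : MvPolynomial (Fin m × ι) R} (hF : MH r F) :
    F.support.card ≤ 2 ^ (Fintype.card ι * ∑ h, r h) := by
  refine le_trans ?_ (h4 m ι r)
  refine Finset.card_le_card_of_injOn (fun s => fun h i => s (h, i)) ?_ ?_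
  · intro s hs
    rw [Finset.mem_coe] at hs ⊢
    rw [mons, Fintype.mem_piFinset]
    intro h
    rw [Finset.mem_piAntidiag]
    exact ⟨hF s hs h, fun i _ => Finset.mem_univ i⟩
  · intro s _ t _ hst
    ext ⟨h, i⟩
    exact congrFun (congrFun hst h) i

theorem card_Iic_le {σ : Type} [Fintype σ] [DecidableEq σ] (s : σ →₀ ℕ) :
    (Finset.Iic s).card ≤ 2 ^ (∑ p, s p) := by
  rw [Finsupp.card_Iic]
  calc ∏ i ∈ s.support, (Finset.Iic (s i)).card ≤ ∏ i ∈ s.support, 2 ^ (s i) := by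
        refine Finset.prod_le_prod' fun i _ => ?_
        rw [Nat.card_Iic]
        exact Nat.lt_two_pow_self
    _ = 2 ^ (∑ i ∈ s.support, s i) := Finset.prod_pow_eq_pow_sum _ _ _
    _ = 2 ^ (∑ p, s p) := by
        congr 1
        refine Finset.sum_subset (Finset.subset_univ _) fun i _ hi => ?_
        simpa using hi

theorem prod_choose_le {σ : Type} [Fintype σ] (s u : σ →₀ ℕ) :
    ∏ p, (s p).choose (u p) ≤ 2 ^ (∑ p, s p) := by
  rw [← Finset.prod_pow_eq_pow_sum]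
  exact Finset.prod_le_prod' fun p _ => Nat.choose_le_two_pow _ _

end IE2

open IE2 in
theorem prfE2 (h0 : ClaimA0) (h4 : ClaimA4) (e0 : ClaimE0) (e1 : ClaimE1) : ClaimE2 := by
  intro K _ _ P v ι _ _ A hA
  obtain ⟨C1, hC1, H1⟩ := e1 K P v ι A⁻¹
  obtain ⟨C2, hC2, H2⟩ := e1 K P v ι A
  have hC10 : (0 : ℝ) ≤ C1 := by linarith
  have hC20 : (0 : ℝ) ≤ C2 := by linarith
  refine ⟨(2 ^ (Fintype.card ι + 2)) ^ P.e v * C1 * C2, ?_, ?_⟩
  · have h1 : (1 : ℝ) ≤ (2 ^ (Fintype.card ι + 2)) ^ P.e v :=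
      one_le_pow₀ (one_le_pow₀ (by norm_num))
    exact one_le_mul_of_one_le_of_one_le (one_le_mul_of_one_le_of_one_le h1 hC1) hC2
  intro m r F b k y β hF hFb hb hβ hy htc
  set S := ∑ h, r h with hS
  set G := lsub A⁻¹ F with hGdef
  have hG : MH r G := h0 K ℤ m ι A⁻¹ r F hF
  set T : (Fin m × ι →₀ ℕ) → (Fin m × ι →₀ ℕ) → K := fun s u =>
    coeff s G * (∏ p, (((s p).choose (u p) : ℕ) : K)) *
        (∏ p : Fin m × ι, (A *ᵥ (fun i => y (p.1, i))) p.2 ^ (s p - u p)) *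
          coeff k (lsub A (monomial u (1 : ℤ))) with hT
  have hmon : ∀ u : Fin m × ι →₀ ℕ, MH (fun h => ∑ i, u (h, i)) (monomial u (1 : ℤ)) := by
    intro u s hs h
    have h1 := MvPolynomial.support_monomial_subset hs
    rw [Finset.mem_singleton] at h1
    rw [h1]
  have hsum0 : tc F k y = ∑ x ∈ G.support.sigma (fun s => Finset.Iic s), T x.1 x.2 := by
    rw [e0 K m ι A F k y hA, Finset.sum_sigma]
  set Pr := (G.support.sigma (fun s => Finset.Iic s)).filter
    (fun x => ∀ h, ∑ i, x.2 (h, i) = ∑ i, k (h, i)) with hPr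
  have hsum : tc F k y = ∑ x ∈ Pr, T x.1 x.2 := by
    rw [hsum0, hPr, Finset.sum_filter_of_ne]
    rintro ⟨s, u⟩ _ hne h
    have h1 : coeff k (lsub A (monomial u (1 : ℤ))) ≠ 0 := by
      intro h2
      apply hne
      simp only [hT]
      rw [h2, mul_zero]
    have h3 := h0 K ℤ m ι A _ _ (hmon u) k (MvPolynomial.mem_support_iff.mpr h1) h
    exact h3.symm
  have hne : Pr.Nonempty := by
    by_contra h
    rw [Finset.not_nonempty_iff_eq_empty] at h
    rw [h, Finset.sum_empty] at hsum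
    exact htc hsum
  obtain ⟨x, hx, hmax⟩ := Finset.exists_max_image Pr
    (fun x => ∏ p, β p ^ (x.1 p - x.2 p)) hne
  have hxP := hx
  rw [hPr, Finset.mem_filter, Finset.mem_sigma] at hx
  obtain ⟨⟨hx1, hx2⟩, hx3⟩ := hx
  refine ⟨x.1, hx1, x.2, Finset.mem_Iic.mp hx2, hx3, ?_⟩
  have hB0 : 0 ≤ ∏ p, β p ^ (x.1 p - x.2 p) :=
    Finset.prod_nonneg fun p _ => pow_nonneg (hβ p).le _
  have hbe : (0 : ℝ) ≤ b ^ P.e v := by positivity
  have hterm : ∀ z ∈ Pr, P.N v (T z.1 z.2) ≤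
      C1 ^ S * b ^ P.e v * ((2 : ℝ) ^ S) ^ P.e v * (∏ p, β p ^ (x.1 p - x.2 p)) * C2 ^ S := by
    rintro ⟨s, u⟩ hz
    have hz1 := hz
    rw [hPr, Finset.mem_filter, Finset.mem_sigma] at hz1
    obtain ⟨⟨hs, hu⟩, -⟩ := hz1
    simp only at hs hu
    rw [Finset.mem_Iic] at hu
    have hsS : ∑ p, s p = S := MH_sum hG hs
    simp only [hT]
    rw [N_mul, N_mul, N_mul]
    have a1 : P.N v (coeff s G) ≤ C1 ^ S * b ^ P.e v := H1 m r F b hF hFb hb s
    have a2 : P.N v (∏ p, (((s p).choose (u p) : ℕ) : K)) ≤ ((2 : ℝ) ^ S) ^ P.e v := by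
      have h1 : (∏ p, (((s p).choose (u p) : ℕ) : K)) =
          (((∏ p, (s p).choose (u p) : ℕ) : ℤ) : K) := by push_cast; rfl
      rw [h1]
      refine N_intCast_le P v _ (one_le_pow₀ (by norm_num)) ?_
      have h2 : ∏ p, (s p).choose (u p) ≤ 2 ^ S := hsS ▸ prod_choose_le s u
      rw [Int.cast_natCast, abs_of_nonneg (Nat.cast_nonneg _)]
      exact_mod_cast h2
    have a3 : P.N v (∏ p : Fin m × ι, (A *ᵥ (fun i => y (p.1, i))) p.2 ^ (s p - u p)) ≤
        ∏ p, β p ^ (x.1 p - x.2 p) := by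
      rw [N_prod]
      refine le_trans (Finset.prod_le_prod (fun p _ => N_nonneg P v _) fun p _ => ?_)
        (hmax ⟨s, u⟩ hz)
      rw [N_pow]
      exact pow_le_pow_left₀ (N_nonneg P v _) (hy p) _
    have a4 : P.N v (coeff k (lsub A (monomial u (1 : ℤ)))) ≤ C2 ^ S := by
      have h1 := H2 m _ (monomial u (1 : ℤ)) 1 (hmon u) (by
        intro t
        rw [MvPolynomial.coeff_monomial]
        split_ifs <;> simp) le_rfl k
      rw [one_pow, mul_one] at h1
      refine h1.trans (pow_le_pow_right₀ hC2 ?_)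
      rw [← sum_pairs, ← hsS]
      exact Finset.sum_le_sum fun p _ => hu p
    refine mul_le_mul (mul_le_mul (mul_le_mul a1 a2 (N_nonneg P v _) (by positivity)) a3
      (N_nonneg P v _) (by positivity)) a4 (N_nonneg P v _) (by positivity)
  have hcard : (Pr.card : ℝ) ≤ 2 ^ ((Fintype.card ι + 1) * S) := by
    have h1 : Pr.card ≤ 2 ^ ((Fintype.card ι + 1) * S) := by
      calc Pr.card ≤ (G.support.sigma (fun s => Finset.Iic s)).card := Finset.card_filter_le _ _
        _ = ∑ s ∈ G.support, (Finset.Iic s).card := Finset.card_sigma _ _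
        _ ≤ ∑ s ∈ G.support, 2 ^ S := by
            refine Finset.sum_le_sum fun s hs => ?_
            have h5 : ∑ p, s p = S := MH_sum hG hs
            rw [← h5]
            exact card_Iic_le s
        _ = G.support.card * 2 ^ S := by rw [Finset.sum_const, smul_eq_mul]
        _ ≤ 2 ^ (Fintype.card ι * S) * 2 ^ S := Nat.mul_le_mul_right _ (card_support_le h4 hG)
        _ = 2 ^ ((Fintype.card ι + 1) * S) := by rw [← pow_add]; ring_nf
    exact_mod_cast h1
  rw [hsum]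
  refine (N_sum_le P v Pr _ _ (by positivity) hterm).trans ?_
  calc (Pr.card : ℝ) ^ P.e v * (C1 ^ S * b ^ P.e v * ((2 : ℝ) ^ S) ^ P.e v *
        (∏ p, β p ^ (x.1 p - x.2 p)) * C2 ^ S)
      ≤ ((2 : ℝ) ^ ((Fintype.card ι + 1) * S)) ^ P.e v * (C1 ^ S * b ^ P.e v *
        ((2 : ℝ) ^ S) ^ P.e v * (∏ p, β p ^ (x.1 p - x.2 p)) * C2 ^ S) := by
        refine mul_le_mul_of_nonneg_right (pow_le_pow_left₀ (Nat.cast_nonneg _) hcard _)
          (by positivity)
    _ = ((2 ^ (Fintype.card ι + 2)) ^ P.e v * C1 * C2) ^ S * b ^ P.e v *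
        ∏ p, β p ^ (x.1 p - x.2 p) := by
        have h1 : ((2 : ℝ) ^ ((Fintype.card ι + 1) * S)) ^ P.e v * ((2 : ℝ) ^ S) ^ P.e v =
            ((2 ^ (Fintype.card ι + 2)) ^ P.e v) ^ S := by
          rw [← mul_pow, ← pow_add, ← pow_mul, ← pow_mul, ← pow_mul]
          congr 1
          ring
        rw [mul_pow, mul_pow, ← h1]
        ring

end Pool.Agent.Work.Tools.Subspace
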