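import Pool.Agent.Work.Tools.Subspace.Basic
import Pool.Agent.Work.Tools.Subspace.Stmts
import Pool.Agent.Work.Tools.Subspace.Stmts2

/-!
# Subspace theorem: the numerical inequality E3
-/

namespace Pool.Agent.Work.Tools.Subspace

theorem prfE3 : ClaimE3 := by
  classical
  intro V ι _ _ _ c δ ε R m r q κ s u hδ hc hε hε1 hS hR hr hq1 hq2 hus hs hu hκ hσ
  set n : ℝ := (Fintype.card ι : ℝ) with hn
  have hn1 : 1 ≤ n := by
    rw [hn]; exact_mod_cast Fintype.card_pos (α := ι)
  have hn0 : 0 < n := by linarith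
  have hm0 : (0 : ℝ) ≤ m := Nat.cast_nonneg m
  have hrpos : ∀ h, (0 : ℝ) < r h := fun h => by exact_mod_cast hr h
  have hq0 : ∀ h, 0 ≤ q h := by
    intro h
    by_contra hneg
    push Not at hneg
    have h1 := mul_neg_of_pos_of_neg (hrpos h) hneg
    have h2 := hq1 h
    linarith
  set σ : V → ι → ℝ := fun v i => ∑ h, (s v h i : ℝ) / r h with hσdef
  have hσsum : ∀ v, ∑ i, σ v i = m := by
    intro v
    rw [hσdef]
    simp only
    rw [Finset.sum_comm]
    have : ∀ h : Fin m, ∑ i, (s v h i : ℝ) / r h = 1 := by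
      intro h
      rw [← Finset.sum_div]
      have h1 : (∑ i, (s v h i : ℝ)) = (r h : ℝ) := by exact_mod_cast hs v h
      rw [h1]
      exact div_self (hrpos h).ne'
    rw [Finset.sum_congr rfl (fun h _ => this h)]
    simp
  have hσup : ∀ v i, σ v i ≤ m / n + (n - 1) * (ε * m) := by
    intro v i
    have h1 := hσsum v
    rw [← Finset.add_sum_erase Finset.univ (σ v) (Finset.mem_univ i)] at h1
    have h2 : ∑ _j ∈ Finset.univ.erase i, ((1 / n - ε) * m) ≤
        ∑ j ∈ Finset.univ.erase i, σ v j := Finset.sum_le_sum fun j _ => hσ v j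
    rw [Finset.sum_const, Finset.card_erase_of_mem (Finset.mem_univ i), Finset.card_univ,
      nsmul_eq_mul] at h2
    have h3 : ((Fintype.card ι - 1 : ℕ) : ℝ) = n - 1 := by
      rw [Nat.cast_sub (Fintype.card_pos (α := ι))]
      simp [hn]
    rw [h3] at h2
    have h4 : (n - 1) * ((1 / n - ε) * m) = m - m / n - (n - 1) * (ε * m) := by
      field_simp
    linarith
  set a : V → ι → ℝ := fun v i => ∑ h, q h * ((s v h i : ℝ) - u v h i) with hadef
  have haU : ∀ v i, a v i ≤ (1 + ε) * R * σ v i := by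
    intro v i
    rw [hadef, hσdef]
    simp only
    rw [Finset.mul_sum]
    refine Finset.sum_le_sum fun h _ => ?_
    have h1 : (0 : ℝ) ≤ u v h i := Nat.cast_nonneg _
    have h2 : (0 : ℝ) ≤ (s v h i : ℝ) / r h := div_nonneg (Nat.cast_nonneg _) (hrpos h).le
    have h3 : q h * (s v h i : ℝ) = (r h * q h) * ((s v h i : ℝ) / r h) := by
      have := (hrpos h).ne'
      field_simp
    have h4 : (r h * q h) * ((s v h i : ℝ) / r h) ≤ ((1 + ε) * R) * ((s v h i : ℝ) / r h) :=
      mul_le_mul_of_nonneg_right (hq2 h) h2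
    have h5 : 0 ≤ q h * (u v h i : ℝ) := mul_nonneg (hq0 h) h1
    nlinarith
  have haL : ∀ v i, R * σ v i - 4 * (ε * m) * R ≤ a v i := by
    intro v i
    have e1 : a v i = ∑ h, q h * (s v h i : ℝ) - ∑ h, q h * (u v h i : ℝ) := by
      rw [hadef, ← Finset.sum_sub_distrib]
      exact Finset.sum_congr rfl fun h _ => by ring
    have h1 : R * σ v i ≤ ∑ h, q h * (s v h i : ℝ) := by
      rw [hσdef]
      simp only
      rw [Finset.mul_sum]
      refine Finset.sum_le_sum fun h _ => ?_
      have h2 : (0 : ℝ) ≤ (s v h i : ℝ) / r h := div_nonneg (Nat.cast_nonneg _) (hrpos h).le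
      have h3 : q h * (s v h i : ℝ) = (r h * q h) * ((s v h i : ℝ) / r h) := by
        have := (hrpos h).ne'
        field_simp
      rw [h3]
      exact mul_le_mul_of_nonneg_right (hq1 h) h2
    have h2 : ∑ h, q h * (u v h i : ℝ) ≤ ∑ h, ((1 + ε) * R) * ((κ h : ℝ) / r h) := by
      refine Finset.sum_le_sum fun h _ => ?_
      have hui : (u v h i : ℝ) ≤ κ h := by
        have : u v h i ≤ κ h := by
          rw [← hu v h]
          exact Finset.single_le_sum (f := fun i => u v h i) (fun _ _ => Nat.zero_le _)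
            (Finset.mem_univ i)
        exact_mod_cast this
      have h3 : q h * (κ h : ℝ) = (r h * q h) * ((κ h : ℝ) / r h) := by
        have := (hrpos h).ne'
        field_simp
      have h4 : (0 : ℝ) ≤ (κ h : ℝ) / r h := div_nonneg (Nat.cast_nonneg _) (hrpos h).le
      calc q h * (u v h i : ℝ) ≤ q h * (κ h : ℝ) := mul_le_mul_of_nonneg_left hui (hq0 h)
        _ = (r h * q h) * ((κ h : ℝ) / r h) := h3
        _ ≤ ((1 + ε) * R) * ((κ h : ℝ) / r h) := mul_le_mul_of_nonneg_right (hq2 h) h4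
    rw [← Finset.mul_sum] at h2
    have h3 : ((1 + ε) * R) * ∑ h, (κ h : ℝ) / r h ≤ (2 * R) * (2 * (ε * m)) := by
      have h4 : (0 : ℝ) ≤ ∑ h, (κ h : ℝ) / r h :=
        Finset.sum_nonneg fun h _ => div_nonneg (Nat.cast_nonneg _) (hrpos h).le
      have h5 : (1 + ε) * R ≤ 2 * R := by nlinarith
      calc ((1 + ε) * R) * ∑ h, (κ h : ℝ) / r h ≤ (2 * R) * ∑ h, (κ h : ℝ) / r h :=
            mul_le_mul_of_nonneg_right h5 h4
        _ ≤ (2 * R) * (2 * (ε * m)) := mul_le_mul_of_nonneg_left hκ (by linarith)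
    rw [e1]
    nlinarith
  have hεm : 0 ≤ ε * m := mul_nonneg hε.le hm0
  have hA : ∀ v i, |a v i - R * m / n| ≤ (3 * n + 2) * ε * R * m := by
    intro v i
    have hRm : 0 ≤ R * (ε * m) := mul_nonneg hR.le hεm
    rw [abs_le]
    constructor
    · have h1 := haL v i
      have h2 := mul_le_mul_of_nonneg_left (hσ v i) hR.le
      have h3 : R * ((1 / n - ε) * m) = R * m / n - R * (ε * m) := by ring
      have h4 : (3 * n + 2) * ε * R * m = (3 * n + 2) * (R * (ε * m)) := by ring
      rw [h4]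
      rw [h3] at h2
      nlinarith
    · have h1 := haU v i
      have h2 : 0 ≤ (1 + ε) * R := mul_nonneg (by linarith) hR.le
      have h3 := mul_le_mul_of_nonneg_left (hσup v i) h2
      have h4 : (1 + ε) * R * (m / n + (n - 1) * (ε * m)) =
          R * m / n + (R * (ε * m)) * (1 / n) + (R * (ε * m)) * (n - 1)
            + (R * (ε * m)) * (n - 1) * ε := by
        field_simp; ring
      have h5 : (R * (ε * m)) * (1 / n) ≤ (R * (ε * m)) * 1 := by
        refine mul_le_mul_of_nonneg_left ?_ hRm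
        rw [div_le_one hn0]; exact hn1
      have h6 : (R * (ε * m)) * (n - 1) * ε ≤ (R * (ε * m)) * (n - 1) * 1 :=
        mul_le_mul_of_nonneg_left hε1 (mul_nonneg hRm (by linarith))
      have h7 : (3 * n + 2) * ε * R * m = (3 * n + 2) * (R * (ε * m)) := by ring
      rw [h7]
      nlinarith
  -- exchange of the order of summation
  have hsum : ∑ v, ∑ h, ∑ i, q h * c v i * ((s v h i : ℝ) - u v h i) =
      ∑ v, ∑ i, c v i * a v i := by
    refine Finset.sum_congr rfl fun v _ => ?_
    rw [Finset.sum_comm]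
    refine Finset.sum_congr rfl fun i _ => ?_
    rw [hadef, Finset.mul_sum]
    exact Finset.sum_congr rfl fun h _ => by ring
  rw [hsum]
  have hsplit : ∑ v, ∑ i, c v i * a v i =
      (R * m / n) * ∑ v, ∑ i, c v i + ∑ v, ∑ i, c v i * (a v i - R * m / n) := by
    rw [Finset.mul_sum, ← Finset.sum_add_distrib]
    refine Finset.sum_congr rfl fun v _ => ?_
    rw [Finset.mul_sum, ← Finset.sum_add_distrib]
    exact Finset.sum_congr rfl fun i _ => by ring
  have herr : ∑ v, ∑ i, c v i * (a v i - R * m / n) ≤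
      (∑ v, ∑ i, |c v i|) * ((3 * n + 2) * ε * R * m) := by
    rw [Finset.sum_mul]
    refine Finset.sum_le_sum fun v _ => ?_
    rw [Finset.sum_mul]
    refine Finset.sum_le_sum fun i _ => ?_
    calc c v i * (a v i - R * m / n) ≤ |c v i * (a v i - R * m / n)| := le_abs_self _
      _ = |c v i| * |a v i - R * m / n| := abs_mul _ _
      _ ≤ _ := mul_le_mul_of_nonneg_left (hA v i) (abs_nonneg _)
  have hRm : 0 ≤ R * m := mul_nonneg hR.le hm0
  have h1 : (R * m / n) * ∑ v, ∑ i, c v i ≤ (R * m / n) * (-δ) :=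
    mul_le_mul_of_nonneg_left hc (div_nonneg hRm hn0.le)
  have h2 : (∑ v, ∑ i, |c v i|) * ((3 * n + 2) * ε * R * m) ≤ R * m * δ / (2 * n) := by
    have h3 : (∑ v, ∑ i, |c v i|) * ((3 * n + 2) * ε * R * m) =
        (R * m / (2 * n)) * (2 * n * (3 * n + 2) * ε * (∑ v, ∑ i, |c v i|)) := by
      field_simp
    rw [h3]
    have h4 : R * m * δ / (2 * n) = (R * m / (2 * n)) * δ := by ring
    rw [h4]
    exact mul_le_mul_of_nonneg_left hS (div_nonneg hRm (by linarith))
  rw [hsplit]
  have h5 : (R * m / n) * (-δ) + R * m * δ / (2 * n) = -(R * m * δ / (2 * n)) := by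
    field_simp; ring
  linarith

end Pool.Agent.Work.Tools.Subspace
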