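import Pool.Agent.Work.Tools.Subspace.Basic
import Pool.Agent.Work.Tools.Subspace.Stmts
import Pool.Agent.Work.Tools.Subspace.Stmts2

set_option autoImplicit false

namespace Pool.Agent.Work.Tools.Subspace

open Finset MvPolynomial

namespace IG1

variable {K : Type} [Field K] [CharZero K]

/-- the one variable statement: the Hermite interpolation map is injective, dual form -/
lemma one_var (d o B : ℕ) (h : d < (B + 1) * (o + 1)) :
    ∃ L : ℕ → ℕ → ℕ → K, ∀ s s', s ≤ d → s' ≤ d →
      ∑ k ∈ range (o + 1), ∑ y ∈ range (B + 1),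
        L s' k y * ((s.choose k : K) * (y : K) ^ (s - k)) = if s = s' then 1 else 0 := by
  classical
  let φ : (Fin (d + 1) → K) →ₗ[K] (Fin (o + 1) × Fin (B + 1) → K) :=
    { toFun := fun g p => ∑ s : Fin (d + 1), g s * (((s : ℕ).choose (p.1 : ℕ) : K) *
        (((p.2 : ℕ) : K)) ^ ((s : ℕ) - (p.1 : ℕ)))
      map_add' := fun g g' => by
        ext p
        simp only [Pi.add_apply, add_mul, Finset.sum_add_distrib]
      map_smul' := fun a g => by
        ext p
        simp only [Pi.smul_apply, smul_eq_mul, RingHom.id_apply, Finset.mul_sum, mul_assoc] }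
  have hinj : LinearMap.ker φ = ⊥ := by
    rw [LinearMap.ker_eq_bot']
    intro g hg
    let G : Polynomial K := ∑ s : Fin (d + 1), Polynomial.monomial (s : ℕ) (g s)
    have hGc : ∀ s : Fin (d + 1), G.coeff (s : ℕ) = g s := by
      intro s
      simp only [G, Polynomial.finsetSum_coeff, Polynomial.coeff_monomial]
      rw [Finset.sum_eq_single s]
      · simp
      · intro j _ hj
        rw [if_neg]
        exact fun hji => hj (Fin.ext hji)
      · intro hi
        exact absurd (mem_univ s) hi
    have hGd : G.natDegree ≤ d := by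
      refine Polynomial.natDegree_sum_le_of_forall_le _ _ fun s _ => ?_
      exact (Polynomial.natDegree_monomial_le _).trans (Nat.lt_succ_iff.mp s.2)
    have hev : ∀ k ≤ o, ∀ y ≤ B, (Polynomial.hasseDeriv k G).eval (y : K) = 0 := by
      intro k hk y hy
      have h1 := congrFun hg (⟨k, by omega⟩, ⟨y, by omega⟩)
      simp only [φ, LinearMap.coe_mk, AddHom.coe_mk, Pi.zero_apply] at h1
      rw [← h1]
      simp only [G, map_sum, Polynomial.hasseDeriv_monomial, Polynomial.eval_finsetSum,
        Polynomial.eval_monomial]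
      refine Finset.sum_congr rfl fun s _ => ?_
      ring
    have hG0 : G = 0 := by
      by_contra hne
      have hdvd : ∀ y ∈ range (B + 1), (Polynomial.X - Polynomial.C ((y : ℕ) : K)) ^ (o + 1) ∣ G := by
        intro y hy
        rw [Polynomial.X_sub_C_pow_dvd_iff, ← Polynomial.taylor_apply, Polynomial.X_pow_dvd_iff]
        intro k hk
        rw [Polynomial.taylor_coeff]
        exact hev k (by omega) y (by have := mem_range.mp hy; omega)
      have hcop : (∏ y ∈ range (B + 1), (Polynomial.X - Polynomial.C ((y : ℕ) : K)) ^ (o + 1)) ∣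
          G := by
        refine Finset.prod_dvd_of_coprime ?_ hdvd
        intro y _ y' _ hyy
        refine IsCoprime.pow (Polynomial.isCoprime_X_sub_C_of_isUnit_sub ?_)
        rw [isUnit_iff_ne_zero, sub_ne_zero]
        exact fun h => hyy (by exact_mod_cast h)
      have h2 := Polynomial.natDegree_le_of_dvd hcop hne
      rw [Polynomial.natDegree_prod_of_monic _ _ (fun y _ => (Polynomial.monic_X_sub_C _).pow _)]
        at h2
      simp only [Polynomial.natDegree_pow, Polynomial.natDegree_X_sub_C, mul_one,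
        Finset.sum_const, Finset.card_range, smul_eq_mul] at h2
      omega
    ext s
    rw [← hGc s, hG0]
    simp
  obtain ⟨ψ, hψ⟩ := φ.exists_leftInverse_of_injective hinj
  refine ⟨fun s' k y => if hs : s' < d + 1 then if hk : k < o + 1 then if hy : y < B + 1 then
    ψ (Pi.single (⟨k, hk⟩, ⟨y, hy⟩) 1) ⟨s', hs⟩ else 0 else 0 else 0, ?_⟩
  intro s s' hs hs'
  have hs1 : s < d + 1 := Nat.lt_succ_of_le hs
  have hs2 : s' < d + 1 := Nat.lt_succ_of_le hs'
  have h3 : φ (Pi.single (⟨s, hs1⟩ : Fin (d + 1)) 1) = ∑ p : Fin (o + 1) × Fin (B + 1),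
      ((s.choose (p.1 : ℕ) : K) * ((p.2 : ℕ) : K) ^ (s - (p.1 : ℕ))) • (Pi.single p (1 : K) :
        Fin (o + 1) × Fin (B + 1) → K) := by
    ext q
    simp only [φ, LinearMap.coe_mk, AddHom.coe_mk]
    rw [Finset.sum_eq_single (⟨s, hs1⟩ : Fin (d + 1)), Finset.sum_apply, Finset.sum_eq_single q]
    · simp
    · intro p _ hp
      rw [Pi.smul_apply, Pi.single_eq_of_ne hp.symm, smul_zero]
    · intro hq
      exact absurd (mem_univ q) hq
    · intro p _ hp
      rw [Pi.single_eq_of_ne hp, zero_mul]
    · intro hq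
      exact absurd (mem_univ _) hq
  have h4 := congrFun (LinearMap.congr_fun hψ (Pi.single (⟨s, hs1⟩ : Fin (d + 1)) 1)) ⟨s', hs2⟩
  rw [LinearMap.comp_apply, h3, map_sum, Finset.sum_apply, LinearMap.id_apply] at h4
  have h5 : (Pi.single (⟨s, hs1⟩ : Fin (d + 1)) (1 : K) : Fin (d + 1) → K) ⟨s', hs2⟩ =
      if s = s' then 1 else 0 := by
    rw [Pi.single_apply]
    by_cases h : s = s'
    · subst h; simp
    · rw [if_neg h, if_neg]
      intro h6
      exact h (by simpa using congrArg Fin.val h6.symm)
  rw [h5] at h4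
  rw [← h4, Fintype.sum_prod_type, Finset.sum_range]
  refine Finset.sum_congr rfl fun k _ => ?_
  rw [Finset.sum_range]
  refine Finset.sum_congr rfl fun y _ => ?_
  simp only []
  rw [dif_pos hs2, dif_pos k.2, dif_pos y.2, map_smul, Pi.smul_apply, smul_eq_mul, mul_comm]

end IG1

open IG1 in
theorem prfG1 (h1 : ClaimT1) : ClaimG1 := by
  intro K _ _ σ _ f d o B hdeg ho hv
  classical
  choose L hL using fun i => one_var (K := K) (d i) (o i) B (ho i)
  -- bounded exponents of the support
  have hsup : ∀ s ∈ f.support, ∀ i, s i ≤ d i := fun s hs i =>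
    (monomial_le_degreeOf i hs).trans (hdeg i)
  ext s'
  rw [coeff_zero]
  by_cases hs' : s' ∈ f.support
  swap
  · rwa [notMem_support_iff] at hs'
  exfalso
  have hco : coeff s' f ≠ 0 := mem_support_iff.mp hs'
  apply hco
  -- value of the derivatives
  have hval : ∀ (k : σ →₀ ℕ) (y : σ → ℕ), aeval (fun i => ((y i : ℕ) : K)) (hd k f) =
      ∑ s ∈ f.support, coeff s f * ∏ i, (((s i).choose (k i) : K) * ((y i : ℕ) : K) ^ (s i - k i)) := by
    intro k y
    conv_lhs => rw [← support_sum_monomial_coeff f]
    rw [hd_sum, map_sum]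
    refine Finset.sum_congr rfl fun s _ => ?_
    rw [h1, aeval_monomial, Finsupp.prod_fintype _ _ (fun i => pow_zero _),
      Finset.prod_mul_distrib]
    simp only [Algebra.algebraMap_self, RingHom.id_apply, Finsupp.coe_tsub, Pi.sub_apply]
    ring
  have hsum : ∑ q ∈ Fintype.piFinset (fun i => range (o i + 1) ×ˢ range (B + 1)),
      (∏ i, L i (s' i) (q i).1 (q i).2) *
        ∑ s ∈ f.support, coeff s f *
          ∏ i, (((s i).choose ((q i).1) : K) * (((q i).2 : ℕ) : K) ^ (s i - (q i).1)) = 0 := by
    refine Finset.sum_eq_zero fun q hq => ?_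
    rw [Fintype.mem_piFinset] at hq
    have h2 := hv (Finsupp.equivFunOnFinite.symm fun i => (q i).1) (fun i => (q i).2)
      (fun i => by
        have := (mem_product.mp (hq i)).1
        have := mem_range.mp this
        simp only [Finsupp.equivFunOnFinite_symm_apply_apply]
        omega)
      (fun i => by
        have := (mem_product.mp (hq i)).2
        have := mem_range.mp this
        omega)
    rw [hval] at h2
    simp only [Finsupp.equivFunOnFinite_symm_apply_apply] at h2
    rw [h2, mul_zero]
  have hswap : ∑ q ∈ Fintype.piFinset (fun i => range (o i + 1) ×ˢ range (B + 1)),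
      (∏ i, L i (s' i) (q i).1 (q i).2) *
        ∑ s ∈ f.support, coeff s f *
          ∏ i, (((s i).choose ((q i).1) : K) * (((q i).2 : ℕ) : K) ^ (s i - (q i).1)) =
      ∑ s ∈ f.support, coeff s f * ∏ i, (if s i = s' i then 1 else 0) := by
    simp only [Finset.mul_sum]
    rw [Finset.sum_comm]
    refine Finset.sum_congr rfl fun s hs => ?_
    have h3 : ∀ i, ∑ p ∈ range (o i + 1) ×ˢ range (B + 1), L i (s' i) p.1 p.2 *
        (((s i).choose p.1 : K) * ((p.2 : ℕ) : K) ^ (s i - p.1)) =
        if s i = s' i then 1 else 0 := by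
      intro i
      rw [Finset.sum_product]
      exact hL i (s i) (s' i) (hsup s hs i) (hsup s' hs' i)
    rw [← Finset.prod_congr rfl (fun i _ => h3 i), Finset.prod_univ_sum, Finset.mul_sum]
    refine Finset.sum_congr rfl fun q _ => ?_
    simp only [Finset.prod_mul_distrib]
    ring
  rw [hswap, Finset.sum_eq_single s'] at hsum
  · simpa using hsum
  · intro s _ hne
    have : ∃ i, s i ≠ s' i := by
      by_contra hcon
      push Not at hcon
      exact hne (Finsupp.ext hcon)
    obtain ⟨i, hi⟩ := this
    rw [Finset.prod_eq_zero (mem_univ i) (if_neg hi), mul_zero]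
  · intro hns
    exact absurd hs' hns

end Pool.Agent.Work.Tools.Subspace
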