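import Pool.Agent.Work.Tools.Subspace.Basic
import Pool.Agent.Work.Tools.Subspace.Stmts
import Pool.Agent.Work.Tools.Subspace.Stmts2

set_option autoImplicit false

/-!
# Item G2: the chain rule for the restriction to parametrised subspaces
-/

namespace Pool.Agent.Work.Tools.Subspace

open Finset Matrix MvPolynomial

namespace IG2

variable {K : Type} [Field K] {m ν : ℕ} {ι : Type} [Fintype ι]

/-- The linear forms. -/
noncomputable def Lin (x : Fin m → Fin ν → ι → K) (p : Fin m × ι) :
    MvPolynomial (Fin m × Fin ν) K :=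
  ∑ j, C (x p.1 j p.2) * X (p.1, j)

/-- The weight which counts the variables of the block `h`. -/
def wh (h : Fin m) (p : Fin m × Fin ν) : ℕ := if p.1 = h then 1 else 0

omit [Fintype ι] in
theorem lin_hom (x : Fin m → Fin ν → ι → K) (h : Fin m) (p : Fin m × ι) :
    IsWeightedHomogeneous (wh (ν := ν) h) (Lin x p) (if p.1 = h then 1 else 0) := by
  unfold Lin
  refine IsWeightedHomogeneous.sum _ _ _ fun j _ => ?_
  refine IsWeightedHomogeneous.C_mul ?_ _
  exact isWeightedHomogeneous_X K (wh (ν := ν) h) (p.1, j)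

theorem prod_hom (x : Fin m → Fin ν → ι → K) (h : Fin m) (l : Fin m × ι →₀ ℕ) :
    IsWeightedHomogeneous (wh (ν := ν) h) (∏ p, Lin x p ^ l p) (∑ i, l (h, i)) := by
  have h1 := IsWeightedHomogeneous.prod (R := K) (w := wh (ν := ν) h)
    (Finset.univ : Finset (Fin m × ι)) (fun p => Lin x p ^ l p)
    (fun p => l p • (if p.1 = h then 1 else 0)) (fun p _ => (lin_hom x h p).pow (l p))
  have h2 : ∑ p : Fin m × ι, l p • (if p.1 = h then 1 else 0) = ∑ i, l (h, i) := by
    rw [Fintype.sum_prod_type, Finset.sum_eq_single h]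
    · refine Finset.sum_congr rfl fun i _ => ?_
      rw [if_pos rfl, smul_eq_mul, mul_one]
    · intro h' _ hne
      refine Finset.sum_eq_zero fun i _ => ?_
      rw [if_neg hne, smul_zero]
    · intro hh
      exact absurd (Finset.mem_univ h) hh
  rwa [h2] at h1

theorem coeff_prod (x : Fin m → Fin ν → ι → K) (l : Fin m × ι →₀ ℕ) (k : Fin m × Fin ν →₀ ℕ)
    (h : Fin m) (hne : ∑ i, l (h, i) ≠ ∑ j, k (h, j)) : coeff k (∏ p, Lin x p ^ l p) = 0 := by
  refine (prod_hom x h l).coeff_eq_zero k fun hw => hne ?_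
  rw [← hw, Finsupp.weight_eq_sum, Fintype.sum_prod_type, Finset.sum_eq_single h]
  · refine Finset.sum_congr rfl fun i _ => ?_
    unfold wh
    rw [if_pos rfl, smul_eq_mul, mul_one]
  · intro h' _ hne
    refine Finset.sum_eq_zero fun i _ => ?_
    unfold wh
    rw [if_neg hne, smul_zero]
  · intro hh
    exact absurd (Finset.mem_univ h) hh

omit [Fintype ι] in
theorem subst (x : Fin m → Fin ν → ι → K) (a : Fin m × Fin ν → K)
    (F : MvPolynomial (Fin m × ι) K) :
    aeval (fun i => (C (a i) + X i : MvPolynomial (Fin m × Fin ν) K)) (aeval (Lin x) F) =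
      aeval (Lin x) (aeval (fun p : Fin m × ι =>
        (C (∑ j, a (p.1, j) * x p.1 j p.2) + X p : MvPolynomial _ K)) F) := by
  have h : ((aeval (fun i => (C (a i) + X i : MvPolynomial (Fin m × Fin ν) K))).comp
      (aeval (Lin x)) : MvPolynomial (Fin m × ι) K →ₐ[K] MvPolynomial (Fin m × Fin ν) K) =
      (aeval (Lin x)).comp (aeval (fun p : Fin m × ι =>
        (C (∑ j, a (p.1, j) * x p.1 j p.2) + X p : MvPolynomial _ K))) := by
    refine MvPolynomial.algHom_ext fun p => ?_
    rw [AlgHom.comp_apply, AlgHom.comp_apply, aeval_X, aeval_X, map_add, aeval_X,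
      MvPolynomial.aeval_C, MvPolynomial.algebraMap_eq]
    unfold Lin
    rw [map_sum, map_sum, ← Finset.sum_add_distrib]
    refine Finset.sum_congr rfl fun j _ => ?_
    rw [map_mul, MvPolynomial.aeval_C, MvPolynomial.algebraMap_eq, aeval_X, map_mul]
    ring
  exact DFunLike.congr_fun h F

end IG2

open IG2 in
/-- G2: derivatives of the restriction. -/
theorem prfG2 : ClaimG2 := by
  intro K _ _ m ν ι _ F x k a H
  rw [aeval_hd]
  set y : Fin m × ι → K := fun p => ∑ j, a (p.1, j) * x p.1 j p.2 with hy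
  set Q : MvPolynomial (Fin m × ι) K := aeval (fun i => (C (y i) + X i : MvPolynomial _ K)) F
    with hQ
  have h1 : (aeval (fun i => (C (a i) + X i : MvPolynomial (Fin m × Fin ν) K)))
      (aeval (fun p => ∑ j, C (x p.1 j p.2) * X (p.1, j) :
        Fin m × ι → MvPolynomial (Fin m × Fin ν) K) F) = aeval (Lin x) Q := by
    exact subst x a F
  rw [h1]
  have h2 : aeval (Lin x) Q = ∑ l ∈ Q.support, C (Q.coeff l) * ∏ p, Lin x p ^ l p := by
    rw [aeval_def, eval₂_eq']
    rfl
  rw [h2, coeff_sum]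
  refine Finset.sum_eq_zero fun l _ => ?_
  rw [coeff_C_mul]
  by_cases hl : ∀ h, ∑ i, l (h, i) = ∑ j, k (h, j)
  · have h3 := H l hl
    rw [aeval_hd] at h3
    rw [show Q.coeff l = 0 from h3, zero_mul]
  · push Not at hl
    obtain ⟨h, hh⟩ := hl
    rw [coeff_prod x l k h hh, mul_zero]

end Pool.Agent.Work.Tools.Subspace
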