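import Pool.Agent.Work.Tools.Subspace.Basic
import Pool.Agent.Work.Tools.Subspace.Stmts
import Pool.Agent.Work.Tools.Subspace.Stmts2

/-!
# The Subspace theorem, item HC: the hyperplane case
-/

namespace Pool.Agent.Work.Tools.Subspace

open Finset Matrix MvPolynomial

namespace IHC

theorem finrank_inst {K : Type} [Field K] {P : Places K} {ι : Type} [Fintype ι]
    {A : P.V → Matrix ι ι K} {c : P.V → ι → ℝ} {q : ℝ} {τ : P.V → ℝ} {W : Submodule K (ι → K)}
    (h : InstW P A c q τ W) : Module.finrank K W = Fintype.card ι - 1 := by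
  obtain ⟨-, -, x, hlin, -, -, hW⟩ := h
  rw [hW, finrank_span_eq_card hlin, Fintype.card_fin]

theorem exists_normal {K : Type} [Field K] {ι : Type} [Fintype ι] [DecidableEq ι] [Nonempty ι]
    (W : Submodule K (ι → K)) (h : Module.finrank K W = Fintype.card ι - 1) :
    ∃ M : ι → K, IsNormal M W := by
  have hn : 0 < Fintype.card ι := Fintype.card_pos
  have hlt : W < ⊤ := by
    refine lt_top_iff_ne_top.mpr fun h1 => ?_
    rw [h1, finrank_top, Module.finrank_fintype_fun_eq_card] at h
    omega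
  obtain ⟨f, hf0, hf⟩ := Submodule.exists_le_ker_of_lt_top W hlt
  have hker : W = LinearMap.ker f := by
    refine Submodule.eq_of_le_of_finrank_eq hf ?_
    have h2 := LinearMap.finrank_range_add_finrank_ker f
    have h3 : LinearMap.range f = ⊤ := LinearMap.range_eq_top.mpr (LinearMap.surjective hf0)
    rw [h3, finrank_top, Module.finrank_self, Module.finrank_fintype_fun_eq_card] at h2
    omega
  have hdot : ∀ y, (fun i => f (Pi.single i 1)) ⬝ᵥ y = f y := by
    intro y
    rw [LinearMap.pi_apply_eq_sum_univ f y]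
    simp only [dotProduct, smul_eq_mul]
    refine Finset.sum_congr rfl fun i _ => ?_
    rw [mul_comm]
    congr 2
    funext j
    simp [Pi.single_apply, eq_comm]
  refine ⟨fun i => f (Pi.single i 1), ?_, fun y => ?_⟩
  · intro h0
    apply hf0
    ext y
    have := hdot (Pi.single y 1)
    rw [h0, zero_dotProduct] at this
    simpa using this.symm
  · rw [hdot y, hker, LinearMap.mem_ker]

end IHC

theorem prfHC (hL : ClaimL) (hM : ClaimM) : ClaimHC := by
  intro K _ _ P ι _ _ _ A c hdet hsum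
  obtain ⟨c₁, q₁, hc₁, hq₁, hL'⟩ := hL K P ι A c hdet hsum
  obtain ⟨m, ρ, q₂, hρ, hq₂, hM'⟩ := hM K P ι A c hdet hsum c₁ hc₁
  by_cases hcase : ∃ (q : ℝ) (τ : P.V → ℝ) (W : Submodule K (ι → K)) (M : ι → K),
      q₁ ≤ q ∧ InstW P A c q τ W ∧ IsNormal M W ∧ P.H M ≤ Real.exp (c₁ * q)
  · obtain ⟨qs, τs, Ws, Ms, h1, h2, h3, h4⟩ := hcase
    refine ⟨qs, Ws, fun q τ W hq hI => ?_⟩
    have hI' := hI
    obtain ⟨hτ, hτ1, x, hlin, hO, hN, hW⟩ := hI
    have hle : W ≤ Ws := by
      rw [hW, Submodule.span_le]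
      rintro _ ⟨j, rfl⟩
      exact hL' qs τs Ws Ms h1 h2 h3 h4 q τ (x j) hq hτ hτ1 (hO j) (fun v i => hN v i j)
    exact Submodule.eq_of_le_of_finrank_eq hle
      (by rw [IHC.finrank_inst hI', IHC.finrank_inst h2])
  · push Not at hcase
    by_contra hcon
    push Not at hcon
    choose Q τ W hQ hI _ using fun t : ℝ => hcon t ⊥
    set t : ℕ → ℝ := fun k => Nat.rec (max q₁ q₂) (fun _ t => ρ * Q t) k with ht
    have ht0 : t 0 = max q₁ q₂ := rfl
    have hts : ∀ k, t (k + 1) = ρ * Q (t k) := fun k => rfl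
    have hpos : ∀ k, max q₁ q₂ ≤ t k := by
      intro k
      induction k with
      | zero => exact le_rfl
      | succ k ih =>
        rw [hts]
        have h1 : t k ≤ Q (t k) := hQ (t k)
        have h2 : 0 < max q₁ q₂ := lt_of_lt_of_le hq₁ (le_max_left _ _)
        nlinarith
    have hQpos : ∀ k, max q₁ q₂ ≤ Q (t k) := fun k => (hpos k).trans (hQ _)
    have h0 : 0 < max q₁ q₂ := lt_of_lt_of_le hq₁ (le_max_left _ _)
    have hmono : Monotone fun k => Q (t k) := by
      refine monotone_nat_of_le_succ fun k => ?_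
      have h1 : t (k + 1) ≤ Q (t (k + 1)) := hQ _
      rw [hts] at h1
      have h2 := hQpos k
      change Q (t k) ≤ Q (t (k + 1))
      rw [hts]
      nlinarith
    have hstep : ∀ a b, a < b → ρ * Q (t a) ≤ Q (t b) := by
      intro a b hab
      have h1 : Q (t (a + 1)) ≤ Q (t b) := hmono hab
      have h2 : t (a + 1) ≤ Q (t (a + 1)) := hQ _
      rw [hts] at h2
      rw [hts] at h1
      exact h2.trans h1
    choose M hMn using fun k : ℕ => IHC.exists_normal (W (t k)) (IHC.finrank_inst (hI (t k)))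
    refine hM' (fun h : Fin m => Q (t (m - 1 - h))) (fun h => τ (t (m - 1 - h)))
      (fun h => W (t (m - 1 - h))) (fun h => M (m - 1 - h)) (fun h => ?_) (fun h h' hh => ?_)
      (fun h => hI _) (fun h => hMn _) (fun h => ?_)
    · exact (le_max_right _ _).trans (hQpos _)
    · refine hstep _ _ ?_
      have := h'.isLt
      have h2 : (h : ℕ) < h' := hh
      omega
    · exact hcase _ _ _ _ ((le_max_left _ _).trans (hQpos _)) (hI _) (hMn _)

end Pool.Agent.Work.Tools.Subspace
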