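import Pool.Agent.Work.Tools.Subspace.Basic
import Pool.Agent.Work.Tools.Subspace.Stmts
import Pool.Agent.Work.Tools.Subspace.Stmts2

/-!
# The Subspace theorem: item L, an instance of small height contains all later points
-/

namespace Pool.Agent.Work.Tools.Subspace

open Finset Matrix MvPolynomial

/-- L: an instance of small height contains all later points -/
theorem prfL (h2 : ClaimL2) (h3 : ClaimL3) : ClaimL := by
  intro K _ _ P ι _ _ _ A c hA hc
  classical
  obtain ⟨C2, hC2⟩ := h2 K P ι A c hA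
  obtain ⟨C3, hC3⟩ := h3 K P ι A c hA
  set δ : ℝ := -∑ v, ∑ i, c v i with hδ
  have hδ0 : 0 < δ := by rw [hδ]; linarith
  have hnV : (1 : ℝ) ≤ Fintype.card P.V := by exact_mod_cast card_V_pos P
  set c₁ : ℝ := δ / (4 * Fintype.card P.V) with hc₁
  have hc₁0 : 0 < c₁ := by positivity
  have hc₁V : Fintype.card P.V * c₁ = δ / 4 := by rw [hc₁]; field_simp
  have hc₁4 : c₁ ≤ δ / 4 := by rw [← hc₁V]; exact le_mul_of_one_le_left hc₁0.le hnV
  refine ⟨c₁, 4 * (|C2| + |C3|) / δ + 1, hc₁0, by positivity, ?_⟩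
  intro q τ W M hq hinst hM hH q' τ' x hqq' hτ' hτ1' hx hxN
  by_contra hxW
  have hMx : M ⬝ᵥ x ≠ 0 := fun h => hxW ((hM.2 x).mpr h)
  have hq0 : 0 < q := lt_of_lt_of_le (by positivity) hq
  have hlarge : 4 * (|C2| + |C3|) < δ * q := by
    have h1 : 4 * (|C2| + |C3|) / δ < q := by linarith
    rw [div_lt_iff₀ hδ0] at h1
    linarith
  have hlogH : Real.log (P.H M) ≤ c₁ * q := by
    have h := Real.log_le_log (lt_of_lt_of_le one_pos (P.one_le_H M)) hH
    rwa [Real.log_exp] at h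
  -- the choice of the forms
  have hne : ∀ v, ∃ i, (M ᵥ* (A v)⁻¹) i ≠ 0 := by
    intro v
    by_contra hcon
    push Not at hcon
    have h0 : M ᵥ* (A v)⁻¹ = 0 := funext hcon
    apply hM.1
    have h := congrArg (fun u => u ᵥ* A v) h0
    simp only [Matrix.vecMul_vecMul, Matrix.zero_vecMul] at h
    rwa [Matrix.nonsing_inv_mul _ (isUnit_iff_ne_zero.mpr (hA v)), Matrix.vecMul_one] at h
  have hmax : ∀ v, ∃ i, (M ᵥ* (A v)⁻¹) i ≠ 0 ∧ ∀ j, (M ᵥ* (A v)⁻¹) j ≠ 0 → c v j ≤ c v i := by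
    intro v
    obtain ⟨i₀, hi₀⟩ := hne v
    obtain ⟨i, hi, himax⟩ := Finset.exists_max_image
      (univ.filter fun j => (M ᵥ* (A v)⁻¹) j ≠ 0) (fun j => c v j) ⟨i₀, by simpa using hi₀⟩
    refine ⟨i, by simpa using hi, fun j hj => himax j (by simpa using hj)⟩
  choose i hi himax using hmax
  have e2 := hC2 q τ W M hq0.le hinst hM i hi
  have e3 := hC3 q' τ' M x i (by linarith) hτ' hτ1' hx hxN (fun v j hj => himax v j hj) hMx
  have hS : (∑ v, c v (i v)) ≤ -(δ / 2) := by
    have h1 : (∑ v, c v (i v)) * q ≤ -(δ / 2) * q := by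
      have h4 : Fintype.card P.V * Real.log (P.H M) ≤ δ / 4 * q := by
        rw [← hc₁V, mul_assoc]
        exact mul_le_mul_of_nonneg_left hlogH (by linarith)
      have h5 : (∑ v, ∑ j, c v j) = -δ := by rw [hδ]; ring
      rw [h5] at e2
      have h6 := le_abs_self C2
      have h7 := abs_nonneg C3
      nlinarith
    exact le_of_mul_le_mul_right h1 hq0
  have h6 := le_abs_self C3
  have h7 := abs_nonneg C2
  have h8 : (∑ v, c v (i v)) * q' ≤ -(δ / 2) * q' :=
    mul_le_mul_of_nonneg_right hS (by linarith)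
  have h9 : c₁ * q ≤ δ / 4 * q' := by nlinarith
  have h10 : δ * q ≤ δ * q' := mul_le_mul_of_nonneg_left hqq' hδ0.le
  linarith

end Pool.Agent.Work.Tools.Subspace
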