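import Pool.Agent.Work.Tools.Subspace.Basic
import Pool.Agent.Work.Tools.Subspace.Stmts
import Pool.Agent.Work.Tools.Subspace.Stmts2

set_option autoImplicit false

/-!
# Item L1: the Liouville inequality
-/

namespace Pool.Agent.Work.Tools.Subspace

open Finset Matrix MvPolynomial

namespace IL1

variable {K : Type} [Field K] (P : Places K)

theorem exists_den {ι : Type} [Fintype ι] (u : ι → K) :
    ∃ d ∈ P.O, d ≠ 0 ∧ ∀ i, d * u i ∈ P.O := by
  classical
  choose c hc hc0 hcu using fun i => P.frac (u i)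
  refine ⟨∏ i, c i, P.O.prod_mem fun i _ => hc i, Finset.prod_ne_zero_iff.2 fun i _ => hc0 i,
    fun i => ?_⟩
  rw [← Finset.mul_prod_erase univ c (Finset.mem_univ i)]
  have h : c i * (∏ x ∈ univ.erase i, c x) * u i = (∏ x ∈ univ.erase i, c x) * (c i * u i) := by
    ring
  rw [h]
  exact P.O.mul_mem (P.O.prod_mem fun j _ => hc j) (hcu i)

end IL1

open IL1 in
/-- L1: the Liouville inequality. -/
theorem prfL1 : ClaimL1 := by
  intro K _ _ P ι _ u
  classical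
  obtain ⟨d, hd, hd0, hdu⟩ := exists_den P u
  choose C hC1 hC using fun w => exists_dot_le P w u
  have hNd : 0 ≤ ∏ w, P.N w d := Finset.prod_nonneg fun w _ => N_nonneg P w d
  have hCp : 0 ≤ ∏ w, C w := Finset.prod_nonneg fun w _ => zero_le_one.trans (hC1 w)
  refine ⟨(∏ w, P.N w d) * (∏ w, C w) + 1, by nlinarith [mul_nonneg hNd hCp],
    fun X hX v => ?_⟩
  have hX0 : ∃ i, X i ≠ 0 := by
    by_contra h
    push Not at h
    apply hX
    rw [show X = 0 from funext h, zero_dotProduct]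
  obtain ⟨i₀, hi₀⟩ := hX0
  have hnrm : ∀ w, 0 < P.nrm w X := fun w => (N_pos P w hi₀).trans_le (N_le_nrm P w X i₀)
  have h1 : ∏ w, P.nrm w X ≤ P.H X * ∏ w, P.N w (X ⬝ᵥ (d • u)) := by
    refine P.H_lin X (d • u) (fun i => hdu i) ?_
    rw [dotProduct_smul, smul_eq_mul]
    exact mul_ne_zero hd0 hX
  have h2 : ∏ w, P.N w (X ⬝ᵥ (d • u)) = (∏ w, P.N w d) * ∏ w, P.N w (X ⬝ᵥ u) := by
    rw [← Finset.prod_mul_distrib]
    refine Finset.prod_congr rfl fun w _ => ?_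
    rw [dotProduct_smul, smul_eq_mul, N_mul]
  rw [h2, ← Finset.mul_prod_erase univ (fun w => P.nrm w X) (Finset.mem_univ v),
    ← Finset.mul_prod_erase univ (fun w => P.N w (X ⬝ᵥ u)) (Finset.mem_univ v)] at h1
  have h3 : ∏ w ∈ univ.erase v, P.N w (X ⬝ᵥ u) ≤
      (∏ w ∈ univ.erase v, C w) * ∏ w ∈ univ.erase v, P.nrm w X := by
    rw [← Finset.prod_mul_distrib]
    refine Finset.prod_le_prod (fun w _ => N_nonneg P w _) fun w _ => ?_
    rw [dotProduct_comm]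
    exact hC w X (P.nrm w X) (nrm_nonneg P w X) fun j _ => N_le_nrm P w X j
  have hR : 0 < ∏ w ∈ univ.erase v, P.nrm w X := Finset.prod_pos fun w _ => hnrm w
  have hCe : ∏ w ∈ univ.erase v, C w ≤ ∏ w, C w := by
    rw [← Finset.mul_prod_erase univ C (Finset.mem_univ v)]
    exact le_mul_of_one_le_left (Finset.prod_nonneg fun w _ => zero_le_one.trans (hC1 w)) (hC1 v)
  have hH : 0 ≤ P.H X := zero_le_one.trans (P.one_le_H X)
  have hNv := N_nonneg P v (X ⬝ᵥ u)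
  have h4 : P.nrm v X * ∏ w ∈ univ.erase v, P.nrm w X ≤
      ((∏ w, P.N w d) * (∏ w, C w) * P.H X * P.N v (X ⬝ᵥ u)) *
        ∏ w ∈ univ.erase v, P.nrm w X := by
    calc P.nrm v X * ∏ w ∈ univ.erase v, P.nrm w X
        ≤ P.H X * ((∏ w, P.N w d) * (P.N v (X ⬝ᵥ u) * ∏ w ∈ univ.erase v, P.N w (X ⬝ᵥ u))) := h1
      _ ≤ P.H X * ((∏ w, P.N w d) * (P.N v (X ⬝ᵥ u) *
            ((∏ w, C w) * ∏ w ∈ univ.erase v, P.nrm w X))) := by
          refine mul_le_mul_of_nonneg_left (mul_le_mul_of_nonneg_left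
            (mul_le_mul_of_nonneg_left ?_ hNv) hNd) hH
          exact h3.trans (mul_le_mul_of_nonneg_right hCe hR.le)
      _ = _ := by ring
  have h5 := le_of_mul_le_mul_right h4 hR
  have h6 : 0 ≤ P.H X * P.N v (X ⬝ᵥ u) := mul_nonneg hH hNv
  calc P.nrm v X ≤ (∏ w, P.N w d) * (∏ w, C w) * P.H X * P.N v (X ⬝ᵥ u) := h5
    _ ≤ (∏ w, P.N w d) * (∏ w, C w) * P.H X * P.N v (X ⬝ᵥ u) + P.H X * P.N v (X ⬝ᵥ u) := by
        linarith
    _ = _ := by ring

end Pool.Agent.Work.Tools.Subspace
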