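import Pool.Agent.Work.Tools.Subspace.Basic
import Pool.Agent.Work.Tools.Subspace.Stmts
import Pool.Agent.Work.Tools.Subspace.Stmts2

/-!
# Subspace theorem, item L2: exponents and the height of the hyperplane
-/

namespace Pool.Agent.Work.Tools.Subspace

namespace IL2

open Finset Matrix

variable {K : Type} [Field K] {ι : Type} [Fintype ι] [DecidableEq ι]

/-- the matrix with rows `y` (at `none`) and `x k` -/
def bm {m : ℕ} (e : ι ≃ Option (Fin m)) (x : Fin m → ι → K) (y : ι → K) : Matrix ι ι K :=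
  Matrix.of fun i => (e i).elim y x

omit [Fintype ι] in
theorem bm_eq {m : ℕ} (e : ι ≃ Option (Fin m)) (x : Fin m → ι → K) (y : ι → K) :
    bm e x y = (bm e x 0).updateRow (e.symm none) y := by
  ext i j
  by_cases h : i = e.symm none
  · subst h
    simp [bm]
  · rw [Matrix.updateRow_ne h]
    have h2 : e i ≠ none := fun h3 => h (by rw [← h3, Equiv.symm_apply_apply])
    obtain ⟨k, hk⟩ := Option.ne_none_iff_exists'.mp h2
    simp [bm, hk]

/-- the determinant with first row `y` -/
noncomputable def dt {m : ℕ} (e : ι ≃ Option (Fin m)) (x : Fin m → ι → K) : (ι → K) →ₗ[K] K where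
  toFun y := (bm e x y).det
  map_add' y z := by
    rw [bm_eq e x (y + z), bm_eq e x y, bm_eq e x z, Matrix.det_updateRow_add]
  map_smul' a y := by
    rw [bm_eq e x (a • y), bm_eq e x y, Matrix.det_updateRow_smul]
    simp

theorem dt_apply {m : ℕ} (e : ι ≃ Option (Fin m)) (x : Fin m → ι → K) (y : ι → K) :
    dt e x y = (bm e x y).det := rfl

theorem dt_mem_span {m : ℕ} (e : ι ≃ Option (Fin m)) (x : Fin m → ι → K) {y : ι → K}
    (hy : y ∈ Submodule.span K (Set.range x)) : dt e x y = 0 := by
  have h : Submodule.span K (Set.range x) ≤ LinearMap.ker (dt e x) := by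
    rw [Submodule.span_le]
    rintro _ ⟨k, rfl⟩
    change dt e x (x k) = 0
    rw [dt_apply]
    refine Matrix.det_zero_of_row_eq (i := e.symm none) (j := e.symm (some k)) (by simp) ?_
    funext j
    simp [bm]
  exact h hy

theorem dt_ne_zero {m : ℕ} (e : ι ≃ Option (Fin m)) (x : Fin m → ι → K)
    (hx : LinearIndependent K x) {y : ι → K}
    (hy : y ∉ Submodule.span K (Set.range x)) : dt e x y ≠ 0 := by
  have h1 : LinearIndependent K (fun o : Option (Fin m) => o.elim y x) := by
    have h := (hx.option (x := y) hy)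
    have h' : (fun o : Option (Fin m) => o.elim y x) = fun o => o.casesOn' y x := by
      funext o
      cases o <;> rfl
    rw [h']
    exact h
  have h2 : LinearIndependent K (bm e x y).row := by
    have := (linearIndependent_equiv e (f := fun o : Option (Fin m) => o.elim y x)).mpr h1
    exact this
  rw [Matrix.linearIndependent_rows_iff_isUnit, Matrix.isUnit_iff_isUnit_det] at h2
  exact h2.ne_zero

/-- the cofactor vector -/
noncomputable def cof {m : ℕ} (e : ι ≃ Option (Fin m)) (x : Fin m → ι → K) : ι → K :=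
  fun i => dt e x (Pi.single i 1)

theorem cof_dot {m : ℕ} (e : ι ≃ Option (Fin m)) (x : Fin m → ι → K) (y : ι → K) :
    cof e x ⬝ᵥ y = dt e x y := by
  have h : y = ∑ i, y i • (Pi.single i (1 : K) : ι → K) := by
    ext j
    simp [Finset.sum_apply, Pi.single_apply]
  conv_rhs => rw [h, map_sum]
  simp only [map_smul, smul_eq_mul, dotProduct, cof]
  exact Finset.sum_congr rfl fun i _ => mul_comm _ _

theorem cof_mem (P : Places K) {m : ℕ} (e : ι ≃ Option (Fin m)) (x : Fin m → ι → K)
    (hx : ∀ j, P.IsO (x j)) : P.IsO (cof e x) := by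
  intro i
  change (bm e x (Pi.single i 1)).det ∈ P.O
  rw [Matrix.det_apply]
  refine P.O.sum_mem fun σ _ => ?_
  have hE : ∀ a b, bm e x (Pi.single i 1) a b ∈ P.O := by
    intro a b
    simp only [bm, Matrix.of_apply]
    cases h : e a with
    | none =>
      simp only [Option.elim]
      by_cases hb : b = i
      · subst hb; simp
      · simp [hb]
    | some k => exact hx k b
  have h1 := P.O.prod_mem fun j (_ : j ∈ (univ : Finset ι)) => hE (σ j) j
  rcases Int.units_eq_one_or (Equiv.Perm.sign σ) with h | h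
  · simpa [h] using h1
  · simpa [h] using P.O.neg_mem h1

/-- the cofactor vector is proportional to the normal vector -/
theorem cof_eq {m : ℕ} (e : ι ≃ Option (Fin m)) (x : Fin m → ι → K)
    (hx : LinearIndependent K x) (M : ι → K)
    (hM : IsNormal M (Submodule.span K (Set.range x))) :
    ∃ t : K, t ≠ 0 ∧ cof e x = t • M := by
  obtain ⟨hM0, hM1⟩ := hM
  obtain ⟨j, hj⟩ : ∃ j, M j ≠ 0 := by
    by_contra h
    push Not at h
    exact hM0 (funext h)
  set y0 : ι → K := Pi.single j (M j)⁻¹ with hy0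
  have h1 : M ⬝ᵥ y0 = 1 := by
    rw [hy0, dotProduct_single, mul_inv_cancel₀ hj]
  refine ⟨dt e x y0, ?_, ?_⟩
  · refine dt_ne_zero e x hx ?_
    rw [hM1, h1]
    exact one_ne_zero
  · have h2 : ∀ y, dt e x y = dt e x y0 * (M ⬝ᵥ y) := by
      intro y
      have h3 : y - (M ⬝ᵥ y) • y0 ∈ Submodule.span K (Set.range x) := by
        rw [hM1, dotProduct_sub, dotProduct_smul, h1, smul_eq_mul, mul_one, sub_self]
      have h4 := dt_mem_span e x h3
      rw [map_sub, map_smul, smul_eq_mul, sub_eq_zero] at h4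
      rw [h4, mul_comm]
    funext i
    change dt e x (Pi.single i 1) = dt e x y0 * M i
    rw [h2, dotProduct_single, mul_one]

/-- the determinant of a matrix whose row `i₀` is the unit vector `e_i` and whose other rows have
columns bounded by `b` -/
theorem N_det_row (P : Places K) (v : P.V) (E : Matrix ι ι K) (i0 i : ι)
    (h0 : E i0 = Pi.single i 1) (b : ι → ℝ) (hb : ∀ j, 0 ≤ b j)
    (hE : ∀ a j, a ≠ i0 → P.N v (E a j) ≤ b j) :
    P.N v E.det ≤ (Fintype.card (Equiv.Perm ι) : ℝ) ^ P.e v * ∏ j ∈ univ.erase i, b j := by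
  rw [Matrix.det_apply]
  have hB : 0 ≤ ∏ j ∈ univ.erase i, b j := prod_nonneg fun j _ => hb j
  refine (N_sum_le P v univ _ _ hB (fun σ _ => ?_)).trans ?_
  · have h1 : P.N v (Equiv.Perm.sign σ • ∏ j, E (σ j) j) = ∏ j, P.N v (E (σ j) j) := by
      rw [← N_prod]
      rcases Int.units_eq_one_or (Equiv.Perm.sign σ) with h | h <;> simp [h, N_neg]
    rw [h1]
    by_cases hs : σ i = i0
    · rw [← Finset.mul_prod_erase univ _ (mem_univ i)]
      have h2 : P.N v (E (σ i) i) = 1 := by
        rw [hs, h0, Pi.single_eq_same, N_one]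
      rw [h2, one_mul]
      refine prod_le_prod (fun j _ => N_nonneg P v _) fun j hj => hE _ _ ?_
      intro h3
      rw [← hs] at h3
      exact (ne_of_mem_erase hj) (σ.injective h3)
    · have h2 : ∏ j, P.N v (E (σ j) j) = 0 := by
        refine Finset.prod_eq_zero (mem_univ (σ.symm i0)) ?_
        rw [Equiv.apply_symm_apply, h0, Pi.single_eq_of_ne, N_zero]
        intro h3
        exact hs (by rw [← h3, Equiv.apply_symm_apply])
      rw [h2]
      exact hB
  · rw [Finset.card_univ]

end IL2

open Finset Matrix IL2 in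
/-- L2: exponents of an instance in terms of the height of its normal vector -/
theorem prfL2 (h1 : ClaimL1) : ClaimL2 := by
  intro K _ _ P ι _ _ _ A c hA
  obtain ⟨n, hn⟩ : ∃ n, Fintype.card ι = n + 1 := Nat.exists_eq_succ_of_ne_zero Fintype.card_ne_zero
  -- the bijection of `ι` with `Option (Fin (card ι - 1))`
  have hcard : Fintype.card ι = Fintype.card (Option (Fin (Fintype.card ι - 1))) := by
    rw [Fintype.card_option, Fintype.card_fin, hn, Nat.add_sub_cancel]
  let e : ι ≃ Option (Fin (Fintype.card ι - 1)) := Fintype.equivOfCardEq hcard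
  -- the constants of L1
  have hL := fun (v : P.V) (i : ι) => h1 K P ι (fun j => (A v)⁻¹ j i)
  choose CL hCL1 hCL using hL
  have hdet : ∀ v, 0 < P.N v (A v).det := fun v => N_pos P v (hA v)
  let C' : ℝ := ∏ v, ((∑ i, CL v i) * ((Fintype.card (Equiv.Perm ι) : ℝ) ^ P.e v /
    P.N v (A v).det))
  have hCLpos : ∀ v, 0 < ∑ i, CL v i := fun v =>
    sum_pos (fun i _ => zero_lt_one.trans_le (hCL1 v i)) univ_nonempty
  have hCLle : ∀ v i, CL v i ≤ ∑ i, CL v i := fun v i =>
    single_le_sum (f := fun i => CL v i) (fun i _ => zero_le_one.trans (hCL1 v i)) (mem_univ i)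
  have hperm : (0 : ℝ) < Fintype.card (Equiv.Perm ι) := by
    exact_mod_cast Fintype.card_pos
  have hC' : 0 < C' := prod_pos fun v _ =>
    mul_pos (hCLpos v) (div_pos (pow_pos hperm _) (hdet v))
  refine ⟨Real.log C', fun q τ W M hq hW hM i hi => ?_⟩
  obtain ⟨hτ, hτ1, x, hx, hxO, hxA, rfl⟩ := hW
  obtain ⟨t, ht, hX⟩ := cof_eq e x hx M hM
  set X : ι → K := cof e x with hXdef
  have hXO : P.IsO X := cof_mem P e x hxO
  have hX0 : X ≠ 0 := by
    rw [hX]
    exact smul_ne_zero ht hM.1
  have hHX : P.H X = P.H M := by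
    rw [hX, P.H_smul t M ht]
  have hH1 : 1 ≤ P.H X := P.one_le_H X
  have hH0 : 0 < P.H X := zero_lt_one.trans_le hH1
  -- the local estimate
  have hloc : ∀ v, P.N v (X ⬝ᵥ fun j => (A v)⁻¹ j (i v)) * P.N v (A v).det ≤
      (Fintype.card (Equiv.Perm ι) : ℝ) ^ P.e v *
        (τ v ^ n * Real.exp ((∑ j, c v j - c v (i v)) * q)) := by
    intro v
    rw [hXdef, cof_dot, dt_apply, ← N_mul, ← Matrix.det_transpose (A v), ← Matrix.det_mul]
    have hrow : ∀ a, (bm e x (fun j => (A v)⁻¹ j (i v)) * (A v)ᵀ) a =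
        A v *ᵥ (bm e x (fun j => (A v)⁻¹ j (i v)) a) := by
      intro a
      funext j
      simp only [Matrix.mul_apply, Matrix.transpose_apply, Matrix.mulVec, dotProduct]
      exact Finset.sum_congr rfl fun k _ => mul_comm _ _
    refine (N_det_row P v _ (e.symm none) (i v) ?_ (fun j => τ v * Real.exp (c v j * q))
      (fun j => (mul_pos (hτ v) (Real.exp_pos _)).le) ?_).trans ?_
    · rw [hrow]
      have h2 : bm e x (fun j => (A v)⁻¹ j (i v)) (e.symm none) = fun j => (A v)⁻¹ j (i v) := by
        funext j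
        simp [bm]
      rw [h2]
      funext j
      have h3 : (A v *ᵥ fun j => (A v)⁻¹ j (i v)) j = (A v * (A v)⁻¹) j (i v) := rfl
      rw [h3, Matrix.mul_nonsing_inv _ ((isUnit_iff_ne_zero).mpr (hA v)), Matrix.one_apply,
        Pi.single_apply]
    · intro a j ha
      rw [hrow]
      have h2 : e a ≠ none := fun h3 => ha (by rw [← h3, Equiv.symm_apply_apply])
      obtain ⟨k, hk⟩ := Option.ne_none_iff_exists'.mp h2
      have h3 : bm e x (fun j => (A v)⁻¹ j (i v)) a = x k := by
        funext j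
        simp [bm, hk]
      rw [h3]
      exact hxA v j k
    · refine mul_le_mul_of_nonneg_left (le_of_eq ?_) (by positivity)
      rw [prod_mul_distrib, prod_const, card_erase_of_mem (mem_univ _), card_univ, hn,
        Nat.add_sub_cancel, ← Real.exp_sum]
      congr 2
      rw [← Finset.add_sum_erase univ (fun j => c v j) (mem_univ (i v)), add_sub_cancel_left,
        Finset.sum_mul]
  -- L1
  have hu : ∀ v, X ⬝ᵥ (fun j => (A v)⁻¹ j (i v)) ≠ 0 := by
    intro v
    rw [hX, smul_dotProduct, smul_eq_mul]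
    exact mul_ne_zero ht (hi v)
  have hnrm : ∀ v, P.nrm v X ≤ P.H X * (((∑ i, CL v i) *
      ((Fintype.card (Equiv.Perm ι) : ℝ) ^ P.e v / P.N v (A v).det)) *
        (τ v ^ n * Real.exp ((∑ j, c v j - c v (i v)) * q))) := by
    intro v
    refine (hCL v (i v) X (hu v) v).trans ?_
    have h2 : P.N v (X ⬝ᵥ fun j => (A v)⁻¹ j (i v)) ≤
        (Fintype.card (Equiv.Perm ι) : ℝ) ^ P.e v / P.N v (A v).det *
        (τ v ^ n * Real.exp ((∑ j, c v j - c v (i v)) * q)) := by
      rw [div_mul_eq_mul_div, le_div_iff₀ (hdet v)]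
      exact hloc v
    calc CL v (i v) * P.H X * P.N v (X ⬝ᵥ fun j => (A v)⁻¹ j (i v))
        ≤ (∑ i, CL v i) * P.H X * ((Fintype.card (Equiv.Perm ι) : ℝ) ^ P.e v / P.N v (A v).det *
          (τ v ^ n * Real.exp ((∑ j, c v j - c v (i v)) * q))) := by
          refine mul_le_mul ?_ h2 (N_nonneg P v _) (mul_pos (hCLpos v) hH0).le
          exact mul_le_mul_of_nonneg_right (hCLle v (i v)) hH0.le
      _ = _ := by ring
  have hprod : P.H X ≤ ∏ v, P.nrm v X := P.H_le X hXO hX0
  have h3 : P.H X ≤ P.H X ^ Fintype.card P.V * (C' *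
      Real.exp ((∑ v, ∑ j, c v j) * q - (∑ v, c v (i v)) * q)) := by
    refine hprod.trans ((prod_le_prod (fun v _ => nrm_nonneg P v X) fun v _ => hnrm v).trans
      (le_of_eq ?_))
    rw [prod_mul_distrib, prod_const, card_univ, prod_mul_distrib,
      prod_mul_distrib (f := fun v => τ v ^ n), prod_pow, hτ1, one_pow, one_mul, ← Real.exp_sum]
    congr 3
    rw [← sub_mul, ← sum_sub_distrib, sum_mul]
  have h4 := Real.log_le_log hH0 h3
  rw [Real.log_mul (by positivity) (by positivity), Real.log_mul hC'.ne' (Real.exp_ne_zero _),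
    Real.log_exp, Real.log_pow] at h4
  have h5 : 0 ≤ Real.log (P.H X) := Real.log_nonneg hH1
  rw [← hHX]
  linarith

end Pool.Agent.Work.Tools.Subspace
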