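import Pool.Agent.Work.Tools.Subspace.Basic
import Pool.Agent.Work.Tools.Subspace.Stmts
import Pool.Agent.Work.Tools.Subspace.Stmts2

/-!
# The Subspace theorem: item L3, integral points of the domain off a hyperplane
-/

namespace Pool.Agent.Work.Tools.Subspace

open Finset Matrix MvPolynomial

/-- L3: integral points of the domain off a hyperplane -/
theorem prfL3 : ClaimL3 := by
  intro K _ _ P ι _ _ _ A c hA
  classical
  choose Cv hCv hv using fun v => exists_mulVec_le P v ((A v)⁻¹)ᵀ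
  set Ct : ℝ := ∏ v, ((Fintype.card ι : ℝ) ^ P.e v * Cv v) with hCt
  have hcard : (0 : ℝ) < Fintype.card ι := by exact_mod_cast Fintype.card_pos
  have hCt0 : 0 < Ct := Finset.prod_pos fun v _ => mul_pos (pow_pos hcard _) (by linarith [hCv v])
  refine ⟨Real.log Ct, ?_⟩
  intro q τ M x i hq hτ hτ1 hx hxN himax hMx
  have h1 : ∀ v, P.N v (M ⬝ᵥ x) ≤ ((Fintype.card ι : ℝ) ^ P.e v * Cv v) *
      (P.nrm v M * (τ v * Real.exp (c v (i v) * q))) := by
    intro v
    have hM : M ⬝ᵥ x = ∑ j, (M ᵥ* (A v)⁻¹) j * (A v *ᵥ x) j := by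
      have : M ⬝ᵥ x = (M ᵥ* (A v)⁻¹) ⬝ᵥ (A v *ᵥ x) := by
        rw [← Matrix.dotProduct_mulVec, Matrix.mulVec_mulVec,
          Matrix.nonsing_inv_mul _ (isUnit_iff_ne_zero.mpr (hA v)), Matrix.one_mulVec]
      rw [this]; rfl
    have hn := nrm_nonneg P v M
    have hb : ∀ j, P.N v ((M ᵥ* (A v)⁻¹) j) ≤ Cv v * P.nrm v M := by
      intro j
      have := hv v M (P.nrm v M) hn (fun j => N_le_nrm P v M j) j
      rwa [Matrix.mulVec_transpose] at this
    rw [hM, mul_assoc]
    refine (N_sum_le P v univ _ (Cv v * (P.nrm v M * (τ v * Real.exp (c v (i v) * q))))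
      ?_ ?_).trans ?_
    · exact mul_nonneg (by linarith [hCv v]) (mul_nonneg hn (mul_pos (hτ v) (Real.exp_pos _)).le)
    · intro j _
      rw [N_mul, ← mul_assoc]
      by_cases hj : (M ᵥ* (A v)⁻¹) j = 0
      · rw [hj, N_zero, zero_mul]
        exact mul_nonneg (mul_nonneg (by linarith [hCv v]) hn) (mul_pos (hτ v) (Real.exp_pos _)).le
      · refine mul_le_mul (hb j) ((hxN v j).trans ?_) (N_nonneg P v _)
          (mul_nonneg (by linarith [hCv v]) hn)
        refine mul_le_mul_of_nonneg_left ?_ (hτ v).le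
        exact Real.exp_le_exp.mpr (mul_le_mul_of_nonneg_right (himax v j hj) hq)
    · rw [Finset.card_univ]
  have h2 : ∏ v, P.nrm v M ≤ P.H M * ∏ v, P.N v (M ⬝ᵥ x) := P.H_lin M x hx hMx
  have hnp : 0 < ∏ v, P.nrm v M := by
    have hM0 : ∃ j, M j ≠ 0 := by
      by_contra hcon
      push Not at hcon
      apply hMx
      have : M = 0 := funext hcon
      rw [this, zero_dotProduct]
    obtain ⟨j, hj⟩ := hM0
    exact Finset.prod_pos fun v _ => (N_pos P v hj).trans_le (N_le_nrm P v M j)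
  have hH : 0 < P.H M := lt_of_lt_of_le one_pos (P.one_le_H M)
  have h3 : ∏ v, P.N v (M ⬝ᵥ x) ≤ Ct * ((∏ v, P.nrm v M) *
      Real.exp ((∑ v, c v (i v)) * q)) := by
    refine (Finset.prod_le_prod (fun v _ => N_nonneg P v _) (fun v _ => h1 v)).trans (le_of_eq ?_)
    rw [Finset.prod_mul_distrib, ← hCt, Finset.prod_mul_distrib, Finset.prod_mul_distrib, hτ1,
      one_mul, ← Real.exp_sum, ← Finset.sum_mul]
  have h4 : (∏ v, P.nrm v M) * 1 ≤
      (∏ v, P.nrm v M) * (P.H M * Ct * Real.exp ((∑ v, c v (i v)) * q)) := by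
    calc (∏ v, P.nrm v M) * 1 = ∏ v, P.nrm v M := mul_one _
      _ ≤ P.H M * ∏ v, P.N v (M ⬝ᵥ x) := h2
      _ ≤ P.H M * (Ct * ((∏ v, P.nrm v M) * Real.exp ((∑ v, c v (i v)) * q))) :=
        mul_le_mul_of_nonneg_left h3 hH.le
      _ = _ := by ring
  have h5 := le_of_mul_le_mul_left h4 hnp
  have h6 := Real.log_le_log one_pos h5
  rwa [Real.log_one, Real.log_mul (mul_pos hH hCt0).ne' (Real.exp_pos _).ne',
    Real.log_mul hH.ne' hCt0.ne', Real.log_exp] at h6

end Pool.Agent.Work.Tools.Subspace
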