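import Pool.Agent.Work.Tools.Subspace.Basic
import Pool.Agent.Work.Tools.Subspace.Stmts
import Pool.Agent.Work.Tools.Subspace.Stmts2

/-!
# The Subspace theorem, item M: there is no long sequence of hyperplanes of large height
-/

namespace Pool.Agent.Work.Tools.Subspace

open Finset Matrix MvPolynomial

namespace IM

/-- integral combinations of the points of an instance -/
theorem comb_le {K : Type} [Field K] (P : Places K) {ι : Type} [Fintype ι] [DecidableEq ι]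
    (v : P.V) (A : Matrix ι ι K) {ν : ℕ} (x : Fin ν → ι → K) (B : ℕ) (hB : 1 ≤ B)
    (T : ℝ) (hT : 0 ≤ T) (i : ι) (hx : ∀ j, P.N v ((A *ᵥ x j) i) ≤ T) (y : Fin ν → ℕ)
    (hy : ∀ j, y j ≤ B) :
    P.N v ((A *ᵥ (fun l => ∑ j, (y j : K) * x j l)) i) ≤ ((ν : ℝ) * B) ^ P.e v * T := by
  have h0 : (A *ᵥ (fun l => ∑ j, (y j : K) * x j l)) i = ∑ j, (y j : K) * (A *ᵥ x j) i := by
    simp only [Matrix.mulVec, dotProduct, Finset.mul_sum]
    rw [Finset.sum_comm]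
    refine Finset.sum_congr rfl fun j _ => Finset.sum_congr rfl fun l _ => by ring
  rw [h0]
  have hB1 : (1 : ℝ) ≤ (B : ℝ) := by exact_mod_cast hB
  have h1 : ∀ j ∈ (univ : Finset (Fin ν)), P.N v ((y j : K) * (A *ᵥ x j) i) ≤
      (B : ℝ) ^ P.e v * T := by
    intro j _
    rw [N_mul]
    refine mul_le_mul ?_ (hx j) (N_nonneg P v _) (by positivity)
    have h2 := N_intCast_le P v (y j : ℤ) (b := (B : ℝ)) hB1
      (by rw [Int.cast_natCast, abs_of_nonneg (Nat.cast_nonneg _)]; exact_mod_cast hy j)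
    simpa using h2
  refine (N_sum_le P v univ _ _ (by positivity) h1).trans ?_
  rw [Finset.card_univ, Fintype.card_fin, mul_pow, mul_assoc]

/-- the case of one coordinate -/
theorem one_dim (h2 : ClaimM2) {K : Type} [Field K] [CharZero K] (P : Places K) {ι : Type}
    [Fintype ι] [DecidableEq ι] (hι : Fintype.card ι ≤ 1) (M : ι → K) (hM : M ≠ 0) (g : ℝ)
    (hg : 0 < g) (h : Real.exp g < P.H M) : False := by
  obtain ⟨a, b, hab, -⟩ := h2 K P ι M g hM hg h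
  exact hab (Fintype.card_le_one_iff.mp hι a b)

/-- the numerical inequality -/
theorem num {m : ℕ} (r : Fin (m + 1) → ℕ) (q : Fin (m + 1) → ℝ) (R ε q₁ C ω c₁ : ℝ) (ν : ℕ)
    (hε1 : ε ≤ 1) (hR : 0 < R) (hq₁ : 0 < q₁) (hq : ∀ h, q₁ ≤ q h)
    (hrq : ∀ h, r h * q h ≤ (1 + ε) * R) (hC : 1 ≤ C) (hω : 0 < ω) (hc₁ : 0 < c₁) (hν : 0 < ν)
    (hbig : (2 * ((m + 1 : ℕ) : ℝ) * Real.log C + 2) * ν / (ω * c₁) ≤ q₁) :
    Real.log (C ^ (∑ h, r h)) + r (Fin.last m) ≤ ω * (c₁ * R / ν) := by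
  have hlog : 0 ≤ Real.log C := Real.log_nonneg hC
  have hν' : (0 : ℝ) < ν := by exact_mod_cast hν
  have hr : ∀ h, (r h : ℝ) ≤ 2 * R / q₁ := by
    intro h
    rw [le_div_iff₀ hq₁]
    calc (r h : ℝ) * q₁ ≤ r h * q h := mul_le_mul_of_nonneg_left (hq h) (Nat.cast_nonneg _)
      _ ≤ (1 + ε) * R := hrq h
      _ ≤ 2 * R := by nlinarith
  have hS : ((∑ h, r h : ℕ) : ℝ) ≤ ((m + 1 : ℕ) : ℝ) * (2 * R / q₁) := by
    rw [Nat.cast_sum]
    refine (Finset.sum_le_card_nsmul _ _ _ (fun h _ => hr h)).trans ?_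
    rw [Finset.card_univ, Fintype.card_fin, nsmul_eq_mul]
  rw [Real.log_pow]
  have h3 : ((∑ h, r h : ℕ) : ℝ) * Real.log C + r (Fin.last m) ≤
      (2 * ((m + 1 : ℕ) : ℝ) * Real.log C + 2) * (R / q₁) := by
    have h4 := mul_le_mul_of_nonneg_right hS hlog
    have h5 := hr (Fin.last m)
    have h6 : ((m + 1 : ℕ) : ℝ) * (2 * R / q₁) * Real.log C + 2 * R / q₁ =
      (2 * ((m + 1 : ℕ) : ℝ) * Real.log C + 2) * (R / q₁) := by ring
    linarith
  refine h3.trans ?_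
  rw [div_le_iff₀ (by positivity)] at hbig
  have h7 : (2 * ((m + 1 : ℕ) : ℝ) * Real.log C + 2) * (R / q₁) =
      ((2 * ((m + 1 : ℕ) : ℝ) * Real.log C + 2) * ν) * (R / (q₁ * ν)) := by
    field_simp
  have h8 : ω * (c₁ * R / ν) = (q₁ * (ω * c₁)) * (R / (q₁ * ν)) := by
    field_simp
  rw [h7, h8]
  exact mul_le_mul_of_nonneg_right hbig (by positivity)

end IM

theorem prfM (hA : ClaimA) (hE : ClaimE) (hG : ClaimG3) (hX : ClaimX1) (hR : ClaimR)
    (h1 : ClaimM1) (h2 : ClaimM2) : ClaimM := by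
  intro K _ _ P ι _ _ _ A c hdet hsum c₁ hc₁
  by_cases hι : Fintype.card ι ≤ 1
  · refine ⟨1, 1, 1, le_rfl, one_pos, fun q τ W M hq _ _ hN hH => ?_⟩
    exact IM.one_dim h2 P hι (M 0) (hN 0).1 (c₁ * q 0)
      (mul_pos hc₁ (lt_of_lt_of_le one_pos (hq 0))) (hH 0)
  · push Not at hι
    obtain ⟨ε₀, hε₀, hE'⟩ := hE K P ι A c hdet hsum
    set ε : ℝ := min ε₀ 1 with hεdef
    have hε : 0 < ε := lt_min hε₀ one_pos
    have hε1 : ε ≤ 1 := min_le_right _ _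
    obtain ⟨m₀, hA'⟩ := hA K P ι A hdet ε hε
    set m' : ℕ := max m₀ ⌈1 / ε⌉₊ with hm'def
    have hm₀ : m₀ ≤ m' + 1 := (le_max_left _ _).trans (Nat.le_succ _)
    have hθ1 : (1 : ℝ) ≤ ε * ((m' + 1 : ℕ) : ℝ) := by
      have h3 : 1 / ε ≤ ((m' + 1 : ℕ) : ℝ) := by
        refine (Nat.le_ceil _).trans ?_
        exact_mod_cast (le_max_right m₀ ⌈1 / ε⌉₊).trans (Nat.le_succ _)
      rw [div_le_iff₀ hε] at h3
      linarith
    obtain ⟨C, hC, hA''⟩ := hA' (m' + 1) hm₀ (Nat.succ_pos _)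
    set ν : ℕ := Fintype.card ι - 1 with hνdef
    have hν : 0 < ν := by omega
    set B : ℕ := (m' + 1) * ν with hBdef
    have hB : 1 ≤ B := Nat.one_le_iff_ne_zero.mpr (by positivity)
    have hBineq : ((m' + 1 : ℕ) : ℝ) * (ν : ℝ) < ((B : ℝ) + 1) * (ε * ((m' + 1 : ℕ) : ℝ)) := by
      have h4 : ((m' + 1 : ℕ) : ℝ) * (ν : ℝ) = (B : ℝ) := by rw [hBdef]; push_cast; ring
      rw [h4]
      have h5 : (0 : ℝ) ≤ (B : ℝ) := Nat.cast_nonneg _
      nlinarith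
    have hβ : (1 : ℝ) ≤ (ν : ℝ) * B := by
      have h5 : (1 : ℝ) ≤ (B : ℝ) := by exact_mod_cast hB
      have h6 : (1 : ℝ) ≤ (ν : ℝ) := by exact_mod_cast hν
      nlinarith
    obtain ⟨q₁', hq₁', hE''⟩ := hE' ε hε (min_le_left _ _) (m' + 1) (Nat.succ_pos _) C
      ((ν : ℝ) * B) hC hβ
    obtain ⟨ω, hω, -, hR'⟩ := hR m' K P 1 one_pos
    obtain ⟨ρ, hρ, hM1⟩ := h1 (m' + 1) ω ε hω hε
    set q₁ : ℝ := max q₁' ((2 * ((m' + 1 : ℕ) : ℝ) * Real.log C + 2) * ν / (ω * c₁)) with hq₁def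
    have hq₁ : 0 < q₁ := lt_of_lt_of_le hq₁' (le_max_left _ _)
    refine ⟨m' + 1, ρ, q₁, hρ, hq₁, fun q τ W M hq hqρ hI hN hH => ?_⟩
    have hqpos : ∀ h, 0 < q h := fun h => lt_of_lt_of_le hq₁ (hq h)
    obtain ⟨R, r, hR0, hr0, hRr, hRr', hrr⟩ := hM1 q hqpos hqρ
    obtain ⟨F, hF0, hMH, hCoef, hBal⟩ := hA'' r hr0
    have hI' : ∀ h, ∃ x : Fin (Fintype.card ι - 1) → ι → K, LinearIndependent K x ∧
        (∀ j, P.IsO (x j)) ∧
        (∀ v i j, P.N v ((A v *ᵥ x j) i) ≤ τ h v * Real.exp (c v i * q h)) ∧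
        W h = Submodule.span K (Set.range x) := fun h => (hI h).2.2
    choose x _ hxO hxN hxW using hI'
    -- evaluation
    have hvan : ∀ k : Fin (m' + 1) × ι →₀ ℕ, wt r k ≤ 2 * (ε * ((m' + 1 : ℕ) : ℝ)) →
        ∀ y : Fin (m' + 1) → Fin ν → ℕ, (∀ h j, y h j ≤ B) →
        tc F k (fun p => ∑ j, (y p.1 j : K) * x p.1 j p.2) = 0 := by
      intro k hk y hy
      refine hE'' r q R τ F k _ hr0 (fun h => (le_max_left _ _).trans (hq h)) hR0 hRr hRr' hMH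
        hCoef hBal (fun h => (hI h).1) (fun h => (hI h).2.1) ?_ ?_ hk
      · intro p
        exact P.O.sum_mem fun j _ => P.O.mul_mem (natCast_mem P.O _) (hxO p.1 j p.2)
      · intro v h i
        exact IM.comb_le P v (A v) (x h) B hB _
          (mul_nonneg ((hI h).1 v).le (Real.exp_pos _).le) i (hxN h v i) (y h) (hy h)
    have hvan2 := hG K (m' + 1) ν ι r F x (ε * ((m' + 1 : ℕ) : ℝ)) B hMH hr0 (Nat.succ_pos _) hν
      (lt_of_lt_of_le one_pos hθ1) hBineq hvan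
    -- coordinates of large height
    have hM2 : ∀ h, ∃ a b, a ≠ b ∧ M h a ≠ 0 ∧
        c₁ * q h ≤ (ν : ℝ) * Real.log (P.H ![-(M h b / M h a), 1]) := by
      intro h
      exact h2 K P ι (M h) (c₁ * q h) (hN h).1 (mul_pos hc₁ (hqpos h)) (hH h)
    choose a b hab hMa hlog using hM2
    obtain ⟨p, hp0, hpC, hpd, hpI⟩ := hX K (m' + 1) ι r F M a b (ε * ((m' + 1 : ℕ) : ℝ))
      (C ^ (∑ h, r h)) hF0 hMH hCoef hr0 hMa hab (fun k hk y hy => hvan2 k hk y fun h => by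
        rw [← hxW h]; exact ((hN h).2 (y h)).mpr (hy h))
    have hν' : (0 : ℝ) < ν := by exact_mod_cast hν
    refine hR' r (fun h => -(M h (b h) / M h (a h))) p (C ^ (∑ h, r h)) (c₁ * R / ν) hr0 hrr hp0
      hpd (one_le_pow₀ hC) hpC ?_ (by positivity) ?_ (fun k hk => hθ1.trans (hpI k hk))
    · intro h
      have h3 : c₁ * q h / ν ≤ Real.log (P.H ![-(M h (b h) / M h (a h)), 1]) := by
        rw [div_le_iff₀ hν']
        linarith [hlog h, mul_comm (Real.log (P.H ![-(M h (b h) / M h (a h)), 1])) (ν : ℝ)]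
      calc c₁ * R / ν ≤ c₁ * (r h * q h) / ν := by
            have := hRr h
            gcongr
        _ = r h * (c₁ * q h / ν) := by ring
        _ ≤ r h * Real.log (P.H ![-(M h (b h) / M h (a h)), 1]) :=
            mul_le_mul_of_nonneg_left h3 (Nat.cast_nonneg _)
    · exact IM.num r q R ε q₁ C ω c₁ ν hε1 hR0 hq₁ hq hRr' hC hω hc₁ hν (le_max_right _ _)

end Pool.Agent.Work.Tools.Subspace
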