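import Pool.Agent.Work.Tools.Subspace.Basic
import Pool.Agent.Work.Tools.Subspace.Stmts
import Pool.Agent.Work.Tools.Subspace.Stmts2

/-!
# M1: choice of the degrees
-/

set_option autoImplicit false

namespace Pool.Agent.Work.Tools.Subspace

theorem prfM1 : ClaimM1 := by
  intro m ω ε hω hε
  refine ⟨max 1 ((1 + ε) / ω), le_max_left _ _, ?_⟩
  intro q hq hρ
  set R : ℝ := ∑ h, q h / ε + 1 with hR
  have hsum : 0 ≤ ∑ h, q h / ε := Finset.sum_nonneg fun h _ => (div_pos (hq h) hε).le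
  have hR0 : 0 < R := by linarith
  have hqR : ∀ h, q h ≤ ε * R := by
    intro h
    have h1 : q h / ε ≤ ∑ h, q h / ε :=
      Finset.single_le_sum (f := fun h => q h / ε) (fun h _ => (div_pos (hq h) hε).le)
        (Finset.mem_univ h)
    have h2 : q h / ε ≤ R := by linarith
    rw [div_le_iff₀ hε] at h2
    linarith
  have h1 : ∀ h, R ≤ (⌈R / q h⌉₊ : ℝ) * q h := by
    intro h
    have := Nat.le_ceil (R / q h)
    rwa [div_le_iff₀ (hq h)] at this
  have h2 : ∀ h, (⌈R / q h⌉₊ : ℝ) * q h ≤ (1 + ε) * R := by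
    intro h
    have h3 := (Nat.ceil_lt_add_one (div_pos hR0 (hq h)).le).le
    have h4 := mul_le_mul_of_nonneg_right h3 (hq h).le
    have h5 : (R / q h + 1) * q h = R + q h := by
      have := (hq h).ne'
      field_simp
    rw [h5] at h4
    have := hqR h
    linarith
  refine ⟨R, fun h => ⌈R / q h⌉₊, hR0, fun h => Nat.ceil_pos.2 (div_pos hR0 (hq h)), h1, h2, ?_⟩
  intro h h' hh
  have h3 := hρ h h' hh
  have h4 : (1 + ε) / ω * q h' ≤ q h :=
    (mul_le_mul_of_nonneg_right (le_max_right _ _) (hq h').le).trans h3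
  have h5 : (0 : ℝ) ≤ (⌈R / q h⌉₊ : ℝ) := Nat.cast_nonneg _
  have h6 : (⌈R / q h⌉₊ : ℝ) * ((1 + ε) / ω * q h') ≤ (1 + ε) * R :=
    (mul_le_mul_of_nonneg_left h4 h5).trans (h2 h)
  have h7 : (⌈R / q h⌉₊ : ℝ) * q h' ≤ ω * R := by
    have e : (⌈R / q h⌉₊ : ℝ) * ((1 + ε) / ω * q h') =
        (1 + ε) * ((⌈R / q h⌉₊ : ℝ) * q h' / ω) := by ring
    rw [e] at h6
    have h8 := le_of_mul_le_mul_left h6 (by linarith)
    rw [div_le_iff₀ hω] at h8
    linarith
  have h8 : (⌈R / q h⌉₊ : ℝ) * q h' ≤ (ω * (⌈R / q h'⌉₊ : ℝ)) * q h' := by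
    have := mul_le_mul_of_nonneg_left (h1 h') hω.le
    linarith
  exact le_of_mul_le_mul_right h8 (hq h')

end Pool.Agent.Work.Tools.Subspace
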