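import Pool.Agent.Work.Tools.Subspace.Basic
import Pool.Agent.Work.Tools.Subspace.Stmts
import Pool.Agent.Work.Tools.Subspace.Stmts2

set_option autoImplicit false

/-!
# Item M2: a pair of coordinates of large height
-/

namespace Pool.Agent.Work.Tools.Subspace

open Finset Matrix MvPolynomial

/-- M2: a pair of coordinates of large height. -/
theorem prfM2 : ClaimM2 := by
  intro K _ _ P ι _ _ M g hM hg hH
  obtain ⟨a, ha⟩ : ∃ a, M a ≠ 0 := by
    by_contra h
    push Not at h
    exact hM (funext h)
  have h1 := hH.trans_le (P.H_pair M a ha)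
  have hpos : ∀ b ∈ univ.erase a, P.H ![-(M b / M a), 1] ≠ 0 := fun b _ =>
    (lt_of_lt_of_le one_pos (P.one_le_H _)).ne'
  have h2 : g < ∑ b ∈ univ.erase a, Real.log (P.H ![-(M b / M a), 1]) := by
    rw [← Real.log_prod hpos]
    have h3 := Real.log_lt_log (Real.exp_pos g) h1
    rwa [Real.log_exp] at h3
  by_contra hcon
  push Not at hcon
  have h4 : ∀ b ∈ univ.erase a,
      ((Fintype.card ι - 1 : ℕ) : ℝ) * Real.log (P.H ![-(M b / M a), 1]) < g := fun b hb =>
    hcon a b (Finset.ne_of_mem_erase hb).symm ha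
  rcases (univ.erase a).eq_empty_or_nonempty with he | he
  · rw [he, Finset.sum_empty] at h2
    linarith
  · have h5 := Finset.sum_lt_sum_of_nonempty he h4
    have hc : (univ.erase a).card = Fintype.card ι - 1 := by
      rw [Finset.card_erase_of_mem (Finset.mem_univ a), Finset.card_univ]
    rw [← Finset.mul_sum, Finset.sum_const, hc, nsmul_eq_mul] at h5
    have h7 : (0 : ℝ) < ((Fintype.card ι - 1 : ℕ) : ℝ) := by
      rw [← hc]
      exact_mod_cast he.card_pos
    exact absurd (lt_of_mul_lt_mul_left h5 h7.le) (not_lt.2 h2.le)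

end Pool.Agent.Work.Tools.Subspace
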