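import Pool.Agent.Work.Tools.Subspace.Stmts3

/-!
# The Subspace theorem: item N (the Subspace theorem over number fields)
-/

namespace Pool.Agent.Work.Tools.Subspace

open Finset Matrix MvPolynomial NumberField Height

namespace INN

section

variable {K : Type} [Field K] [NumberField K] (S : Finset (FinitePlace K))

theorem nN_mul (v : NV K S) (x y : K) : nN S v (x * y) = nN S v x * nN S v y := by
  simp [nN, mul_pow]

theorem nN_pos (v : NV K S) {x : K} (hx : x ≠ 0) : 0 < nN S v x := by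
  unfold nN
  exact pow_pos ((nabv S v).pos hx) _

theorem nN_nonneg (v : NV K S) (x : K) : 0 ≤ nN S v x := by
  unfold nN
  exact pow_nonneg ((nabv S v).nonneg x) _

theorem nnrm_smul {ι : Type} [Finite ι] (v : NV K S) (c : K) (x : ι → K) :
    nnrm S v (c • x) = nN S v c * nnrm S v x := by
  unfold nnrm nN
  rw [← mul_pow, Real.mul_iSup_of_nonneg ((nabv S v).nonneg c)]
  simp

theorem nnrm_pos {ι : Type} [Finite ι] (v : NV K S) {x : ι → K} (hx : x ≠ 0) :
    0 < nnrm S v x := by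
  obtain ⟨i, hi⟩ := Function.ne_iff.mp hx
  unfold nnrm
  refine pow_pos (lt_of_lt_of_le ((nabv S v).pos hi) ?_) _
  exact le_ciSup (f := fun i => nabv S v (x i)) (Set.finite_range _).bddAbove i

/-- points of bounded height lie on finitely many lines -/
theorem lines (n : ℕ) (hn : 2 ≤ n) (B : ℝ) :
    ∃ T : Set (Submodule K (Fin n → K)), T.Finite ∧ (∀ W ∈ T, W ≠ ⊤) ∧
      ∀ x : Fin n → K, x ≠ 0 → mulHeight x ≤ B → ∃ W ∈ T, x ∈ W := by
  have hZ : {y : K | mulHeight₁ y ≤ B}.Finite := NumberField.finite_setOfPred_mulHeight₁_le K B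
  have hY : {y : Fin n → K | ∀ j, y j ∈ {y : K | mulHeight₁ y ≤ B}}.Finite :=
    Set.Finite.pi' fun _ => hZ
  refine ⟨(fun y => Submodule.span K {y}) '' {y : Fin n → K | ∀ j, y j ∈
    {y : K | mulHeight₁ y ≤ B}}, hY.image _, ?_, ?_⟩
  · rintro W ⟨y, -, rfl⟩ h
    have h10 : Module.finrank K (Submodule.span K {y}) ≤ 1 := by
      simpa using finrank_span_le_card (R := K) ({y} : Set (Fin n → K))
    have h11 : Module.finrank K (Submodule.span K {y}) = n := by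
      have h12 : Submodule.span K {y} = ⊤ := h
      rw [h12, finrank_top, Module.finrank_fin_fun]
    omega
  · intro x hx hlt
    obtain ⟨i, hi⟩ := Function.ne_iff.mp hx
    refine ⟨Submodule.span K {fun j => x j / x i}, ⟨fun j => x j / x i, ?_, rfl⟩, ?_⟩
    · intro j
      change mulHeight₁ (x j / x i) ≤ B
      rw [mulHeight₁_div_eq_mulHeight]
      have h11 : ![x j, x i] = x ∘ ![j, i] := by
        funext k
        fin_cases k <;> rfl
      rw [h11]
      exact (mulHeight_comp_le _ _).trans hlt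
    · rw [Submodule.mem_span_singleton]
      refine ⟨x i, ?_⟩
      funext j
      simp only [Pi.smul_apply, smul_eq_mul]
      exact mul_div_cancel₀ (x j) hi

end

/-- the numerical inequality -/
theorem num {n : ℕ} {δ C H P Q : ℝ} (hδ : 0 < δ) (hC : 1 ≤ C) (hH : 0 < H) (hP : 0 < P)
    (hPH : P ≤ C * H) (hHC : (C ^ ((n : ℝ) + δ / 2)) ^ (2 / δ) ≤ H)
    (hQ : Q ≤ H ^ (-(n : ℝ) - δ) * P ^ n) : Q ≤ P ^ (-(δ / 2)) := by
  have hC0 : 0 < C := by linarith
  have h1 : C ^ ((n : ℝ) + δ / 2) ≤ H ^ (δ / 2) := by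
    have h2 := Real.rpow_le_rpow (by positivity) hHC (by positivity : 0 ≤ δ / 2)
    rw [← Real.rpow_mul (by positivity)] at h2
    have h3 : 2 / δ * (δ / 2) = 1 := by field_simp
    rwa [h3, Real.rpow_one] at h2
  have h4 : (P : ℝ) ^ n = P ^ ((n : ℝ) + δ / 2) * P ^ (-(δ / 2)) := by
    rw [← Real.rpow_add hP, ← Real.rpow_natCast]
    congr 1
    ring
  have h5 : P ^ ((n : ℝ) + δ / 2) ≤ C ^ ((n : ℝ) + δ / 2) * H ^ ((n : ℝ) + δ / 2) := by
    rw [← Real.mul_rpow hC0.le hH.le]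
    exact Real.rpow_le_rpow hP.le hPH (by positivity)
  have h6 : H ^ (-(n : ℝ) - δ) * (H ^ (δ / 2) * H ^ ((n : ℝ) + δ / 2)) = 1 := by
    rw [← Real.rpow_add hH, ← Real.rpow_add hH]
    have : -(n : ℝ) - δ + (δ / 2 + ((n : ℝ) + δ / 2)) = 0 := by ring
    rw [this, Real.rpow_zero]
  have hPd : 0 < P ^ (-(δ / 2)) := Real.rpow_pos_of_pos hP _
  have hHn : 0 < H ^ (-(n : ℝ) - δ) := Real.rpow_pos_of_pos hH _
  have hHm : 0 < H ^ ((n : ℝ) + δ / 2) := Real.rpow_pos_of_pos hH _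
  calc Q ≤ H ^ (-(n : ℝ) - δ) * P ^ n := hQ
    _ = H ^ (-(n : ℝ) - δ) * (P ^ ((n : ℝ) + δ / 2) * P ^ (-(δ / 2))) := by rw [h4]
    _ ≤ H ^ (-(n : ℝ) - δ) * ((H ^ (δ / 2) * H ^ ((n : ℝ) + δ / 2)) * P ^ (-(δ / 2))) := by
        refine mul_le_mul_of_nonneg_left (mul_le_mul_of_nonneg_right ?_ hPd.le) hHn.le
        exact h5.trans (mul_le_mul_of_nonneg_right h1 hHm.le)
    _ = P ^ (-(δ / 2)) := by rw [← mul_assoc, h6, one_mul]

end INN

open INN in
theorem prfN (h1 : ClaimN1) (h2 : ClaimN2) : ClaimN := by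
  intro K _ _ S n A δ hn hA hδ
  obtain ⟨C, hC0, hC⟩ := h2 K S
  obtain ⟨T, hTf, hTtop, hT⟩ := h1 K S n A (δ / 2) hn hA (by positivity)
  obtain ⟨T', hTf', hTtop', hT'⟩ :=
    lines (K := K) n hn ((max C 1 ^ ((n : ℝ) + δ / 2)) ^ (2 / δ))
  refine ⟨T ∪ T', hTf.union hTf', ?_, ?_⟩
  · rintro W (hW | hW)
    · exact hTtop W hW
    · exact hTtop' W hW
  intro x hx hle
  by_cases hH : mulHeight x ≤ (max C 1 ^ ((n : ℝ) + δ / 2)) ^ (2 / δ)
  · obtain ⟨W, hW, hxW⟩ := hT' x hx hH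
    exact ⟨W, Or.inr hW, hxW⟩
  push Not at hH
  obtain ⟨c, hc0, hcO, hcH⟩ := hC (Fin n) x hx
  have hy0 : c • x ≠ 0 := smul_ne_zero hc0 hx
  have hP : 0 < ∏ v, nnrm S v (c • x) := Finset.prod_pos fun v _ => nnrm_pos S v hy0
  have hratio : ∏ v, ∏ i, nN S v ((A v *ᵥ (c • x)) i) / nnrm S v (c • x) =
      ∏ v, ∏ i, nN S v ((A v *ᵥ x) i) / nnrm S v x := by
    refine Finset.prod_congr rfl fun v _ => Finset.prod_congr rfl fun i _ => ?_
    rw [Matrix.mulVec_smul, Pi.smul_apply, smul_eq_mul, nN_mul, nnrm_smul,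
      mul_div_mul_left _ _ (nN_pos S v hc0).ne']
  have hprod : ∏ v, ∏ i, nN S v ((A v *ᵥ (c • x)) i) =
      (∏ v, ∏ i, nN S v ((A v *ᵥ x) i) / nnrm S v x) * (∏ v, nnrm S v (c • x)) ^ n := by
    rw [← hratio, ← Finset.prod_pow, ← Finset.prod_mul_distrib]
    refine Finset.prod_congr rfl fun v _ => ?_
    rw [Finset.prod_div_distrib, Finset.prod_const, Finset.card_univ, Fintype.card_fin,
      div_mul_cancel₀ _ (pow_ne_zero _ (nnrm_pos S v hy0).ne')]
  obtain ⟨W, hW, hxW⟩ := hT (c • x) hcO hy0 (by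
    refine num hδ (le_max_right C 1) (mulHeight_pos x) hP ?_ hH.le ?_
    · exact hcH.trans (mul_le_mul_of_nonneg_right (le_max_left C 1) (mulHeight_pos x).le)
    · rw [hprod]
      exact mul_le_mul_of_nonneg_right hle (pow_nonneg hP.le _))
  refine ⟨W, Or.inl hW, ?_⟩
  have h3 := W.smul_mem c⁻¹ hxW
  rwa [smul_smul, inv_mul_cancel₀ hc0, one_smul] at h3

end Pool.Agent.Work.Tools.Subspace
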