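import Pool.Agent.Work.Tools.Subspace.Basic
import Pool.Agent.Work.Tools.Subspace.Stmts3

/-!
# The Subspace theorem: the places of a number field
-/

namespace Pool.Agent.Work.Tools.Subspace

open Finset Matrix MvPolynomial NumberField Height

/-- the structure `Places` of a number field with the infinite places and the finite places in
`S` -/
noncomputable def numPlaces (h1 : ClaimP1) (h2 : ClaimP2) (h3 : ClaimP3) (h4 : ClaimP4)
    (h5 : ClaimP5) (h6 : ClaimP6) (h7 : ClaimP7) (h8 : ClaimP8) (h9 : ClaimP9)
    (K : Type) [Field K] [NumberField K] (S : Finset (FinitePlace K)) : Places K where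
  V := NV K S
  fin := inferInstance
  dec := Classical.decEq _
  abv := nabv S
  e := ne S
  nonarch := by
    rintro (v | v) hv x y
    · exact absurd hv (InfinitePlace.mult_ne_zero)
    · exact FinitePlace.add_le v.val x y
  arch := ⟨Sum.inl (Classical.arbitrary _), InfinitePlace.mult_ne_zero⟩
  O := nO S
  frac := by
    intro x
    obtain ⟨c, hc, y, hy⟩ := h1 K x
    refine ⟨c, ?_, by exact_mod_cast hc, ?_⟩
    · intro v _
      rw [← FinitePlace.norm_embedding_eq]
      exact FinitePlace.norm_le_one K v.maximalIdeal c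
    · rw [hy]
      intro v _
      rw [← FinitePlace.norm_embedding_eq]
      exact FinitePlace.norm_le_one K v.maximalIdeal y
  pf := fun x hx h0 => h2 K S x hx h0
  pig := fun ι _ _ _ A => h3 K S ι A
  round := by
    obtain ⟨C, hC⟩ := h4 K
    refine ⟨C, fun t => ?_⟩
    obtain ⟨a, ha⟩ := hC fun v => t (Sum.inl v)
    have hi : ∀ v : FinitePlace K, v (a : K) ≤ 1 := by
      intro v
      rw [← FinitePlace.norm_embedding_eq]
      exact FinitePlace.norm_le_one K v.maximalIdeal a
    refine ⟨a, fun v _ => hi v, ?_⟩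
    rintro (v | v)
    · exact ⟨fun hv => absurd hv InfinitePlace.mult_ne_zero, fun _ => ha v⟩
    · exact ⟨fun _ => hi v.val, fun hv => absurd rfl hv⟩
  H := fun x => mulHeight x
  one_le_H := fun x => one_le_mulHeight x
  H_smul := fun c x hc => mulHeight_smul_eq_mulHeight x hc
  H_le := fun x hx h0 => h5 K S _ x hx h0
  H_lin := fun M x hx h0 => h6 K S _ M x hx h0
  H_pair := fun M a ha => h7 K _ M a ha
  D₁ := Module.finrank ℚ K
  H_root := ⟨4 ^ Module.finrank ℚ K, one_le_pow₀ (by norm_num), fun p k ξ B d hp hd hB hk =>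
    h8 K p k ξ B d hp hd hB hk⟩
  D₂ := (h9 K).choose
  co := (h9 K).choose_spec.choose_spec.choose
  co_inj := (h9 K).choose_spec.choose_spec.choose_spec.1
  Cco := (h9 K).choose_spec.choose
  co_mul := (h9 K).choose_spec.choose_spec.choose_spec.2.1
  co_int := (h9 K).choose_spec.choose_spec.choose_spec.2.2

end Pool.Agent.Work.Tools.Subspace
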