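import Pool.Agent.Work.Tools.Subspace.Stmts2
import Pool.Agent.Work.Tools.Subspace.NumPlaces

/-!
# Subspace theorem, item N1: the Subspace theorem for `S`-integral points, all heights
-/

namespace Pool.Agent.Work.Tools.Subspace

open Finset Matrix MvPolynomial NumberField Height in
/-- N1: the Subspace theorem for `S`-integral points, without a lower bound for the height -/
theorem prfN1 (hST : ClaimST) (h1 : ClaimP1) (h2 : ClaimP2) (h3 : ClaimP3) (h4 : ClaimP4)
    (h5 : ClaimP5) (h6 : ClaimP6) (h7 : ClaimP7) (h8 : ClaimP8) (h9 : ClaimP9) : ClaimN1 := by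
  intro K _ _ S n A δ hn hA hδ
  obtain ⟨C, T, hTfin, hTtop, hT⟩ :=
    hST K (numPlaces h1 h2 h3 h4 h5 h6 h7 h8 h9 K S) n A δ hA hδ
  have hZ : {y : K | mulHeight₁ y ≤ C}.Finite := NumberField.finite_setOfPred_mulHeight₁_le K C
  have hY : {y : Fin n → K | ∀ j, y j ∈ {y : K | mulHeight₁ y ≤ C}}.Finite :=
    Set.Finite.pi' fun _ => hZ
  refine ⟨T ∪ (fun y => Submodule.span K {y}) '' {y : Fin n → K | ∀ j, y j ∈
    {y : K | mulHeight₁ y ≤ C}}, hTfin.union (hY.image _), ?_, ?_⟩
  · rintro W (hW | ⟨y, -, rfl⟩)
    · exact hTtop W hW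
    · intro h
      have h10 : Module.finrank K (Submodule.span K {y}) ≤ 1 := by
        simpa using finrank_span_le_card (R := K) ({y} : Set (Fin n → K))
      have h11 : Module.finrank K (Submodule.span K {y}) = n := by
        have h12 : Submodule.span K {y} = ⊤ := h
        rw [h12, finrank_top, Module.finrank_fin_fun]
      omega
  · intro x hxO hx0 hle
    by_cases hC : C ≤ ∏ v, nnrm S v x
    · obtain ⟨W, hW, hxW⟩ := hT x hxO hx0 (by
        refine hC.trans (le_of_eq ?_)
        exact Fintype.prod_congr _ _ fun v => rfl) (by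
        refine (le_of_eq ?_).trans (hle.trans (le_of_eq ?_))
        · exact Fintype.prod_congr _ _ fun v => rfl
        · congr 1)
      exact ⟨W, Or.inl hW, hxW⟩
    · have hlt : mulHeight x ≤ C := by
        have h10 := h5 K S (Fin n) x hxO hx0
        push Not at hC
        exact h10.trans hC.le
      obtain ⟨i, hi⟩ : ∃ i, x i ≠ 0 := by
        by_contra h
        push Not at h
        exact hx0 (funext h)
      refine ⟨Submodule.span K {fun j => x j / x i}, Or.inr ⟨fun j => x j / x i, ?_, rfl⟩, ?_⟩
      · intro j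
        change mulHeight₁ (x j / x i) ≤ C
        rw [mulHeight₁_div_eq_mulHeight]
        have h11 : ![x j, x i] = x ∘ ![j, i] := by
          funext k
          fin_cases k <;> rfl
        rw [h11]
        exact (mulHeight_comp_le _ _).trans hlt
      · rw [Submodule.mem_span_singleton]
        refine ⟨x i, ?_⟩
        funext j
        simp only [Pi.smul_apply, smul_eq_mul]
        exact mul_div_cancel₀ (x j) hi

end Pool.Agent.Work.Tools.Subspace
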