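import Pool.Agent.Work.Tools.Subspace.Basic
import Pool.Agent.Work.Tools.Subspace.Stmts
import Pool.Agent.Work.Tools.Subspace.Stmts2
import Pool.Agent.Work.Tools.Subspace.Stmts3

/-!
# The Subspace theorem: scaling to an integral point of minimal size
-/

namespace Pool.Agent.Work.Tools.Subspace

open Finset Matrix NumberField Height

namespace IN2

variable {K : Type} [Field K] [NumberField K]

theorem fin_le_one (v : FinitePlace K) (x : 𝓞 K) : v (x : K) ≤ 1 := by
  rw [← FinitePlace.norm_embedding_eq]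
  exact FinitePlace.norm_le_one _ _ x

/-- one integral ideal in each class bounds the norms -/
theorem exists_scaling : ∃ C : ℝ, 0 < C ∧ ∀ (ι : Type) [Fintype ι] (z : ι → 𝓞 K), z ≠ 0 →
    ∃ (a b : 𝓞 K) (w : ι → 𝓞 K), a ≠ 0 ∧ b ≠ 0 ∧ (∀ i, a * z i = b * w i) ∧
      ((Ideal.span (Set.range w)).absNorm : ℝ) ≤ C := by
  classical
  choose Jf hJf using ClassGroup.mk0_surjective (R := 𝓞 K)
  refine ⟨1 + ∑ c : ClassGroup (𝓞 K), ((Jf c : Ideal (𝓞 K)).absNorm : ℝ), by positivity, ?_⟩
  intro ι _ z hz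
  have hI : Ideal.span (Set.range z) ≠ ⊥ := by
    intro h
    apply hz
    funext i
    exact (Ideal.span_eq_bot.mp h) (z i) ⟨i, rfl⟩
  set I : nonZeroDivisors (Ideal (𝓞 K)) :=
    ⟨Ideal.span (Set.range z), mem_nonZeroDivisors_of_ne_zero hI⟩ with hIdef
  set J := Jf (ClassGroup.mk0 I) with hJ
  have h1 : ClassGroup.mk0 I = ClassGroup.mk0 J := (hJf _).symm
  obtain ⟨a, b, ha, hb, hab⟩ := ClassGroup.mk0_eq_mk0_iff.mp h1
  have h2 : ∀ i, ∃ w ∈ (J : Ideal (𝓞 K)), b * w = a * z i := by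
    intro i
    rw [← Ideal.mem_span_singleton_mul, ← hab]
    exact Ideal.mem_span_singleton_mul.mpr ⟨z i, Ideal.subset_span ⟨i, rfl⟩, rfl⟩
  choose w hwJ hw using h2
  refine ⟨a, b, w, ha, hb, fun i => (hw i).symm, ?_⟩
  have h3 : Ideal.span (Set.range w) = (J : Ideal (𝓞 K)) := by
    rw [← Ideal.span_singleton_mul_right_inj hb, ← hab]
    have h4 : (I : Ideal (𝓞 K)) = Ideal.span (Set.range z) := rfl
    rw [h4, Ideal.span_mul_span', Ideal.span_mul_span']
    congr 1
    ext y
    simp only [Set.singleton_mul, Set.mem_image, Set.mem_range, exists_exists_eq_and]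
    constructor
    · rintro ⟨i, rfl⟩; exact ⟨i, (hw i).symm⟩
    · rintro ⟨i, rfl⟩; exact ⟨i, hw i⟩
  rw [h3]
  have h5 := Finset.single_le_sum (f := fun c => ((Jf c : Ideal (𝓞 K)).absNorm : ℝ))
    (fun _ _ => Nat.cast_nonneg _) (mem_univ (ClassGroup.mk0 I))
  have h6 : ((J : Ideal (𝓞 K)).absNorm : ℝ) = ((Jf (ClassGroup.mk0 I) : Ideal (𝓞 K)).absNorm : ℝ) :=
    rfl
  rw [h6]
  linarith

end IN2

open IN2 in
theorem prfN2 (_h1 : ClaimP1) (_h5 : ClaimP5) : ClaimN2 := by
  intro K _ _ S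
  obtain ⟨C, hC, hCw⟩ := exists_scaling (K := K)
  refine ⟨C, hC, ?_⟩
  intro ι _ x hx
  obtain ⟨⟨d, hd⟩, hdx⟩ := IsLocalization.exist_integer_multiples_of_finite
    (nonZeroDivisors (𝓞 K)) x
  have hd0 : d ≠ 0 := nonZeroDivisors.ne_zero hd
  choose z hz using hdx
  have hz' : ∀ i, (z i : K) = (d : K) * x i := by
    intro i
    have := hz i
    rw [Algebra.smul_def] at this
    exact this
  have hdK : (d : K) ≠ 0 := by simpa using hd0
  have hz0 : z ≠ 0 := by
    intro h
    apply hx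
    funext i
    have := hz' i
    rw [h] at this
    simpa [hdK, eq_comm] using this
  obtain ⟨a, b, w, ha, hb, hw, hJ⟩ := hCw ι z hz0
  have haK : (a : K) ≠ 0 := by simpa using ha
  have hbK : (b : K) ≠ 0 := by simpa using hb
  set c : K := (a : K) / b * d with hc
  have hc0 : c ≠ 0 := by positivity
  have hcx : ∀ i, c * x i = (w i : K) := by
    intro i
    have h1 : (a : K) * z i = b * w i := by
      have := congrArg (algebraMap (𝓞 K) K) (hw i)
      simpa using this
    rw [hc, mul_assoc, ← hz', div_mul_eq_mul_div, h1]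
    field_simp
  have hcx' : c • x = fun i => (w i : K) := by
    funext i
    rw [Pi.smul_apply, smul_eq_mul, hcx]
  have hw0 : w ≠ 0 := by
    intro h
    apply hx
    funext i
    have := hcx i
    rw [h] at this
    simpa [hc0] using this
  refine ⟨c, hc0, fun i v _ => by rw [hcx]; exact fin_le_one v _, ?_⟩
  have hne : (fun i => (w i : K)) ≠ 0 := by
    intro h
    apply hw0
    funext i
    have := congrFun h i
    simpa using this
  have h1 : mulHeight x = (∏ v : InfinitePlace K, (⨆ i, v (w i : K)) ^ v.mult) *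
      ∏ᶠ v : FinitePlace K, ⨆ i, v (w i : K) := by
    rw [← mulHeight_smul_eq_mulHeight x hc0, hcx', NumberField.mulHeight_eq hne]
  have h2 := absNorm_mul_finprod_finitePlace_eq_one hw0
  set Pi : ℝ := ∏ v : InfinitePlace K, (⨆ i, v (w i : K)) ^ v.mult with hPi
  set N : ℝ := ((Ideal.span (Set.range w)).absNorm : ℝ) with hN
  set Q : ℝ := ∏ᶠ v : FinitePlace K, ⨆ i, v (w i : K) with hQ
  have hPi0 : 0 ≤ Pi := Finset.prod_nonneg fun v _ =>
    pow_nonneg (Real.iSup_nonneg fun i => apply_nonneg _ _) _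
  have h3 : Pi ≤ C * mulHeight x := by
    calc Pi = Pi * (N * Q) := by rw [h2, mul_one]
      _ = N * (Pi * Q) := by ring
      _ = N * mulHeight x := by rw [h1]
      _ ≤ C * mulHeight x := mul_le_mul_of_nonneg_right hJ (mulHeight_pos _).le
  refine le_trans ?_ h3
  rw [Fintype.prod_sum_type, hcx']
  have h4 : ∏ v : InfinitePlace K, nnrm S (Sum.inl v) (fun i => (w i : K)) = Pi := by
    rw [hPi]
    refine Finset.prod_congr rfl fun v _ => ?_
    unfold nnrm
    have h5 : max (ne S (Sum.inl v)) 1 = v.mult :=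
      max_eq_left (InfinitePlace.mult_pos (w := v))
    rw [h5]
    rfl
  have h6 : ∏ v : {v : FinitePlace K // v ∈ S}, nnrm S (Sum.inr v) (fun i => (w i : K)) ≤ 1 := by
    refine Finset.prod_le_one (fun v _ => ?_) (fun v _ => ?_)
    · unfold nnrm
      exact pow_nonneg (Real.iSup_nonneg fun i => AbsoluteValue.nonneg _ _) _
    · unfold nnrm
      have h7 : ∀ i, nabv S (Sum.inr v) (w i : K) ≤ 1 := fun i => fin_le_one v.val (w i)
      exact pow_le_one₀ (Real.iSup_nonneg fun i => AbsoluteValue.nonneg _ _)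
        (Real.iSup_le h7 zero_le_one)
  rw [h4]
  exact mul_le_of_le_one_right hPi0 h6

end Pool.Agent.Work.Tools.Subspace
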