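import Pool.Agent.Work.Tools.Subspace.ItemP2

/-!
# P3: the pigeonhole principle
-/

namespace Pool.Agent.Work.Tools.Subspace

open Finset Matrix MvPolynomial NumberField Height

namespace IP3

variable {K : Type} [Field K] [NumberField K]

/-- the pigeonhole maps at all places in one form -/
theorem uni (ha : ClaimP3a) (hb : ClaimP3b) (S : Finset (FinitePlace K)) (v : NV K S)
    {ι β : Type} [Fintype ι] [Fintype β] (ω : Module.Basis β ℤ (𝓞 K)) (a : ι → K) :
    ∃ C : ℝ, 0 < C ∧ ∀ θ : ℝ, 0 < θ → ∀ T : ℕ, 0 < T → θ ≤ (T : ℝ) ^ ne S v →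
      ∃ (N : ℕ) (φ : (ι → 𝓞 K) → Fin N), (N : ℝ) ≤ C * (T : ℝ) ^ ne S v / θ ∧
      ∀ x y, (∀ i j, 0 ≤ ω.repr (x i) j ∧ ω.repr (x i) j ≤ T) →
        (∀ i j, 0 ≤ ω.repr (y i) j ∧ ω.repr (y i) j ≤ T) → φ x = φ y →
        nN S v (∑ i, a i * ((x i : K) - y i)) ≤ θ := by
  rcases v with v | v
  · obtain ⟨C, hC, h⟩ := hb K v ι β ω a
    refine ⟨C, hC, fun θ hθ T hT hle => ?_⟩
    obtain ⟨N, φ, hN, hφ⟩ := h θ hθ T hT hle
    refine ⟨N, φ, hN, fun x y hx hy hxy => ?_⟩
    rw [IP2.nN_inl]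
    exact hφ x y hx hy hxy
  · obtain ⟨C, hC, h⟩ := ha K v.val ι a
    refine ⟨C, hC, fun θ hθ T hT hle => ?_⟩
    have e : (T : ℝ) ^ ne S (Sum.inr v) = 1 := pow_zero _
    rw [e] at hle
    obtain ⟨N, φ, hN, hφ⟩ := h θ hθ hle
    refine ⟨N, φ, ?_, fun x y _ _ hxy => ?_⟩
    · rw [e, mul_one]; exact hN
    · rw [IP2.nN_inr]
      exact hφ x y hxy

theorem sum_ne (S : Finset (FinitePlace K)) : ∑ v : NV K S, ne S v = Module.finrank ℚ K := by
  rw [Fintype.sum_sum_type, ← InfinitePlace.sum_mult_eq]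
  have : ∑ v : {v : FinitePlace K // v ∈ S}, ne S (Sum.inr v) = 0 :=
    Finset.sum_eq_zero fun v _ => rfl
  rw [this, add_zero]
  rfl

theorem int_le_one (v : FinitePlace K) (x : 𝓞 K) : v (x : K) ≤ 1 := by
  rw [← FinitePlace.norm_embedding_eq]
  exact FinitePlace.norm_le_one K v.maximalIdeal x

end IP3

theorem prfP3 (_h2 : ClaimP2) (ha : ClaimP3a) (hb : ClaimP3b) (hc : ClaimP3c) : ClaimP3 := by
  classical
  intro K _ _ S ι _ _ _ A
  set β := Module.Free.ChooseBasisIndex ℤ (𝓞 K) with hβ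
  set ω : Module.Basis β ℤ (𝓞 K) := RingOfIntegers.basis K with hω
  choose Cc hCc hP using fun (p : NV K S × ι) => IP3.uni ha hb S p.1 ω (fun j => A p.1 p.2 j)
  have hβc : Fintype.card β = Module.finrank ℚ K := by
    rw [← Module.finrank_eq_card_chooseBasisIndex ℤ (𝓞 K), RingOfIntegers.rank]
  refine ⟨∏ p, Cc p, Finset.prod_pos fun p _ => hCc p, ?_⟩
  intro θ hθ hprod
  -- the scaling element
  set ε : ℝ := (1 + ∑ v : {v : FinitePlace K // v ∈ S}, ∑ i, θ (Sum.inr v) i)⁻¹ with hε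
  have hsum0 : 0 ≤ ∑ v : {v : FinitePlace K // v ∈ S}, ∑ i, θ (Sum.inr v) i :=
    Finset.sum_nonneg fun v _ => Finset.sum_nonneg fun i _ => (hθ _ _).le
  have hε0 : 0 < ε := by rw [hε]; positivity
  have hεθ : ∀ (v : {v : FinitePlace K // v ∈ S}) i, θ (Sum.inr v) i * ε ≤ 1 := by
    intro v i
    rw [hε, ← div_eq_mul_inv, div_le_one (by positivity)]
    have h1 : θ (Sum.inr v) i ≤ ∑ i, θ (Sum.inr v) i :=
      Finset.single_le_sum (f := fun i => θ (Sum.inr v) i) (fun i _ => (hθ _ _).le)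
        (Finset.mem_univ i)
    have h2 : ∑ i, θ (Sum.inr v) i ≤
        ∑ v : {v : FinitePlace K // v ∈ S}, ∑ i, θ (Sum.inr v) i :=
      Finset.single_le_sum (f := fun v : {v : FinitePlace K // v ∈ S} => ∑ i, θ (Sum.inr v) i)
        (fun v _ => Finset.sum_nonneg fun i _ => (hθ _ _).le) (Finset.mem_univ v)
    linarith
  obtain ⟨b, hb0, hb1, hb2⟩ := hc K S ε hε0
  set θ' : NV K S × ι → ℝ := fun p => θ p.1 p.2 * nN S p.1 b with hθ'
  have hθ'0 : ∀ p, 0 < θ' p := fun p => mul_pos (hθ _ _) (IP2.nN_pos S _ hb0)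
  have hθ'S : ∀ (v : {v : FinitePlace K // v ∈ S}) i, θ' (Sum.inr v, i) ≤ 1 := by
    intro v i
    simp only [hθ']
    rw [IP2.nN_inr]
    exact (mul_le_mul_of_nonneg_left (hb2 v.1 v.2) (hθ _ _).le).trans (hεθ v i)
  have hprod' : ∏ p, θ' p = ∏ v, ∏ i, θ v i := by
    rw [Fintype.prod_prod_type]
    simp only [hθ']
    have : ∀ v : NV K S, ∏ i, θ v i * nN S v b = (∏ i, θ v i) * nN S v b ^ Fintype.card ι := by
      intro v
      rw [Finset.prod_mul_distrib, Finset.prod_const, Finset.card_univ]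
    rw [Finset.prod_congr rfl fun v _ => this v, Finset.prod_mul_distrib, Finset.prod_pow,
      IP2.prod_nN_eq_one S hb0 hb1, one_pow, mul_one]
  -- the size of the box
  obtain ⟨T0, hT0⟩ := exists_nat_ge (∑ p, θ' p)
  set T : ℕ := T0 + 1 with hT
  have hTpos : 0 < T := Nat.succ_pos _
  have hT1 : (1 : ℝ) ≤ T := by exact_mod_cast hTpos
  have hle : ∀ p, θ' p ≤ (T : ℝ) ^ ne S p.1 := by
    rintro ⟨v | v, i⟩
    · have h1 : θ' (Sum.inl v, i) ≤ ∑ p, θ' p :=
        Finset.single_le_sum (f := θ') (fun p _ => (hθ'0 p).le) (Finset.mem_univ _)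
      have h2 : (T0 : ℝ) ≤ T := by exact_mod_cast Nat.le_succ T0
      have h3 : (T : ℝ) ≤ (T : ℝ) ^ ne S (Sum.inl v) := by
        refine le_self_pow₀ hT1 ?_
        exact InfinitePlace.mult_ne_zero
      linarith
    · change _ ≤ (T : ℝ) ^ 0
      rw [pow_zero]
      exact hθ'S v i
  choose N φ hN hφ using fun p => hP p (θ' p) (hθ'0 p) T hTpos (hle p)
  -- the points of the box
  set pt : (ι → β → Fin (T + 1)) → ι → 𝓞 K :=
    fun f i => ω.equivFun.symm (fun j => ((f i j : ℕ) : ℤ)) with hpt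
  have hrepr : ∀ f i j, ω.repr (pt f i) j = ((f i j : ℕ) : ℤ) := by
    intro f i j
    rw [← Module.Basis.equivFun_apply]
    simp only [hpt, LinearEquiv.apply_symm_apply]
  have hbox : ∀ f i j, 0 ≤ ω.repr (pt f i) j ∧ ω.repr (pt f i) j ≤ T := by
    intro f i j
    rw [hrepr]
    refine ⟨Int.natCast_nonneg _, ?_⟩
    have := (f i j).2
    have h2 : (f i j : ℕ) ≤ T := by omega
    exact_mod_cast h2
  set Φ : (ι → β → Fin (T + 1)) → (∀ p : NV K S × ι, Fin (N p)) := fun f p => φ p (pt f) with hΦ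
  have hcard : Fintype.card (∀ p : NV K S × ι, Fin (N p)) <
      Fintype.card (ι → β → Fin (T + 1)) := by
    have h1 : Fintype.card (∀ p : NV K S × ι, Fin (N p)) = ∏ p, N p := by
      rw [Fintype.card_pi]
      exact Finset.prod_congr rfl fun p _ => Fintype.card_fin _
    have h2 : Fintype.card (ι → β → Fin (T + 1)) =
        (T + 1) ^ (Module.finrank ℚ K * Fintype.card ι) := by
      rw [Fintype.card_fun, Fintype.card_fun, Fintype.card_fin, hβc, ← pow_mul]
    rw [h1, h2]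
    have h3 : ((∏ p, N p : ℕ) : ℝ) ≤ (T : ℝ) ^ (Module.finrank ℚ K * Fintype.card ι) := by
      push_cast
      calc ∏ p, (N p : ℝ) ≤ ∏ p, (Cc p * (T : ℝ) ^ ne S p.1 / θ' p) :=
            Finset.prod_le_prod (fun p _ => Nat.cast_nonneg _) fun p _ => hN p
        _ = (∏ p, Cc p) * (∏ p : NV K S × ι, (T : ℝ) ^ ne S p.1) / ∏ p, θ' p := by
            rw [Finset.prod_div_distrib, Finset.prod_mul_distrib]
        _ ≤ ∏ p : NV K S × ι, (T : ℝ) ^ ne S p.1 := by
            rw [hprod']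
            have h4 : 0 < ∏ v, ∏ i, θ v i :=
              Finset.prod_pos fun v _ => Finset.prod_pos fun i _ => hθ v i
            rw [div_le_iff₀ h4, mul_comm]
            refine mul_le_mul_of_nonneg_left hprod (Finset.prod_nonneg fun p _ => by positivity)
        _ = (T : ℝ) ^ (Module.finrank ℚ K * Fintype.card ι) := by
            rw [Finset.prod_pow_eq_pow_sum, Fintype.sum_prod_type]
            congr 1
            simp only [Finset.sum_const, Finset.card_univ, smul_eq_mul]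
            rw [← Finset.mul_sum, IP3.sum_ne, mul_comm]
    have h5 : (∏ p, N p) ≤ T ^ (Module.finrank ℚ K * Fintype.card ι) := by exact_mod_cast h3
    refine h5.trans_lt (Nat.pow_lt_pow_left (Nat.lt_succ_self T) ?_)
    exact mul_ne_zero Module.finrank_pos.ne' Fintype.card_ne_zero
  obtain ⟨f1, f2, hne, heq⟩ := Fintype.exists_ne_map_eq_of_card_lt Φ hcard
  have hbi : b⁻¹ ≠ 0 := inv_ne_zero hb0
  refine ⟨fun i => b⁻¹ * ((pt f1 i : K) - pt f2 i), ?_, ?_, ?_⟩
  · intro i v hv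
    rw [map_mul, map_inv₀, hb1 v hv, inv_one, one_mul]
    have := IP3.int_le_one v (pt f1 i - pt f2 i)
    simpa using this
  · intro h0
    apply hne
    funext i
    have h1 := congrFun h0 i
    simp only [Pi.zero_apply, mul_eq_zero, hbi, false_or, sub_eq_zero] at h1
    have h2 : pt f1 i = pt f2 i := RingOfIntegers.coe_injective h1
    funext j
    have h3 : ω.repr (pt f1 i) j = ω.repr (pt f2 i) j := by rw [h2]
    rw [hrepr, hrepr] at h3
    exact Fin.ext (by exact_mod_cast h3)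
  · intro v i
    have h1 : (A v *ᵥ fun i => b⁻¹ * ((pt f1 i : K) - pt f2 i)) i =
        b⁻¹ * ∑ j, A v i j * ((pt f1 j : K) - pt f2 j) := by
      simp only [Matrix.mulVec, dotProduct]
      rw [Finset.mul_sum]
      exact Finset.sum_congr rfl fun j _ => by ring
    rw [h1, IP2.nN_mul]
    have h2 := hφ (v, i) (pt f1) (pt f2) (hbox f1) (hbox f2) (congrFun heq (v, i))
    have h3 : nN S v b⁻¹ = (nN S v b)⁻¹ := by
      unfold nN
      rw [map_inv₀, inv_pow]
    rw [h3]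
    have h4 := IP2.nN_pos S v hb0
    rw [inv_mul_le_iff₀ h4, mul_comm]
    exact h2

end Pool.Agent.Work.Tools.Subspace
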