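import Pool.Agent.Work.Tools.Subspace.Basic
import Pool.Agent.Work.Tools.Subspace.Stmts3

/-!
# Subspace theorem, item P3a: pigeonhole at a finite place
-/

namespace Pool.Agent.Work.Tools.Subspace

open NumberField IsDedekindDomain

namespace IP3a

theorem toNNReal_exp {e : NNReal} (he : e ≠ 0) (k : ℤ) :
    WithZeroMulInt.toNNReal he (WithZero.exp k) = e ^ k := by
  rw [WithZeroMulInt.toNNReal_neg_apply he WithZero.exp_ne_zero]
  rfl

/-- Members of `p^k` are small. -/
theorem abs_le_of_mem_pow {K : Type} [Field K] [NumberField K] (v : FinitePlace K) (k : ℕ)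
    (z : 𝓞 K) (hz : z ∈ v.maximalIdeal.asIdeal ^ k) :
    v (z : K) ≤ ((Ideal.absNorm v.maximalIdeal.asIdeal : ℝ) ^ k)⁻¹ := by
  rw [← FinitePlace.norm_embedding_eq]
  have h1 : ‖FinitePlace.embedding v.maximalIdeal (z : K)‖ = _ :=
    FinitePlace.norm_embedding_int K v.maximalIdeal z
  rw [h1]
  have h2 := (v.maximalIdeal.intValuation_le_pow_iff_mem z k).2 hz
  have h3 := (WithZeroMulInt.toNNReal_strictMono
    (NumberField.HeightOneSpectrum.one_lt_absNorm_nnreal v.maximalIdeal)).monotone h2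
  rw [toNNReal_exp] at h3
  have h4 := NNReal.coe_le_coe.2 h3
  rw [zpow_neg, zpow_natCast] at h4
  push_cast at h4
  exact h4

end IP3a

theorem prfP3a (_h1 : ClaimP1) : ClaimP3a := by
  classical
  intro K _ _ v ι _ a
  obtain ⟨d, hd⟩ := IsLocalization.exist_integer_multiples_of_finite (nonZeroDivisors (𝓞 K)) a
  choose b hb using hd
  have hd0 : ((d : 𝓞 K) : K) ≠ 0 := by
    have h1 : (d : 𝓞 K) ≠ 0 := nonZeroDivisors.coe_ne_zero d
    exact_mod_cast h1
  have hvd : 0 < v ((d : 𝓞 K) : K) := FinitePlace.pos_iff.2 hd0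
  set p := v.maximalIdeal with hp
  set q : ℕ := Ideal.absNorm p.asIdeal with hq
  have hq1 : 1 < q := NumberField.HeightOneSpectrum.one_lt_absNorm p
  have hq1r : (1 : ℝ) < q := by exact_mod_cast hq1
  have hq0r : (0 : ℝ) < q := by linarith
  refine ⟨max 1 (q / v ((d : 𝓞 K) : K)), lt_max_of_lt_left one_pos, fun θ hθ hθ1 => ?_⟩
  have hex : ∃ k : ℕ, ((q : ℝ) ^ k)⁻¹ ≤ v ((d : 𝓞 K) : K) * θ := by
    obtain ⟨k, hk⟩ := exists_pow_lt_of_lt_one (mul_pos hvd hθ) (inv_lt_one_of_one_lt₀ hq1r)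
    refine ⟨k, ?_⟩
    rw [← inv_pow]
    exact hk.le
  have hcard : Nat.card (𝓞 K ⧸ p.asIdeal ^ Nat.find hex) = q ^ Nat.find hex := by
    rw [← Submodule.cardQuot_apply, ← Ideal.absNorm_apply, map_pow]
  have hfin : Finite (𝓞 K ⧸ p.asIdeal ^ Nat.find hex) := by
    apply Nat.finite_of_card_ne_zero
    rw [hcard]
    positivity
  let e := Finite.equivFin (𝓞 K ⧸ p.asIdeal ^ Nat.find hex)
  refine ⟨Nat.card (𝓞 K ⧸ p.asIdeal ^ Nat.find hex),
    fun x => e (Ideal.Quotient.mk _ (∑ i, b i * x i)), ?_, ?_⟩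
  · rw [hcard, Nat.cast_pow, le_div_iff₀ hθ]
    rcases Nat.eq_zero_or_pos (Nat.find hex) with h0 | h0
    · rw [h0, pow_zero, one_mul]
      exact hθ1.trans (le_max_left _ _)
    · refine le_trans ?_ (le_max_right _ _)
      rw [le_div_iff₀ hvd]
      have h2 := Nat.find_min hex (Nat.sub_lt h0 one_pos)
      rw [not_le] at h2
      obtain ⟨j, hj⟩ : ∃ j, Nat.find hex = j + 1 := ⟨Nat.find hex - 1, by omega⟩
      rw [hj] at h2 ⊢
      rw [Nat.add_sub_cancel, ← one_div, lt_div_iff₀ (by positivity)] at h2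
      rw [pow_succ]
      nlinarith
  · intro x y hxy
    have h1 := e.injective hxy
    rw [Ideal.Quotient.eq] at h1
    have h2 := IP3a.abs_le_of_mem_pow v _ _ h1
    have h3 := Nat.find_spec hex
    have h4 : algebraMap (𝓞 K) K d * ∑ i, a i * (algebraMap (𝓞 K) K (x i) -
        algebraMap (𝓞 K) K (y i)) =
        algebraMap (𝓞 K) K (∑ i, b i * x i - ∑ i, b i * y i) := by
      rw [map_sub, map_sum, map_sum, ← Finset.sum_sub_distrib, Finset.mul_sum]
      apply Finset.sum_congr rfl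
      intro i _
      have h5 := hb i
      rw [Algebra.smul_def] at h5
      rw [map_mul, map_mul, h5]
      ring
    have h5 : v ((d : 𝓞 K) : K) * v (∑ i, a i * ((x i : K) - y i)) ≤ v ((d : 𝓞 K) : K) * θ := by
      rw [← map_mul]
      have h6 : v (algebraMap (𝓞 K) K d * ∑ i, a i * (algebraMap (𝓞 K) K (x i) -
          algebraMap (𝓞 K) K (y i))) ≤ v ((d : 𝓞 K) : K) * θ := by
        rw [h4]
        exact h2.trans h3
      exact h6
    exact le_of_mul_le_mul_left h5 hvd

end Pool.Agent.Work.Tools.Subspace
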