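import Pool.Agent.Work.Tools.Subspace.Basic
import Pool.Agent.Work.Tools.Subspace.Stmts3

set_option autoImplicit false

/-!
# Item P3b: pigeonhole at an infinite place
-/

namespace Pool.Agent.Work.Tools.Subspace

open Finset Matrix MvPolynomial NumberField Height

namespace IP3b

/-- The pigeonhole principle for a real valued function. -/
theorem real_pig {X : Type} (f : X → ℝ) {R T s : ℝ} (hR : 0 ≤ R) (hs : 0 < s) (hsT : s ≤ T) :
    ∃ (M : ℕ) (ψ : X → Fin M), (M : ℝ) ≤ (2 * R + 1) * T / s ∧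
      ∀ x y, |f x| ≤ R * T → |f y| ≤ R * T → ψ x = ψ y → |f x - f y| ≤ s := by
  have hT : 0 < T := hs.trans_le hsT
  refine ⟨⌊2 * R * T / s⌋₊ + 1, fun x => ⟨min ⌊(f x + R * T) / s⌋₊ ⌊2 * R * T / s⌋₊,
    Nat.lt_succ_of_le (min_le_right _ _)⟩, ?_, ?_⟩
  · push_cast
    have h1 : (⌊2 * R * T / s⌋₊ : ℝ) ≤ 2 * R * T / s := Nat.floor_le (by positivity)
    have h2 : 1 ≤ T / s := by
      rw [one_le_div hs]
      exact hsT
    have h3 : (2 * R + 1) * T / s = 2 * R * T / s + T / s := by ring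
    rw [h3]
    linarith
  · intro x y hx hy hxy
    have key : ∀ z, |f z| ≤ R * T → min ⌊(f z + R * T) / s⌋₊ ⌊2 * R * T / s⌋₊ =
        ⌊(f z + R * T) / s⌋₊ := by
      intro z hz
      rw [abs_le] at hz
      refine min_eq_left (Nat.floor_le_floor ?_)
      refine div_le_div_of_nonneg_right ?_ hs.le
      linarith
    have h1 : ⌊(f x + R * T) / s⌋₊ = ⌊(f y + R * T) / s⌋₊ := by
      have h2 := congrArg Fin.val hxy
      simp only at h2
      rwa [key x hx, key y hy] at h2
    have hx' := hx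
    have hy' := hy
    rw [abs_le] at hx' hy'
    have ax : 0 ≤ (f x + R * T) / s := div_nonneg (by linarith) hs.le
    have ay : 0 ≤ (f y + R * T) / s := div_nonneg (by linarith) hs.le
    have b1 := Nat.floor_le ax
    have b2 := Nat.lt_floor_add_one ((f x + R * T) / s)
    have b3 := Nat.floor_le ay
    have b4 := Nat.lt_floor_add_one ((f y + R * T) / s)
    rw [h1] at b1 b2
    have c1 : (f x + R * T) / s - (f y + R * T) / s ≤ 1 := by linarith
    have c2 : (f y + R * T) / s - (f x + R * T) / s ≤ 1 := by linarith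
    rw [← sub_div, div_le_one hs] at c1 c2
    rw [abs_le]
    constructor <;> linarith

variable {K : Type} [Field K] [NumberField K]

/-- The bound in the box. -/
theorem box_le (v : InfinitePlace K) {ι β : Type} [Fintype ι] [Fintype β]
    (ω : Module.Basis β ℤ (𝓞 K)) (a : ι → K) {T : ℕ} {x : ι → 𝓞 K}
    (hx : ∀ i j, 0 ≤ ω.repr (x i) j ∧ ω.repr (x i) j ≤ T) :
    ‖v.embedding (∑ i, a i * (x i : K))‖ ≤
      (∑ i, ‖v.embedding (a i)‖ * ∑ j, ‖v.embedding (ω j : K)‖) * T := by
  rw [map_sum, Finset.sum_mul]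
  refine (norm_sum_le _ _).trans (Finset.sum_le_sum fun i _ => ?_)
  rw [map_mul, norm_mul, mul_assoc]
  refine mul_le_mul_of_nonneg_left ?_ (norm_nonneg _)
  have h1 : (x i : K) = ∑ j, ((ω.repr (x i) j : ℤ) : K) * (ω j : K) := by
    have h2 : (x i : K) = algebraMap (𝓞 K) K (∑ j, ω.repr (x i) j • ω j) := by
      rw [ω.sum_repr]
    rw [h2, map_sum]
    refine Finset.sum_congr rfl fun j _ => ?_
    rw [zsmul_eq_mul, map_mul, map_intCast]
  rw [h1, map_sum, Finset.sum_mul]
  refine (norm_sum_le _ _).trans (Finset.sum_le_sum fun j _ => ?_)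
  rw [map_mul, map_intCast, norm_mul, mul_comm]
  refine mul_le_mul_of_nonneg_left ?_ (norm_nonneg _)
  have h3 := hx i j
  rw [Complex.norm_intCast, abs_of_nonneg (by exact_mod_cast h3.1)]
  exact_mod_cast h3.2

theorem diff_eq (v : InfinitePlace K) {ι : Type} [Fintype ι] (a : ι → K) (x y : ι → 𝓞 K) :
    v (∑ i, a i * ((x i : K) - y i)) =
      ‖v.embedding (∑ i, a i * (x i : K)) - v.embedding (∑ i, a i * (y i : K))‖ := by
  rw [← map_sub, ← Finset.sum_sub_distrib, ← InfinitePlace.norm_embedding_eq]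
  congr 2
  refine Finset.sum_congr rfl fun i _ => ?_
  ring

end IP3b

open IP3b in
/-- P3b: pigeonhole at an infinite place. -/
theorem prfP3b : ClaimP3b := by
  intro K _ _ v ι β _ _ ω a
  set R : ℝ := ∑ i, ‖v.embedding (a i)‖ * ∑ j, ‖v.embedding (ω j : K)‖ with hR
  have hR0 : 0 ≤ R := Finset.sum_nonneg fun i _ =>
    mul_nonneg (norm_nonneg _) (Finset.sum_nonneg fun j _ => norm_nonneg _)
  refine ⟨2 * (2 * R + 1) ^ 2, by positivity, fun θ hθ T hT hθT => ?_⟩
  have hT' : (0 : ℝ) < T := by exact_mod_cast hT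
  by_cases hv : v.IsReal
  · have hm : v.mult = 1 := by
      unfold InfinitePlace.mult
      rw [if_pos hv]
    rw [hm, pow_one] at hθT
    obtain ⟨M, ψ, hM, hψ⟩ := real_pig
      (fun x : ι → 𝓞 K => (v.embedding (∑ i, a i * (x i : K))).re) hR0 hθ hθT
    refine ⟨M, ψ, ?_, ?_⟩
    · rw [hm, pow_one]
      refine hM.trans (div_le_div_of_nonneg_right (mul_le_mul_of_nonneg_right ?_ hT'.le) hθ.le)
      nlinarith
    · intro x y hx hy hxy
      rw [hm, pow_one, diff_eq]
      have him : ∀ z : K, (v.embedding z).im = 0 := by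
        intro z
        rw [InfinitePlace.isReal_iff, ComplexEmbedding.isReal_iff] at hv
        rw [← Complex.conj_eq_iff_im]
        exact DFunLike.congr_fun hv z
      rw [← map_sub, ← Complex.abs_re_eq_norm.2 (him _), map_sub, Complex.sub_re]
      refine hψ x y ?_ ?_ hxy
      · exact (Complex.abs_re_le_norm _).trans (box_le v ω a hx)
      · exact (Complex.abs_re_le_norm _).trans (box_le v ω a hy)
  · have hm : v.mult = 2 := by
      unfold InfinitePlace.mult
      rw [if_neg hv]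
    rw [hm] at hθT
    set s : ℝ := Real.sqrt (θ / 2) with hs
    have hs0 : 0 < s := Real.sqrt_pos.2 (by positivity)
    have hs2 : s ^ 2 = θ / 2 := Real.sq_sqrt (by positivity)
    have hsT : s ≤ T := by
      rw [hs, Real.sqrt_le_left hT'.le]
      linarith
    obtain ⟨M₁, ψ₁, hM₁, hψ₁⟩ := real_pig
      (fun x : ι → 𝓞 K => (v.embedding (∑ i, a i * (x i : K))).re) hR0 hs0 hsT
    obtain ⟨M₂, ψ₂, hM₂, hψ₂⟩ := real_pig
      (fun x : ι → 𝓞 K => (v.embedding (∑ i, a i * (x i : K))).im) hR0 hs0 hsT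
    refine ⟨M₁ * M₂, fun x => finProdFinEquiv (ψ₁ x, ψ₂ x), ?_, ?_⟩
    · rw [hm]
      push_cast
      calc (M₁ : ℝ) * M₂ ≤ ((2 * R + 1) * T / s) * ((2 * R + 1) * T / s) :=
            mul_le_mul hM₁ hM₂ (Nat.cast_nonneg _) (by positivity)
        _ = (2 * R + 1) ^ 2 * T ^ 2 / s ^ 2 := by ring
        _ = 2 * (2 * R + 1) ^ 2 * T ^ 2 / θ := by
            rw [hs2]
            field_simp
        _ ≤ _ := le_rfl
    · intro x y hx hy hxy
      have h1 := finProdFinEquiv.injective hxy
      rw [Prod.mk.injEq] at h1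
      have bx := box_le v ω a hx
      have byy := box_le v ω a hy
      have h2 := hψ₁ x y ((Complex.abs_re_le_norm _).trans bx)
        ((Complex.abs_re_le_norm _).trans byy) h1.1
      have h3 := hψ₂ x y ((Complex.abs_im_le_norm _).trans bx)
        ((Complex.abs_im_le_norm _).trans byy) h1.2
      rw [hm, diff_eq, ← Complex.normSq_eq_norm_sq, Complex.normSq_apply, Complex.sub_re,
        Complex.sub_im]
      have h4 := sq_le_sq' (abs_le.1 h2).1 (abs_le.1 h2).2
      have h5 := sq_le_sq' (abs_le.1 h3).1 (abs_le.1 h3).2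
      rw [hs2] at h4 h5
      nlinarith

end Pool.Agent.Work.Tools.Subspace
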