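import Pool.Agent.Work.Tools.Subspace.Basic
import Pool.Agent.Work.Tools.Subspace.Stmts3

/-!
# Subspace theorem, item P3c: units which are small at the finite places of `S`
-/

namespace Pool.Agent.Work.Tools.Subspace

open NumberField IsDedekindDomain

namespace IP3c

/-- Some element is small at `v` and a unit at all other finite places. -/
theorem exists_beta {K : Type} [Field K] [NumberField K] (v : FinitePlace K) :
    ∃ β : K, β ≠ 0 ∧ v β < 1 ∧ ∀ w : FinitePlace K, w ≠ v → w β = 1 := by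
  classical
  set p := v.maximalIdeal with hp
  have hp0 : p.asIdeal ∈ nonZeroDivisors (Ideal (𝓞 K)) := mem_nonZeroDivisors_of_ne_zero p.ne_bot
  have hcl : (ClassGroup.mk0 ⟨p.asIdeal, hp0⟩ : ClassGroup (𝓞 K)) ^
      Fintype.card (ClassGroup (𝓞 K)) = 1 := pow_card_eq_one
  have hh : 0 < Fintype.card (ClassGroup (𝓞 K)) := Fintype.card_pos
  set h := Fintype.card (ClassGroup (𝓞 K))
  rw [← map_pow, ClassGroup.mk0_eq_one_iff] at hcl
  obtain ⟨β, hβ⟩ := hcl
  have hβ' : p.asIdeal ^ h = Ideal.span {β} := by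
    have := hβ
    simpa using this
  have hβ0 : β ≠ 0 := by
    rintro rfl
    rw [Ideal.span_singleton_eq_bot.2 rfl] at hβ'
    exact pow_ne_zero h p.ne_bot hβ'
  have hβmem : β ∈ p.asIdeal ^ h := by
    rw [hβ']
    exact Ideal.mem_span_singleton_self β
  refine ⟨(β : K), by exact_mod_cast hβ0, ?_, ?_⟩
  · rw [← FinitePlace.norm_embedding_eq]
    refine (FinitePlace.norm_lt_one_iff_mem K v.maximalIdeal β).2 ?_
    exact Ideal.pow_le_self hh.ne' hβmem
  · intro w hw
    rw [← FinitePlace.norm_embedding_eq]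
    refine (FinitePlace.norm_eq_one_iff_notMem K w.maximalIdeal β).2 ?_
    intro hmem
    apply hw
    have h1 : p.asIdeal ^ h ≤ w.maximalIdeal.asIdeal := by
      rw [hβ', Ideal.span_singleton_le_iff_mem]
      exact hmem
    have h2 : p.asIdeal ≤ w.maximalIdeal.asIdeal := Ideal.IsPrime.le_of_pow_le h1
    have h3 : p.asIdeal = w.maximalIdeal.asIdeal :=
      p.isMaximal.eq_of_le w.maximalIdeal.isPrime.ne_top h2
    have h4 : p = w.maximalIdeal := HeightOneSpectrum.ext h3
    rw [← FinitePlace.mk_maximalIdeal w, ← FinitePlace.mk_maximalIdeal v, ← h4]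

end IP3c

theorem prfP3c : ClaimP3c := by
  classical
  intro K _ _ S ε hε
  choose β hβ0 hβ1 hβ2 using IP3c.exists_beta (K := K)
  have hN : ∀ v : FinitePlace K, ∃ N : ℕ, v (β v) ^ N < ε := fun v =>
    exists_pow_lt_of_lt_one hε (hβ1 v)
  choose N hN using hN
  refine ⟨(∏ v ∈ S, β v) ^ (∑ v ∈ S, N v), ?_, ?_, ?_⟩
  · exact pow_ne_zero _ (Finset.prod_ne_zero_iff.2 (fun v _ => hβ0 v))
  · intro v hv
    rw [map_pow, map_prod, Finset.prod_eq_one, one_pow]
    intro w hw
    exact hβ2 w v (fun h => hv (h ▸ hw))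
  · intro v hv
    rw [map_pow, map_prod, Finset.prod_eq_single v]
    · calc v (β v) ^ (∑ v ∈ S, N v) ≤ v (β v) ^ N v := by
            apply pow_le_pow_of_le_one (apply_nonneg v _) (hβ1 v).le
            exact Finset.single_le_sum (f := N) (fun _ _ => Nat.zero_le _) hv
        _ ≤ ε := (hN v).le
    · intro w _ hwv
      exact hβ2 w v hwv.symm
    · intro h
      exact absurd hv h

end Pool.Agent.Work.Tools.Subspace
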