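import Pool.Agent.Work.Tools.Subspace.Basic
import Pool.Agent.Work.Tools.Subspace.Stmts3

/-!
# Item P4: rounding at the infinite places
-/

set_option autoImplicit false

namespace Pool.Agent.Work.Tools.Subspace

open Finset Module NumberField NumberField.mixedEmbedding

theorem prfP4 : ClaimP4 := by
  intro K _ _
  classical
  refine ⟨∑ i, ‖latticeBasis K i‖, fun t => ?_⟩
  let X : mixedSpace K :=
    (fun w => (mixedEmbedding K (t w)).1 w, fun w => (mixedEmbedding K (t w)).2 w)
  have hmem : ((ZSpan.floor (latticeBasis K) X : Submodule.span ℤ (Set.range (latticeBasis K))) :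
      mixedSpace K) ∈ ((mixedEmbedding K).comp (algebraMap (𝓞 K) K)).range :=
    (mem_span_latticeBasis K).1 (ZSpan.floor (latticeBasis K) X).2
  obtain ⟨a, ha⟩ := hmem
  refine ⟨a, fun v => ?_⟩
  have hnorm := ZSpan.norm_fract_le (latticeBasis K) X
  rw [ZSpan.fract_apply, ← ha] at hnorm
  refine le_trans ?_ hnorm
  have h1 : normAtPlace v (X - ((mixedEmbedding K).comp (algebraMap (𝓞 K) K)) a) ≤
      ‖X - ((mixedEmbedding K).comp (algebraMap (𝓞 K) K)) a‖ := by
    rw [norm_eq_sup'_normAtPlace]
    exact Finset.le_sup' (fun w => normAtPlace w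
      (X - ((mixedEmbedding K).comp (algebraMap (𝓞 K) K)) a)) (Finset.mem_univ v)
  refine le_trans (le_of_eq ?_) h1
  rw [← normAtPlace_apply v (t v - (a : K)), map_sub]
  rcases InfinitePlace.isReal_or_isComplex v with hv | hv
  · rw [normAtPlace_apply_of_isReal hv, normAtPlace_apply_of_isReal hv]
    rfl
  · rw [normAtPlace_apply_of_isComplex hv, normAtPlace_apply_of_isComplex hv]
    rfl

end Pool.Agent.Work.Tools.Subspace
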