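import Pool.Agent.Work.Tools.Subspace.ItemP2

/-!
# P5: the height of a tuple of `S`-integers
-/

namespace Pool.Agent.Work.Tools.Subspace

open Finset Matrix MvPolynomial NumberField Height

namespace IP5

variable {K : Type} [Field K] [NumberField K]

theorem hfs {ι : Type} [Fintype ι] {x : ι → K} (hx : x ≠ 0) :
    (fun v : FinitePlace K => ⨆ i, v (x i)).HasFiniteMulSupport := by
  obtain ⟨j, hj⟩ : ∃ j, x j ≠ 0 := Function.ne_iff.1 hx
  have : Nonempty ι := ⟨j⟩
  have hU : (⋃ i : {i // x i ≠ 0}, (fun v : FinitePlace K => v (x i)).mulSupport).Finite :=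
    Set.finite_iUnion fun i => FinitePlace.hasFiniteMulSupport i.2
  refine hU.subset ?_
  intro v hv
  rw [Set.mem_iUnion]
  by_contra hcon
  push Not at hcon
  have h1 : ∀ i, x i ≠ 0 → v (x i) = 1 := fun i hi => by
    have := hcon ⟨i, hi⟩
    rwa [Function.mem_mulSupport, not_not] at this
  apply hv
  apply le_antisymm
  · refine ciSup_le fun i => ?_
    by_cases hi : x i = 0
    · rw [hi, map_zero]; exact zero_le_one
    · rw [h1 i hi]
  · rw [← h1 j hj]
    exact le_ciSup (f := fun i => v (x i)) (Set.finite_range _).bddAbove j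

theorem iSup_nonneg {ι : Type} (v : FinitePlace K) (x : ι → K) : 0 ≤ ⨆ i, v (x i) :=
  Real.iSup_nonneg fun i => apply_nonneg v (x i)

variable (S : Finset (FinitePlace K))

theorem prod_nrm {ι : Type} (x : ι → K) :
    ∏ v, (⨆ i, nabv S v (x i)) ^ max (ne S v) 1 =
      (∏ v : InfinitePlace K, (⨆ i, v (x i)) ^ v.mult) * ∏ v ∈ S, ⨆ i, v (x i) := by
  rw [IP2.prod_NV S (fun v => (⨆ i, nabv S v (x i)) ^ max (ne S v) 1)
    (fun v => ⨆ i, v (x i)) ?_]
  · congr 1
    refine Finset.prod_congr rfl fun v _ => ?_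
    change (⨆ i, v.val (x i)) ^ max v.mult 1 = _
    rw [IP2.max_mult]
    rfl
  · intro v
    change (⨆ i, v.val.val (x i)) ^ max 0 1 = _
    rw [max_eq_right zero_le_one, pow_one]
    rfl

end IP5

theorem prfP5 : ClaimP5 := by
  intro K _ _ S ι _ x hx h0
  obtain ⟨j, hj⟩ : ∃ j, x j ≠ 0 := Function.ne_iff.1 h0
  have : Nonempty ι := ⟨j⟩
  rw [NumberField.mulHeight_eq h0, IP5.prod_nrm]
  refine mul_le_mul_of_nonneg_left ?_ (Finset.prod_nonneg fun v _ => ?_)
  · exact IP2.finprod_le S _ (IP5.hfs h0) (fun v => IP5.iSup_nonneg v x)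
      fun v hv => ciSup_le fun i => hx i v hv
  · exact pow_nonneg (Real.iSup_nonneg fun i => apply_nonneg v (x i)) _

end Pool.Agent.Work.Tools.Subspace
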