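import Pool.Agent.Work.Tools.Subspace.ItemP5

/-!
# P6: linear forms
-/

namespace Pool.Agent.Work.Tools.Subspace

open Finset Matrix MvPolynomial NumberField Height

namespace IP6

variable {K : Type} [Field K] [NumberField K]

theorem sum_le {ι : Type} (v : FinitePlace K) (s : Finset ι) (f : ι → K) (B : ℝ) (hB : 0 ≤ B)
    (h : ∀ i ∈ s, v (f i) ≤ B) : v (∑ i ∈ s, f i) ≤ B := by
  classical
  induction s using Finset.induction_on with
  | empty => rw [Finset.sum_empty, map_zero]; exact hB
  | insert a s ha ih =>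
    rw [Finset.sum_insert ha]
    refine (FinitePlace.add_le v _ _).trans (max_le (h a (Finset.mem_insert_self _ _)) ?_)
    exact ih fun i hi => h i (Finset.mem_insert_of_mem hi)

theorem dot_le {ι : Type} [Fintype ι] (v : FinitePlace K) (M x : ι → K) (hx : ∀ i, v (x i) ≤ 1) :
    v (M ⬝ᵥ x) ≤ ⨆ i, v (M i) := by
  refine sum_le v _ _ _ (IP5.iSup_nonneg v M) fun i _ => ?_
  rw [map_mul]
  refine (mul_le_of_le_one_right (apply_nonneg v _) (hx i)).trans ?_
  exact le_ciSup (f := fun i => v (M i)) (Set.finite_range _).bddAbove i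

end IP6

theorem prfP6 : ClaimP6 := by
  classical
  intro K _ _ S ι _ M x hx h0
  have hM : M ≠ 0 := by
    rintro rfl
    exact h0 (zero_dotProduct x)
  set z := M ⬝ᵥ x with hz
  set f : FinitePlace K → ℝ := fun v => ⨆ i, v (M i) with hf
  have hfs := IP5.hfs hM
  have hzs : (fun v : FinitePlace K => v z).HasFiniteMulSupport := FinitePlace.hasFiniteMulSupport h0
  rw [IP5.prod_nrm, IP2.prod_nN, NumberField.mulHeight_eq hM]
  have hinf : 0 ≤ ∏ v : InfinitePlace K, (⨆ i, v (M i)) ^ v.mult :=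
    Finset.prod_nonneg fun v _ => pow_nonneg (Real.iSup_nonneg fun i => apply_nonneg v (M i)) _
  have hS : 0 ≤ ∏ v ∈ S, ⨆ i, v (M i) := Finset.prod_nonneg fun v _ => IP5.iSup_nonneg v M
  -- the key inequality
  have hF : (hzs : (fun v : FinitePlace K => v z).mulSupport.Finite).toFinset \ S ⊆
      ((hfs : f.mulSupport.Finite).toFinset ∪
        (hzs : (fun v : FinitePlace K => v z).mulSupport.Finite).toFinset) \ S :=
    Finset.sdiff_subset_sdiff Finset.subset_union_right (le_refl S)
  set F := ((hfs : f.mulSupport.Finite).toFinset ∪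
        (hzs : (fun v : FinitePlace K => v z).mulSupport.Finite).toFinset) \ S with hFdef
  have e1 : ∏ᶠ v, f v = (∏ v ∈ S, f v) * ∏ v ∈ F, f v := by
    rw [IP2.finprod_split S f hfs]
    congr 1
    refine Finset.prod_subset (Finset.sdiff_subset_sdiff Finset.subset_union_left (le_refl S)) ?_
    intro v hv hv2
    rw [hFdef, Finset.mem_sdiff] at hv
    rw [Finset.mem_sdiff, not_and_or, not_not] at hv2
    rcases hv2 with h | h
    · simpa using h
    · exact absurd h hv.2
  have e2 : ∏ᶠ v : FinitePlace K, v z = (∏ v ∈ S, v z) * ∏ v ∈ F, v z := by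
    rw [IP2.finprod_split S (fun v : FinitePlace K => v z) hzs]
    congr 1
    refine Finset.prod_subset hF ?_
    intro v hv hv2
    rw [hFdef, Finset.mem_sdiff] at hv
    rw [Finset.mem_sdiff, not_and_or, not_not] at hv2
    rcases hv2 with h | h
    · simpa using h
    · exact absurd h hv.2
  have e3 : ∏ v ∈ F, v z ≤ ∏ v ∈ F, f v := by
    refine Finset.prod_le_prod (fun v _ => apply_nonneg v z) fun v hv => ?_
    rw [hFdef, Finset.mem_sdiff] at hv
    exact IP6.dot_le v M x fun i => hx i v hv.2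
  have e4 := prod_abs_eq_one h0
  rw [e2] at e4
  rw [e1]
  set A := ∏ v : InfinitePlace K, (⨆ i, v (M i)) ^ v.mult with hA
  set B := ∏ v ∈ S, f v with hB
  set Z := ∏ v : InfinitePlace K, v z ^ v.mult with hZ
  set Y := ∏ v ∈ S, v z with hY
  have hZ0 : 0 ≤ Z := Finset.prod_nonneg fun v _ => by positivity
  have hY0 : 0 ≤ Y := Finset.prod_nonneg fun v _ => apply_nonneg v z
  calc A * B = A * B * (Z * (Y * ∏ v ∈ F, v z)) := by rw [e4, mul_one]
    _ = (A * B * (Z * Y)) * ∏ v ∈ F, v z := by ring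
    _ ≤ (A * B * (Z * Y)) * ∏ v ∈ F, f v :=
        mul_le_mul_of_nonneg_left e3 (mul_nonneg (mul_nonneg hinf hS) (mul_nonneg hZ0 hY0))
    _ = A * (B * ∏ v ∈ F, f v) * (Z * Y) := by ring

end Pool.Agent.Work.Tools.Subspace
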