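import Pool.Agent.Work.Tools.Subspace.Basic
import Pool.Agent.Work.Tools.Subspace.Stmts3

/-!
# Item P7: the height of a tuple and of its ratios
-/

namespace Pool.Agent.Work.Tools.Subspace

open Finset Matrix NumberField Height

theorem prfP7 : ClaimP7 := by
  classical
  intro K _ _ ι _ _ M a ha
  set x : {b : ι // b ≠ a} → Fin 2 → K := fun b => ![M b / M a, 1] with hx
  have hx0 : ∀ b, x b ≠ 0 := by
    intro b h
    have := congrFun h 1
    simp [hx] at this
  have h1 : mulHeight (fun I : {b : ι // b ≠ a} → Fin 2 => ∏ b, x b (I b)) =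
      ∏ b, mulHeight (x b) := mulHeight_fun_prod_eq hx0
  have h2 : ∏ b, mulHeight (x b) = ∏ b ∈ univ.erase a, mulHeight ![-(M b / M a), 1] := by
    have h3 : ∀ b : {b : ι // b ≠ a}, mulHeight (x b) = mulHeight ![-(M b / M a), 1] := by
      intro b
      rw [← mulHeight₁_eq_mulHeight, ← mulHeight₁_eq_mulHeight, mulHeight₁_neg]
    rw [Finset.prod_congr rfl fun b _ => h3 b]
    exact (Finset.prod_subtype (univ.erase a) (p := fun b => b ≠ a) (by simp)
      (fun b => mulHeight ![-(M b / M a), 1])).symm
  rw [← h2, ← h1]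
  have h4 : ((fun I : {b : ι // b ≠ a} → Fin 2 => ∏ b, x b (I b)) ∘
      (fun (i : ι) (b : {b : ι // b ≠ a}) => if (b : ι) = i then (0 : Fin 2) else 1)) =
      (M a)⁻¹ • M := by
    funext i
    simp only [Function.comp_apply, Pi.smul_apply, smul_eq_mul]
    by_cases hi : i = a
    · subst hi
      rw [inv_mul_cancel₀ ha]
      refine Finset.prod_eq_one fun b _ => ?_
      rw [if_neg b.2]
      simp [hx]
    · rw [Finset.prod_eq_single_of_mem (⟨i, hi⟩ : {b : ι // b ≠ a}) (mem_univ _)]
      · rw [if_pos rfl]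
        simp [hx]
        rw [div_eq_inv_mul]
      · intro b _ hb
        rw [if_neg (fun h => hb (Subtype.ext h))]
        simp [hx]
  calc mulHeight M = mulHeight ((M a)⁻¹ • M) :=
        (mulHeight_smul_eq_mulHeight M (inv_ne_zero ha)).symm
    _ ≤ _ := by
        rw [← h4]
        exact mulHeight_comp_le _ _

end Pool.Agent.Work.Tools.Subspace
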