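import Pool.Agent.Work.Tools.Subspace.Basic
import Pool.Agent.Work.Tools.Subspace.Stmts3

/-!
# Subspace theorem, item P8: height of a zero of large multiplicity
-/

namespace Pool.Agent.Work.Tools.Subspace

namespace IP8

open Finset Matrix NumberField Height

variable {K : Type} [Field K] [NumberField K]

omit [NumberField K] in
theorem iSup_pair (v : AbsoluteValue K ℝ) (ξ : K) : ⨆ i, v (![ξ, 1] i) = max (v ξ) 1 := by
  have h : ∀ i : Fin 2, v (![ξ, 1] i) = ![v ξ, 1] i := by
    intro i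
    fin_cases i <;> simp
  simp_rw [h]
  refine le_antisymm (ciSup_le fun i => ?_) (max_le ?_ ?_)
  · fin_cases i
    · exact le_max_left _ _
    · exact le_max_right _ _
  · exact le_ciSup (f := ![v ξ, 1]) (Set.finite_range _).bddAbove (0 : Fin 2)
  · exact le_ciSup (f := ![v ξ, 1]) (Set.finite_range _).bddAbove (1 : Fin 2)

theorem hasFin {ι : Type} [Finite ι] {x : ι → K} (hx : x ≠ 0) :
    (fun v : FinitePlace K => ⨆ i, v (x i)).HasFiniteMulSupport := by
  have : Nonempty {j // x j ≠ 0} := nonempty_subtype.mpr <| Function.ne_iff.mp hx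
  have h1 : (fun v : FinitePlace K => ⨆ i : {j // x j ≠ 0}, v (x i)).HasFiniteMulSupport :=
    .iSup fun i => FinitePlace.hasFiniteMulSupport i.2
  convert! h1 with v
  obtain ⟨i, hi⟩ : ∃ j, x j ≠ 0 := Function.ne_iff.mp hx
  have : Nonempty ι := .intro i
  refine le_antisymm (ciSup_le fun j ↦ ?_) (ciSup_le fun ⟨j, hj⟩ ↦ Finite.le_ciSup_of_le j le_rfl)
  rcases eq_or_ne (x j) 0 with h | h
  · rw [h, map_zero]
    exact Real.iSup_nonneg' ⟨⟨i, hi⟩, apply_nonneg v _⟩
  · exact Finite.le_ciSup_of_le (f := fun i : {j // x j ≠ 0} => v (x i)) ⟨j, h⟩ le_rfl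

end IP8

open Finset Matrix NumberField Height IP8 in
/-- P8: the height of a zero of large multiplicity -/
theorem prfP8 (ha : ClaimP8a) (hb : ClaimP8b) : ClaimP8 := by
  intro K _ _ p k ξ B d hp hd hB hdvd
  obtain ⟨g, hg⟩ := hdvd
  have hinj : Function.Injective (algebraMap ℤ K) := by
    intro a b h
    simpa using h
  have hp0 : p.map (algebraMap ℤ K) ≠ 0 := (Polynomial.map_ne_zero_iff hinj).mpr hp
  have hg0 : g ≠ 0 := by
    rintro rfl
    exact hp0 (by rw [hg, mul_zero])
  have hgd : g.natDegree ≤ d := by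
    have h1 : (p.map (algebraMap ℤ K)).natDegree ≤ d := Polynomial.natDegree_map_le.trans hd
    rw [hg, Polynomial.natDegree_mul (pow_ne_zero _ (Polynomial.X_sub_C_ne_zero ξ)) hg0] at h1
    omega
  let x : Fin (d + 1) → K := fun i => g.coeff i
  have hx0 : x ≠ 0 := by
    intro h
    apply hg0
    ext i
    by_cases hi : i < d + 1
    · exact congrFun h ⟨i, hi⟩
    · exact Polynomial.coeff_eq_zero_of_natDegree_lt (by omega)
  have hy0 : ![ξ, 1] ≠ 0 := by
    intro h
    have := congrFun h 1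
    simp at this
  have hB0 : 0 ≤ B := (abs_nonneg _).trans (hB 0)
  -- finite places
  have hfin : ∀ v : FinitePlace K, (⨆ i, v (![ξ, 1] i)) ^ k * ⨆ i, v (x i) ≤ 1 := by
    intro v
    have hmax : (⨆ i, v (![ξ, 1] i)) = max (v.val ξ) 1 := iSup_pair v.val ξ
    rw [hmax]
    have h1 := hb K v.val (fun a b => FinitePlace.add_le v a b) _ g ξ k hg (by
      intro i
      rw [Polynomial.coeff_map]
      have h2 := FinitePlace.norm_le_one K v.maximalIdeal ((p.coeff i : ℤ) : 𝓞 K)
      rw [FinitePlace.norm_embedding_eq] at h2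
      have h3 : (algebraMap (𝓞 K) K) ((p.coeff i : ℤ) : 𝓞 K) = algebraMap ℤ K (p.coeff i) := by
        simp
      rw [h3] at h2
      exact h2)
    have h3 : 0 < max (v.val ξ) 1 ^ k := pow_pos (lt_max_of_lt_right one_pos) k
    have h4 : (⨆ i, v (x i)) ≤ (max (v.val ξ) 1 ^ k)⁻¹ := by
      refine ciSup_le fun i => ?_
      rw [← one_div, le_div_iff₀ h3, mul_comm]
      exact h1 i
    calc max (v.val ξ) 1 ^ k * ⨆ i, v (x i) ≤ max (v.val ξ) 1 ^ k * (max (v.val ξ) 1 ^ k)⁻¹ :=
          mul_le_mul_of_nonneg_left h4 h3.le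
      _ = 1 := mul_inv_cancel₀ h3.ne'
  -- infinite places
  have hinf : ∀ v : InfinitePlace K,
      (⨆ i, v (![ξ, 1] i)) ^ k * ⨆ i, v (x i) ≤ 4 ^ d * B := by
    intro v
    have hmax : (⨆ i, v (![ξ, 1] i)) = max (v ξ) 1 := iSup_pair v.val ξ
    rw [hmax]
    have hnorm : ∀ z : K, ‖v.embedding z‖ = v z := fun z => v.norm_embedding_eq z
    have h1 := ha ((p.map (algebraMap ℤ K)).map v.embedding) (g.map v.embedding)
      (v.embedding ξ) k d B (by
        rw [hg]
        simp) ((Polynomial.map_ne_zero_iff v.embedding.injective).mpr hp0)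
      (Polynomial.natDegree_map_le.trans (Polynomial.natDegree_map_le.trans hd)) (by
        intro i
        rw [Polynomial.coeff_map, Polynomial.coeff_map]
        simpa using hB i)
    simp only [Polynomial.coeff_map, hnorm] at h1
    have h3 : 0 < max (v ξ) 1 ^ k := pow_pos (lt_max_of_lt_right one_pos) k
    have h4 : (⨆ i, v (x i)) ≤ (4 ^ d * B) / max (v ξ) 1 ^ k := by
      refine ciSup_le fun i => ?_
      rw [le_div_iff₀ h3, mul_comm]
      exact h1 i
    calc max (v ξ) 1 ^ k * ⨆ i, v (x i) ≤ max (v ξ) 1 ^ k * ((4 ^ d * B) / max (v ξ) 1 ^ k) :=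
          mul_le_mul_of_nonneg_left h4 h3.le
      _ = 4 ^ d * B := mul_div_cancel₀ _ h3.ne'
  have hsup0 : ∀ {ι : Type} (v : AbsoluteValue K ℝ) (y : ι → K), 0 ≤ ⨆ i, v (y i) :=
    fun v y => Real.iSup_nonneg fun i => AbsoluteValue.nonneg _ _
  have hmain : mulHeight ![ξ, 1] ^ k * mulHeight x ≤ (4 ^ d * B) ^ Module.finrank ℚ K := by
    rw [NumberField.mulHeight_eq hy0, NumberField.mulHeight_eq hx0, mul_pow, mul_mul_mul_comm]
    have hf1 := hasFin hy0
    have hf2 := hasFin hx0
    have hf3 : (fun v : FinitePlace K => (⨆ i, v (![ξ, 1] i)) ^ k).HasFiniteMulSupport :=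
      hf1.pow k
    rw [finprod_pow hf1, ← finprod_mul_distrib hf3 hf2, ← Finset.prod_pow,
      ← Finset.prod_mul_distrib]
    have h1 : ∏ᶠ v : FinitePlace K, ((⨆ i, v (![ξ, 1] i)) ^ k * ⨆ i, v (x i)) ≤ 1 := by
      have h10 := finprod_le_finprod (M := ℝ)
        (f := fun v : FinitePlace K => (⨆ i, v (![ξ, 1] i)) ^ k * ⨆ i, v (x i))
        (g := fun _ => 1) (hf3.mul hf2)
        (fun v => mul_nonneg (pow_nonneg (hsup0 v.val _) _) (hsup0 v.val _))
        (by simp [Function.HasFiniteMulSupport]) (fun v => hfin v)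
      simpa using h10
    have h2 : ∏ v : InfinitePlace K, (((⨆ i, v (![ξ, 1] i)) ^ v.mult) ^ k *
        (⨆ i, v (x i)) ^ v.mult) ≤ (4 ^ d * B) ^ Module.finrank ℚ K := by
      rw [← InfinitePlace.sum_mult_eq, ← Finset.prod_pow_eq_pow_sum]
      refine Finset.prod_le_prod (fun v _ => ?_) fun v _ => ?_
      · exact mul_nonneg (pow_nonneg (pow_nonneg (hsup0 v.val _) _) _)
          (pow_nonneg (hsup0 v.val _) _)
      · rw [← pow_mul, mul_comm v.mult k, pow_mul, ← mul_pow]
        exact pow_le_pow_left₀ (mul_nonneg (pow_nonneg (hsup0 v.val _) _) (hsup0 v.val _))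
          (hinf v) _
    refine (mul_le_mul h2 h1 ?_ (by positivity)).trans (by rw [mul_one])
    exact finprod_nonneg fun v => mul_nonneg (pow_nonneg (hsup0 v.val _) _) (hsup0 v.val _)
  have h5 : mulHeight ![ξ, 1] ^ k ≤ mulHeight ![ξ, 1] ^ k * mulHeight x := by
    refine le_mul_of_one_le_right (pow_nonneg ?_ _) (one_le_mulHeight x)
    exact zero_le_one.trans (one_le_mulHeight _)
  refine h5.trans (hmain.trans (le_of_eq ?_))
  rw [mul_pow, ← pow_mul, ← pow_mul, mul_comm d]

end Pool.Agent.Work.Tools.Subspace
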