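import Pool.Agent.Work.Tools.Subspace.Basic
import Pool.Agent.Work.Tools.Subspace.Stmts3

set_option autoImplicit false

/-!
# Item P8a: one infinite place
-/

namespace Pool.Agent.Work.Tools.Subspace

namespace IP8a

theorem mahler_pow (p g : Polynomial ℂ) (k : ℕ) :
    (p ^ k * g).mahlerMeasure = p.mahlerMeasure ^ k * g.mahlerMeasure := by
  induction k with
  | zero => rw [pow_zero, pow_zero, one_mul, one_mul]
  | succ k ih =>
    rw [pow_succ', mul_assoc, Polynomial.mahlerMeasure_mul, ih]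
    ring

theorem mahler_le {p : Polynomial ℂ} {d : ℕ} {B : ℝ} (hd : p.natDegree ≤ d)
    (hB : ∀ i, ‖p.coeff i‖ ≤ B) : p.mahlerMeasure ≤ (d + 1) * B := by
  have hB0 : 0 ≤ B := (norm_nonneg _).trans (hB 0)
  refine (Polynomial.mahlerMeasure_le_sum_norm_coeff p).trans ?_
  rw [Polynomial.sum_over_range _ (fun _ => norm_zero)]
  refine (Finset.sum_le_card_nsmul _ _ B fun i _ => hB i).trans ?_
  rw [Finset.card_range, nsmul_eq_mul]
  refine mul_le_mul_of_nonneg_right ?_ hB0
  push_cast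
  have : (p.natDegree : ℝ) ≤ d := by exact_mod_cast hd
  linarith

end IP8a

open IP8a in
/-- P8a: one infinite place. -/
theorem prfP8a : ClaimP8a := by
  intro p g ξ k d B hp hp0 hd hB i
  have hB0 : 0 ≤ B := (norm_nonneg _).trans (hB 0)
  have hgd : g.natDegree ≤ d := by
    refine le_trans (Polynomial.natDegree_le_of_dvd ?_ hp0) hd
    rw [hp]
    exact Dvd.intro_left _ rfl
  have h1 := Polynomial.norm_coeff_le_choose_mul_mahlerMeasure i g
  have h2 : (g.natDegree.choose i : ℝ) ≤ 2 ^ d := by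
    have h3 : g.natDegree.choose i ≤ 2 ^ d :=
      (Nat.choose_le_two_pow _ _).trans (Nat.pow_le_pow_right (by norm_num) hgd)
    exact_mod_cast h3
  have h4 : p.mahlerMeasure = max ‖ξ‖ 1 ^ k * g.mahlerMeasure := by
    rw [hp, mahler_pow, Polynomial.mahlerMeasure_X_sub_C, max_comm]
  have h5 := mahler_le hd hB
  have h6 : 0 ≤ g.mahlerMeasure := Polynomial.mahlerMeasure_nonneg g
  have h7 : ((d : ℝ) + 1) ≤ 2 ^ d := by
    have : d + 1 ≤ 2 ^ d := Nat.lt_two_pow_self
    exact_mod_cast this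
  have hm : (0 : ℝ) ≤ max ‖ξ‖ 1 ^ k := by positivity
  calc max ‖ξ‖ 1 ^ k * ‖g.coeff i‖ ≤ max ‖ξ‖ 1 ^ k * (2 ^ d * g.mahlerMeasure) :=
        mul_le_mul_of_nonneg_left (h1.trans (mul_le_mul_of_nonneg_right h2 h6)) hm
    _ = 2 ^ d * p.mahlerMeasure := by rw [h4]; ring
    _ ≤ 2 ^ d * (2 ^ d * B) := mul_le_mul_of_nonneg_left
        (h5.trans (mul_le_mul_of_nonneg_right h7 hB0)) (by positivity)
    _ = 4 ^ d * B := by
        rw [show (4 : ℝ) = 2 * 2 by norm_num, mul_pow]
        ring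

end Pool.Agent.Work.Tools.Subspace
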