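import Pool.Agent.Work.Tools.Subspace.Basic
import Pool.Agent.Work.Tools.Subspace.Stmts3

/-!
# Item P9: integral coordinates
-/

namespace Pool.Agent.Work.Tools.Subspace

open Finset Matrix NumberField

namespace IP9

/-- coordinates of a product -/
theorem coord_mul {K : Type} [Field K] [NumberField K] {D : ℕ} (w : Module.Basis (Fin D) ℚ K)
    (x y : K) (k : Fin D) : w.equivFun (x * y) k =
      ∑ i, ∑ j, w.equivFun x i * w.equivFun y j * w.equivFun (w i * w j) k := by
  have h : x * y = ∑ i, ∑ j, (w.equivFun x i * w.equivFun y j) • (w i * w j) := by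
    conv_lhs => rw [← w.sum_equivFun x, ← w.sum_equivFun y]
    rw [Finset.sum_mul_sum]
    refine Finset.sum_congr rfl fun i _ => Finset.sum_congr rfl fun j _ => ?_
    rw [smul_mul_smul_comm]
  conv_lhs => rw [h]
  simp only [map_sum, map_smul, Finset.sum_apply, Pi.smul_apply, smul_eq_mul]

end IP9

theorem prfP9 : ClaimP9 := by
  classical
  intro K _ _
  set β := Module.Free.ChooseBasisIndex ℤ (𝓞 K) with hβ
  set D := Fintype.card β with hD
  set e : β ≃ Fin D := Fintype.equivFin β with he
  set w : Module.Basis (Fin D) ℚ K := (integralBasis K).reindex e with hw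
  have hint : ∀ i, ∃ u : 𝓞 K, w i = algebraMap (𝓞 K) K u := by
    intro i
    refine ⟨RingOfIntegers.basis K (e.symm i), ?_⟩
    rw [hw, Module.Basis.reindex_apply, integralBasis_apply]
  have hz : ∀ (u : 𝓞 K) (k : Fin D), ∃ z : ℤ, w.equivFun (algebraMap (𝓞 K) K u) k = z := by
    intro u k
    refine ⟨(RingOfIntegers.basis K).repr u (e.symm k), ?_⟩
    rw [Module.Basis.equivFun_apply, hw, Module.Basis.repr_reindex_apply,
      integralBasis_repr_apply]
    rfl
  have hc : ∀ i j k, ∃ z : ℤ, w.equivFun (w i * w j) k = z := by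
    intro i j k
    obtain ⟨u, hu⟩ := hint i
    obtain ⟨v, hv⟩ := hint j
    rw [hu, hv, ← map_mul]
    exact hz _ k
  choose c hc using hc
  refine ⟨D, ∑ i, ∑ j, ∑ k, (c i j k).natAbs, w.equivFun.toLinearMap.toAddMonoidHom, ?_, ?_, ?_⟩
  · exact w.equivFun.injective
  · intro x y a b hx hy k
    choose zx hzx hzx' using hx
    choose zy hzy hzy' using hy
    refine ⟨∑ i, ∑ j, zx i * zy j * c i j k, ?_, ?_⟩
    · change w.equivFun (x * y) k = _
      rw [IP9.coord_mul]
      push_cast
      refine Finset.sum_congr rfl fun i _ => Finset.sum_congr rfl fun j _ => ?_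
      rw [hc]
      congr 1
      congr 1
      · exact hzx i
      · exact hzy j
    · have h1 : ∀ i j, |zx i * zy j * c i j k| ≤ (a:ℤ) * b * ((c i j k).natAbs : ℤ) := by
        intro i j
        rw [abs_mul, abs_mul, Int.natCast_natAbs]
        refine mul_le_mul_of_nonneg_right ?_ (abs_nonneg _)
        exact mul_le_mul (hzx' i) (hzy' j) (abs_nonneg _) (Int.natCast_nonneg _)
      calc |∑ i, ∑ j, zx i * zy j * c i j k| ≤ ∑ i, ∑ j, |zx i * zy j * c i j k| := by
            refine (Finset.abs_sum_le_sum_abs _ _).trans (Finset.sum_le_sum fun i _ => ?_)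
            exact Finset.abs_sum_le_sum_abs _ _
        _ ≤ ∑ i, ∑ j, (a:ℤ) * b * ((c i j k).natAbs : ℤ) :=
            Finset.sum_le_sum fun i _ => Finset.sum_le_sum fun j _ => h1 i j
        _ ≤ ∑ i, ∑ j, (a:ℤ) * b * (∑ k, ((c i j k).natAbs : ℤ)) := by
            refine Finset.sum_le_sum fun i _ => Finset.sum_le_sum fun j _ => ?_
            refine mul_le_mul_of_nonneg_left ?_ (by positivity)
            exact Finset.single_le_sum (f := fun k => ((c i j k).natAbs : ℤ))
              (fun _ _ => Int.natCast_nonneg _) (mem_univ k)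
        _ = _ := by
            push_cast
            rw [Finset.sum_mul, Finset.sum_mul]
            refine Finset.sum_congr rfl fun i _ => ?_
            rw [Finset.sum_mul, Finset.sum_mul]
            refine Finset.sum_congr rfl fun j _ => ?_
            ring
  · intro x
    refine ⟨∏ i, (w.equivFun x i).den, Finset.prod_pos fun i _ => (w.equivFun x i).den_pos, ?_⟩
    intro i
    refine ⟨(∏ j ∈ univ.erase i, ((w.equivFun x j).den : ℤ)) * (w.equivFun x i).num, ?_⟩
    change w.equivFun ((∏ i, (w.equivFun x i).den) • x) i = _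
    rw [map_nsmul, Pi.smul_apply, nsmul_eq_mul,
      ← Finset.mul_prod_erase univ (fun j => (w.equivFun x j).den) (mem_univ i)]
    push_cast
    rw [mul_comm ((w.equivFun x i).den : ℚ), mul_assoc, Rat.den_mul_eq_num]

end Pool.Agent.Work.Tools.Subspace
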