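import Pool.Agent.Work.Tools.Subspace.Basic
import Pool.Agent.Work.Tools.Subspace.Stmts2

/-!
# Item PT: the parametric Subspace theorem
-/

namespace Pool.Agent.Work.Tools.Subspace

open Finset Matrix

namespace IPT

theorem prod_theta {K : Type} [Field K] (P : Places K) {n : ℕ} (c : P.V → Fin n → ℝ) (q : ℝ)
    (τ : P.V → ℝ) (hτ1 : ∏ v, τ v = 1) :
    ∏ v, ∏ i, τ v * Real.exp (c v i * q) = Real.exp ((∑ v, ∑ i, c v i) * q) := by
  have h1 : ∀ v, ∏ i, τ v * Real.exp (c v i * q) =
      τ v ^ n * Real.exp ((∑ i, c v i) * q) := by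
    intro v
    rw [Finset.prod_mul_distrib, Finset.prod_const, Finset.card_univ, Fintype.card_fin,
      ← Real.exp_sum, Finset.sum_mul]
  rw [Finset.prod_congr rfl fun v _ => h1 v, Finset.prod_mul_distrib, Finset.prod_pow, hτ1,
    one_pow, one_mul, ← Real.exp_sum, Finset.sum_mul]

end IPT

theorem prfPT (hQ : ClaimQ) (h9 : ClaimC9) (hS : ClaimS1) : ClaimPT := by
  classical
  intro K _ _ P n A c hA hc
  have hn : 0 < n := by
    rcases Nat.eq_zero_or_pos n with rfl | h
    · simp at hc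
    · exact h
  obtain ⟨C, hC, hQ'⟩ := hQ K P n A hn hA
  have hD := D_pos P
  set δ : ℝ := -∑ v, ∑ i, c v i with hδdef
  have hδ : 0 < δ := by linarith
  have hn' : (0:ℝ) < n := by exact_mod_cast hn
  have hD' : (0:ℝ) < P.D := by exact_mod_cast hD
  set η : ℝ := δ / (2 * n ^ 2 * P.D) with hη
  have hη0 : 0 < η := by positivity
  have hex : ∀ k : Fin n, ∃ (q₀ : ℝ) (T : Set (Submodule K (Fin n → K))), T.Finite ∧
      ((k : ℕ) ≠ 0 → ∀ (q : ℝ) (τ : P.V → ℝ) (μ : Fin n → ℝ) (x : Fin n → Fin n → K)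
        (π : P.V → Fin n ≃ Fin n), q₀ ≤ q → (∀ v, 0 < τ v) → ∏ v, τ v = 1 →
        Nice P A (fun v i => τ v * Real.exp (c v i * q)) μ x π C →
        (∀ j, j < k → Real.exp (η * q) * μ j ≤ μ k) → Fl x k ∈ T) := by
    intro k
    by_cases hk : (k : ℕ) = 0
    · exact ⟨0, ∅, Set.finite_empty, fun h => absurd hk h⟩
    · obtain ⟨q₀, T, hT, h⟩ := h9 K P n A c η C k hA hη0 hC hk
      exact ⟨q₀, T, hT, fun _ => h⟩
  choose qq TT hfin hTT using hex
  refine ⟨max (max 1 (∑ k, |qq k|)) (2 * Real.log C / δ + 1),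
    {W | (∃ k, W ∈ TT k) ∧ W ≠ ⊤}, ?_, fun W hW => hW.2, ?_⟩
  · refine (Set.finite_iUnion hfin).subset ?_
    rintro W ⟨⟨k, hk⟩, -⟩
    exact Set.mem_iUnion.2 ⟨k, hk⟩
  · intro q τ x hq hτ hτ1 hx0 hxO hb
    have hq1 : 1 ≤ q := (le_max_left _ _).trans ((le_max_left _ _).trans hq)
    have hqq : ∀ k, qq k ≤ q := by
      intro k
      refine (le_abs_self _).trans (le_trans ?_ ((le_max_right _ _).trans
        ((le_max_left _ _).trans hq)))
      exact Finset.single_le_sum (f := fun k => |qq k|) (fun _ _ => abs_nonneg _) (mem_univ k)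
    have hqC : 2 * Real.log C / δ + 1 ≤ q := (le_max_right _ _).trans hq
    have hqC' : 2 * Real.log C < δ * q := by
      have : 2 * Real.log C / δ < q := by linarith
      rw [div_lt_iff₀ hδ] at this
      linarith
    have hq0 : 0 < q := by linarith
    obtain ⟨μ, x', π, hNice, hmin⟩ := hQ' (fun v i => τ v * Real.exp (c v i * q))
      (fun v i => mul_pos (hτ v) (Real.exp_pos _))
    have hNice' := hNice
    obtain ⟨hμ, hmono, hlin, hO, -, hlow, -⟩ := hNice'
    have hdom : InDom P A (fun v i => τ v * Real.exp (c v i * q)) 1 x :=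
      ⟨hxO, fun v i => by simpa using hb v i⟩
    have h0 : μ ⟨0, hn⟩ ≤ 1 := by
      refine hmin ⟨0, hn⟩ 1 x one_pos hdom ?_
      have : Fl x' ((⟨0, hn⟩ : Fin n) : ℕ) = ⊥ := by
        unfold Fl
        have h3 : {i : Fin n | (i : ℕ) < ((⟨0, hn⟩ : Fin n) : ℕ)} = ∅ := by
          ext i
          simp
        rw [h3, Set.image_empty, Submodule.span_empty]
      rw [this, Submodule.mem_bot]
      exact hx0
    set g : ℝ := Real.exp (η * q) with hg
    have hg1 : 1 ≤ g := Real.one_le_exp (by positivity)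
    have hbig : ∃ j, g ^ n < μ j := by
      by_contra hcon
      push Not at hcon
      rw [IPT.prod_theta P c q τ hτ1] at hlow
      have h4 : ∏ j, μ j ≤ (g ^ n) ^ n := by
        calc ∏ j, μ j ≤ ∏ _j : Fin n, g ^ n :=
              Finset.prod_le_prod (fun j _ => (hμ j).le) fun j _ => hcon j
          _ = (g ^ n) ^ n := by simp
      have h5 : (∏ j, μ j) ^ P.D ≤ ((g ^ n) ^ n) ^ P.D :=
        pow_le_pow_left₀ (Finset.prod_nonneg fun j _ => (hμ j).le) h4 _
      have h6 : ((g ^ n) ^ n) ^ P.D = Real.exp (δ * q / 2) := by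
        rw [← pow_mul, ← pow_mul, hg, ← Real.exp_nat_mul]
        congr 1
        rw [hη]
        push_cast
        field_simp
      have h7 : (∑ v, ∑ i, c v i) * q = -(δ * q) := by
        rw [hδdef]
        ring
      rw [h7] at hlow
      rw [h6] at h5
      have h8 : 1 ≤ C * (Real.exp (δ * q / 2) * Real.exp (-(δ * q))) := by
        refine hlow.trans ?_
        exact mul_le_mul_of_nonneg_left
          (mul_le_mul_of_nonneg_right h5 (Real.exp_pos _).le) (zero_le_one.trans hC)
      have hCpos : 0 < C := lt_of_lt_of_le one_pos hC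
      have h9 : C * (Real.exp (δ * q / 2) * Real.exp (-(δ * q))) =
          Real.exp (Real.log C + (δ * q / 2 + -(δ * q))) := by
        rw [Real.exp_add, Real.exp_add, Real.exp_log hCpos]
      rw [h9] at h8
      have h10 : Real.exp (Real.log C + (δ * q / 2 + -(δ * q))) < 1 := by
        rw [Real.exp_lt_one_iff]
        linarith
      linarith
    obtain ⟨k, hk0, hk1, hgap⟩ := hS n μ g hn hμ hmono hg1 ⟨_, h0⟩ hbig
    have hFl := hTT k hk0 q τ μ x' π (hqq k) hτ hτ1 hNice hgap
    refine ⟨Fl x' k, ⟨⟨k, hFl⟩, ?_⟩, ?_⟩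
    · intro htop
      have h11 : x' k ∉ Fl x' k := by
        unfold Fl
        exact hlin.notMem_span_image (by simp)
      exact h11 (by rw [htop]; trivial)
    · by_contra hcon
      exact absurd (hmin k 1 x one_pos hdom hcon) (not_le.2 hk1)

end Pool.Agent.Work.Tools.Subspace
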