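import Pool.Agent.Work.Tools.Subspace.Basic
import Pool.Agent.Work.Tools.Subspace.Stmts
import Pool.Agent.Work.Tools.Subspace.Stmts2

set_option autoImplicit false

/-!
# Item Q: reduced bases exist
-/

namespace Pool.Agent.Work.Tools.Subspace

open Finset Matrix MvPolynomial

/-- Q: reduced bases exist. -/
theorem prfQ (h3 : ClaimQ3) (h4 : ClaimQ4) (h5 : ClaimQ5) (h6 : ClaimQ6) (h7 : ClaimQ7) :
    ClaimQ := by
  intro K _ _ P n A hn hA
  have hC0 : (1 : ℝ) ≤ (n : ℝ) ^ n := one_le_pow₀ (by exact_mod_cast hn)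
  obtain ⟨C5, hC5, H5⟩ := h5 K P n A ((n : ℝ) ^ n) hA hC0
  obtain ⟨C6, hC6, H6⟩ := h6 K P n A ((n : ℝ) ^ n) hn hA hC0
  obtain ⟨C7, hC7, H7⟩ := h7 K P n A hA
  set C : ℝ := max C5 (max C6 (C7 * 2 ^ (n * P.D))) with hC
  refine ⟨C, hC5.trans (le_max_left _ _), fun θ hθ => ?_⟩
  obtain ⟨μ, x, hμ, hmono, hli, hdom, hmin⟩ := h3 K P n A θ hA hθ
  choose π hπ using fun v => h4 K P v n (A v) (θ v) x (hA v) (hθ v) hli
  obtain ⟨x', hli', hO, hFl, hb⟩ := H5 θ μ x π hθ hμ hmono hli hdom hπ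
  refine ⟨μ, x', π, ⟨hμ, hmono, hli', hO, ?_, ?_, ?_⟩, ?_⟩
  · intro v i j
    refine (hb v i j).trans (mul_le_mul_of_nonneg_right (pow_le_pow_left₀ ?_
      (mul_le_mul_of_nonneg_right (le_max_left _ _) (hμ _).le) _) (hθ _ _).le)
    exact mul_nonneg (by linarith) (hμ _).le
  · have h := H7 θ (fun j => 2 * μ j) x hθ (fun j => mul_pos two_pos (hμ j)) hli hdom
    rw [Finset.prod_mul_distrib, Finset.prod_const, Finset.card_univ, Fintype.card_fin, mul_pow,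
      ← pow_mul] at h
    have hpos : 0 ≤ (∏ j, μ j) ^ P.D * ∏ v, ∏ i, θ v i :=
      mul_nonneg (pow_nonneg (Finset.prod_nonneg fun j _ => (hμ j).le) _)
        (Finset.prod_nonneg fun v _ => Finset.prod_nonneg fun i _ => (hθ v i).le)
    calc 1 ≤ C7 * (2 ^ (n * P.D) * (∏ j, μ j) ^ P.D * ∏ v, ∏ i, θ v i) := h
      _ = (C7 * 2 ^ (n * P.D)) * ((∏ j, μ j) ^ P.D * ∏ v, ∏ i, θ v i) := by ring
      _ ≤ C * ((∏ j, μ j) ^ P.D * ∏ v, ∏ i, θ v i) :=
        mul_le_mul_of_nonneg_right ((le_max_right _ _).trans (le_max_right _ _)) hpos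
  · exact (H6 θ μ x π hθ hμ hmono hli hπ hmin).trans
      ((le_max_left _ _).trans (le_max_right _ _))
  · intro j lam y hlam hy hne
    rw [hFl] at hne
    exact hmin j lam y hlam hy hne

end Pool.Agent.Work.Tools.Subspace
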