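import Pool.Agent.Work.Tools.Subspace.Basic
import Pool.Agent.Work.Tools.Subspace.Stmts
import Pool.Agent.Work.Tools.Subspace.Stmts2

/-!
# The Subspace theorem: item Q1, the first minimum is positive
-/

namespace Pool.Agent.Work.Tools.Subspace

open Finset Matrix MvPolynomial

/-- Q1: the first minimum is positive -/
theorem prfQ1 : ClaimQ1 := by
  intro K _ _ P ι _ _ A hA
  choose C hC h using fun v => exists_mulVec_le P v (A v)⁻¹
  refine ⟨∏ v, C v, Finset.prod_pos fun v _ => by linarith [hC v], ?_⟩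
  intro θ T lam y hθ hT hlam hy hdom
  obtain ⟨i, hi⟩ := Function.ne_iff.mp hy
  have h1 := one_le_prod_N P (hdom.1 i) hi
  have hT0 : ∀ v, 0 < T v := fun v => (hθ v i).trans_le (hT v i)
  have h2 : ∀ v, P.N v (y i) ≤ C v * (lam ^ P.e v * T v) := by
    intro v
    have := h v (A v *ᵥ y) (lam ^ P.e v * T v) (mul_nonneg (pow_nonneg hlam.le _) (hT0 v).le)
      (fun j => (hdom.2 v j).trans (mul_le_mul_of_nonneg_left (hT v j) (pow_nonneg hlam.le _))) i
    rwa [Matrix.mulVec_mulVec, Matrix.nonsing_inv_mul _ (isUnit_iff_ne_zero.mpr (hA v)),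
      Matrix.one_mulVec] at this
  calc 1 ≤ ∏ v, P.N v (y i) := h1
    _ ≤ ∏ v, (C v * (lam ^ P.e v * T v)) :=
      Finset.prod_le_prod (fun v _ => N_nonneg P v _) (fun v _ => h2 v)
    _ = (∏ v, C v) * lam ^ P.D * ∏ v, T v := by
      rw [Finset.prod_mul_distrib, Finset.prod_mul_distrib, Finset.prod_pow_eq_pow_sum, mul_assoc]
      rfl

end Pool.Agent.Work.Tools.Subspace
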