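import Pool.Agent.Work.Tools.Subspace.Basic
import Pool.Agent.Work.Tools.Subspace.Stmts
import Pool.Agent.Work.Tools.Subspace.Stmts2

set_option autoImplicit false

/-!
# Item Q2: integral points of the domains span
-/

namespace Pool.Agent.Work.Tools.Subspace

open Finset Matrix MvPolynomial

namespace IQ2

variable {K : Type} [Field K] (P : Places K)

/-- A nonzero `S`-integer which is small at all places but one archimedean place. -/
theorem exists_small (s : P.V → ℝ) (hs : ∀ v, 0 < s v) :
    ∃ c ∈ P.O, c ≠ 0 ∧ ∀ v, P.e v = 0 → P.N v c ≤ s v := by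
  obtain ⟨v₀, hv₀⟩ := P.arch
  obtain ⟨C, hC, H⟩ := P.pig Unit (fun _ => 1)
  have hPi : 0 < ∏ v ∈ univ \ {v₀}, s v := Finset.prod_pos fun v _ => hs v
  set L : ℝ := C / ∏ v ∈ univ \ {v₀}, s v with hL
  have hL0 : 0 < L := div_pos hC hPi
  obtain ⟨x, hxO, hx0, hx⟩ := H (fun v _ => Function.update s v₀ L v) (by
    intro v _
    by_cases h : v = v₀
    · rw [h, Function.update_self]
      exact hL0
    · rw [Function.update_of_ne h]
      exact hs v) (by
    simp only [Finset.univ_unique, Finset.prod_singleton]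
    rw [Finset.prod_update_of_mem (Finset.mem_univ v₀), hL, div_mul_cancel₀ _ hPi.ne'])
  refine ⟨x (), hxO (), ?_, ?_⟩
  · intro h
    apply hx0
    funext u
    exact h
  · intro v hv
    have h1 := hx v ()
    rw [Matrix.one_mulVec] at h1
    have hne : v ≠ v₀ := by
      rintro rfl
      exact hv₀ hv
    rw [Function.update_of_ne hne] at h1
    exact h1

theorem exists_single_notMem {ι : Type} [Fintype ι] [DecidableEq ι] {T : Submodule K (ι → K)}
    (hT : T ≠ ⊤) : ∃ i, ∀ c : K, c ≠ 0 → (Pi.single i c : ι → K) ∉ T := by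
  by_contra hcon
  push Not at hcon
  apply hT
  rw [eq_top_iff]
  intro y _
  rw [← Finset.univ_sum_single y]
  refine T.sum_mem fun i _ => ?_
  obtain ⟨c, hc, hm⟩ := hcon i
  have h1 := T.smul_mem (y i * c⁻¹) hm
  rw [← Pi.single_smul, smul_eq_mul, mul_assoc, inv_mul_cancel₀ hc, mul_one] at h1
  exact h1

theorem mulVec_single' {ι : Type} [Fintype ι] [DecidableEq ι] (A : Matrix ι ι K) (i i' : ι)
    (c : K) : (A *ᵥ Pi.single i c) i' = A i' i * c := by
  unfold Matrix.mulVec dotProduct
  rw [Finset.sum_eq_single i]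
  · rw [Pi.single_eq_same]
  · intro j _ hj
    rw [Pi.single_eq_of_ne hj, mul_zero]
  · intro h
    exact absurd (Finset.mem_univ i) h

end IQ2

open IQ2 in
/-- Q2: integral points of the domains span. -/
theorem prfQ2 : ClaimQ2 := by
  intro K _ _ P ι _ _ A θ T hθ hT
  obtain ⟨i, hi⟩ := exists_single_notMem hT
  have hterm : ∀ (v : P.V) (i' : ι), 0 < (1 + P.N v (A v i' i)) / θ v i' := fun v i' =>
    div_pos (by have := N_nonneg P v (A v i' i); linarith) (hθ v i')
  have hsum : ∀ v : P.V, 0 < ∑ i', (1 + P.N v (A v i' i)) / θ v i' := fun v =>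
    Finset.sum_pos (fun i' _ => hterm v i') ⟨i, Finset.mem_univ i⟩
  obtain ⟨c, hcO, hc0, hc⟩ := exists_small P
    (fun v => (∑ i', (1 + P.N v (A v i' i)) / θ v i')⁻¹) (fun v => inv_pos.2 (hsum v))
  set lam : ℝ := 1 + ∑ v, ∑ i', P.N v (A v i' i * c) / θ v i' with hlam
  have hnn : ∀ (v : P.V) (i' : ι), 0 ≤ P.N v (A v i' i * c) / θ v i' := fun v i' =>
    div_nonneg (N_nonneg P v _) (hθ v i').le
  have hlam1 : 1 ≤ lam := by
    have : 0 ≤ ∑ v, ∑ i', P.N v (A v i' i * c) / θ v i' :=
      Finset.sum_nonneg fun v _ => Finset.sum_nonneg fun i' _ => hnn v i'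
    linarith
  refine ⟨lam, Pi.single i c, by linarith, ⟨?_, ?_⟩, hi c hc0⟩
  · intro j
    by_cases h : j = i
    · rw [h, Pi.single_eq_same]
      exact hcO
    · rw [Pi.single_eq_of_ne h]
      exact P.O.zero_mem
  · intro v i'
    rw [mulVec_single']
    by_cases he : P.e v = 0
    · rw [he, pow_zero, one_mul, N_mul]
      have h1 := hc v he
      have h2 : (1 + P.N v (A v i' i)) / θ v i' ≤ ∑ i', (1 + P.N v (A v i' i)) / θ v i' :=
        Finset.single_le_sum (f := fun i' => (1 + P.N v (A v i' i)) / θ v i')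
          (fun j _ => (hterm v j).le) (Finset.mem_univ i')
      have h3 : P.N v c * (1 + P.N v (A v i' i)) / θ v i' ≤ 1 := by
        rw [mul_div_assoc]
        calc P.N v c * ((1 + P.N v (A v i' i)) / θ v i')
            ≤ (∑ i', (1 + P.N v (A v i' i)) / θ v i')⁻¹ *
              (∑ i', (1 + P.N v (A v i' i)) / θ v i') :=
              mul_le_mul h1 h2 (hterm v i').le (inv_pos.2 (hsum v)).le
          _ = 1 := inv_mul_cancel₀ (hsum v).ne'
      rw [div_le_one (hθ v i')] at h3
      have := N_nonneg P v c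
      nlinarith
    · have h1 : P.N v (A v i' i * c) / θ v i' ≤ lam := by
        have h2 : P.N v (A v i' i * c) / θ v i' ≤ ∑ i', P.N v (A v i' i * c) / θ v i' :=
          Finset.single_le_sum (f := fun i' => P.N v (A v i' i * c) / θ v i')
            (fun j _ => hnn v j) (Finset.mem_univ i')
        have h3 : ∑ i', P.N v (A v i' i * c) / θ v i' ≤
            ∑ v, ∑ i', P.N v (A v i' i * c) / θ v i' :=
          Finset.single_le_sum (f := fun v => ∑ i', P.N v (A v i' i * c) / θ v i')
            (fun w _ => Finset.sum_nonneg fun j _ => hnn w j) (Finset.mem_univ v)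
        linarith
      rw [div_le_iff₀ (hθ v i')] at h1
      refine h1.trans (mul_le_mul_of_nonneg_right ?_ (hθ v i').le)
      exact le_self_pow₀ hlam1 he

end Pool.Agent.Work.Tools.Subspace
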