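import Pool.Agent.Work.Tools.Subspace.Basic
import Pool.Agent.Work.Tools.Subspace.Stmts
import Pool.Agent.Work.Tools.Subspace.Stmts2

/-!
# The Subspace theorem: successive minima
-/

namespace Pool.Agent.Work.Tools.Subspace

open Finset Matrix

namespace IQ3

variable {K : Type} [Field K] (P : Places K) {n : ℕ}

theorem inDom_mono {ι : Type} [Fintype ι] {A : P.V → Matrix ι ι K} {θ : P.V → ι → ℝ}
    (hθ : ∀ v i, 0 < θ v i) {a b : ℝ} (ha : 0 ≤ a) (hab : a ≤ b) {x : ι → K}
    (h : InDom P A θ a x) : InDom P A θ b x :=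
  ⟨h.1, fun v i => (h.2 v i).trans
    (mul_le_mul_of_nonneg_right (pow_le_pow_left₀ ha hab _) (hθ v i).le)⟩

theorem Fl_succ {ι : Type} {x : Fin n → ι → K} {m : ℕ} (hm : m < n) :
    Fl x (m + 1) = Fl x m ⊔ Submodule.span K {x ⟨m, hm⟩} := by
  unfold Fl
  rw [← Submodule.span_union]
  congr 1
  have : {i : Fin n | (i : ℕ) < m + 1} = {i : Fin n | (i : ℕ) < m} ∪ {⟨m, hm⟩} := by
    ext i
    simp only [Set.mem_ofPred_eq, Set.union_singleton, Set.mem_insert_iff, Fin.ext_iff]
    omega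
  rw [this, Set.image_union, Set.image_singleton]

theorem Fl_zero {ι : Type} {x : Fin n → ι → K} : Fl x 0 = ⊥ := by
  simp [Fl]

/-- vectors not in the span of the previous ones are linearly independent -/
theorem linearIndependent_of_notMem {x : Fin n → Fin n → K} (h : ∀ j : Fin n, x j ∉ Fl x j) :
    LinearIndependent K x := by
  have key : ∀ m : ℕ, m ≤ n → m ≤ Module.finrank K (Fl x m) := by
    intro m
    induction m with
    | zero => exact fun _ => Nat.zero_le _
    | succ m ih =>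
      intro hm
      have h1 := ih (Nat.le_of_succ_le hm)
      have h2 : Fl x m < Fl x (m + 1) := by
        rw [Fl_succ hm]
        refine lt_of_le_of_ne le_sup_left fun he => h ⟨m, hm⟩ ?_
        have h3 : x ⟨m, hm⟩ ∈ Fl x m ⊔ Submodule.span K {x ⟨m, hm⟩} :=
          (le_sup_right : Submodule.span K {x ⟨m, hm⟩} ≤ _) (Submodule.mem_span_singleton_self _)
        rw [← he] at h3
        exact h3
      have h3 := Submodule.finrank_lt_finrank_of_lt h2
      omega
  have h1 : Fl x n = ⊤ := by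
    refine Submodule.eq_top_of_finrank_eq (le_antisymm (Submodule.finrank_le _) ?_)
    simpa using key n le_rfl
  refine linearIndependent_of_top_le_span_of_card_eq_finrank ?_ (by simp)
  rw [← h1]
  exact Submodule.span_mono (Set.image_subset_range _ _)

/-- the admissible dilations -/
def L {ι : Type} [Fintype ι] (A : P.V → Matrix ι ι K) (θ : P.V → ι → ℝ)
    (T : Submodule K (ι → K)) : Set ℝ :=
  {lam | 0 < lam ∧ ∃ y, InDom P A θ lam y ∧ y ∉ T}

end IQ3

open IQ3 in
theorem prfQ3 (h1 : ClaimQ1) (h2 : ClaimQ2) : ClaimQ3 := by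
  intro K _ _ P n A θ hA hθ
  obtain ⟨C, hC, hQ1⟩ := h1 K P (Fin n) A hA
  have hne : ∀ T : Submodule K (Fin n → K), T ≠ ⊤ → (L P A θ T).Nonempty := by
    intro T hT
    obtain ⟨lam, y, hl, hy, hyT⟩ := h2 K P (Fin n) A θ T hθ hT
    exact ⟨lam, hl, y, hy, hyT⟩
  obtain ⟨c, hc0, hc⟩ : ∃ c : ℝ, 0 < c ∧ ∀ T : Submodule K (Fin n → K), ∀ lam ∈ L P A θ T,
      c ≤ lam := by
    have hT : ∀ v, 0 < 1 + ∑ i, θ v i := fun v => by
      have := Finset.sum_nonneg fun i (_ : i ∈ (univ : Finset (Fin n))) => (hθ v i).le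
      linarith
    have hTp : 0 < C * ∏ v, (1 + ∑ i, θ v i) := mul_pos hC (Finset.prod_pos fun v _ => hT v)
    refine ⟨min 1 (1 / (C * ∏ v, (1 + ∑ i, θ v i))), by positivity, ?_⟩
    rintro T lam ⟨hl, y, hy, hyT⟩
    have hy0 : y ≠ 0 := fun h => hyT (h ▸ T.zero_mem)
    have h3 := hQ1 θ (fun v => 1 + ∑ i, θ v i) lam y hθ (fun v i => by
      have := Finset.single_le_sum (f := fun i => θ v i) (fun i _ => (hθ v i).le) (mem_univ i)
      linarith) hl hy0 hy
    rcases le_or_gt 1 lam with h4 | h4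
    · exact (min_le_left _ _).trans h4
    · refine (min_le_right _ _).trans ?_
      rw [div_le_iff₀ hTp]
      have h5 : lam ^ P.D ≤ lam := by
        calc lam ^ P.D ≤ lam ^ 1 := pow_le_pow_of_le_one hl.le h4.le (D_pos P)
          _ = lam := pow_one _
      calc (1 : ℝ) ≤ C * lam ^ P.D * ∏ v, (1 + ∑ i, θ v i) := h3
        _ = lam ^ P.D * (C * ∏ v, (1 + ∑ i, θ v i)) := by ring
        _ ≤ lam * (C * ∏ v, (1 + ∑ i, θ v i)) := mul_le_mul_of_nonneg_right h5 hTp.le
  have hbdd : ∀ T : Submodule K (Fin n → K), BddBelow (L P A θ T) := fun T => ⟨c, hc T⟩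
  have hpos : ∀ T : Submodule K (Fin n → K), T ≠ ⊤ → 0 < sInf (L P A θ T) := fun T hT =>
    hc0.trans_le (le_csInf (hne T hT) (hc T))
  have hex : ∀ T : Submodule K (Fin n → K), ∃ y : Fin n → K, T ≠ ⊤ → y ∉ T ∧
      InDom P A θ (2 * sInf (L P A θ T)) y := by
    intro T
    by_cases hT : T = ⊤
    · exact ⟨0, fun h => absurd hT h⟩
    · have h3 := hpos T hT
      obtain ⟨lam, ⟨hl, y, hy, hyT⟩, hlt⟩ := exists_lt_of_csInf_lt (hne T hT)
        (show sInf (L P A θ T) < 2 * sInf (L P A θ T) by linarith)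
      exact ⟨y, fun _ => ⟨hyT, inDom_mono P hθ hl.le hlt.le hy⟩⟩
  choose y hy using hex
  obtain ⟨T, hT0, hTs⟩ : ∃ T : ℕ → Submodule K (Fin n → K), T 0 = ⊥ ∧
      ∀ k, T (k + 1) = T k ⊔ Submodule.span K {y (T k)} :=
    ⟨fun k => Nat.rec ⊥ (fun _ S => S ⊔ Submodule.span K {y S}) k, rfl, fun k => rfl⟩
  have hfin : ∀ k : ℕ, Module.finrank K (T k) ≤ k := by
    intro k
    induction k with
    | zero => rw [hT0]; simp
    | succ k ih =>
      rw [hTs]
      refine (Submodule.finrank_add_le_finrank_add_finrank _ _).trans ?_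
      have : Module.finrank K (Submodule.span K {y (T k)}) ≤ 1 :=
        (finrank_span_le_card (R := K) ({y (T k)} : Set (Fin n → K))).trans (by simp)
      omega
  have hTne : ∀ k : ℕ, k < n → T k ≠ ⊤ := by
    intro k hk h
    have := hfin k
    rw [h, finrank_top, Module.finrank_fin_fun] at this
    omega
  have hmono : Monotone T := monotone_nat_of_le_succ fun k => by rw [hTs]; exact le_sup_left
  set x : Fin n → Fin n → K := fun j => y (T j) with hx
  have hFl : ∀ m, m ≤ n → Fl x m = T m := by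
    intro m
    induction m with
    | zero => intro _; rw [Fl_zero, hT0]
    | succ m ih =>
      intro hm
      rw [Fl_succ hm, ih (Nat.le_of_succ_le hm), hTs]
  refine ⟨fun j => sInf (L P A θ (T j)), x, fun j => hpos _ (hTne j j.isLt), ?_, ?_, ?_, ?_⟩
  · intro j k hjk
    refine csInf_le_csInf (hbdd _) (hne _ (hTne k k.isLt)) ?_
    rintro lam ⟨hl, z, hz, hzT⟩
    exact ⟨hl, z, hz, fun h => hzT (hmono hjk h)⟩
  · refine linearIndependent_of_notMem fun j => ?_
    rw [hFl j j.isLt.le]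
    exact (hy (T j) (hTne j j.isLt)).1
  · intro j
    exact (hy (T j) (hTne j j.isLt)).2
  · intro j lam z hl hz hzT
    rw [hFl j j.isLt.le] at hzT
    exact csInf_le (hbdd _) ⟨hl, z, hz, hzT⟩

end Pool.Agent.Work.Tools.Subspace
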