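import Pool.Agent.Work.Tools.Subspace.Basic
import Pool.Agent.Work.Tools.Subspace.Stmts
import Pool.Agent.Work.Tools.Subspace.Stmts2

set_option autoImplicit false

namespace Pool.Agent.Work.Tools.Subspace

open Finset Matrix

namespace IQ4

variable {K : Type} [Field K]

lemma finrank_Fl_le {n : ℕ} {ι : Type} (x : Fin n → ι → K) (j : ℕ) (hj : j ≤ n) :
    Module.finrank K (Fl x j) ≤ j := by
  classical
  unfold Fl
  have h1 : (x '' {i : Fin n | (i : ℕ) < j}) =
      (((univ.filter fun i : Fin n => (i : ℕ) < j).image x : Finset (ι → K)) : Set (ι → K)) := by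
    ext y
    simp
  rw [h1]
  refine (finrank_span_finset_le_card _).trans ?_
  refine card_image_le.trans ?_
  have : (univ.filter fun i : Fin n => (i : ℕ) < j).card = j := by
    rw [Fin.card_filter_val_lt]
    omega
  omega

lemma exists_relation {n : ℕ} (A : Matrix (Fin n) (Fin n) K) (F : Submodule K (Fin n → K))
    (I : Finset (Fin n)) (h : Module.finrank K F < I.card) :
    ∃ γ : Fin n → K, (∀ l, l ∉ I → γ l = 0) ∧ γ ≠ 0 ∧
      ∀ y ∈ F, ∑ l ∈ I, γ l * (A *ᵥ y) l = 0 := by
  classical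
  let φ : F →ₗ[K] (I → K) :=
    { toFun := fun y l => (A *ᵥ (y : Fin n → K)) l
      map_add' := by
        intro y z
        funext l
        simp [Matrix.mulVec_add]
      map_smul' := by
        intro c y
        funext l
        simp [Matrix.mulVec_smul] }
  have hlt : LinearMap.range φ < ⊤ := by
    rw [lt_top_iff_ne_top]
    intro htop
    have h1 : Function.Surjective φ := LinearMap.range_eq_top.1 htop
    have h2 := LinearMap.finrank_le_finrank_of_surjective (f := φ) h1
    rw [Module.finrank_fintype_fun_eq_card, Fintype.card_coe] at h2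
    omega
  obtain ⟨f, hf0, hf⟩ := Submodule.exists_le_ker_of_lt_top _ hlt
  refine ⟨fun l => if hl : l ∈ I then f (Pi.single ⟨l, hl⟩ 1) else 0, ?_, ?_, ?_⟩
  · intro l hl
    simp [hl]
  · intro h0
    apply hf0
    apply LinearMap.pi_ext'
    intro l
    ext
    have := congrFun h0 (l : Fin n)
    simpa using this
  · intro y hy
    have h1 : f (φ ⟨y, hy⟩) = 0 := by
      have := hf (LinearMap.mem_range_self φ ⟨y, hy⟩)
      simpa using this
    have h2 : φ ⟨y, hy⟩ = ∑ l : I, (A *ᵥ y) l • (Pi.single l (1 : K) : I → K) := by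
      funext l
      simp [φ, Finset.sum_apply, Pi.single_apply]
    rw [h2, map_sum] at h1
    rw [← Finset.sum_coe_sort I]
    rw [← h1]
    apply Finset.sum_congr rfl
    intro l _
    simp [mul_comm]

lemma N_div_le {n : ℕ} (P : Places K) (v : P.V) (A : Matrix (Fin n) (Fin n) K)
    (θ : Fin n → ℝ) (hθ : ∀ i, 0 < θ i) (I : Finset (Fin n)) (γ : Fin n → K) (i : Fin n)
    (hi : i ∈ I) (hγi : γ i ≠ 0) (hmax : ∀ l ∈ I, P.N v (γ l) * θ l ≤ P.N v (γ i) * θ i)
    (y : Fin n → K) (hy : ∑ l ∈ I, γ l * (A *ᵥ y) l = 0) (hI : (I.erase i).Nonempty) :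
    ∃ l ∈ I.erase i, P.N v ((A *ᵥ y) i) / θ i ≤
      (n : ℝ) ^ P.e v * (P.N v ((A *ᵥ y) l) / θ l) := by
  classical
  obtain ⟨l₀, hl₀, hmax₀⟩ := Finset.exists_max_image (I.erase i)
    (fun l => P.N v ((A *ᵥ y) l) / θ l) hI
  refine ⟨l₀, hl₀, ?_⟩
  set B : ℝ := P.N v ((A *ᵥ y) l₀) / θ l₀ with hB
  have hB0 : 0 ≤ B := div_nonneg (N_nonneg P v _) (hθ _).le
  have h1 : γ i * (A *ᵥ y) i = -∑ l ∈ I.erase i, γ l * (A *ᵥ y) l := by
    rw [← Finset.add_sum_erase I _ hi] at hy
    linear_combination hy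
  have h2 : P.N v (γ i * (A *ᵥ y) i) ≤
      ((I.erase i).card : ℝ) ^ P.e v * (P.N v (γ i) * θ i * B) := by
    rw [h1, N_neg]
    apply N_sum_le
    · have := N_nonneg P v (γ i)
      have := (hθ i).le
      positivity
    · intro l hl
      rw [N_mul]
      have h3 := hmax₀ l hl
      rw [div_le_iff₀ (hθ l)] at h3
      calc P.N v (γ l) * P.N v ((A *ᵥ y) l) ≤ P.N v (γ l) * (B * θ l) :=
            mul_le_mul_of_nonneg_left h3 (N_nonneg P v _)
        _ = P.N v (γ l) * θ l * B := by ring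
        _ ≤ P.N v (γ i) * θ i * B :=
            mul_le_mul_of_nonneg_right (hmax l (mem_of_mem_erase hl)) hB0
  rw [N_mul] at h2
  have hpos : 0 < P.N v (γ i) := N_pos P v hγi
  rw [div_le_iff₀ (hθ i)]
  have h4 : ((I.erase i).card : ℝ) ^ P.e v ≤ (n : ℝ) ^ P.e v := by
    apply pow_le_pow_left₀ (Nat.cast_nonneg _)
    have : (I.erase i).card ≤ n := by
      have := Finset.card_le_univ (I.erase i)
      simpa using this
    exact_mod_cast this
  have h5 : P.N v (γ i) * P.N v ((A *ᵥ y) i) ≤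
      P.N v (γ i) * ((n : ℝ) ^ P.e v * B * θ i) := by
    calc P.N v (γ i) * P.N v ((A *ᵥ y) i)
        ≤ ((I.erase i).card : ℝ) ^ P.e v * (P.N v (γ i) * θ i * B) := h2
      _ ≤ (n : ℝ) ^ P.e v * (P.N v (γ i) * θ i * B) := by
          apply mul_le_mul_of_nonneg_right h4
          have := (hθ i).le
          positivity
      _ = P.N v (γ i) * ((n : ℝ) ^ P.e v * B * θ i) := by ring
  exact le_of_mul_le_mul_left h5 hpos

/-- the state of the backward selection -/
def St {n : ℕ} (P : Places K) (v : P.V) (A : Matrix (Fin n) (Fin n) K) (θ : Fin n → ℝ)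
    (x : Fin n → Fin n → K) (j : ℕ) : Prop :=
  ∃ (I : Finset (Fin n)) (σ : Fin n → Fin n), I.card = j ∧
    (∀ k : Fin n, j ≤ k → σ k ∉ I) ∧
    (∀ k k' : Fin n, j ≤ k → j ≤ k' → σ k = σ k' → k = k') ∧
    (∀ k : Fin n, j ≤ k → ∀ y ∈ Fl x k, y = 0 ∨ ∃ l : Fin n,
      (l ∈ I ∨ ∃ k' : Fin n, j ≤ k' ∧ k' < k ∧ l = σ k') ∧
      P.N v ((A *ᵥ y) (σ k)) / θ (σ k) ≤ (n : ℝ) ^ P.e v * (P.N v ((A *ᵥ y) l) / θ l)) ∧
    (∀ y ∈ Fl x j, (∀ i ∈ I, (A *ᵥ y) i = 0) → y = 0)

lemma st_top {n : ℕ} (P : Places K) (v : P.V) (A : Matrix (Fin n) (Fin n) K) (θ : Fin n → ℝ)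
    (x : Fin n → Fin n → K) (hA : A.det ≠ 0) : St P v A θ x n := by
  refine ⟨univ, id, by simp, ?_, ?_, ?_, ?_⟩
  · intro k hk
    exact absurd k.2 (by omega)
  · intro k k' hk
    exact absurd k.2 (by omega)
  · intro k hk
    exact absurd k.2 (by omega)
  · intro y _ hy
    have h1 : A *ᵥ y = 0 := by
      funext i
      exact hy i (mem_univ i)
    exact Matrix.eq_zero_of_mulVec_eq_zero hA h1

lemma st_step {n : ℕ} (P : Places K) (v : P.V) (A : Matrix (Fin n) (Fin n) K) (θ : Fin n → ℝ)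
    (hθ : ∀ i, 0 < θ i) (x : Fin n → Fin n → K) (j : ℕ) (hj : j < n)
    (h : St P v A θ x (j + 1)) : St P v A θ x j := by
  classical
  obtain ⟨I, σ, hcard, hnot, hinj, hest, hzero⟩ := h
  have hn : 0 < n := by omega
  have hdim : Module.finrank K (Fl x j) < I.card := by
    have := finrank_Fl_le x j hj.le
    omega
  obtain ⟨γ, hγ0, hγne, hγ⟩ := exists_relation A (Fl x j) I hdim
  have hIne : I.Nonempty := by
    rw [← card_pos]
    omega
  obtain ⟨i, hi, hmax⟩ := Finset.exists_max_image I (fun l => P.N v (γ l) * θ l) hIne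
  have hγi : γ i ≠ 0 := by
    intro h0
    apply hγne
    funext l
    by_contra hl
    have hlI : l ∈ I := by
      by_contra hlI
      exact hl (hγ0 l hlI)
    have h1 := hmax l hlI
    rw [h0, N_zero, zero_mul] at h1
    have h2 : 0 < P.N v (γ l) * θ l := mul_pos (N_pos P v hl) (hθ l)
    linarith
  have hσ' : ∀ k : Fin n, (k : ℕ) ≠ j → Function.update σ ⟨j, hj⟩ i k = σ k := by
    intro k hk
    rw [Function.update_of_ne]
    intro h
    apply hk
    rw [h]
  have hmono : Fl x j ≤ Fl x (j + 1) := by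
    apply Submodule.span_mono
    apply Set.image_mono
    intro k hk
    simp only [Set.mem_ofPred_eq] at hk ⊢
    omega
  have hzero' : ∀ y ∈ Fl x j, (∀ l ∈ I.erase i, (A *ᵥ y) l = 0) → y = 0 := by
    intro y hy h0
    apply hzero y (hmono hy)
    intro l hl
    by_cases hli : l = i
    · rw [hli]
      have h1 := hγ y hy
      rw [← Finset.add_sum_erase I _ hi] at h1
      rw [Finset.sum_eq_zero (s := I.erase i) (fun l hl => by rw [h0 l hl, mul_zero])] at h1
      rw [add_zero] at h1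
      exact (mul_eq_zero.1 h1).resolve_left hγi
    · exact h0 l (mem_erase.2 ⟨hli, hl⟩)
  refine ⟨I.erase i, Function.update σ ⟨j, hj⟩ i, ?_, ?_, ?_, ?_, hzero'⟩
  · rw [card_erase_of_mem hi, hcard]
    omega
  · intro k hk
    by_cases hkj : (k : ℕ) = j
    · have : k = ⟨j, hj⟩ := Fin.ext hkj
      rw [this, Function.update_self]
      simp
    · rw [hσ' k hkj]
      intro h
      exact hnot k (by omega) (mem_of_mem_erase h)
  · intro k k' hk hk' heq
    by_cases hkj : (k : ℕ) = j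
    · by_cases hkj' : (k' : ℕ) = j
      · exact Fin.ext (by omega)
      · have e1 : k = ⟨j, hj⟩ := Fin.ext hkj
        rw [e1, Function.update_self, hσ' k' hkj'] at heq
        exact absurd (heq ▸ hi) (hnot k' (by omega))
    · by_cases hkj' : (k' : ℕ) = j
      · have e1 : k' = ⟨j, hj⟩ := Fin.ext hkj'
        rw [e1, Function.update_self, hσ' k hkj] at heq
        exact absurd (heq.symm ▸ hi) (hnot k (by omega))
      · rw [hσ' k hkj, hσ' k' hkj'] at heq
        exact hinj k k' (by omega) (by omega) heq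
  · intro k hk y hy
    by_cases hkj : (k : ℕ) = j
    · have e1 : k = ⟨j, hj⟩ := Fin.ext hkj
      rw [hkj] at hy
      by_cases hy0 : y = 0
      · exact Or.inl hy0
      right
      have hne : (I.erase i).Nonempty := by
        by_contra hemp
        rw [not_nonempty_iff_eq_empty] at hemp
        apply hy0
        apply hzero' y hy
        intro l hl
        rw [hemp] at hl
        simp at hl
      obtain ⟨l, hl, hl2⟩ := N_div_le P v A θ hθ I γ i hi hγi hmax y (hγ y hy) hne
      refine ⟨l, Or.inl hl, ?_⟩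
      rw [e1, Function.update_self]
      exact hl2
    · rcases hest k (by omega) y hy with h0 | ⟨l, hl, hl2⟩
      · exact Or.inl h0
      right
      refine ⟨l, ?_, ?_⟩
      · rcases hl with hl | ⟨k', hk', hk'k, hl⟩
        · by_cases hli : l = i
          · right
            refine ⟨⟨j, hj⟩, le_refl _, ?_, ?_⟩
            · rw [Fin.lt_def]
              show j < (k : ℕ)
              omega
            · rw [Function.update_self, hli]
          · exact Or.inl (mem_erase.2 ⟨hli, hl⟩)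
        · right
          refine ⟨k', by omega, hk'k, ?_⟩
          rw [hσ' k' (by omega), hl]
      · rw [hσ' k hkj]
        exact hl2

lemma st_zero {n : ℕ} (P : Places K) (v : P.V) (A : Matrix (Fin n) (Fin n) K) (θ : Fin n → ℝ)
    (hA : A.det ≠ 0) (hθ : ∀ i, 0 < θ i) (x : Fin n → Fin n → K) : St P v A θ x 0 := by
  have key : ∀ d : ℕ, d ≤ n → St P v A θ x (n - d) := by
    intro d
    induction d with
    | zero =>
      intro _
      exact st_top P v A θ x hA
    | succ d ih =>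
      intro hd
      have h1 := ih (by omega)
      have h2 : n - d = n - (d + 1) + 1 := by omega
      rw [h2] at h1
      exact st_step P v A θ hθ x _ (by omega) h1
  have := key n le_rfl
  rwa [Nat.sub_self] at this

end IQ4

theorem prfQ4 : ClaimQ4 := by
  intro K _ _ P v n A θ x hA hθ _
  obtain ⟨I, σ, hcard, -, hinj, hest, -⟩ := IQ4.st_zero P v A θ hA hθ x
  have hI : I = ∅ := Finset.card_eq_zero.1 hcard
  have hσ : Function.Bijective σ := by
    apply Function.Injective.bijective_of_finite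
    intro k k' h
    exact hinj k k' (Nat.zero_le _) (Nat.zero_le _) h
  refine ⟨Equiv.ofBijective σ hσ, ?_⟩
  intro j y hy i
  have hn : 1 ≤ n := by
    have := j.2
    omega
  have hn1 : (1 : ℝ) ≤ (n : ℝ) := by exact_mod_cast hn
  by_cases hy0 : y = 0
  · refine ⟨j, le_rfl, ?_⟩
    rw [hy0]
    simp [N_zero]
  have hest' : ∀ k : Fin n, ∀ y ∈ Fl x k, y ≠ 0 → ∃ k' : Fin n, k' < k ∧
      P.N v ((A *ᵥ y) (σ k)) / θ (σ k) ≤
        (n : ℝ) ^ P.e v * (P.N v ((A *ᵥ y) (σ k')) / θ (σ k')) := by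
    intro k y hy hy0
    rcases hest k (Nat.zero_le _) y hy with h | ⟨l, hl, hl2⟩
    · exact absurd h hy0
    rcases hl with hl | ⟨k', _, hk', hl⟩
    · rw [hI] at hl
      simp at hl
    · exact ⟨k', hk', by rw [← hl]; exact hl2⟩
  have hmono : ∀ a b : ℕ, a ≤ b → Fl x a ≤ Fl x b := by
    intro a b hab
    apply Submodule.span_mono
    apply Set.image_mono
    intro k hk
    simp only [Set.mem_ofPred_eq] at hk ⊢
    omega
  have hpow : (1 : ℝ) ≤ (n : ℝ) ^ P.e v := one_le_pow₀ hn1
  have key : ∀ m : ℕ, ∀ k : Fin n, (k : ℕ) = m → ∃ l ≤ j,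
      P.N v ((A *ᵥ y) (σ k)) / θ (σ k) ≤
        ((n : ℝ) ^ P.e v) ^ ((k : ℕ) - j) * (P.N v ((A *ᵥ y) (σ l)) / θ (σ l)) := by
    intro m
    induction m using Nat.strong_induction_on with
    | _ m ih =>
      intro k hk
      by_cases hkj : k ≤ j
      · refine ⟨k, hkj, ?_⟩
        have : (k : ℕ) - j = 0 := by
          have : (k : ℕ) ≤ j := hkj
          omega
        rw [this, pow_zero, one_mul]
      · have hjk : (j : ℕ) + 1 ≤ k := by
          have : j < k := not_le.1 hkj
          exact this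
        obtain ⟨k', hk', h1⟩ := hest' k y (hmono _ _ hjk hy) hy0
        obtain ⟨l, hl, h2⟩ := ih k' (by have : (k' : ℕ) < k := hk'; omega) k' rfl
        refine ⟨l, hl, h1.trans ?_⟩
        have hnn : 0 ≤ P.N v ((A *ᵥ y) (σ l)) / θ (σ l) :=
          div_nonneg (N_nonneg P v _) (hθ _).le
        calc (n : ℝ) ^ P.e v * (P.N v ((A *ᵥ y) (σ k')) / θ (σ k'))
            ≤ (n : ℝ) ^ P.e v * (((n : ℝ) ^ P.e v) ^ ((k' : ℕ) - j) *
                (P.N v ((A *ᵥ y) (σ l)) / θ (σ l))) :=
              mul_le_mul_of_nonneg_left h2 (by positivity)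
          _ = ((n : ℝ) ^ P.e v) ^ ((k' : ℕ) - j + 1) * (P.N v ((A *ᵥ y) (σ l)) / θ (σ l)) := by
              rw [pow_succ]; ring
          _ ≤ ((n : ℝ) ^ P.e v) ^ ((k : ℕ) - j) * (P.N v ((A *ᵥ y) (σ l)) / θ (σ l)) := by
              apply mul_le_mul_of_nonneg_right _ hnn
              apply pow_le_pow_right₀ hpow
              have : (k' : ℕ) < k := hk'
              omega
  obtain ⟨k, rfl⟩ := hσ.2 i
  obtain ⟨l, hl, h1⟩ := key k k rfl
  refine ⟨l, hl, h1.trans ?_⟩
  apply mul_le_mul_of_nonneg_right _ (div_nonneg (N_nonneg P v _) (hθ _).le)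
  calc ((n : ℝ) ^ P.e v) ^ ((k : ℕ) - j) ≤ ((n : ℝ) ^ P.e v) ^ n := by
        apply pow_le_pow_right₀ hpow
        have := k.2
        omega
    _ = ((n : ℝ) ^ n) ^ P.e v := by
        rw [← pow_mul, ← pow_mul, mul_comm]

end Pool.Agent.Work.Tools.Subspace
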