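import Pool.Agent.Work.Tools.Subspace.Basic
import Pool.Agent.Work.Tools.Subspace.Stmts
import Pool.Agent.Work.Tools.Subspace.Stmts2

/-!
# The Subspace theorem: reduction of a basis
-/

namespace Pool.Agent.Work.Tools.Subspace

open Finset Matrix

namespace IQ5

section flags

variable {K : Type} [Field K] {n : ℕ} {ι : Type}

theorem Fl_mono {x : Fin n → ι → K} {a b : ℕ} (h : a ≤ b) : Fl x a ≤ Fl x b :=
  Submodule.span_mono (Set.image_mono fun _ hi => lt_of_lt_of_le hi h)

theorem mem_Fl {x : Fin n → ι → K} {j : Fin n} {m : ℕ} (h : (j : ℕ) < m) : x j ∈ Fl x m :=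
  Submodule.subset_span ⟨j, h, rfl⟩

theorem Fl_eq {x x' : Fin n → ι → K} {m : ℕ}
    (h : ∀ j : Fin n, (j : ℕ) < m → x' j - x j ∈ Fl x j) : Fl x' m = Fl x m := by
  apply le_antisymm
  · refine Submodule.span_le.mpr ?_
    rintro _ ⟨j, hj, rfl⟩
    have h2 : x' j = x j + (x' j - x j) := by abel
    rw [h2]
    exact Submodule.add_mem _ (mem_Fl hj) (Fl_mono (le_of_lt hj) (h j hj))
  · have key : ∀ k : ℕ, ∀ j : Fin n, (j : ℕ) < m → (j : ℕ) = k → x j ∈ Fl x' m := by
      intro k
      induction k using Nat.strong_induction_on with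
      | _ k ih =>
        intro j hj hjk
        have h2 : x j = x' j - (x' j - x j) := by abel
        rw [h2]
        refine Submodule.sub_mem _ (mem_Fl hj) ?_
        refine (Submodule.span_le.mpr ?_ : Fl x j ≤ Fl x' m) (h j hj)
        rintro _ ⟨l, hl, rfl⟩
        have hl' : (l : ℕ) < j := hl
        exact ih l (by omega) l (lt_trans hl' hj) rfl
    refine Submodule.span_le.mpr ?_
    rintro _ ⟨j, hj, rfl⟩
    exact key j j hj rfl

theorem Fl_zero {x : Fin n → ι → K} : Fl x 0 = ⊥ := by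
  simp [Fl]

theorem Fl_eq_range {x : Fin n → ι → K} {m : ℕ} (hm : m ≤ n) :
    Fl x m = Submodule.span K (Set.range fun l : Fin m => x (Fin.castLE hm l)) := by
  unfold Fl
  congr 1
  ext y
  constructor
  · rintro ⟨j, hj, rfl⟩
    exact ⟨⟨j, hj⟩, rfl⟩
  · rintro ⟨l, rfl⟩
    exact ⟨Fin.castLE hm l, l.isLt, rfl⟩

theorem finrank_Fl {x : Fin n → ι → K} {m : ℕ} (hm : m ≤ n) (hx : LinearIndependent K x) :
    Module.finrank K (Fl x m) = m := by
  have h := finrank_span_eq_card (hx.comp _ (Fin.castLE_injective hm))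
  rw [Fintype.card_fin] at h
  rw [Fl_eq_range hm]
  exact h

theorem mem_Fl_iff {x : Fin n → ι → K} {m : ℕ} {y : ι → K} (hy : y ∈ Fl x m) :
    ∃ t : Fin n → K, y = ∑ l ∈ univ.filter (fun l : Fin n => (l : ℕ) < m), t l • x l := by
  have h : Fl x m = Submodule.span K
      (x '' (univ.filter (fun l : Fin n => (l : ℕ) < m) : Finset (Fin n))) := by
    unfold Fl
    congr 2
    ext i; simp
  rw [h, Submodule.mem_span_image_finset_iff_exists_fun'] at hy
  obtain ⟨t, ht⟩ := hy
  exact ⟨t, ht.symm⟩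

end flags

section

variable {K : Type} [Field K] (P : Places K) {n : ℕ}

theorem exists_th (e : ℕ) {θ : ℝ} (h : 0 < θ) : ∃ th : ℝ, 0 < th ∧ th ^ max e 1 = θ :=
  ⟨θ ^ (((max e 1 : ℕ) : ℝ)⁻¹), Real.rpow_pos_of_pos h _,
    Real.rpow_inv_natCast_pow h.le (by have := le_max_right e 1; omega)⟩

theorem abv_of_N {v : P.V} (he : P.e v ≠ 0) {y : K} {c th θ : ℝ} (hc : 0 ≤ c) (hth : 0 < th)
    (hθ : th ^ max (P.e v) 1 = θ) (h : P.N v y ≤ c ^ P.e v * θ) : P.abv v y ≤ c * th := by
  have hm : max (P.e v) 1 = P.e v := max_eq_left (Nat.one_le_iff_ne_zero.mpr he)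
  rw [Places.N, ← hθ, hm, ← mul_pow] at h
  exact (pow_le_pow_iff_left₀ (AbsoluteValue.nonneg _ _) (by positivity) he).mp h

theorem N_of_abv {v : P.V} (he : P.e v ≠ 0) {y : K} {c th θ : ℝ}
    (hθ : th ^ max (P.e v) 1 = θ) (h : P.abv v y ≤ c * th) : P.N v y ≤ c ^ P.e v * θ := by
  have hm : max (P.e v) 1 = P.e v := max_eq_left (Nat.one_le_iff_ne_zero.mpr he)
  rw [Places.N, ← hθ, hm, ← mul_pow]
  exact pow_le_pow_left₀ (AbsoluteValue.nonneg _ _) h _

theorem eq_zero_of_N {v : P.V} {y : K} (h : P.N v y ≤ 0) : y = 0 := by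
  by_contra hy
  exact absurd (N_pos P v hy) (not_lt.mpr h)

/-- the first `m` forms are jointly injective on the span of the first `m` vectors -/
theorem eq_zero_of {v : P.V} {A : Matrix (Fin n) (Fin n) K} {θ : Fin n → ℝ}
    {x : Fin n → Fin n → K} {π : Fin n ≃ Fin n} {C₀ : ℝ} (hA : A.det ≠ 0) (hθ : ∀ i, 0 < θ i)
    (had : Adapted P v A θ x π C₀) {m : ℕ} (hm : m ≤ n) {y : Fin n → K} (hy : y ∈ Fl x m)
    (h0 : ∀ l : Fin n, (l : ℕ) < m → (A *ᵥ y) (π l) = 0) : y = 0 := by
  cases m with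
  | zero =>
    rw [Fl_zero] at hy
    exact (Submodule.mem_bot K).mp hy
  | succ m =>
    refine Matrix.eq_zero_of_mulVec_eq_zero hA ?_
    funext i
    obtain ⟨l, hl, h1⟩ := had ⟨m, hm⟩ y hy i
    have hl' : (l : ℕ) < m + 1 := Nat.lt_succ_of_le hl
    rw [h0 l hl', N_zero, zero_div, mul_zero] at h1
    have h2 : P.N v ((A *ᵥ y) i) ≤ 0 := by
      have h3 := (div_le_iff₀ (hθ i)).mp h1
      simpa using h3
    exact eq_zero_of_N P h2

/-- prescribed values of the first `m` forms -/
theorem exists_z {v : P.V} {A : Matrix (Fin n) (Fin n) K} {θ : Fin n → ℝ}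
    {x : Fin n → Fin n → K} {π : Fin n ≃ Fin n} {C₀ : ℝ} (hA : A.det ≠ 0) (hθ : ∀ i, 0 < θ i)
    (hx : LinearIndependent K x)
    (had : Adapted P v A θ x π C₀) {m : ℕ} (hm : m ≤ n) (w : Fin n → K) :
    ∃ z ∈ Fl x m, ∀ l : Fin n, (l : ℕ) < m → (A *ᵥ z) (π l) = w (π l) := by
  let Φ : Fl x m →ₗ[K] (Fin m → K) := LinearMap.pi fun l =>
    (LinearMap.proj (π (Fin.castLE hm l))).comp ((Matrix.mulVecLin A).comp (Fl x m).subtype)
  have hΦ : ∀ (y : Fl x m) (l : Fin m), Φ y l = (A *ᵥ (y : Fin n → K)) (π (Fin.castLE hm l)) :=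
    fun y l => rfl
  have hinj : Function.Injective Φ := by
    rw [injective_iff_map_eq_zero]
    intro y hy
    apply Subtype.ext
    refine eq_zero_of P hA hθ had hm y.2 fun l hl => ?_
    have := congrFun hy ⟨l, hl⟩
    rw [hΦ] at this
    exact this
  have hsurj : Function.Surjective Φ := by
    refine (LinearMap.injective_iff_surjective_of_finrank_eq_finrank ?_).mp hinj
    rw [finrank_Fl hm hx]; simp
  obtain ⟨z, hz⟩ := hsurj fun l => w (π (Fin.castLE hm l))
  refine ⟨z, z.2, fun l hl => ?_⟩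
  have := congrFun hz ⟨l, hl⟩
  rw [hΦ] at this
  exact this

/-- the first `m` vectors are reduced -/
def S (A : P.V → Matrix (Fin n) (Fin n) K) (θ th : P.V → Fin n → ℝ) (μ : Fin n → ℝ)
    (x : Fin n → Fin n → K) (π : P.V → Fin n ≃ Fin n) (D : ℝ) (m : ℕ)
    (x' : Fin n → Fin n → K) : Prop :=
  ∀ j : Fin n, (j : ℕ) < m → x' j - x j ∈ Fl x j ∧ P.IsO (x' j) ∧
    (∀ v, P.e v = 0 → ∀ i, P.N v ((A v *ᵥ x' j) i) ≤ θ v i) ∧
    ∀ v, P.e v ≠ 0 → ∀ i, P.abv v ((A v *ᵥ x' j) (π v i)) ≤ D ^ m * μ (min i j) * th v (π v i)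

theorem step {A : P.V → Matrix (Fin n) (Fin n) K} {θ th : P.V → Fin n → ℝ} {μ : Fin n → ℝ}
    {x : Fin n → Fin n → K} {π : P.V → Fin n ≃ Fin n} {C₀ Cr : ℝ}
    (hA : ∀ v, (A v).det ≠ 0) (hC₀ : 1 ≤ C₀) (hCr0 : 0 ≤ Cr)
    (hCr : ∀ t : P.V → K, ∃ a ∈ P.O, ∀ v, (P.e v = 0 → P.abv v a ≤ 1) ∧
      (P.e v ≠ 0 → P.abv v (t v - a) ≤ Cr))
    (hθ : ∀ v i, 0 < θ v i) (hth : ∀ v i, 0 < th v i) (hthθ : ∀ v i, th v i ^ max (P.e v) 1 = θ v i)
    (hμ : ∀ j, 0 < μ j) (hmono : Monotone μ) (hx : LinearIndependent K x)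
    (hdom : ∀ j, InDom P A θ (2 * μ j) (x j))
    (had : ∀ v, Adapted P v (A v) (θ v) x (π v) C₀)
    {m : ℕ} (hm : m < n) {x' : Fin n → Fin n → K}
    (hS : S P A θ th μ x π (2 + 2 * C₀ + Cr * n) m x') :
    ∃ x'' : Fin n → Fin n → K, S P A θ th μ x π (2 + 2 * C₀ + Cr * n) (m + 1) x'' := by
  classical
  set D : ℝ := 2 + 2 * C₀ + Cr * n with hD
  have hD1 : 1 ≤ D := by
    have : 0 ≤ Cr * n := by positivity
    rw [hD]; linarith
  have hFl : Fl x' m = Fl x m := Fl_eq fun j hj => (hS j hj).1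
  set j₀ : Fin n := ⟨m, hm⟩ with hj₀
  choose z hz hzw using fun v => exists_z P (hA v) (hθ v) hx (had v) hm.le (A v *ᵥ x j₀)
  have hz' : ∀ v, ∃ t : Fin n → K,
      z v = ∑ l ∈ univ.filter (fun l : Fin n => (l : ℕ) < m), t l • x' l := fun v =>
    mem_Fl_iff (by rw [hFl]; exact hz v)
  choose t ht using hz'
  choose a haO ha using fun l : Fin n => hCr fun v => t v l
  set w : Fin n → K := x j₀ - ∑ l ∈ univ.filter (fun l : Fin n => (l : ℕ) < m), a l • x' l with hw
  have hAw : ∀ v i, (A v *ᵥ w) i = (A v *ᵥ x j₀) i -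
      ∑ l ∈ univ.filter (fun l : Fin n => (l : ℕ) < m), a l * (A v *ᵥ x' l) i := by
    intro v i
    rw [hw, Matrix.mulVec_sub, Matrix.mulVec_sum, Pi.sub_apply, Finset.sum_apply]
    congr 1
    refine Finset.sum_congr rfl fun l _ => ?_
    rw [Matrix.mulVec_smul, Pi.smul_apply, smul_eq_mul]
  have hAz : ∀ v i, (A v *ᵥ z v) i =
      ∑ l ∈ univ.filter (fun l : Fin n => (l : ℕ) < m), t v l * (A v *ᵥ x' l) i := by
    intro v i
    rw [ht v, Matrix.mulVec_sum, Finset.sum_apply]
    refine Finset.sum_congr rfl fun l _ => ?_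
    rw [Matrix.mulVec_smul, Pi.smul_apply, smul_eq_mul]
  refine ⟨Function.update x' j₀ w, ?_⟩
  intro j hj
  rcases Nat.lt_succ_iff_lt_or_eq.mp hj with hj | hj
  · have hne : j ≠ j₀ := by
      intro h; rw [h] at hj; simp [hj₀] at hj
    rw [Function.update_of_ne hne]
    obtain ⟨h1, h2, h3, h4⟩ := hS j hj
    refine ⟨h1, h2, h3, fun v hv i => (h4 v hv i).trans ?_⟩
    have : D ^ m ≤ D ^ (m + 1) := pow_le_pow_right₀ hD1 (Nat.le_succ m)
    have h5 := hμ (min i j)
    have h6 := hth v (π v i)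
    gcongr
  · have hjj : j = j₀ := Fin.ext hj
    subst hjj
    rw [Function.update_self]
    refine ⟨?_, ?_, ?_, ?_⟩
    · have h1 : w - x j₀ = - ∑ l ∈ univ.filter (fun l : Fin n => (l : ℕ) < m), a l • x' l := by
        rw [hw]; abel
      rw [h1]
      refine Submodule.neg_mem _ ?_
      show _ ∈ Fl x m
      rw [← hFl]
      exact Submodule.sum_mem _ fun l hl => Submodule.smul_mem _ _
        (mem_Fl (by simpa using hl))
    · refine IsO.sub P (hdom j₀).1 ?_
      exact IsO.sum P _ fun l hl => IsO.smul P (haO l) (hS l (by simpa using hl)).2.1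
    · intro v hv i
      rw [hAw]
      have h1 : P.N v ((A v *ᵥ x j₀) i) ≤ θ v i := by
        have := (hdom j₀).2 v i
        rwa [hv, pow_zero, one_mul] at this
      have h2 : P.N v (∑ l ∈ univ.filter (fun l : Fin n => (l : ℕ) < m),
          a l * (A v *ᵥ x' l) i) ≤ θ v i := by
        have h3 := N_sum_le P v (univ.filter (fun l : Fin n => (l : ℕ) < m))
          (fun l => a l * (A v *ᵥ x' l) i) (θ v i) (hθ v i).le ?_
        · rwa [hv, pow_zero, one_mul] at h3
        · intro l hl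
          rw [N_mul]
          have h4 : P.N v (a l) ≤ 1 := by
            have := (ha l v).1 hv
            unfold Places.N
            exact pow_le_one₀ (AbsoluteValue.nonneg _ _) this
          have h5 := (hS l (by simpa using hl)).2.2.1 v hv i
          calc P.N v (a l) * P.N v ((A v *ᵥ x' l) i) ≤ 1 * θ v i :=
                mul_le_mul h4 h5 (N_nonneg P v _) zero_le_one
            _ = θ v i := one_mul _
      rw [sub_eq_add_neg]
      rw [← N_neg] at h2
      simp only [Places.N, hv, zero_le_one, max_eq_right, pow_one] at h1 h2 ⊢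
      exact (P.nonarch v hv _ _).trans (max_le h1 h2)
    · intro v hv i
      set κ := μ (min i j₀) with hκ
      have hκ0 : 0 < κ := hμ _
      have hthi := hth v (π v i)
      have hsplit : (A v *ᵥ w) (π v i) = ((A v *ᵥ x j₀) (π v i) - (A v *ᵥ z v) (π v i)) +
          ∑ l ∈ univ.filter (fun l : Fin n => (l : ℕ) < m),
            (t v l - a l) * (A v *ᵥ x' l) (π v i) := by
        rw [hAw, hAz]
        simp only [sub_mul, Finset.sum_sub_distrib]
        ring
      have hfirst : P.abv v ((A v *ᵥ x j₀) (π v i) - (A v *ᵥ z v) (π v i)) ≤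
          (2 + 2 * C₀) * κ * th v (π v i) := by
        rcases lt_or_ge (i : ℕ) m with hi | hi
        · rw [hzw v i hi, sub_self, map_zero]
          positivity
        · have hmin : min i j₀ = j₀ := min_eq_right hi
          rw [hκ, hmin]
          have h1 : P.abv v ((A v *ᵥ x j₀) (π v i)) ≤ 2 * μ j₀ * th v (π v i) :=
            abv_of_N P hv (by have := hμ j₀; positivity) hthi (hthθ v _) ((hdom j₀).2 v _)
          have h2 : P.abv v ((A v *ᵥ z v) (π v i)) ≤ C₀ * (2 * μ j₀) * th v (π v i) := by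
            have hμ0 := hμ j₀
            refine abv_of_N P hv (by positivity) hthi (hthθ v _) ?_
            rcases Nat.eq_zero_or_pos m with h0 | hpos
            · have hz0 : z v = 0 := by
                have := hz v
                rw [h0, Fl_zero] at this
                exact (Submodule.mem_bot K).mp this
              rw [hz0, Matrix.mulVec_zero, Pi.zero_apply, N_zero]
              have := hθ v (π v i)
              positivity
            · obtain ⟨l, hl, h3⟩ := had v ⟨m - 1, by omega⟩ (z v)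
                (by have := hz v
                    show z v ∈ Fl x (m - 1 + 1)
                    rwa [Nat.sub_add_cancel hpos]) (π v i)
              have hl' : (l : ℕ) < m := by
                have : (l : ℕ) ≤ m - 1 := hl
                omega
              rw [hzw v l hl'] at h3
              have h4 : P.N v ((A v *ᵥ x j₀) (π v l)) / θ v (π v l) ≤ (2 * μ j₀) ^ P.e v := by
                rw [div_le_iff₀ (hθ v _)]
                exact (hdom j₀).2 v _
              rw [div_le_iff₀ (hθ v _)] at h3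
              refine h3.trans ?_
              rw [mul_pow]
              have := hθ v (π v i)
              gcongr
          calc P.abv v ((A v *ᵥ x j₀) (π v i) - (A v *ᵥ z v) (π v i))
              ≤ P.abv v ((A v *ᵥ x j₀) (π v i)) + P.abv v ((A v *ᵥ z v) (π v i)) :=
                (P.abv v).sub_le_add _ _
            _ ≤ 2 * μ j₀ * th v (π v i) + C₀ * (2 * μ j₀) * th v (π v i) := add_le_add h1 h2
            _ = (2 + 2 * C₀) * μ j₀ * th v (π v i) := by ring
      have hsecond : P.abv v (∑ l ∈ univ.filter (fun l : Fin n => (l : ℕ) < m),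
            (t v l - a l) * (A v *ᵥ x' l) (π v i)) ≤ (Cr * n) * D ^ m * κ * th v (π v i) := by
        refine (AbsoluteValue.sum_le _ _ _).trans ?_
        have h1 : ∀ l ∈ univ.filter (fun l : Fin n => (l : ℕ) < m),
            P.abv v ((t v l - a l) * (A v *ᵥ x' l) (π v i)) ≤
              Cr * (D ^ m * κ * th v (π v i)) := by
          intro l hl
          have hl' : (l : ℕ) < m := by simpa using hl
          rw [map_mul]
          refine mul_le_mul ((ha l v).2 hv) (((hS l hl').2.2.2 v hv i).trans ?_)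
            (AbsoluteValue.nonneg _ _) hCr0
          have h2 : μ (min i l) ≤ κ := hmono (min_le_min_left i (le_of_lt hl' : l ≤ j₀))
          gcongr
        refine (Finset.sum_le_card_nsmul _ _ _ h1).trans ?_
        rw [nsmul_eq_mul]
        have h3 : ((univ.filter (fun l : Fin n => (l : ℕ) < m)).card : ℝ) ≤ n := by
          have := Finset.card_filter_le (univ : Finset (Fin n)) (fun l : Fin n => (l : ℕ) < m)
          rw [Finset.card_univ, Fintype.card_fin] at this
          exact_mod_cast this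
        calc ((univ.filter (fun l : Fin n => (l : ℕ) < m)).card : ℝ) *
              (Cr * (D ^ m * κ * th v (π v i))) ≤ n * (Cr * (D ^ m * κ * th v (π v i))) :=
              mul_le_mul_of_nonneg_right h3 (by positivity)
          _ = (Cr * n) * D ^ m * κ * th v (π v i) := by ring
      rw [hsplit]
      refine (AbsoluteValue.add_le _ _ _).trans ((add_le_add hfirst hsecond).trans ?_)
      have h1 : 1 ≤ D ^ m := one_le_pow₀ hD1
      have h2 : (2 + 2 * C₀) * κ * th v (π v i) ≤ (2 + 2 * C₀) * D ^ m * κ * th v (π v i) := by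
        have : 0 ≤ (2 + 2 * C₀) * κ * th v (π v i) := by positivity
        nlinarith
      calc (2 + 2 * C₀) * κ * th v (π v i) + Cr * n * D ^ m * κ * th v (π v i)
          ≤ (2 + 2 * C₀) * D ^ m * κ * th v (π v i) + Cr * n * D ^ m * κ * th v (π v i) :=
            add_le_add_left h2 _
        _ = D ^ (m + 1) * κ * th v (π v i) := by rw [pow_succ, hD]; ring

end

end IQ5

open IQ5 in
theorem prfQ5 : ClaimQ5 := by
  intro K _ _ P n A C₀ hA hC₀
  obtain ⟨Cr, hCr⟩ := P.round
  have hCr0 : 0 ≤ Cr := by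
    obtain ⟨v, hv⟩ := P.arch
    obtain ⟨a, -, ha⟩ := hCr fun _ => 0
    exact (AbsoluteValue.nonneg _ _).trans ((ha v).2 hv)
  have hD1 : 1 ≤ 2 + 2 * C₀ + Cr * n := by
    have : 0 ≤ Cr * n := by positivity
    linarith
  refine ⟨(2 + 2 * C₀ + Cr * n) ^ n, one_le_pow₀ hD1, ?_⟩
  intro θ μ x π hθ hμ hmono hx hdom had
  choose th hth hthθ using fun v i => exists_th (P.e v) (hθ v i)
  have key : ∀ m : ℕ, m ≤ n →
      ∃ x' : Fin n → Fin n → K, S P A θ th μ x π (2 + 2 * C₀ + Cr * n) m x' := by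
    intro m
    induction m with
    | zero => exact fun _ => ⟨x, fun j hj => absurd hj (Nat.not_lt_zero _)⟩
    | succ m ih =>
      intro hm
      obtain ⟨x', hx'⟩ := ih (Nat.le_of_succ_le hm)
      exact step P hA hC₀ hCr0 hCr hθ hth hthθ hμ hmono hx hdom had hm hx'
  obtain ⟨x', hx'⟩ := key n le_rfl
  have hFl : ∀ m : ℕ, Fl x' m = Fl x m := fun m => Fl_eq fun j _ => (hx' j j.isLt).1
  refine ⟨x', ?_, fun j => (hx' j j.isLt).2.1, hFl, ?_⟩
  · have h1 : Submodule.span K (Set.range x) = ⊤ :=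
      hx.span_eq_top_of_card_eq_finrank' (by simp)
    have h2 : ∀ y : Fin n → Fin n → K, Submodule.span K (Set.range y) = Fl y n := by
      intro y
      unfold Fl
      congr 1
      ext u
      constructor
      · rintro ⟨j, rfl⟩; exact ⟨j, j.isLt, rfl⟩
      · rintro ⟨j, -, rfl⟩; exact ⟨j, rfl⟩
    refine linearIndependent_of_top_le_span_of_card_eq_finrank ?_ (by simp)
    rw [h2, hFl, ← h2, h1]
  · intro v i j
    obtain ⟨-, -, h3, h4⟩ := hx' j j.isLt
    by_cases hv : P.e v = 0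
    · rw [hv, pow_zero, one_mul]
      exact h3 v hv _
    · exact N_of_abv P hv (hthθ v _) (h4 v hv i)

end Pool.Agent.Work.Tools.Subspace
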