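import Pool.Agent.Work.Tools.Subspace.Basic
import Pool.Agent.Work.Tools.Subspace.Stmts
import Pool.Agent.Work.Tools.Subspace.Stmts2

set_option autoImplicit false

namespace Pool.Agent.Work.Tools.Subspace

open Finset Matrix

theorem prfQ6 : ClaimQ6 := by
  intro K _ _ P n A C₀ hn hdet hC₀
  classical
  have hne : Nonempty (Fin n) := ⟨⟨0, hn⟩⟩
  obtain ⟨Cp, hCp, hpig⟩ := P.pig (Fin n) A
  have hC0 : (0 : ℝ) < C₀ := by linarith
  refine ⟨max 1 (Cp * (2 * C₀) ^ (n * P.D)), le_max_left _ _, ?_⟩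
  intro θ μ x π hθ hμ hmono hx had hmin
  by_contra hcon
  push Not at hcon
  have hcon2 : Cp * (2 * C₀) ^ (n * P.D) < (∏ j, μ j) ^ P.D * ∏ v, ∏ i, θ v i :=
    lt_of_le_of_lt (le_max_right _ _) hcon
  set c : ℝ := 1 / (2 * C₀) with hc
  have hc0 : 0 < c := by positivity
  let θ' : P.V → Fin n → ℝ := fun v k => (c * μ ((π v).symm k)) ^ P.e v * θ v k
  have hθ' : ∀ v k, 0 < θ' v k := fun v k => mul_pos (pow_pos (mul_pos hc0 (hμ _)) _) (hθ v k)
  have hprod : ∏ v, ∏ k, θ' v k = c ^ (n * P.D) * ((∏ j, μ j) ^ P.D * ∏ v, ∏ i, θ v i) := by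
    have h1 : ∀ v, ∏ k, θ' v k = (c ^ n * ∏ j, μ j) ^ P.e v * ∏ i, θ v i := by
      intro v
      simp only [θ']
      rw [Finset.prod_mul_distrib, Finset.prod_pow]
      congr 2
      rw [Equiv.prod_comp (π v).symm (fun j => c * μ j), Finset.prod_mul_distrib,
        Finset.prod_const, Finset.card_univ, Fintype.card_fin]
    rw [Finset.prod_congr rfl (fun v _ => h1 v), Finset.prod_mul_distrib,
      Finset.prod_pow_eq_pow_sum]
    change (c ^ n * ∏ j, μ j) ^ P.D * _ = _
    rw [mul_pow, ← pow_mul]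
    ring
  have hbig : Cp ≤ ∏ v, ∏ k, θ' v k := by
    rw [hprod]
    have h2 : c ^ (n * P.D) * (Cp * (2 * C₀) ^ (n * P.D)) = Cp := by
      rw [hc, one_div, inv_pow]
      field_simp
    rw [← h2]
    exact mul_le_mul_of_nonneg_left hcon2.le (by positivity)
  obtain ⟨y, hyO, hy0, hyN⟩ := hpig θ' hθ' hbig
  -- the flag
  have htop : Submodule.span K (Set.range x) = ⊤ :=
    hx.span_eq_top_of_card_eq_finrank (by simp)
  have hyn : y ∈ Fl x n := by
    have h3 : x '' {i | (i : ℕ) < n} = Set.range x := by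
      ext z
      constructor
      · rintro ⟨i, -, rfl⟩
        exact ⟨i, rfl⟩
      · rintro ⟨i, rfl⟩
        exact ⟨i, i.2, rfl⟩
    unfold Fl
    rw [h3, htop]
    trivial
  have hex : ∃ k, y ∈ Fl x k := ⟨n, hyn⟩
  have hk0 : Nat.find hex ≠ 0 := by
    intro h0
    have h4 := Nat.find_spec hex
    rw [h0] at h4
    unfold Fl at h4
    have h5 : {i : Fin n | (i : ℕ) < 0} = ∅ := by
      ext i
      simp
    rw [h5, Set.image_empty, Submodule.span_empty] at h4
    exact hy0 ((Submodule.mem_bot K).mp h4)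
  obtain ⟨j', hj'⟩ := Nat.exists_eq_succ_of_ne_zero hk0
  have hjn : j' < n := by
    have := Nat.find_min' hex hyn
    omega
  let j : Fin n := ⟨j', hjn⟩
  have hy1 : y ∈ Fl x (j + 1) := by
    have h6 := Nat.find_spec hex
    rw [hj'] at h6
    exact h6
  have hy2 : y ∉ Fl x j := by
    refine Nat.find_min hex ?_
    rw [hj']
    exact Nat.lt_succ_self j'
  have hdom : InDom P A θ (μ j / 2) y := by
    refine ⟨hyO, fun v i => ?_⟩
    obtain ⟨l, hl, hle⟩ := had v j y hy1 i
    have h7 : P.N v ((A v *ᵥ y) (π v l)) ≤ (c * μ l) ^ P.e v * θ v (π v l) := by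
      have h8 := hyN v (π v l)
      simp only [θ', Equiv.symm_apply_apply] at h8
      exact h8
    have h9 : P.N v ((A v *ᵥ y) (π v l)) / θ v (π v l) ≤ (c * μ l) ^ P.e v := by
      rw [div_le_iff₀ (hθ v _)]
      exact h7
    have h10 : P.N v ((A v *ᵥ y) i) / θ v i ≤ (μ j / 2) ^ P.e v := by
      calc _ ≤ C₀ ^ P.e v * (P.N v ((A v *ᵥ y) (π v l)) / θ v (π v l)) := hle
        _ ≤ C₀ ^ P.e v * (c * μ l) ^ P.e v := mul_le_mul_of_nonneg_left h9 (by positivity)
        _ = (μ l / 2) ^ P.e v := by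
          rw [← mul_pow, hc]
          congr 1
          field_simp
        _ ≤ _ := pow_le_pow_left₀ (by have := hμ l; positivity) (by
          have := hmono hl
          linarith) _
    rwa [div_le_iff₀ (hθ v i)] at h10
  have h11 := hmin j (μ j / 2) y (by have := hμ j; positivity) hdom hy2
  have := hμ j
  linarith

end Pool.Agent.Work.Tools.Subspace
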