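import Pool.Agent.Work.Tools.Subspace.Basic
import Pool.Agent.Work.Tools.Subspace.Stmts
import Pool.Agent.Work.Tools.Subspace.Stmts2

/-!
# The Subspace theorem: item Q7, lower bound for a product of sizes of independent points
-/

namespace Pool.Agent.Work.Tools.Subspace

open Finset Matrix MvPolynomial

/-- Q7: lower bound for a product of sizes of independent integral points -/
theorem prfQ7 : ClaimQ7 := by
  intro K _ _ P n A hA
  refine ⟨max 1 (∏ v, ((n.factorial : ℝ) ^ P.e v / P.N v (A v).det)), le_max_left _ _, ?_⟩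
  intro θ lam x hθ hlam hli hdom
  set X : Matrix (Fin n) (Fin n) K := Matrix.of fun i j => x j i with hXdef
  have hX : X.det ≠ 0 := by
    have hl : LinearIndependent K X.col := hli
    have := Matrix.linearIndependent_cols_iff_isUnit.mp hl
    exact (isUnit_iff_ne_zero.mp ((Matrix.isUnit_iff_isUnit_det _).mp this))
  have h1 := one_le_prod_N P (det_mem P (E := X) fun i j => (hdom j).1 i) hX
  have h2 : ∀ v, P.N v X.det ≤ ((n.factorial : ℝ) ^ P.e v / P.N v (A v).det) *
      ((∏ j, lam j) ^ P.e v * ∏ i, θ v i) := by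
    intro v
    have hA0 := N_pos P v (hA v)
    rw [div_mul_eq_mul_div, le_div_iff₀ hA0, mul_comm, ← N_mul, ← Matrix.det_mul]
    refine N_det_le P v (A v * X) _ ?_ ?_
    · intro σ
      calc ∏ i, P.N v ((A v * X) (σ i) i) ≤ ∏ i, (lam i ^ P.e v * θ v (σ i)) :=
            Finset.prod_le_prod (fun i _ => N_nonneg P v _) (fun i _ => (hdom i).2 v (σ i))
        _ = (∏ j, lam j) ^ P.e v * ∏ i, θ v i := by
            rw [Finset.prod_mul_distrib, Finset.prod_pow, Equiv.prod_comp σ (θ v)]
    · exact mul_nonneg (pow_nonneg (Finset.prod_nonneg fun j _ => (hlam j).le) _)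
        (Finset.prod_nonneg fun i _ => (hθ v i).le)
  have hR : 0 ≤ (∏ j, lam j) ^ P.D * ∏ v, ∏ i, θ v i :=
    mul_nonneg (pow_nonneg (Finset.prod_nonneg fun j _ => (hlam j).le) _)
      (Finset.prod_nonneg fun v _ => Finset.prod_nonneg fun i _ => (hθ v i).le)
  calc 1 ≤ ∏ v, P.N v X.det := h1
    _ ≤ ∏ v, (((n.factorial : ℝ) ^ P.e v / P.N v (A v).det) *
      ((∏ j, lam j) ^ P.e v * ∏ i, θ v i)) :=
      Finset.prod_le_prod (fun v _ => N_nonneg P v _) (fun v _ => h2 v)
    _ = (∏ v, ((n.factorial : ℝ) ^ P.e v / P.N v (A v).det)) *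
      ((∏ j, lam j) ^ P.D * ∏ v, ∏ i, θ v i) := by
      rw [Finset.prod_mul_distrib, Finset.prod_mul_distrib, Finset.prod_pow_eq_pow_sum]
      rfl
    _ ≤ _ := mul_le_mul_of_nonneg_right (le_max_right _ _) hR

end Pool.Agent.Work.Tools.Subspace
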