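import Pool.Agent.Work.Tools.Subspace.Basic
import Pool.Agent.Work.Tools.Subspace.Stmts
import Pool.Agent.Work.Tools.Subspace.Stmts2

/-!
# R: the lemma of Roth, assembly
-/

set_option autoImplicit false

namespace Pool.Agent.Work.Tools.Subspace

open MvPolynomial

theorem prfR (h1 : ClaimR1) (h10 : ClaimR10) : ClaimR := by
  intro m
  induction m with
  | zero =>
    intro K _ _ P ε hε
    obtain ⟨ω, hω, h⟩ := h1 K P ε hε
    refine ⟨min ω 1, lt_min hω one_pos, min_le_right _ _, ?_⟩
    intro r ξ p B G hr _ hp hdeg hB hcoef hG hG0 hlog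
    refine h r ξ p B G (hr 0) hp (hdeg 0) hB hcoef (hG 0) ?_ hG0
    have h2 : (Fin.last 0 : Fin (0 + 1)) = 0 := rfl
    rw [h2] at hlog
    exact hlog.trans (mul_le_mul_of_nonneg_right (min_le_left _ _) hG0.le)
  | succ m ih => exact h10 m ih

end Pool.Agent.Work.Tools.Subspace
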