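import Pool.Agent.Work.Tools.Subspace.Basic
import Pool.Agent.Work.Tools.Subspace.Stmts
import Pool.Agent.Work.Tools.Subspace.Stmts2

set_option autoImplicit false

/-!
# Item R10: the induction step of the lemma of Roth
-/

namespace Pool.Agent.Work.Tools.Subspace

open Finset Matrix MvPolynomial

namespace IR10

theorem coeff_aeval (w : Polynomial ℤ) (s : Fin 1 →₀ ℕ) :
    coeff s (Polynomial.aeval (X 0 : MvPolynomial (Fin 1) ℤ) w) = w.coeff (s 0) := by
  induction w using Polynomial.induction_on' with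
  | add p q hp hq => rw [map_add, coeff_add, hp, hq, Polynomial.coeff_add]
  | monomial n a =>
    rw [Polynomial.aeval_monomial, Polynomial.coeff_monomial, MvPolynomial.algebraMap_eq,
      coeff_C_mul, coeff_X_pow]
    have h : Finsupp.single (0 : Fin 1) n = s ↔ n = s 0 := by
      constructor
      · rintro rfl
        rw [Finsupp.single_eq_same]
      · intro h
        refine Finsupp.ext fun i => ?_
        rw [Subsingleton.elim i 0, Finsupp.single_eq_same, h]
    by_cases hn : n = s 0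
    · rw [if_pos (h.2 hn), if_pos hn, mul_one]
    · rw [if_neg (fun h' => hn (h.1 h')), if_neg hn, mul_zero]

theorem aeval_ne_zero {w : Polynomial ℤ} (hw : w ≠ 0) :
    Polynomial.aeval (X 0 : MvPolynomial (Fin 1) ℤ) w ≠ 0 := by
  intro h
  apply hw
  ext n
  have h1 := coeff_aeval w (Finsupp.single 0 n)
  rw [h, coeff_zero, Finsupp.single_eq_same] at h1
  rw [Polynomial.coeff_zero]
  exact h1.symm

theorem degreeOf_aeval {w : Polynomial ℤ} {d : ℕ} (hw : w.natDegree ≤ d) :
    degreeOf 0 (Polynomial.aeval (X 0 : MvPolynomial (Fin 1) ℤ) w) ≤ d := by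
  rw [degreeOf_le_iff]
  intro s hs
  rw [mem_support_iff, coeff_aeval] at hs
  exact (Polynomial.le_natDegree_of_ne_zero hs).trans hw

/-- The index for weights `l r`. -/
theorem indGe_scale {n : ℕ} {K : Type} [Field K] {p : MvPolynomial (Fin n) ℤ} {ξ : Fin n → K}
    {r : Fin n → ℕ} {l : ℕ} (hl : 0 < l) {ε : ℝ} (h : ¬ IndGe p ξ (fun i => l * r i) ε) :
    ¬ IndGe p ξ r (l * ε) := by
  intro h'
  apply h
  intro k hk
  have h1 := h' k hk
  have hl' : (0 : ℝ) < l := by exact_mod_cast hl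
  have h2 : ∑ i, (k i : ℝ) / r i = l * ∑ i, (k i : ℝ) / ((l * r i : ℕ) : ℝ) := by
    rw [Finset.mul_sum]
    refine Finset.sum_congr rfl fun i _ => ?_
    push_cast
    rcases Nat.eq_zero_or_pos (r i) with h3 | h3
    · rw [h3]
      simp
    · have : (0 : ℝ) < r i := by exact_mod_cast h3
      field_simp
  rw [h2] at h1
  exact le_of_mul_le_mul_left h1 hl'

theorem log_four_le : Real.log 4 ≤ 2 := by
  have h : Real.log 4 = 2 * Real.log 2 := by
    rw [show (4 : ℝ) = 2 ^ 2 by norm_num, Real.log_pow]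
    norm_num
  have := Real.log_two_lt_d9
  rw [h]
  linarith

/-- The bound for the logarithm of the coefficients. -/
theorem log_bound {m l r0 rl : ℕ} {S B : ℝ} (hl : 0 < l) (hlr : l ≤ r0 + 1) (hr : r0 ≤ rl)
    (hB : 1 ≤ B) {s : ℕ} (hS : S = s) (hs : S ≤ (m + 2) * rl) :
    Real.log ((l * 4 ^ s * B) ^ l) + l * rl ≤ l * ((2 * m + 6) * (Real.log B + rl)) := by
  have hl' : (1 : ℝ) ≤ l := by exact_mod_cast hl
  have hlB : 0 ≤ Real.log B := Real.log_nonneg hB
  rw [Real.log_pow, Real.log_mul (by positivity) (by positivity),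
    Real.log_mul (by positivity) (by positivity), Real.log_pow, ← mul_add]
  refine mul_le_mul_of_nonneg_left ?_ (by positivity)
  have h1 : Real.log l ≤ rl := by
    have h2 := Real.log_le_sub_one_of_pos (show (0 : ℝ) < l by positivity)
    have h3 : (l : ℝ) ≤ r0 + 1 := by exact_mod_cast hlr
    have h4 : (r0 : ℝ) ≤ rl := by exact_mod_cast hr
    linarith
  have h2 : (s : ℝ) * Real.log 4 ≤ (m + 2) * rl * 2 := by
    rw [hS] at hs
    exact mul_le_mul hs log_four_le (Real.log_nonneg (by norm_num)) (by positivity)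
  have h3 : (0 : ℝ) ≤ (2 * m + 5) * Real.log B := by positivity
  nlinarith

end IR10

open IR10 in
/-- R10: the induction step of the lemma of Roth. -/
theorem prfR10 (h1 : ClaimR1) (h5 : ClaimR5) (h6 : ClaimR6) (h7 : ClaimR7) (h8 : ClaimR8)
    (h9 : ClaimR9) : ClaimR10 := by
  intro m hm K _ _ P ε hε
  set th : ℝ := min ε 1 with hth
  have hth0 : 0 < th := lt_min hε one_pos
  have hth1 : th ≤ 1 := min_le_right _ _
  have hthε : th ≤ ε := min_le_left _ _
  have hε' : 0 < th ^ 2 / 64 := by positivity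
  obtain ⟨ω', hω'0, hω'1, hω'⟩ := hm K P (th ^ 2 / 64) hε'
  obtain ⟨ω₁, hω₁0, hω₁⟩ := h1 K P (th ^ 2 / 64) hε'
  have hM : (0 : ℝ) < 2 * m + 6 := by positivity
  set ω : ℝ := min (th / 2) (min (ω' / (2 * m + 6)) (ω₁ / (2 * m + 6))) with hω
  have hω0 : 0 < ω := lt_min (by positivity) (lt_min (by positivity) (by positivity))
  have hωth : ω ≤ th / 2 := min_le_left _ _
  have hωa : (2 * m + 6) * ω ≤ ω' := by
    have h : ω ≤ ω' / (2 * m + 6) := (min_le_right _ _).trans (min_le_left _ _)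
    rw [le_div_iff₀ hM] at h
    linarith
  have hωb : (2 * m + 6) * ω ≤ ω₁ := by
    have h : ω ≤ ω₁ / (2 * m + 6) := (min_le_right _ _).trans (min_le_right _ _)
    rw [le_div_iff₀ hM] at h
    linarith
  have hωω' : ω ≤ ω' := by
    have : (0 : ℝ) ≤ m := Nat.cast_nonneg m
    nlinarith
  have hω1 : ω ≤ 1 := hωω'.trans hω'1
  refine ⟨ω, hω0, hω1, ?_⟩
  intro r ξ p B G hr hord hp hdeg hB hco hG hG0 hcond hind
  have hind' : IndGe p ξ r th := fun k hk => hthε.trans (hind k hk)
  obtain ⟨l, κ, u, w, hl0, hl1, hκ0, hκ1, hu, hw, hdet⟩ := h5 (m + 1) (r 0) p hp (hdeg 0)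
  obtain ⟨hcu, hcw, hdu, hdw⟩ := h6 (m + 1) r p B l κ u w hB hco hdeg hl0 hu hw hdet
  have h7' := h7 K (m + 1) r ξ p l κ th ω hr (fun h => hord 0 h.succ (Fin.succ_pos h)) hl1 hω0.le
    hκ0 hκ1 hind'
  rw [hdet] at h7'
  -- the sizes
  set L : ℕ := r (Fin.last (m + 1)) with hL
  have hrL : ∀ h, r h ≤ L := by
    intro h
    rcases eq_or_ne h (Fin.last (m + 1)) with h' | h'
    · rw [h']
    · have h2 := hord h (Fin.last (m + 1)) (Fin.lt_last_iff_ne_last.2 h')
      have h3 : (r h : ℝ) ≤ L := by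
        refine h2.trans ?_
        have : (0 : ℝ) ≤ L := Nat.cast_nonneg L
        nlinarith
      exact_mod_cast h3
  have hS : ((∑ h, r h : ℕ) : ℝ) ≤ (m + 2) * L := by
    have h2 : ∑ h, r h ≤ ∑ _h : Fin (m + 2), L := Finset.sum_le_sum fun h _ => hrL h
    rw [Finset.sum_const, Finset.card_univ, Fintype.card_fin, smul_eq_mul] at h2
    exact_mod_cast h2
  set B' : ℝ := ((l : ℝ) * 4 ^ (∑ h, r h) * B) ^ l with hB'
  have hlog : Real.log B' + l * L ≤ l * ((2 * m + 6) * (Real.log B + L)) :=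
    log_bound hl0 hl1 (hrL 0) hB rfl hS
  have hl' : (1 : ℝ) ≤ l := by exact_mod_cast hl0
  have hB'1 : 1 ≤ B' := by
    apply one_le_pow₀
    have h2 : (1 : ℝ) ≤ 4 ^ (∑ h, r h) := one_le_pow₀ (by norm_num)
    have h3 : (1 : ℝ) ≤ l * 4 ^ (∑ h, r h) := by nlinarith
    nlinarith
  have hlG : 0 < (l : ℝ) * G := by positivity
  have hcond' : ∀ ω₂ : ℝ, (2 * m + 6) * ω ≤ ω₂ → Real.log B' + l * L ≤ ω₂ * (l * G) := by
    intro ω₂ h2
    have h3 : (2 * (m : ℝ) + 6) * (Real.log B + L) ≤ (2 * m + 6) * (ω * G) :=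
      mul_le_mul_of_nonneg_left hcond hM.le
    have h4 : (2 * (m : ℝ) + 6) * (ω * G) ≤ ω₂ * G := by
      rw [← mul_assoc]
      exact mul_le_mul_of_nonneg_right h2 hG0.le
    calc Real.log B' + l * L ≤ l * ((2 * m + 6) * (Real.log B + L)) := hlog
      _ ≤ l * (ω₂ * G) := mul_le_mul_of_nonneg_left (h3.trans h4) (by positivity)
      _ = _ := by ring
  -- the first factor
  have hu1 : ¬ IndGe u (fun h => ξ h.succ) (fun h => r h.succ) (l * (th ^ 2 / 64)) := by
    apply indGe_scale hl0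
    refine hω' (fun h => l * r h.succ) (fun h => ξ h.succ) u B' (l * G)
      (fun h => Nat.mul_pos hl0 (hr _)) ?_ hu hdu hB'1 hcu ?_ hlG ?_
    · intro h h' hlt
      have h2 := hord h.succ h'.succ (Fin.succ_lt_succ_iff.2 hlt)
      have h3 : (r h.succ : ℝ) ≤ ω' * r h'.succ :=
        h2.trans (mul_le_mul_of_nonneg_right hωω' (Nat.cast_nonneg _))
      push_cast
      calc (l : ℝ) * r h.succ ≤ l * (ω' * r h'.succ) :=
            mul_le_mul_of_nonneg_left h3 (by positivity)
        _ = _ := by ring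
    · intro h
      push_cast
      rw [mul_assoc]
      exact mul_le_mul_of_nonneg_left (hG h.succ) (by positivity)
    · have h2 := hcond' ω' hωa
      have h3 : ((l * r (Fin.last m).succ : ℕ) : ℝ) = l * L := by
        rw [Fin.succ_last]
        push_cast
        rfl
      rw [h3]
      exact h2
  -- the second factor
  have hw1 : ¬ IndGe (Polynomial.aeval (X (0 : Fin 1) : MvPolynomial (Fin 1) ℤ) w)
      (fun _ => ξ 0) (fun _ => r 0) (l * (th ^ 2 / 64)) := by
    apply indGe_scale hl0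
    refine hω₁ (fun _ => l * r 0) (fun _ => ξ 0) _ B' (l * G) (Nat.mul_pos hl0 (hr _))
      (aeval_ne_zero hw) (degreeOf_aeval hdw) hB'1 ?_ ?_ ?_ hlG
    · intro s
      rw [coeff_aeval]
      exact hcw _
    · push_cast
      rw [mul_assoc]
      exact mul_le_mul_of_nonneg_left (hG 0) (by positivity)
    · have h2 := hcond' ω₁ hωb
      refine le_trans ?_ h2
      have h3 : (r 0 : ℝ) ≤ L := by exact_mod_cast hrL 0
      push_cast
      have := mul_le_mul_of_nonneg_left h3 (show (0 : ℝ) ≤ l by positivity)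
      linarith
  have h8' := h8 K (m + 1) r ξ u w _ _ _ hr h7' hu1 hw1
  have h9' := h9 l (r 0) (th - ω) (2 * (th ^ 2 / 64)) (hr 0) hl0 hl1 (by linarith) (by linarith)
    (by linarith)
  nlinarith

end Pool.Agent.Work.Tools.Subspace
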