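import Pool.Agent.Work.Tools.Subspace.Basic
import Pool.Agent.Work.Tools.Subspace.Stmts
import Pool.Agent.Work.Tools.Subspace.Stmts2

/-!
# R3: generalised Wronskians by Kronecker substitution
-/

namespace Pool.Agent.Work.Tools.Subspace

open Finset Matrix MvPolynomial

namespace IR3

/-- Kronecker substitution -/
noncomputable def kro (m N : ℕ) : MvPolynomial (Fin m) ℚ →ₐ[ℚ] Polynomial ℚ :=
  MvPolynomial.aeval (fun h : Fin m => (Polynomial.X : Polynomial ℚ) ^ (N ^ (h : ℕ)))

/-- increments -/
noncomputable def inc (m N : ℕ) (h : Fin m) : Polynomial (Polynomial ℚ) :=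
  (Polynomial.C Polynomial.X + Polynomial.X) ^ (N ^ (h : ℕ)) -
    (Polynomial.C Polynomial.X) ^ (N ^ (h : ℕ))

theorem inc_dvd (m N : ℕ) (h : Fin m) : (Polynomial.X : Polynomial (Polynomial ℚ)) ∣ inc m N h := by
  have := sub_dvd_pow_sub_pow
    (Polynomial.C (Polynomial.X : Polynomial ℚ) + Polynomial.X : Polynomial (Polynomial ℚ))
    (Polynomial.C (Polynomial.X : Polynomial ℚ)) (N ^ (h : ℕ))
  simpa [inc] using this

/-- weights -/
noncomputable def cw (m N : ℕ) (d : Fin m →₀ ℕ) (i : ℕ) : Polynomial ℚ :=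
  (∏ h, inc m N h ^ d h).coeff i

theorem cw_zero (m N : ℕ) (d : Fin m →₀ ℕ) (i : ℕ) (h : i < ∑ h, d h) : cw m N d i = 0 := by
  have h1 : (Polynomial.X : Polynomial (Polynomial ℚ)) ^ (∑ h, d h) ∣ ∏ h, inc m N h ^ d h := by
    rw [← Finset.prod_pow_eq_pow_sum]
    exact Finset.prod_dvd_prod_of_dvd _ _ (fun h _ => pow_dvd_pow_of_dvd (inc_dvd m N h) _)
  exact (Polynomial.X_pow_dvd_iff.1 h1) i h

/-- Taylor expansion in one variable -/
theorem hasse_eq (g : Polynomial ℚ) (i : ℕ) :
    Polynomial.hasseDeriv i g =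
      (Polynomial.aeval (Polynomial.C (Polynomial.X : Polynomial ℚ) + Polynomial.X) g).coeff i := by
  have h : (Polynomial.aeval (Polynomial.C (Polynomial.X : Polynomial ℚ) + Polynomial.X) g) =
      Polynomial.taylor (Polynomial.X : Polynomial ℚ) (g.map Polynomial.C) := by
    rw [Polynomial.taylor_apply, Polynomial.comp, Polynomial.eval₂_map, add_comm,
      Polynomial.aeval_def]
    congr 1
  rw [h, Polynomial.taylor_coeff]
  have : Polynomial.hasseDeriv i (g.map Polynomial.C) = (Polynomial.hasseDeriv i g).map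
      (Polynomial.C : ℚ →+* Polynomial ℚ) := by
    ext n
    simp [Polynomial.hasseDeriv_coeff]
  rw [this, Polynomial.eval_map, Polynomial.eval₂_C_X]

/-- Taylor expansion after the substitution -/
theorem aeval_kro (m N : ℕ) (f : MvPolynomial (Fin m) ℚ) :
    Polynomial.aeval (Polynomial.C (Polynomial.X : Polynomial ℚ) + Polynomial.X) (kro m N f) =
      ∑ d ∈ (tay f).support, Polynomial.C (kro m N (hd d f)) * ∏ h, inc m N h ^ d h := by
  have h : Polynomial.aeval (Polynomial.C (Polynomial.X : Polynomial ℚ) + Polynomial.X)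
      (kro m N f) = MvPolynomial.eval₂ (Polynomial.C.comp (kro m N).toRingHom) (inc m N)
        (tay f) := by
    rw [tay]
    induction f using MvPolynomial.induction_on with
    | C a =>
      simp [kro, MvPolynomial.algebraMap_apply]
    | add p q hp hq => simp only [map_add, hp, hq, MvPolynomial.eval₂_add]
    | mul_X p i hp =>
      rw [map_mul, map_mul, hp, map_mul, MvPolynomial.eval₂_mul]
      congr 1
      simp [kro, inc]
  rw [h, MvPolynomial.eval₂_eq']
  rfl

theorem hasse_kro (m N : ℕ) (f : MvPolynomial (Fin m) ℚ) (i : ℕ) (D : Finset (Fin m →₀ ℕ))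
    (hD : (tay f).support ⊆ D) :
    Polynomial.hasseDeriv i (kro m N f) = ∑ d ∈ D, cw m N d i * kro m N (hd d f) := by
  rw [hasse_eq, aeval_kro, Polynomial.finsetSum_coeff]
  rw [← Finset.sum_subset hD]
  · refine Finset.sum_congr rfl fun d _ => ?_
    rw [Polynomial.coeff_C_mul, cw, mul_comm]
  · intro d _ hd'
    have : hd d f = 0 := by simpa [hd] using hd'
    simp [this]

/-- digits -/
theorem digits_inj (m N : ℕ) (s t : Fin m → ℕ) (hs : ∀ h, s h < N) (ht : ∀ h, t h < N)
    (h : ∑ h, s h * N ^ (h : ℕ) = ∑ h, t h * N ^ (h : ℕ)) : s = t := by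
  let s' : Fin m → Fin N := fun h => ⟨s h, hs h⟩
  let t' : Fin m → Fin N := fun h => ⟨t h, ht h⟩
  have : s' = t' := by
    apply (finFunctionFinEquiv (m := N) (n := m)).injective
    apply Fin.ext
    rw [finFunctionFinEquiv_apply, finFunctionFinEquiv_apply]
    exact h
  funext i
  have := congrFun this i
  exact congrArg Fin.val this

theorem kro_inj (m N : ℕ) (F : MvPolynomial (Fin m) ℚ) (hF : ∀ h, degreeOf h F < N)
    (h0 : kro m N F = 0) : F = 0 := by
  by_contra hne
  obtain ⟨s, hs⟩ : F.support.Nonempty := by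
    rwa [Finset.nonempty_iff_ne_empty, Ne, MvPolynomial.support_eq_empty]
  have hexp : kro m N F = ∑ t ∈ F.support, Polynomial.C (coeff t F) *
      Polynomial.X ^ (∑ h, t h * N ^ (h : ℕ)) := by
    rw [kro, MvPolynomial.aeval_def, MvPolynomial.eval₂_eq']
    refine Finset.sum_congr rfl fun t _ => ?_
    rw [← Finset.prod_pow_eq_pow_sum]
    simp only [Polynomial.algebraMap_eq]
    congr 1
    refine Finset.prod_congr rfl fun h _ => ?_
    rw [← pow_mul, mul_comm]
  have hc : (kro m N F).coeff (∑ h, s h * N ^ (h : ℕ)) = coeff s F := by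
    rw [hexp, Polynomial.finsetSum_coeff, Finset.sum_eq_single s]
    · simp
    · intro t ht hts
      rw [Polynomial.coeff_C_mul, Polynomial.coeff_X_pow, if_neg, mul_zero]
      intro hEq
      apply hts
      have := digits_inj m N (fun h => s h) (fun h => t h)
        (fun h => lt_of_le_of_lt (MvPolynomial.degreeOf_le_iff.1 le_rfl s hs) (hF h))
        (fun h => lt_of_le_of_lt (MvPolynomial.degreeOf_le_iff.1 le_rfl t ht) (hF h)) hEq
      ext h
      exact (congrFun this h).symm
    · intro h
      exact absurd hs h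
  rw [h0, Polynomial.coeff_zero] at hc
  exact (MvPolynomial.mem_support_iff.1 hs) hc.symm

end IR3

open IR3 in
theorem prfR3 (h2 : ClaimR2) : ClaimR3 := by
  classical
  intro m l f hf
  -- a bound for the degrees
  obtain ⟨N, hN0, hN⟩ : ∃ N : ℕ, 0 < N ∧ ∀ j h, degreeOf h (f j) < N := by
    refine ⟨(∑ j, ∑ h, degreeOf h (f j)) + 1, Nat.succ_pos _, fun j h => ?_⟩
    have h1 : degreeOf h (f j) ≤ ∑ h, degreeOf h (f j) :=
      Finset.single_le_sum (f := fun h => degreeOf h (f j)) (fun _ _ => Nat.zero_le _)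
        (Finset.mem_univ h)
    have h2 : ∑ h, degreeOf h (f j) ≤ ∑ j, ∑ h, degreeOf h (f j) :=
      Finset.single_le_sum (f := fun j => ∑ h, degreeOf h (f j)) (fun _ _ => Nat.zero_le _)
        (Finset.mem_univ j)
    omega
  have hg : LinearIndependent ℚ (fun j => kro m N (f j)) := by
    rw [Fintype.linearIndependent_iff] at hf ⊢
    intro c hc
    apply hf c
    apply kro_inj m N
    · intro h
      refine lt_of_le_of_lt (MvPolynomial.degreeOf_sum_le h _ _) ?_
      rw [Finset.sup_lt_iff (by simpa using hN0)]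
      intro j _
      refine lt_of_le_of_lt ?_ (hN j h)
      rw [MvPolynomial.smul_eq_C_mul]
      exact MvPolynomial.degreeOf_C_mul_le _ _ _
    · rw [map_sum]
      simpa using hc
  have hdet := h2 l _ hg
  set D : Finset (Fin m →₀ ℕ) := Finset.univ.biUnion (fun j => (tay (f j)).support) with hDdef
  have hrow : (Matrix.of fun i j : Fin l => Polynomial.hasseDeriv (i : ℕ) (kro m N (f j))) =
      (fun i : Fin l => ∑ d ∈ D, cw m N d (i : ℕ) • (fun j => kro m N (hd d (f j)))) := by
    funext i j
    rw [Matrix.of_apply, hasse_kro m N (f j) i D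
      (Finset.subset_biUnion_of_mem (fun j => (tay (f j)).support) (Finset.mem_univ j))]
    simp [Finset.sum_apply]
  have hexp : (Matrix.of fun i j : Fin l => Polynomial.hasseDeriv (i : ℕ) (kro m N (f j))).det =
      ∑ r ∈ Fintype.piFinset (fun _ : Fin l => D), (∏ i, cw m N (r i) i) •
        (Matrix.of fun i j : Fin l => kro m N (hd (r i) (f j))).det := by
    have := (Matrix.detRowAlternating (n := Fin l) (R := Polynomial ℚ)).toMultilinearMap.map_sum_finset
      (fun (i : Fin l) (d : Fin m →₀ ℕ) => cw m N d (i : ℕ) • (fun j => kro m N (hd d (f j))))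
      (fun _ => D)
    rw [hrow]
    refine this.trans ?_
    refine Finset.sum_congr rfl fun r _ => ?_
    exact (Matrix.detRowAlternating (n := Fin l) (R := Polynomial ℚ)).toMultilinearMap.map_smul_univ
      (fun i => cw m N (r i) i) (fun i j => kro m N (hd (r i) (f j)))
  rw [hexp] at hdet
  obtain ⟨r, _, hr⟩ := Finset.exists_ne_zero_of_sum_ne_zero hdet
  refine ⟨r, fun i => ?_, ?_⟩
  · by_contra hcon
    push Not at hcon
    apply hr
    rw [Finset.prod_eq_zero (Finset.mem_univ i) (cw_zero m N (r i) i hcon), zero_smul]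
  · intro h0
    apply hr
    have : (Matrix.of fun i j : Fin l => kro m N (hd (r i) (f j))).det =
        kro m N (Matrix.of fun i j : Fin l => hd (r i) (f j)).det := by
      rw [AlgHom.map_det]
      rfl
    rw [this, h0, map_zero, smul_zero]

end Pool.Agent.Work.Tools.Subspace
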