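import Pool.Agent.Work.Tools.Subspace.Basic
import Pool.Agent.Work.Tools.Subspace.Stmts
import Pool.Agent.Work.Tools.Subspace.Stmts2

set_option autoImplicit false

namespace Pool.Agent.Work.Tools.Subspace

open MvPolynomial

namespace IR4

lemma fse_rename (m : ℕ) (f : MvPolynomial (Fin m) ℚ) :
    finSuccEquiv ℚ m (rename Fin.succ f) = Polynomial.C f := by
  have h : ((finSuccEquiv ℚ m : MvPolynomial (Fin (m + 1)) ℚ →ₐ[ℚ] _).comp (rename Fin.succ)) =
      (Algebra.ofId (MvPolynomial (Fin m) ℚ) (Polynomial (MvPolynomial (Fin m) ℚ))).restrictScalars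
        ℚ := by
    apply MvPolynomial.algHom_ext
    intro i
    simp [finSuccEquiv_X_succ, Algebra.ofId_apply]
  exact DFunLike.congr_fun h f

lemma fse_aeval (m : ℕ) (g : Polynomial ℚ) :
    finSuccEquiv ℚ m (Polynomial.aeval (X (0 : Fin (m + 1)) : MvPolynomial (Fin (m + 1)) ℚ) g) =
      g.map (algebraMap ℚ (MvPolynomial (Fin m) ℚ)) := by
  rw [← AlgEquiv.coe_toAlgHom, ← Polynomial.aeval_algHom_apply, AlgEquiv.coe_toAlgHom,
    finSuccEquiv_X_zero, Polynomial.aeval_X_left_eq_map]

end IR4

open IR4 in
theorem prfR4 : ClaimR4 := by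
  intro m d p hp hd
  classical
  let q := finSuccEquiv ℚ m p
  have hq0 : q ≠ 0 := by
    simpa [q] using hp
  have hdeg : q.natDegree ≤ d := by
    simp only [q, natDegree_finSuccEquiv]
    exact hd
  let c : Fin (d + 1) → MvPolynomial (Fin m) ℚ := fun i => q.coeff i
  let W : Submodule ℚ (MvPolynomial (Fin m) ℚ) := Submodule.span ℚ (Set.range c)
  have hcW : ∀ i, c i ∈ W := fun i => Submodule.subset_span ⟨i, rfl⟩
  have : FiniteDimensional ℚ W := FiniteDimensional.span_of_finite ℚ (Set.finite_range c)
  let b := Module.finBasis ℚ W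
  let a : Fin (d + 1) → Fin (Module.finrank ℚ W) → ℚ := fun i t => b.repr ⟨c i, hcW i⟩ t
  have hca : ∀ i, c i = ∑ t, a i t • (b t : MvPolynomial (Fin m) ℚ) := by
    intro i
    have h := b.sum_repr ⟨c i, hcW i⟩
    have h2 := congrArg (Subtype.val) h
    rw [Submodule.coe_sum] at h2
    simp only [Submodule.coe_smul] at h2
    exact h2.symm
  refine ⟨Module.finrank ℚ W, fun t => ∑ i : Fin (d + 1), Polynomial.monomial (i : ℕ) (a i t),
    fun t => (b t : MvPolynomial (Fin m) ℚ), ?_, ?_, ?_, ?_, ?_⟩
  · -- `0 < l`
    rw [Module.finrank_pos_iff_exists_ne_zero]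
    have hi : q.natDegree < d + 1 := Nat.lt_succ_of_le hdeg
    refine ⟨⟨c ⟨q.natDegree, hi⟩, hcW _⟩, ?_⟩
    intro h
    have h2 := congrArg Subtype.val h
    simp only [c] at h2
    exact hq0 (Polynomial.leadingCoeff_eq_zero.mp h2)
  · have h := finrank_range_le_card (R := ℚ) c
    simpa [Set.finrank] using h
  · -- independence of `g`
    rw [Fintype.linearIndependent_iff]
    intro β hβ
    have h1 : ∀ i : Fin (d + 1), ∑ t, β t * a i t = 0 := by
      intro i
      have h2 := congrArg (fun r : Polynomial ℚ => r.coeff (i : ℕ)) hβ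
      simp only [Polynomial.finsetSum_coeff, Polynomial.coeff_smul, Polynomial.coeff_monomial,
        Polynomial.coeff_zero, smul_eq_mul] at h2
      rw [← h2]
      apply Finset.sum_congr rfl
      intro t _
      congr 1
      rw [Finset.sum_eq_single i]
      · simp
      · intro j _ hj
        rw [if_neg]
        intro hji
        exact hj (Fin.ext hji)
      · intro hi
        exact absurd (Finset.mem_univ i) hi
    let φ : W →ₗ[ℚ] ℚ := ∑ t, β t • b.coord t
    have h2 : ∀ w, φ w = 0 := by
      rintro ⟨w, hw⟩
      induction hw using Submodule.span_induction with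
      | mem x hx =>
        obtain ⟨i, rfl⟩ := hx
        simp only [φ, LinearMap.sum_apply, LinearMap.smul_apply, Module.Basis.coord_apply,
          smul_eq_mul]
        exact h1 i
      | zero => exact map_zero φ
      | add x y hx hy ihx ihy =>
        have h3 := map_add φ ⟨x, hx⟩ ⟨y, hy⟩
        rw [ihx, ihy, add_zero] at h3
        exact h3
      | smul r x hx ih =>
        have h3 := map_smul φ r ⟨x, hx⟩
        rw [ih, smul_zero] at h3
        exact h3
    intro t
    have h3 := h2 (b t)
    simp only [φ, LinearMap.sum_apply, LinearMap.smul_apply, Module.Basis.coord_apply,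
      smul_eq_mul, Module.Basis.repr_self, Finsupp.single_apply, mul_ite, mul_one, mul_zero,
      Finset.sum_ite_eq, Finset.mem_univ, if_true] at h3
    exact h3
  · -- independence of `f`
    exact b.linearIndependent.map' W.subtype (Submodule.ker_subtype W)
  · apply (finSuccEquiv ℚ m).injective
    rw [map_sum]
    simp only [map_mul, fse_rename, fse_aeval]
    change q = _
    ext1 n
    simp only [Polynomial.finsetSum_coeff, Polynomial.coeff_mul_C, Polynomial.coeff_map]
    by_cases hn : n < d + 1
    · have h1 := hca ⟨n, hn⟩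
      simp only [c] at h1
      rw [h1]
      apply Finset.sum_congr rfl
      intro t _
      rw [Finset.sum_eq_single (⟨n, hn⟩ : Fin (d + 1))]
      · simp [Algebra.smul_def]
      · intro j _ hj
        rw [Polynomial.coeff_monomial, if_neg]
        intro hji
        exact hj (Fin.ext hji)
      · intro hi
        exact absurd (Finset.mem_univ _) hi
    · rw [Polynomial.coeff_eq_zero_of_natDegree_lt (by omega)]
      symm
      apply Finset.sum_eq_zero
      intro t _
      have : (∑ i : Fin (d + 1), (Polynomial.monomial (i : ℕ) (a i t)).coeff n) = 0 := by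
        apply Finset.sum_eq_zero
        intro i _
        rw [Polynomial.coeff_monomial, if_neg]
        have := i.2
        omega
      rw [this]
      simp

end Pool.Agent.Work.Tools.Subspace
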