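import Pool.Agent.Work.Tools.Subspace.Basic
import Pool.Agent.Work.Tools.Subspace.Stmts
import Pool.Agent.Work.Tools.Subspace.Stmts2

/-!
# Item R5: the Wronskian factors over the integers
-/

namespace Pool.Agent.Work.Tools.Subspace

open Finset Matrix MvPolynomial

namespace IR5

theorem tay_map {σ R S : Type} [CommRing R] [CommRing S] (φ : R →+* S) (F : MvPolynomial σ R) :
    tay (MvPolynomial.map φ F) = MvPolynomial.map (MvPolynomial.map φ) (tay F) := by
  induction F using MvPolynomial.induction_on with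
  | C a => simp [tay_C]
  | add p q hp hq => simp only [map_add, tay_add, hp, hq]
  | mul_X p i hp =>
    simp only [map_mul, tay_mul, hp, MvPolynomial.map_X, tay_X, map_add, MvPolynomial.map_C]

theorem hd_map {σ R S : Type} [CommRing R] [CommRing S] (φ : R →+* S) (k : σ →₀ ℕ)
    (F : MvPolynomial σ R) : hd k (MvPolynomial.map φ F) = MvPolynomial.map φ (hd k F) := by
  rw [hd, tay_map, MvPolynomial.coeff_map, hd]

theorem single_add_mapDomain {m : ℕ} (n : ℕ) (s : Fin m →₀ ℕ) :
    Finsupp.single (0 : Fin (m + 1)) n + s.mapDomain Fin.succ = Finsupp.cons n s := by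
  ext i
  refine Fin.cases ?_ (fun i => ?_) i
  · rw [Finsupp.add_apply, Finsupp.cons_zero, Finsupp.single_eq_same]
    rw [Finsupp.mapDomain_of_notMem_range, add_zero]
    rintro ⟨j, hj⟩
    exact Fin.succ_ne_zero j hj
  · rw [Finsupp.add_apply, Finsupp.cons_succ,
      Finsupp.mapDomain_apply (Fin.succ_injective m)]
    rw [Finsupp.single_eq_of_ne (Fin.succ_ne_zero i), zero_add]

theorem cons_add_single {m : ℕ} (n : ℕ) (s : Fin m →₀ ℕ) :
    Finsupp.cons 0 s + Finsupp.single (0 : Fin (m + 1)) n = Finsupp.cons n s := by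
  rw [← single_add_mapDomain, ← single_add_mapDomain, Finsupp.single_zero, zero_add]
  exact add_comm _ _

theorem mono {R : Type} [CommRing R] {m : ℕ} (n : ℕ) (a : R) (s : Fin m →₀ ℕ) (b : R) :
    Polynomial.aeval (X (0 : Fin (m + 1)) : MvPolynomial (Fin (m + 1)) R)
        (Polynomial.monomial n a) * rename Fin.succ (monomial s b) =
      monomial (Finsupp.cons n s) (a * b) := by
  rw [Polynomial.aeval_monomial, rename_monomial, ← single_add_mapDomain,
    MvPolynomial.algebraMap_eq, X_pow_eq_monomial, C_mul_monomial, monomial_mul, mul_one]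

theorem cons_sub_cons {m : ℕ} (n j : ℕ) (s k : Fin m →₀ ℕ) :
    Finsupp.cons n s - Finsupp.cons j k = Finsupp.cons (n - j) (s - k) := by
  ext i
  refine Fin.cases ?_ (fun i => ?_) i
  · simp [Finsupp.tsub_apply]
  · simp [Finsupp.tsub_apply]

theorem hd_prod (h1 : ClaimT1) {m : ℕ} (j : ℕ) (k : Fin m →₀ ℕ)
    (g : Polynomial ℚ) (f : MvPolynomial (Fin m) ℚ) :
    hd (Finsupp.cons j k)
        (Polynomial.aeval (X (0 : Fin (m + 1)) : MvPolynomial (Fin (m + 1)) ℚ) g *
          rename Fin.succ f) =
      Polynomial.aeval (X (0 : Fin (m + 1)) : MvPolynomial (Fin (m + 1)) ℚ)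
        (Polynomial.hasseDeriv j g) * rename Fin.succ (hd k f) := by
  induction g using Polynomial.induction_on' with
  | add p q hp hq => simp only [map_add, add_mul, hd_add, hp, hq]
  | monomial n a =>
    induction f using MvPolynomial.induction_on' with
    | add p q hp hq => simp only [map_add, mul_add, hd_add, hp, hq]
    | monomial s b =>
      rw [mono, h1, cons_sub_cons, Polynomial.hasseDeriv_monomial, h1, mono, Fin.prod_univ_succ]
      simp only [Finsupp.cons_zero, Finsupp.cons_succ]
      congr 1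
      ring

theorem fse_rename {R : Type} [CommRing R] {m : ℕ} (f : MvPolynomial (Fin m) R) :
    finSuccEquiv R m (rename Fin.succ f) = Polynomial.C f := by
  induction f using MvPolynomial.induction_on with
  | C a =>
    rw [rename_C, finSuccEquiv_apply, coe_eval₂Hom, eval₂_C]
    rfl
  | add p q hp hq => simp only [map_add, hp, hq]
  | mul_X p i hp => rw [map_mul, map_mul, hp, rename_X, finSuccEquiv_X_succ, map_mul]

theorem fse_aeval {R : Type} [CommRing R] {m : ℕ} (g : Polynomial R) :
    finSuccEquiv R m (Polynomial.aeval (X (0 : Fin (m + 1)) : MvPolynomial (Fin (m + 1)) R) g) =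
      g.map C := by
  induction g using Polynomial.induction_on' with
  | add p q hp hq => simp only [map_add, Polynomial.map_add, hp, hq]
  | monomial n a =>
    rw [Polynomial.aeval_monomial, map_mul, map_pow, finSuccEquiv_X_zero,
      MvPolynomial.algebraMap_eq, Polynomial.map_monomial, ← Polynomial.C_mul_X_pow_eq_monomial]
    congr 1
    rw [finSuccEquiv_apply, coe_eval₂Hom, eval₂_C]
    rfl

theorem coeff_cons {R : Type} [CommRing R] {m : ℕ} (g : Polynomial R)
    (f : MvPolynomial (Fin m) R) (i : ℕ) (s : Fin m →₀ ℕ) :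
    coeff (Finsupp.cons i s)
      (Polynomial.aeval (X (0 : Fin (m + 1)) : MvPolynomial (Fin (m + 1)) R) g *
        rename Fin.succ f) = g.coeff i * coeff s f := by
  rw [← finSuccEquiv_coeff_coeff, map_mul, fse_rename, fse_aeval, Polynomial.coeff_mul_C,
    Polynomial.coeff_map, coeff_C_mul]

theorem map_aeval {m : ℕ} (g : Polynomial ℤ) :
    MvPolynomial.map (Int.castRingHom ℚ)
        (Polynomial.aeval (X (0 : Fin (m + 1)) : MvPolynomial (Fin (m + 1)) ℤ) g) =
      Polynomial.aeval (X (0 : Fin (m + 1)) : MvPolynomial (Fin (m + 1)) ℚ)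
        (g.map (Int.castRingHom ℚ)) := by
  induction g using Polynomial.induction_on' with
  | add p q hp hq => simp only [map_add, Polynomial.map_add, hp, hq]
  | monomial n a =>
    rw [Polynomial.aeval_monomial, map_mul, map_pow, MvPolynomial.map_X,
      Polynomial.map_monomial, Polynomial.aeval_monomial, MvPolynomial.algebraMap_eq,
      MvPolynomial.map_C, MvPolynomial.algebraMap_eq]

/-- an integer polynomial which factors over the rationals into factors in separate variables
factors over the integers -/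
theorem integral {m : ℕ} (D : MvPolynomial (Fin (m + 1)) ℤ) (U : MvPolynomial (Fin m) ℚ)
    (W : Polynomial ℚ) (hU : U ≠ 0) (hW : W ≠ 0)
    (h : MvPolynomial.map (Int.castRingHom ℚ) D =
      Polynomial.aeval (X (0 : Fin (m + 1)) : MvPolynomial (Fin (m + 1)) ℚ) W *
        rename Fin.succ U) :
    ∃ (u : MvPolynomial (Fin m) ℤ) (w : Polynomial ℤ), u ≠ 0 ∧ w ≠ 0 ∧
      D = Polynomial.aeval (X (0 : Fin (m + 1)) : MvPolynomial (Fin (m + 1)) ℤ) w *
        rename Fin.succ u := by
  have hc : ∀ i s, W.coeff i * coeff s U = ((coeff (Finsupp.cons i s) D : ℤ) : ℚ) := by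
    intro i s
    rw [← coeff_cons, ← h, MvPolynomial.coeff_map]
    rfl
  obtain ⟨s0, hs0⟩ := MvPolynomial.ne_zero_iff.mp hU
  -- the integer polynomial `z = U_{s0} W`
  obtain ⟨z, hz⟩ : ∃ z : Polynomial ℤ, z.map (Int.castRingHom ℚ) =
      Polynomial.C (coeff s0 U) * W := by
    have : Polynomial.C (coeff s0 U) * W ∈ Polynomial.lifts (Int.castRingHom ℚ) := by
      rw [Polynomial.lifts_iff_coeff_lifts]
      intro n
      refine ⟨coeff (Finsupp.cons n s0) D, ?_⟩
      rw [Polynomial.coeff_C_mul, mul_comm, hc]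
      rfl
    rw [Polynomial.mem_lifts] at this
    exact this
  have hz0 : z ≠ 0 := by
    intro h0
    rw [h0, Polynomial.map_zero] at hz
    rcases mul_eq_zero.1 hz.symm with h1 | h1
    · exact hs0 (Polynomial.C_eq_zero.1 h1)
    · exact hW h1
  set g : ℤ := z.content with hg
  have hg0 : g ≠ 0 := by
    rw [hg]
    intro h0
    exact hz0 (Polynomial.content_eq_zero_iff.1 h0)
  have hgQ : (g : ℚ) ≠ 0 := by exact_mod_cast hg0
  set w : Polynomial ℤ := z.primPart with hw
  have hprim : w.IsPrimitive := z.isPrimitive_primPart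
  have hzw : z = Polynomial.C g * w := z.eq_C_content_mul_primPart
  have hwi : ∀ i, (g : ℚ) * (w.coeff i : ℚ) = coeff s0 U * W.coeff i := by
    intro i
    have := congrArg (fun p => Polynomial.coeff p i) hz
    simp only [Polynomial.coeff_map, Polynomial.coeff_C_mul] at this
    rw [← this, hzw, Polynomial.coeff_C_mul]
    simp
  -- the integer polynomial `u = (g / U_{s0}) U`
  obtain ⟨u, hu⟩ : ∃ u : MvPolynomial (Fin m) ℤ, MvPolynomial.map (Int.castRingHom ℚ) u =
      C ((g : ℚ) / coeff s0 U) * U := by
    have hmem : (C ((g : ℚ) / coeff s0 U) * U) ∈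
        Set.range (MvPolynomial.map (σ := Fin m) (Int.castRingHom ℚ)) := by
      rw [MvPolynomial.mem_range_map_iff_coeffs_subset]
      intro q hq
      rw [Finset.mem_coe, MvPolynomial.mem_coeffs_iff] at hq
      obtain ⟨s, -, hs⟩ := hq
      rw [coeff_C_mul] at hs
      -- `q w_i` is an integer for all `i`
      have h1 : ∀ i, ∃ n : ℤ, q * (w.coeff i : ℚ) = n := by
        intro i
        refine ⟨coeff (Finsupp.cons i s) D, ?_⟩
        rw [← hc, hs]
        field_simp
        rw [mul_right_comm, hwi]
        ring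
      have h2 : Polynomial.C (q.den : ℤ) ∣ w := by
        rw [Polynomial.C_dvd_iff_dvd_coeff]
        intro i
        obtain ⟨n, hn⟩ := h1 i
        have h3 : (q.num : ℤ) * w.coeff i = n * q.den := by
          have h4 : (q.num : ℚ) = q * q.den := (Rat.mul_den_eq_num q).symm
          have h5 : ((q.num * w.coeff i : ℤ) : ℚ) = ((n * q.den : ℤ) : ℚ) := by
            push_cast
            rw [h4, ← hn]
            ring
          exact_mod_cast h5
        have h6 : (q.den : ℤ) ∣ q.num * w.coeff i := ⟨n, by rw [h3]; ring⟩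
        have h7 : IsCoprime (q.den : ℤ) q.num := by
          rw [Int.isCoprime_iff_gcd_eq_one]
          have := q.reduced
          rw [Nat.Coprime] at this
          rw [Int.gcd, Int.natAbs_natCast, Nat.gcd_comm]
          exact this
        exact h7.dvd_of_dvd_mul_left h6
      have h3 : IsUnit (q.den : ℤ) := hprim _ h2
      have h4 : q.den = 1 := by
        have := Int.isUnit_iff.1 h3
        rcases this with h | h
        · exact_mod_cast h
        · omega
      refine ⟨q.num, ?_⟩
      have h5 : (q.num : ℚ) = q * q.den := (Rat.mul_den_eq_num q).symm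
      rw [h4] at h5
      simpa using h5
    exact hmem
  refine ⟨u, w, ?_, hprim.ne_zero, ?_⟩
  · intro h0
    rw [h0, map_zero] at hu
    rcases mul_eq_zero.1 hu.symm with h1 | h1
    · rw [MvPolynomial.C_eq_zero] at h1
      exact (div_ne_zero hgQ hs0) h1
    · exact hU h1
  · apply MvPolynomial.map_injective (Int.castRingHom ℚ) Int.cast_injective
    rw [h, map_mul, map_aeval, MvPolynomial.map_rename, hu, map_mul, rename_C]
    have h1 : W = Polynomial.C ((g : ℚ) / coeff s0 U) * w.map (Int.castRingHom ℚ) := by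
      ext i
      rw [Polynomial.coeff_C_mul, Polynomial.coeff_map]
      have := hwi i
      simp only [eq_intCast]
      field_simp
      rw [this]
      ring
    conv_lhs => rw [h1]
    rw [map_mul, Polynomial.aeval_C, MvPolynomial.algebraMap_eq]
    ring

end IR5

theorem prfR5 (h1 : ClaimT1) (h2 : ClaimR2) (h3 : ClaimR3) (h4 : ClaimR4) : ClaimR5 := by
  intro m d p hp hd'
  have hpQ : MvPolynomial.map (Int.castRingHom ℚ) p ≠ 0 := by
    intro h0
    apply hp
    apply MvPolynomial.map_injective (Int.castRingHom ℚ) Int.cast_injective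
    rw [h0, map_zero]
  have hdQ : degreeOf 0 (MvPolynomial.map (Int.castRingHom ℚ) p) ≤ d := by
    refine le_trans ?_ hd'
    rw [degreeOf_le_iff]
    intro s hs
    exact (degreeOf_le_iff.1 le_rfl) s (MvPolynomial.support_map_subset _ _ hs)
  obtain ⟨l, g, f, hl, hld, hg, hf, hpe⟩ := h4 m d _ hpQ hdQ
  obtain ⟨κ, hκ, hκd⟩ := h3 m l f hf
  have hW := h2 l g hg
  set U : MvPolynomial (Fin m) ℚ := (Matrix.of fun i j : Fin l => hd (κ i) (f j)).det with hUdef
  set W : Polynomial ℚ :=
    (Matrix.of fun i j : Fin l => Polynomial.hasseDeriv (i : ℕ) (g j)).det with hWdef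
  have hkey : MvPolynomial.map (Int.castRingHom ℚ)
      (Matrix.of fun i j : Fin l =>
        hd (Finsupp.cons 0 (κ i) + Finsupp.single 0 (j : ℕ)) p).det =
      Polynomial.aeval (X (0 : Fin (m + 1)) : MvPolynomial (Fin (m + 1)) ℚ) W *
        rename Fin.succ U := by
    rw [RingHom.map_det]
    have hA : (MvPolynomial.map (Int.castRingHom ℚ)).mapMatrix
        (Matrix.of fun i j : Fin l =>
          hd (Finsupp.cons 0 (κ i) + Finsupp.single 0 (j : ℕ)) p) =
        ((rename Fin.succ : MvPolynomial (Fin m) ℚ →ₐ[ℚ] _).toRingHom.mapMatrix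
          (Matrix.of fun i j : Fin l => hd (κ i) (f j))) *
        ((Polynomial.aeval (X (0 : Fin (m + 1)) :
            MvPolynomial (Fin (m + 1)) ℚ)).toRingHom.mapMatrix
          (Matrix.of fun i j : Fin l => Polynomial.hasseDeriv (i : ℕ) (g j)))ᵀ := by
      ext1 i j
      rw [Matrix.mul_apply]
      simp only [RingHom.mapMatrix_apply, Matrix.map_apply, Matrix.of_apply, Matrix.transpose_apply]
      rw [← IR5.hd_map, IR5.cons_add_single, hpe, hd_sum]
      refine Finset.sum_congr rfl fun t _ => ?_
      rw [IR5.hd_prod h1]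
      exact mul_comm _ _
    rw [hA, Matrix.det_mul, Matrix.det_transpose, ← RingHom.map_det, ← RingHom.map_det,
      ← hUdef, ← hWdef]
    exact mul_comm _ _
  obtain ⟨u, w, hu, hw, hD⟩ := IR5.integral _ U W hκd hW hkey
  refine ⟨l, fun i => Finsupp.cons 0 (κ i), u, w, hl, hld, ?_, ?_, hu, hw, hD⟩
  · intro i
    exact Finsupp.cons_zero _ _
  · intro i
    rw [Fin.sum_univ_succ]
    simp only [Finsupp.cons_zero, Finsupp.cons_succ, zero_add]
    exact hκ i

end Pool.Agent.Work.Tools.Subspace
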