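import Pool.Agent.Work.Tools.Subspace.Basic
import Pool.Agent.Work.Tools.Subspace.Stmts
import Pool.Agent.Work.Tools.Subspace.Stmts2
import Pool.Agent.Work.Tools.Subspace.ItemR5

/-!
# Item R6: size of the factors
-/

namespace Pool.Agent.Work.Tools.Subspace

open Finset Matrix MvPolynomial

namespace IR6

theorem coefLe_one {σ : Type} : CoefLe (1 : MvPolynomial σ ℤ) 1 := by
  classical
  intro s
  rw [MvPolynomial.coeff_one]
  split_ifs <;> simp

theorem coefLe_prod (h5 : ClaimT5) {σ α : Type} [Fintype σ] [DecidableEq α] (s : Finset α)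
    (f : α → MvPolynomial σ ℤ) (d : σ → ℕ) (A : ℝ) (hA : 0 ≤ A)
    (h : ∀ a ∈ s, CoefLe (f a) A) (hd : ∀ a ∈ s, ∀ i, degreeOf i (f a) ≤ d i) :
    CoefLe (∏ a ∈ s, f a) ((A * 2 ^ (∑ i, d i)) ^ s.card) := by
  induction s using Finset.induction_on with
  | empty => simpa using coefLe_one
  | insert a s ha ih =>
    rw [prod_insert ha, card_insert_of_notMem ha]
    have h1 := h5 σ (f a) (∏ a ∈ s, f a) d A ((A * 2 ^ (∑ i, d i)) ^ s.card) hA (by positivity)
      (h a (mem_insert_self a s)) (ih (fun b hb => h b (mem_insert_of_mem hb))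
        (fun b hb => hd b (mem_insert_of_mem hb))) (hd a (mem_insert_self a s))
    have h2 : 2 ^ (∑ i, d i) * A * (A * 2 ^ (∑ i, d i)) ^ s.card =
        (A * 2 ^ (∑ i, d i)) ^ (s.card + 1) := by ring
    rw [← h2]
    exact h1

theorem abs_ge_one {z : ℤ} (hz : z ≠ 0) : (1 : ℝ) ≤ |(z : ℝ)| := by
  have := Int.one_le_abs hz
  exact_mod_cast this

end IR6

theorem prfR6 (h3 : ClaimT3) (h5 : ClaimT5) : ClaimR6 := by
  intro m r p B l κ u w hB hp hdeg hl hu hw hD
  set S : ℕ := ∑ h, r h with hS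
  set M : Matrix (Fin l) (Fin l) (MvPolynomial (Fin (m + 1)) ℤ) :=
    Matrix.of fun i j : Fin l => hd (κ i + Finsupp.single 0 (j : ℕ)) p with hM
  have hB0 : 0 ≤ B := by linarith
  have hent : ∀ i j, CoefLe (M i j) (2 ^ S * B) ∧ ∀ h, degreeOf h (M i j) ≤ r h := by
    intro i j
    have := h3 (Fin (m + 1)) (κ i + Finsupp.single 0 (j : ℕ)) p r B hp hdeg
    exact ⟨this.1, fun h => (this.2 h).trans (Nat.sub_le _ _)⟩
  have hprod : ∀ σ : Equiv.Perm (Fin l),
      CoefLe (∏ i, M (σ i) i) ((4 ^ S * B) ^ l) ∧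
        ∀ h, degreeOf h (∏ i, M (σ i) i) ≤ l * r h := by
    intro σ
    constructor
    · have := IR6.coefLe_prod h5 (Finset.univ : Finset (Fin l)) (fun i => M (σ i) i) r
        (2 ^ S * B) (by positivity) (fun i _ => (hent _ _).1) (fun i _ => (hent _ _).2)
      rw [Finset.card_univ, Fintype.card_fin] at this
      have e : 2 ^ S * B * 2 ^ (∑ i, r i) = 4 ^ S * B := by
        rw [← hS, show (4 : ℝ) = 2 * 2 by norm_num, mul_pow]
        ring
      rw [e] at this
      exact this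
    · intro h
      refine (degreeOf_prod_le _ _ _).trans ?_
      refine (Finset.sum_le_card_nsmul _ _ _ fun i _ => (hent _ _).2 h).trans ?_
      simp
  have hdet : ∀ s, |((coeff s M.det : ℤ) : ℝ)| ≤ (l * 4 ^ S * B) ^ l := by
    intro s
    rw [Matrix.det_apply, MvPolynomial.coeff_sum]
    push_cast
    refine (Finset.abs_sum_le_sum_abs _ _).trans ?_
    have h1 : ∀ σ ∈ (Finset.univ : Finset (Equiv.Perm (Fin l))),
        |((coeff s (Equiv.Perm.sign σ • ∏ i, M (σ i) i) : ℤ) : ℝ)| ≤ (4 ^ S * B) ^ l := by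
      intro σ _
      have h2 : |((coeff s (Equiv.Perm.sign σ • ∏ i, M (σ i) i) : ℤ) : ℝ)| =
          |((coeff s (∏ i, M (σ i) i) : ℤ) : ℝ)| := by
        rcases Int.units_eq_one_or (Equiv.Perm.sign σ) with h | h
        · rw [h, one_smul]
        · rw [h, Units.neg_smul, one_smul, MvPolynomial.coeff_neg]
          push_cast
          rw [abs_neg]
      rw [h2]
      exact (hprod σ).1 s
    refine (Finset.sum_le_card_nsmul _ _ _ h1).trans ?_
    rw [Finset.card_univ, Fintype.card_perm, Fintype.card_fin, nsmul_eq_mul]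
    have h3 : ((l.factorial : ℕ) : ℝ) ≤ (l : ℝ) ^ l := by
      exact_mod_cast Nat.factorial_le_pow l
    calc ((l.factorial : ℕ) : ℝ) * (4 ^ S * B) ^ l ≤ (l : ℝ) ^ l * (4 ^ S * B) ^ l := by
          gcongr
      _ = (l * 4 ^ S * B) ^ l := by rw [← mul_pow]; ring
  have hsupp : ∀ s, coeff s M.det ≠ 0 → ∀ h, s h ≤ l * r h := by
    intro s hs h
    rw [Matrix.det_apply, MvPolynomial.coeff_sum] at hs
    obtain ⟨σ, -, hσ⟩ := Finset.exists_ne_zero_of_sum_ne_zero hs
    have h2 : coeff s (∏ i, M (σ i) i) ≠ 0 := by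
      rcases Int.units_eq_one_or (Equiv.Perm.sign σ) with h | h
      · rwa [h, one_smul] at hσ
      · rw [h, Units.neg_smul, one_smul, MvPolynomial.coeff_neg] at hσ
        exact neg_ne_zero.1 hσ
    exact (degreeOf_le_iff.1 ((hprod σ).2 h)) s (mem_support_iff.2 h2)
  have hc : ∀ i s, coeff (Finsupp.cons i s) M.det = w.coeff i * coeff s u := by
    intro i s
    rw [hD, IR5.coeff_cons]
  obtain ⟨s0, hs0⟩ := MvPolynomial.ne_zero_iff.mp hu
  have hi0 : w.coeff w.natDegree ≠ 0 := by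
    rw [Polynomial.coeff_natDegree]
    exact Polynomial.leadingCoeff_ne_zero.2 hw
  have hw1 := IR6.abs_ge_one hi0
  have hu1 := IR6.abs_ge_one hs0
  refine ⟨?_, ?_, ?_, ?_⟩
  · intro s
    have h1 := hdet (Finsupp.cons w.natDegree s)
    rw [hc] at h1
    push_cast at h1
    rw [abs_mul] at h1
    refine le_trans ?_ h1
    exact le_mul_of_one_le_left (abs_nonneg _) hw1
  · intro i
    have h1 := hdet (Finsupp.cons i s0)
    rw [hc] at h1
    push_cast at h1
    rw [abs_mul] at h1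
    refine le_trans ?_ h1
    exact le_mul_of_one_le_right (abs_nonneg _) hu1
  · intro h
    rw [degreeOf_le_iff]
    intro s hs
    have h1 := hsupp (Finsupp.cons w.natDegree s) (by
      rw [hc]
      exact mul_ne_zero hi0 (mem_support_iff.1 hs)) h.succ
    rwa [Finsupp.cons_succ] at h1
  · have h1 := hsupp (Finsupp.cons w.natDegree s0) (by
      rw [hc]
      exact mul_ne_zero hi0 hs0) 0
    rwa [Finsupp.cons_zero] at h1

end Pool.Agent.Work.Tools.Subspace
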