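import Pool.Agent.Work.Tools.Subspace.Basic
import Pool.Agent.Work.Tools.Subspace.Stmts
import Pool.Agent.Work.Tools.Subspace.Stmts2

/-!
# The Subspace theorem: index of a determinant
-/

namespace Pool.Agent.Work.Tools.Subspace

open Finset Matrix MvPolynomial

namespace IR7

variable {K : Type} [Field K] {m : ℕ} {r : Fin m → ℕ} {ξ : Fin m → K}

theorem tc_sum {α : Type} (s : Finset α) (F : α → MvPolynomial (Fin m) ℤ) (k : Fin m →₀ ℕ) :
    tc (∑ a ∈ s, F a) k ξ = ∑ a ∈ s, tc (F a) k ξ := by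
  simp [tc, hd_sum]

theorem f_nonneg (k : Fin m →₀ ℕ) : 0 ≤ ∑ h, (k h : ℝ) / r h :=
  Finset.sum_nonneg fun h _ => by positivity

theorem f_add (k l : Fin m →₀ ℕ) :
    ∑ h, ((k + l) h : ℝ) / r h = ∑ h, (k h : ℝ) / r h + ∑ h, (l h : ℝ) / r h := by
  rw [← Finset.sum_add_distrib]
  refine Finset.sum_congr rfl fun h _ => ?_
  rw [Finsupp.add_apply, Nat.cast_add, add_div]

/-- the index is nonnegative -/
theorem indGe_zero (p : MvPolynomial (Fin m) ℤ) : IndGe p ξ r 0 := fun k _ => f_nonneg k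

theorem indGe_max {p : MvPolynomial (Fin m) ℤ} {a : ℝ} (h : IndGe p ξ r a) :
    IndGe p ξ r (max 0 a) := fun k hk => max_le (f_nonneg k) (h k hk)

theorem indGe_mono {p : MvPolynomial (Fin m) ℤ} {a b : ℝ} (h : IndGe p ξ r a) (hb : b ≤ a) :
    IndGe p ξ r b := fun k hk => hb.trans (h k hk)

theorem indGe_sum {α : Type} (s : Finset α) (F : α → MvPolynomial (Fin m) ℤ) {a : ℝ}
    (h : ∀ x ∈ s, IndGe (F x) ξ r a) : IndGe (∑ x ∈ s, F x) ξ r a := by
  intro k hk
  rw [tc_sum] at hk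
  obtain ⟨x, hx, hx'⟩ := Finset.exists_ne_zero_of_sum_ne_zero hk
  exact h x hx k hx'

theorem indGe_mul {F G : MvPolynomial (Fin m) ℤ} {a b : ℝ} (hF : IndGe F ξ r a)
    (hG : IndGe G ξ r b) : IndGe (F * G) ξ r (a + b) := by
  intro k hk
  rw [tc, hd_mul, map_sum] at hk
  obtain ⟨x, hx, hx'⟩ := Finset.exists_ne_zero_of_sum_ne_zero hk
  rw [map_mul] at hx'
  rw [← Finset.HasAntidiagonal.mem_antidiagonal.mp hx, f_add]
  exact add_le_add (hF x.1 (left_ne_zero_of_mul hx')) (hG x.2 (right_ne_zero_of_mul hx'))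

theorem indGe_prod {α : Type} (s : Finset α) (F : α → MvPolynomial (Fin m) ℤ) (a : α → ℝ)
    (h : ∀ x ∈ s, IndGe (F x) ξ r (a x)) : IndGe (∏ x ∈ s, F x) ξ r (∑ x ∈ s, a x) := by
  classical
  induction s using Finset.induction_on with
  | empty => simpa using indGe_zero (1 : MvPolynomial (Fin m) ℤ)
  | insert x s hx ih =>
    rw [Finset.prod_insert hx, Finset.sum_insert hx]
    exact indGe_mul (h x (mem_insert_self x s)) (ih fun y hy => h y (mem_insert_of_mem hy))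

theorem indGe_hd (h2 : ClaimT2) {F : MvPolynomial (Fin m) ℤ} {a : ℝ} (hF : IndGe F ξ r a)
    (κ : Fin m →₀ ℕ) : IndGe (hd κ F) ξ r (a - ∑ h, (κ h : ℝ) / r h) := by
  intro l hl
  rw [tc, h2 (Fin m) ℤ l κ F, map_mul] at hl
  have := hF (l + κ) (right_ne_zero_of_mul hl)
  rw [f_add] at this
  linarith

theorem indGe_det {l : ℕ} (M : Matrix (Fin l) (Fin l) (MvPolynomial (Fin m) ℤ)) (a : Fin l → ℝ)
    (h : ∀ i j, IndGe (M i j) ξ r (a j)) : IndGe M.det ξ r (∑ j, a j) := by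
  rw [Matrix.det_apply']
  refine indGe_sum _ _ fun σ _ => ?_
  have := indGe_mul (indGe_zero (ξ := ξ) (r := r) (((Equiv.Perm.sign σ : ℤˣ) : ℤ) :
      MvPolynomial (Fin m) ℤ)) (indGe_prod univ (fun i => M (σ i) i) a fun i _ => h _ _)
  rwa [zero_add] at this

end IR7

open IR7 in
theorem prfR7 (h2 : ClaimT2) : ClaimR7 := by
  intro K _ _ m r ξ p l κ θ ω hr hω hl hω0 hκ0 hκ hp
  refine indGe_det _ _ fun i j => ?_
  rw [Matrix.of_apply]
  refine indGe_max (indGe_mono (indGe_hd h2 hp _) ?_)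
  rw [f_add, Fin.sum_univ_succ, hκ0 i, Fin.sum_univ_succ]
  have hr0 : (0 : ℝ) < r 0 := by exact_mod_cast hr 0
  have h1 : ∑ h : Fin m, (κ i h.succ : ℝ) / r h.succ ≤ ω := by
    have h3 : ∀ h : Fin m, (κ i h.succ : ℝ) / r h.succ ≤ (κ i h.succ : ℝ) * (ω / r 0) := by
      intro h
      have hrh : (0 : ℝ) < r h.succ := by exact_mod_cast hr h.succ
      rw [div_eq_mul_inv]
      refine mul_le_mul_of_nonneg_left ?_ (Nat.cast_nonneg _)
      rw [inv_eq_one_div, div_le_div_iff₀ hrh hr0]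
      linarith [hω h]
    refine (Finset.sum_le_sum fun h _ => h3 h).trans ?_
    rw [← Finset.sum_mul]
    have h4 : (∑ h : Fin m, (κ i h.succ : ℝ)) ≤ r 0 := by
      have h5 := hκ i
      rw [Fin.sum_univ_succ, hκ0 i, zero_add] at h5
      have h6 : (i : ℕ) ≤ r 0 := by have := i.isLt; omega
      exact_mod_cast h5.trans h6
    calc (∑ h : Fin m, (κ i h.succ : ℝ)) * (ω / r 0) ≤ r 0 * (ω / r 0) :=
          mul_le_mul_of_nonneg_right h4 (by positivity)
      _ = ω := by field_simp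
  have h7 : ∑ h : Fin m, (((Finsupp.single (0 : Fin (m + 1)) (j : ℕ)) h.succ : ℕ) : ℝ) / r h.succ
      = 0 := by
    refine Finset.sum_eq_zero fun h _ => ?_
    rw [Finsupp.single_eq_of_ne (by exact Fin.succ_ne_zero h)]
    simp
  rw [h7, Finsupp.single_eq_same]
  simp only [Nat.cast_zero, zero_div]
  linarith

end Pool.Agent.Work.Tools.Subspace
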