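import Pool.Agent.Work.Tools.Subspace.Basic
import Pool.Agent.Work.Tools.Subspace.Stmts
import Pool.Agent.Work.Tools.Subspace.Stmts2
import Pool.Agent.Work.Tools.Subspace.ItemR5

/-!
# Item R8: index of a product of polynomials in separate variables
-/

namespace Pool.Agent.Work.Tools.Subspace

open Finset Matrix MvPolynomial

namespace IR8

theorem hd_prodZ (h1 : ClaimT1) {m : ℕ} (j : ℕ) (k : Fin m →₀ ℕ)
    (g : Polynomial ℤ) (f : MvPolynomial (Fin m) ℤ) :
    hd (Finsupp.cons j k)
        (Polynomial.aeval (X (0 : Fin (m + 1)) : MvPolynomial (Fin (m + 1)) ℤ) g *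
          rename Fin.succ f) =
      Polynomial.aeval (X (0 : Fin (m + 1)) : MvPolynomial (Fin (m + 1)) ℤ)
        (Polynomial.hasseDeriv j g) * rename Fin.succ (hd k f) := by
  induction g using Polynomial.induction_on' with
  | add p q hp hq => simp only [map_add, add_mul, hd_add, hp, hq]
  | monomial n a =>
    induction f using MvPolynomial.induction_on' with
    | add p q hp hq => simp only [map_add, mul_add, hd_add, hp, hq]
    | monomial s b =>
      rw [IR5.mono, h1, IR5.cons_sub_cons, Polynomial.hasseDeriv_monomial, h1, IR5.mono,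
        Fin.prod_univ_succ]
      simp only [Finsupp.cons_zero, Finsupp.cons_succ]
      congr 1
      ring

theorem aeval_aeval {K : Type} [Field K] {m : ℕ} (g : Polynomial ℤ) (ξ : Fin (m + 1) → K) :
    aeval ξ (Polynomial.aeval (X (0 : Fin (m + 1)) : MvPolynomial (Fin (m + 1)) ℤ) g) =
      Polynomial.aeval (ξ 0) g := by
  rw [← Polynomial.aeval_algHom_apply, aeval_X]

theorem hd_one (h1 : ClaimT1) (k : Fin 1 →₀ ℕ) (g : Polynomial ℤ) :
    hd k (Polynomial.aeval (X (0 : Fin 1) : MvPolynomial (Fin 1) ℤ) g) =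
      Polynomial.aeval (X (0 : Fin 1) : MvPolynomial (Fin 1) ℤ)
        (Polynomial.hasseDeriv (k 0) g) := by
  have h := hd_prodZ h1 (m := 0) (k 0) 0 g 1
  have h2 : (Finsupp.cons (k 0) (0 : Fin 0 →₀ ℕ) : Fin 1 →₀ ℕ) = k := by
    ext i
    fin_cases i
    simp
  rw [h2, map_one, mul_one] at h
  rw [h]
  have h3 : hd (0 : Fin 0 →₀ ℕ) (1 : MvPolynomial (Fin 0) ℤ) = 1 := by
    have : (1 : MvPolynomial (Fin 0) ℤ) = monomial 0 1 := rfl
    rw [this, h1]
    simp
  rw [h3, map_one, mul_one]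

end IR8

theorem prfR8 (h1 : ClaimT1) : ClaimR8 := by
  intro K _ _ m r ξ u w θ a b hr hI hu hw
  unfold IndGe at hu hw
  push_neg at hu hw
  obtain ⟨k', hk', hk'a⟩ := hu
  obtain ⟨k0, hk0, hk0b⟩ := hw
  have hne : tc (Polynomial.aeval (X (0 : Fin (m + 1)) : MvPolynomial (Fin (m + 1)) ℤ) w *
      rename Fin.succ u) (Finsupp.cons (k0 0) k') ξ ≠ 0 := by
    unfold tc at hk' hk0 ⊢
    rw [IR8.hd_one h1, IR8.aeval_aeval] at hk0
    rw [IR8.hd_prodZ h1, map_mul, IR8.aeval_aeval, aeval_rename]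
    exact mul_ne_zero hk0 hk'
  have h2 := hI _ hne
  rw [Fin.sum_univ_succ] at h2
  simp only [Finsupp.cons_zero, Finsupp.cons_succ] at h2
  simp only [Finset.univ_unique, Fin.default_eq_zero, Fin.isValue, Finset.sum_singleton] at hk0b
  linarith

end Pool.Agent.Work.Tools.Subspace
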