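import Pool.Agent.Work.Tools.Subspace.Basic
import Pool.Agent.Work.Tools.Subspace.Stmts
import Pool.Agent.Work.Tools.Subspace.Stmts2

/-!
# R9: the numerical inequality
-/

set_option autoImplicit false

namespace Pool.Agent.Work.Tools.Subspace

open Finset

namespace IR9

theorem sum_eq (r θ : ℝ) (M : ℕ) :
    ∑ j ∈ range M, (θ - (j : ℝ) / r) = M * θ - M * (M - 1) / (2 * r) := by
  induction M with
  | zero => simp
  | succ M ih =>
    rw [Finset.sum_range_succ, ih]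
    push_cast
    by_cases hr : r = 0
    · subst hr; simp; ring
    · field_simp
      ring

theorem sum_ge (l : ℕ) (r θ : ℝ) (M : ℕ) (hM : M ≤ l) :
    M * θ - M * (M - 1) / (2 * r) ≤ ∑ j : Fin l, max 0 (θ - (j : ℝ) / r) := by
  rw [← sum_eq, Fin.sum_univ_eq_sum_range (fun j => max 0 (θ - (j : ℝ) / r)) l]
  refine le_trans (Finset.sum_le_sum (fun j _ => le_max_right 0 _)) ?_
  exact Finset.sum_le_sum_of_subset_of_nonneg (Finset.range_mono hM)
    (fun j _ _ => le_max_left _ _)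

end IR9

theorem prfR9 : ClaimR9 := by
  intro l r θ ε hr hl hlr hθ hθ1 hsum
  have hr' : (0 : ℝ) < r := by exact_mod_cast hr
  have hl' : (0 : ℝ) < l := by exact_mod_cast hl
  have hr1 : (1 : ℝ) ≤ r := by exact_mod_cast hr
  have hlr' : (l : ℝ) ≤ r + 1 := by exact_mod_cast hlr
  rcases le_or_gt (((l : ℝ) - 1) / r) θ with hc | hc
  · have h1 := (IR9.sum_ge l r θ l le_rfl).trans hsum
    have h2 : (l : ℝ) * ((l : ℝ) - 1) / (2 * r) = l * (((l : ℝ) - 1) / r) / 2 := by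
      field_simp
    rw [h2] at h1
    have h3 : (l : ℝ) * (((l : ℝ) - 1) / r) ≤ l * θ := mul_le_mul_of_nonneg_left hc hl'.le
    have h4 : (l : ℝ) * (θ / 2) ≤ l * ε := by linarith
    have h5 := le_of_mul_le_mul_left h4 hl'
    nlinarith
  · rw [lt_div_iff₀ hr'] at hc
    set M : ℕ := ⌊θ * r⌋₊ + 1 with hM
    have hθr : 0 ≤ θ * r := by positivity
    have h1 : (⌊θ * r⌋₊ : ℝ) ≤ θ * r := Nat.floor_le hθr
    have h2 : θ * r < (⌊θ * r⌋₊ : ℝ) + 1 := Nat.lt_floor_add_one _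
    have hMl : M ≤ l := by
      have h3 : (⌊θ * r⌋₊ : ℝ) < (l : ℝ) - 1 := lt_of_le_of_lt h1 hc
      have h4 : ((⌊θ * r⌋₊ + 1 : ℕ) : ℝ) < l := by push_cast; linarith
      have h5 : ⌊θ * r⌋₊ + 1 < l := by exact_mod_cast h4
      exact h5.le
    have h3 := (IR9.sum_ge l r θ M hMl).trans hsum
    have hM1 : (M : ℝ) = (⌊θ * r⌋₊ : ℝ) + 1 := by rw [hM]; push_cast; ring
    have h4 : (M : ℝ) * ((M : ℝ) - 1) / (2 * r) = M * (((M : ℝ) - 1) / r) / 2 := by
      field_simp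
    have h5 : ((M : ℝ) - 1) / r ≤ θ := by
      rw [div_le_iff₀ hr', hM1]; linarith
    have hM0 : (0 : ℝ) < M := by rw [hM1]; positivity
    have h6 : (M : ℝ) * (((M : ℝ) - 1) / r) ≤ M * θ := mul_le_mul_of_nonneg_left h5 hM0.le
    rw [h4] at h3
    have h7 : (M : ℝ) * θ / 2 ≤ l * ε := by linarith
    have h8 : θ * r ≤ M := by rw [hM1]; exact h2.le
    have h9 : θ * r * θ ≤ M * θ := mul_le_mul_of_nonneg_right h8 hθ.le
    have hε : 0 ≤ ε := by
      have : 0 ≤ (l : ℝ) * ε := le_trans (by positivity) h7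
      exact nonneg_of_mul_nonneg_right this hl'
    have h10 : (l : ℝ) * ε ≤ (2 * r) * ε := mul_le_mul_of_nonneg_right (by linarith) hε
    have h11 : (r : ℝ) * θ ^ 2 ≤ r * (4 * ε) := by nlinarith
    exact le_of_mul_le_mul_left h11 hr'

end Pool.Agent.Work.Tools.Subspace
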