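import Pool.Agent.Work.Tools.Subspace.Basic
import Pool.Agent.Work.Tools.Subspace.Stmts
import Pool.Agent.Work.Tools.Subspace.Stmts2

/-!
# The Subspace theorem: item S1, the gap
-/

namespace Pool.Agent.Work.Tools.Subspace

open Finset Matrix MvPolynomial

/-- S1: the gap -/
theorem prfS1 : ClaimS1 := by
  intro n μ g hn hμ hmono hg ⟨j₀, hj₀⟩ ⟨j₁, hj₁⟩
  by_contra hcon
  push Not at hcon
  have key : ∀ m (hm : m < n), μ ⟨m, hm⟩ ≤ g ^ m := by
    intro m
    induction m with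
    | zero =>
      intro hm
      rw [pow_zero]
      exact (hmono (Fin.le_def.mpr (Nat.zero_le _))).trans hj₀
    | succ m ih =>
      intro hm
      by_cases h1 : μ ⟨m + 1, hm⟩ ≤ 1
      · exact h1.trans (one_le_pow₀ hg)
      · push Not at h1
        obtain ⟨j, hj, hlt⟩ := hcon ⟨m + 1, hm⟩ (by simp) h1
        have hj' : (j : ℕ) < m + 1 := hj
        have h2 : μ j ≤ μ ⟨m, by omega⟩ := hmono (Fin.le_def.mpr (by simp only; omega))
        calc μ ⟨m + 1, hm⟩ ≤ g * μ j := hlt.le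
          _ ≤ g * g ^ m := mul_le_mul_of_nonneg_left (h2.trans (ih _)) (by linarith)
          _ = g ^ (m + 1) := by rw [pow_succ]; ring
  have h1 := key j₁ j₁.2
  have h2 : g ^ (j₁ : ℕ) ≤ g ^ n := pow_le_pow_right₀ hg j₁.2.le
  exact absurd (hj₁.trans_le (h1.trans h2)) (lt_irrefl _)

end Pool.Agent.Work.Tools.Subspace
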