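import Pool.Agent.Work.Tools.Subspace.Basic
import Pool.Agent.Work.Tools.Subspace.Stmts
import Pool.Agent.Work.Tools.Subspace.Stmts2

set_option autoImplicit false

namespace Pool.Agent.Work.Tools.Subspace

open Finset Matrix

namespace IST

variable {K : Type} [Field K]

/-- the kernel of a form -/
def ker {n : ℕ} (A : Matrix (Fin n) (Fin n) K) (i : Fin n) : Submodule K (Fin n → K) :=
  LinearMap.ker ((LinearMap.proj i : (Fin n → K) →ₗ[K] K) ∘ₗ A.mulVecLin)

lemma mem_ker {n : ℕ} (A : Matrix (Fin n) (Fin n) K) (i : Fin n) (x : Fin n → K) :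
    x ∈ ker A i ↔ (A *ᵥ x) i = 0 := by
  simp [ker]

lemma ker_ne_top {n : ℕ} (A : Matrix (Fin n) (Fin n) K) (hA : A.det ≠ 0) (i : Fin n) :
    ker A i ≠ ⊤ := by
  intro h
  apply hA
  apply Matrix.det_eq_zero_of_row_eq_zero i
  intro j
  have h1 : (Pi.single j 1 : Fin n → K) ∈ ker A i := by rw [h]; trivial
  rw [mem_ker] at h1
  simpa using h1

lemma nrm_pos {n : ℕ} (P : Places K) (v : P.V) (x : Fin n → K) (hx : x ≠ 0) :
    0 < P.nrm v x := by
  obtain ⟨i, hi⟩ := Function.ne_iff.1 hx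
  exact (N_pos P v hi).trans_le (N_le_nrm P v x i)

end IST

theorem prfST (hP : ClaimPT) (h1 : ClaimL1) : ClaimST := by
  classical
  intro K _ _ P n A δ hA hδ
  rcases Nat.eq_zero_or_pos n with hn | hn
  · subst hn
    refine ⟨0, ∅, Set.finite_empty, by simp, fun x _ hx => ?_⟩
    exact absurd (Subsingleton.elim x 0) hx
  have hV : 0 < Fintype.card P.V := card_V_pos P
  have hVr : (0 : ℝ) < Fintype.card P.V := by exact_mod_cast hV
  have hV1 : (1 : ℝ) ≤ Fintype.card P.V := by exact_mod_cast hV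
  have hnr : (0 : ℝ) < n := by exact_mod_cast hn
  choose CL hCL1 hCL using fun (v : P.V) (i : Fin n) => h1 K P (Fin n) (A v i)
  choose CU hCU1 hCU using fun v : P.V => exists_mulVec_le P v (A v)
  set s : ℝ := δ / (2 * n * Fintype.card P.V) with hs
  have hs0 : 0 < s := by positivity
  set Z : ℤ := ⌈2 / s⌉ + 1 with hZ
  set F : Finset (P.V → Fin n → ℤ) :=
    Fintype.piFinset fun _ => Fintype.piFinset fun _ => Finset.Icc (-Z) Z with hF
  have hP' : ∀ z : P.V → Fin n → ℤ, ∃ (q₀ : ℝ) (T : Set (Submodule K (Fin n → K))),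
      T.Finite ∧ (∀ W ∈ T, W ≠ ⊤) ∧ (∑ v, ∑ i, s * (z v i : ℝ) < 0 →
        ∀ (q : ℝ) (τ : P.V → ℝ) (x : Fin n → K), q₀ ≤ q → (∀ v, 0 < τ v) → ∏ v, τ v = 1 →
        x ≠ 0 → P.IsO x →
        (∀ v i, P.N v ((A v *ᵥ x) i) ≤ τ v * Real.exp ((s * (z v i : ℝ)) * q)) →
        ∃ W ∈ T, x ∈ W) := by
    intro z
    by_cases hz : ∑ v, ∑ i, s * (z v i : ℝ) < 0
    · obtain ⟨q₀, T, h2, h3, h4⟩ := hP K P n A (fun v i => s * (z v i : ℝ)) hA hz
      exact ⟨q₀, T, h2, h3, fun _ => h4⟩
    · exact ⟨0, ∅, Set.finite_empty, by simp, fun h => absurd h hz⟩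
  choose q₀ T hfin htop hmem using hP'
  set CC : ℝ := (∑ v, ∑ i, CL v i) + ∑ v, CU v with hCC
  have hCC1 : ∀ v i, CL v i ≤ CC := by
    intro v i
    have a1 : CL v i ≤ ∑ i, CL v i :=
      Finset.single_le_sum (f := fun i => CL v i)
        (fun i _ => zero_le_one.trans (hCL1 v i)) (mem_univ i)
    have a2 : ∑ i, CL v i ≤ ∑ v, ∑ i, CL v i :=
      Finset.single_le_sum (f := fun v => ∑ i, CL v i)
        (fun v _ => Finset.sum_nonneg fun i _ => zero_le_one.trans (hCL1 v i)) (mem_univ v)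
    have a3 : 0 ≤ ∑ v, CU v := Finset.sum_nonneg fun v _ => zero_le_one.trans (hCU1 v)
    linarith
  have hCC2 : ∀ v, CU v ≤ CC := by
    intro v
    have a1 : CU v ≤ ∑ v, CU v :=
      Finset.single_le_sum (f := fun v => CU v)
        (fun v _ => zero_le_one.trans (hCU1 v)) (mem_univ v)
    have a2 : 0 ≤ ∑ v, ∑ i, CL v i :=
      Finset.sum_nonneg fun v _ => Finset.sum_nonneg fun i _ => zero_le_one.trans (hCL1 v i)
    linarith
  have hCC0 : 0 ≤ CC := by
    obtain ⟨v, -⟩ := P.arch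
    exact (zero_le_one.trans (hCU1 v)).trans (hCC2 v)
  refine ⟨Real.exp (1 + ∑ z ∈ F, |q₀ z|) + CC,
    (⋃ z ∈ F, T z) ∪ Set.range (fun p : P.V × Fin n => IST.ker (A p.1) p.2), ?_, ?_, ?_⟩
  · apply Set.Finite.union
    · exact Set.Finite.biUnion F.finite_toSet fun z _ => hfin z
    · exact Set.finite_range _
  · intro W hW
    rcases hW with hW | ⟨p, rfl⟩
    · simp only [Set.mem_iUnion] at hW
      obtain ⟨z, _, hW⟩ := hW
      exact htop z W hW
    · exact IST.ker_ne_top _ (hA p.1) p.2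
  intro x hxO hx0 hC hprod
  by_cases hker : ∃ (v : P.V) (i : Fin n), (A v *ᵥ x) i = 0
  · obtain ⟨v, i, hvi⟩ := hker
    exact ⟨IST.ker (A v) i, Or.inr ⟨(v, i), rfl⟩, (IST.mem_ker _ _ _).2 hvi⟩
  push Not at hker
  set Q : ℝ := ∏ v, P.nrm v x with hQ
  have hnrm : ∀ v, 0 < P.nrm v x := fun v => IST.nrm_pos P v x hx0
  have hQ0 : 0 < Q := Finset.prod_pos fun v _ => hnrm v
  have hexp : 0 < Real.exp (1 + ∑ z ∈ F, |q₀ z|) := Real.exp_pos _
  have hQCC : CC ≤ Q := by linarith
  have hQexp : Real.exp (1 + ∑ z ∈ F, |q₀ z|) ≤ Q := by linarith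
  set q : ℝ := Real.log Q with hq
  have hqle : 1 + ∑ z ∈ F, |q₀ z| ≤ q := by
    rw [hq, Real.le_log_iff_exp_le hQ0]
    exact hQexp
  have hsum0 : 0 ≤ ∑ z ∈ F, |q₀ z| := Finset.sum_nonneg fun z _ => abs_nonneg _
  have hq1 : 1 ≤ q := by linarith
  have hq0 : 0 < q := by linarith
  have hN : ∀ v i, 0 < P.N v ((A v *ᵥ x) i) := fun v i => N_pos P v (hker v i)
  have hQlog : q = ∑ v, Real.log (P.nrm v x) := by
    rw [hq, hQ, Real.log_prod]
    intro v _
    exact (hnrm v).ne'
  -- upper bound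
  have hup : ∀ v i, Real.log (P.N v ((A v *ᵥ x) i)) ≤ q + Real.log (P.nrm v x) := by
    intro v i
    have a1 := hCU v x (P.nrm v x) (nrm_nonneg P v x) (fun j => N_le_nrm P v x j) i
    have a2 : P.N v ((A v *ᵥ x) i) ≤ Q * P.nrm v x :=
      a1.trans (mul_le_mul_of_nonneg_right ((hCC2 v).trans hQCC) (hnrm v).le)
    have a3 := Real.log_le_log (hN v i) a2
    rwa [Real.log_mul hQ0.ne' (hnrm v).ne'] at a3
  have hHQ : P.H x ≤ Q := P.H_le x hxO hx0
  have hlow : ∀ v i, Real.log (P.nrm v x) ≤ 2 * q + Real.log (P.N v ((A v *ᵥ x) i)) := by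
    intro v i
    have e1 : x ⬝ᵥ A v i = (A v *ᵥ x) i := by
      rw [dotProduct_comm]; rfl
    have a1 := hCL v i x (by rw [e1]; exact hker v i) v
    rw [e1] at a1
    have a2 : P.nrm v x ≤ Q * Q * P.N v ((A v *ᵥ x) i) := by
      refine a1.trans (mul_le_mul_of_nonneg_right ?_ (hN v i).le)
      apply mul_le_mul ((hCC1 v i).trans hQCC) hHQ _ hQ0.le
      exact zero_le_one.trans (P.one_le_H x)
    have a3 := Real.log_le_log (hnrm v) a2
    rw [Real.log_mul (by positivity) (hN v i).ne', Real.log_mul hQ0.ne' hQ0.ne'] at a3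
    linarith
  set cc : P.V → Fin n → ℝ := fun v i =>
    (Real.log (P.N v ((A v *ᵥ x) i)) - Real.log (P.nrm v x)) / q + 1 / Fintype.card P.V with hcc
  have hVinv : (1 : ℝ) / Fintype.card P.V ≤ 1 := by
    rw [div_le_one hVr]
    exact hV1
  have hVinv0 : (0 : ℝ) < 1 / Fintype.card P.V := by positivity
  have hcc_up : ∀ v i, cc v i ≤ 2 := by
    intro v i
    have a1 : (Real.log (P.N v ((A v *ᵥ x) i)) - Real.log (P.nrm v x)) / q ≤ 1 := by
      rw [div_le_one hq0]
      linarith [hup v i]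
    simp only [hcc]
    linarith
  have hcc_low : ∀ v i, -2 ≤ cc v i := by
    intro v i
    have a1 : -2 ≤ (Real.log (P.N v ((A v *ᵥ x) i)) - Real.log (P.nrm v x)) / q := by
      rw [le_div_iff₀ hq0]
      linarith [hlow v i]
    simp only [hcc]
    linarith
  set z : P.V → Fin n → ℤ := fun v i => ⌈cc v i / s⌉ with hz
  have hzF : z ∈ F := by
    simp only [hF, Fintype.mem_piFinset, Finset.mem_Icc]
    intro v i
    have b1 : cc v i / s ≤ 2 / s := by
      have := hcc_up v i
      gcongr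
    have b2 : -(2 / s) ≤ cc v i / s := by
      rw [← neg_div]
      have := hcc_low v i
      gcongr
    constructor
    · have b3 : -(⌈2 / s⌉ : ℝ) ≤ z v i := by
        have := Int.le_ceil (2 / s)
        have := Int.le_ceil (cc v i / s)
        have e : (z v i : ℝ) = (⌈cc v i / s⌉ : ℝ) := rfl
        rw [e]
        linarith
      have b4 : -⌈2 / s⌉ ≤ z v i := by exact_mod_cast b3
      omega
    · have b3 : z v i ≤ ⌈2 / s⌉ := Int.ceil_le_ceil b1
      omega
  have hzle : ∀ v i, cc v i ≤ s * (z v i : ℝ) := by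
    intro v i
    have := Int.le_ceil (cc v i / s)
    rw [div_le_iff₀ hs0] at this
    have e : (z v i : ℝ) = (⌈cc v i / s⌉ : ℝ) := rfl
    rw [e]
    linarith
  have hzge : ∀ v i, s * (z v i : ℝ) ≤ cc v i + s := by
    intro v i
    have h2 := Int.ceil_lt_add_one (cc v i / s)
    have e : (z v i : ℝ) = (⌈cc v i / s⌉ : ℝ) := rfl
    rw [e]
    have h3 : s * (⌈cc v i / s⌉ : ℝ) ≤ s * (cc v i / s + 1) := by
      apply mul_le_mul_of_nonneg_left h2.le hs0.le
    have h4 : s * (cc v i / s + 1) = cc v i + s := by field_simp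
    linarith
  have hsumcc : ∑ v, ∑ i, cc v i ≤ -δ := by
    have e1 : ∑ v, ∑ i, cc v i =
        (∑ v, ∑ i, Real.log (P.N v ((A v *ᵥ x) i))) / q := by
      simp only [hcc]
      have : ∀ v, ∑ i : Fin n, ((Real.log (P.N v ((A v *ᵥ x) i)) - Real.log (P.nrm v x)) / q
          + 1 / (Fintype.card P.V : ℝ)) = (∑ i, Real.log (P.N v ((A v *ᵥ x) i))) / q
          - n * Real.log (P.nrm v x) / q + n * (1 / (Fintype.card P.V : ℝ)) := by
        intro v
        rw [Finset.sum_add_distrib, ← Finset.sum_div, Finset.sum_sub_distrib]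
        simp only [Finset.sum_const, Finset.card_univ, Fintype.card_fin, nsmul_eq_mul]
        ring
      rw [Finset.sum_congr rfl (fun v _ => this v)]
      rw [Finset.sum_add_distrib, Finset.sum_sub_distrib, ← Finset.sum_div, ← Finset.sum_div,
        ← Finset.mul_sum, ← hQlog]
      simp only [Finset.sum_const, Finset.card_univ, nsmul_eq_mul]
      field_simp
      ring
    rw [e1]
    have e2 : ∑ v, ∑ i, Real.log (P.N v ((A v *ᵥ x) i)) =
        Real.log (∏ v, ∏ i, P.N v ((A v *ᵥ x) i)) := by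
      rw [Real.log_prod (fun v _ => (Finset.prod_pos fun i _ => hN v i).ne')]
      apply Finset.sum_congr rfl
      intro v _
      rw [Real.log_prod (fun i _ => (hN v i).ne')]
    rw [e2, div_le_iff₀ hq0]
    have e3 := Real.log_le_log
      (Finset.prod_pos fun v _ => Finset.prod_pos fun i _ => hN v i) hprod
    rw [Real.log_rpow hQ0] at e3
    linarith
  have hneg : ∑ v, ∑ i, s * (z v i : ℝ) < 0 := by
    have b1 : ∑ v, ∑ i, s * (z v i : ℝ) ≤ ∑ v, ∑ i, (cc v i + s) :=
      Finset.sum_le_sum fun v _ => Finset.sum_le_sum fun i _ => hzge v i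
    have b2 : ∑ v : P.V, ∑ i : Fin n, (cc v i + s) = (∑ v, ∑ i, cc v i) + δ / 2 := by
      simp only [Finset.sum_add_distrib, Finset.sum_const, Finset.card_univ, Fintype.card_fin,
        nsmul_eq_mul, hs]
      field_simp
    linarith
  obtain ⟨W, hW, hxW⟩ := hmem z hneg q (fun v => Real.exp (Real.log (P.nrm v x) -
      q / Fintype.card P.V)) x (by
        have : |q₀ z| ≤ ∑ z ∈ F, |q₀ z| :=
          Finset.single_le_sum (f := fun z => |q₀ z|) (fun z _ => abs_nonneg _) hzF
        have := le_abs_self (q₀ z)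
        linarith) (fun v => Real.exp_pos _) (by
        rw [← Real.exp_sum, Finset.sum_sub_distrib, ← hQlog]
        simp only [Finset.sum_const, Finset.card_univ, nsmul_eq_mul]
        have : q - (Fintype.card P.V : ℝ) * (q / Fintype.card P.V) = 0 := by
          field_simp
          ring
        rw [this, Real.exp_zero]) hx0 hxO (by
        intro v i
        rw [← Real.exp_add]
        rw [← Real.log_le_iff_le_exp (hN v i)]
        have c1 := mul_le_mul_of_nonneg_right (hzle v i) hq0.le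
        have c2 : cc v i * q = Real.log (P.N v ((A v *ᵥ x) i)) - Real.log (P.nrm v x)
            + q / Fintype.card P.V := by
          simp only [hcc]
          field_simp
        linarith)
  refine ⟨W, Or.inl ?_, hxW⟩
  simp only [Set.mem_iUnion]
  exact ⟨z, hzF, hW⟩

end Pool.Agent.Work.Tools.Subspace
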