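import Pool.Agent.Work.Tools.Subspace.Basic
import Pool.Agent.Work.Tools.Subspace.Stmts
import Pool.Agent.Work.Tools.Subspace.Stmts2

/-!
# T2: composition of Hasse derivatives
-/

set_option autoImplicit false

namespace Pool.Agent.Work.Tools.Subspace

open Finset MvPolynomial

namespace IT2

theorem choose_id (s k l : ℕ) :
    s.choose l * (s - l).choose k = (k + l).choose k * s.choose (k + l) := by
  by_cases h : k + l ≤ s
  · have h1 := Nat.choose_mul (n := s) (k := k + l) (s := l) (Nat.le_add_left l k)
    rw [Nat.add_sub_cancel] at h1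
    have h2 : (k + l).choose l = (k + l).choose k := (Nat.choose_symm_add).symm
    rw [← h1, h2, mul_comm]
  · rw [Nat.choose_eq_zero_of_lt (k := k + l) (by omega), mul_zero]
    by_cases h2 : l ≤ s
    · rw [Nat.choose_eq_zero_of_lt (n := s - l) (by omega), mul_zero]
    · rw [Nat.choose_eq_zero_of_lt (k := l) (by omega), zero_mul]

end IT2

theorem prfT2 (h1 : ClaimT1) : ClaimT2 := by
  intro σ R _ _ k l F
  induction F using MvPolynomial.induction_on' with
  | monomial s a =>
    rw [h1, h1, h1, C_mul_monomial, tsub_tsub, add_comm l k]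
    congr 1
    rw [mul_left_comm, mul_assoc, ← Finset.prod_mul_distrib, ← Finset.prod_mul_distrib]
    congr 1
    refine Finset.prod_congr rfl ?_
    intro i _
    have := IT2.choose_id (s i) (k i) (l i)
    rw [Finsupp.tsub_apply, Finsupp.add_apply]
    rw [← Nat.cast_mul, ← Nat.cast_mul, this]
  | add p q hp hq => rw [hd_add, hd_add, hd_add, hp, hq, mul_add]

end Pool.Agent.Work.Tools.Subspace
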