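import Pool.Agent.Work.Tools.Subspace.Basic
import Pool.Agent.Work.Tools.Subspace.Stmts
import Pool.Agent.Work.Tools.Subspace.Stmts2

/-!
# T3: bounds for Hasse derivatives
-/

set_option autoImplicit false

namespace Pool.Agent.Work.Tools.Subspace

open Finset MvPolynomial

namespace IT3

/-- the coefficients of a Hasse derivative -/
theorem coeff_hd (h1 : ClaimT1) {σ R : Type} [Fintype σ] [CommRing R] (k t : σ →₀ ℕ)
    (F : MvPolynomial σ R) :
    coeff t (hd k F) = coeff (t + k) F * ∏ i, ((t i + k i).choose (k i) : R) := by
  classical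
  induction F using MvPolynomial.induction_on' with
  | monomial s a =>
    rw [h1, coeff_monomial, coeff_monomial]
    by_cases h : s = t + k
    · subst h
      rw [if_pos (add_tsub_cancel_right t k), if_pos rfl]
      rfl
    · rw [if_neg h, zero_mul]
      by_cases h2 : s - k = t
      · rw [if_pos h2]
        have h3 : ∃ i, s i < k i := by
          by_contra hc
          push Not at hc
          apply h
          rw [← h2]
          ext i
          rw [Finsupp.add_apply, Finsupp.tsub_apply]
          have := hc i
          omega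
        obtain ⟨i, hi⟩ := h3
        rw [Finset.prod_eq_zero (Finset.mem_univ i), mul_zero]
        rw [Nat.choose_eq_zero_of_lt hi]
        simp
      · rw [if_neg h2]
  | add p q hp hq => rw [hd_add, coeff_add, coeff_add, hp, hq, add_mul]

theorem mem_of_coeff_hd (h1 : ClaimT1) {σ R : Type} [Fintype σ] [CommRing R] {k t : σ →₀ ℕ}
    {F : MvPolynomial σ R} (h : coeff t (hd k F) ≠ 0) : t + k ∈ F.support := by
  rw [mem_support_iff]
  intro h0
  apply h
  rw [coeff_hd h1, h0, zero_mul]

end IT3

theorem prfT3 (h1 : ClaimT1) : ClaimT3 := by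
  intro σ _ k F d B hB hd'
  have hdeg : ∀ t, coeff (t + k) F ≠ 0 → ∀ i, t i + k i ≤ d i := by
    intro t ht i
    have h2 := degreeOf_le_iff.1 (hd' i) (t + k) (mem_support_iff.2 ht)
    simpa using h2
  have hB0 : 0 ≤ B := (abs_nonneg _).trans (hB 0)
  constructor
  · intro t
    rw [IT3.coeff_hd h1]
    by_cases h0 : coeff (t + k) F = 0
    · rw [h0, zero_mul]
      simp only [Int.cast_zero, abs_zero]
      positivity
    · have h2 := hdeg t h0
      push_cast
      rw [abs_mul, Finset.abs_prod, mul_comm]
      refine mul_le_mul ?_ (hB _) (abs_nonneg _) (by positivity)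
      rw [← Finset.prod_pow_eq_pow_sum]
      refine Finset.prod_le_prod (fun i _ => abs_nonneg _) ?_
      intro i _
      rw [Nat.abs_cast]
      have h3 : (t i + k i).choose (k i) ≤ 2 ^ (d i) :=
        (Nat.choose_le_two_pow _ _).trans (Nat.pow_le_pow_right (by norm_num) (h2 i))
      exact_mod_cast h3
  · intro i
    rw [degreeOf_le_iff]
    intro t ht
    have h2 := IT3.mem_of_coeff_hd h1 (mem_support_iff.1 ht)
    have h3 := hdeg t (mem_support_iff.1 h2) i
    omega

end Pool.Agent.Work.Tools.Subspace
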