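import Pool.Agent.Work.Tools.Subspace.ItemT3

/-!
# T4: homogeneity of Hasse derivatives
-/

set_option autoImplicit false

namespace Pool.Agent.Work.Tools.Subspace

open Finset MvPolynomial

theorem prfT4 (h1 : ClaimT1) : ClaimT4 := by
  intro m ι R _ _ r F k hF
  have key : ∀ t, coeff t (hd k F) ≠ 0 → ∀ h, ∑ i, t (h, i) + ∑ i, k (h, i) = r h := by
    intro t ht h
    have h2 := IT3.mem_of_coeff_hd h1 ht
    have h3 := hF _ h2 h
    simp only [Finsupp.add_apply] at h3
    rw [← h3, Finset.sum_add_distrib]
  constructor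
  · intro t ht h
    have h2 := key t (mem_support_iff.1 ht) h
    show ∑ i, t (h, i) = r h - ∑ i, k (h, i)
    omega
  · rintro ⟨h, hh⟩
    ext t
    rw [coeff_zero]
    by_contra hc
    have := key t hc h
    omega

end Pool.Agent.Work.Tools.Subspace
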