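import Pool.Agent.Work.Tools.Subspace.Basic
import Pool.Agent.Work.Tools.Subspace.Stmts
import Pool.Agent.Work.Tools.Subspace.Stmts2

/-!
# T5: coefficients of a product
-/

set_option autoImplicit false

namespace Pool.Agent.Work.Tools.Subspace

open Finset MvPolynomial

theorem prfT5 : ClaimT5 := by
  classical
  intro σ _ F G d B B' hB hB' hF hG hd' t
  have h1 : F * G = ∑ s ∈ F.support, monomial s (coeff s F) * G := by
    rw [← Finset.sum_mul, ← MvPolynomial.as_sum]
  have h2 : ∀ s, |((coeff t (monomial s (coeff s F) * G) : ℤ) : ℝ)| ≤ B * B' := by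
    intro s
    rw [coeff_monomial_mul']
    split_ifs with h
    · push_cast
      rw [abs_mul]
      exact mul_le_mul (hF _) (hG _) (abs_nonneg _) hB
    · simp only [Int.cast_zero, abs_zero]
      positivity
  have hcard : F.support.card ≤ 2 ^ (∑ i, d i) := by
    have h3 : F.support.card ≤ (Fintype.piFinset fun i => range (d i + 1)).card := by
      refine Finset.card_le_card_of_injOn (fun s => (s : σ → ℕ)) ?_ ?_
      · intro s hs
        rw [Finset.mem_coe, Fintype.mem_piFinset]
        intro i
        have h5 := degreeOf_le_iff.1 (hd' i) s hs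
        exact Finset.mem_range.2 (Nat.lt_succ_of_le h5)
      · intro s _ s' _ h
        exact DFunLike.coe_injective h
    refine h3.trans ?_
    rw [Fintype.card_piFinset, ← Finset.prod_pow_eq_pow_sum]
    refine Finset.prod_le_prod' ?_
    intro i _
    rw [card_range]
    exact Nat.lt_two_pow_self
  rw [h1, coeff_sum]
  push_cast
  refine (Finset.abs_sum_le_sum_abs _ _).trans ?_
  refine (Finset.sum_le_sum fun s _ => h2 s).trans ?_
  rw [Finset.sum_const, nsmul_eq_mul, mul_assoc]
  refine mul_le_mul_of_nonneg_right ?_ (mul_nonneg hB hB')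
  exact_mod_cast hcard

end Pool.Agent.Work.Tools.Subspace
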