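import Pool.Agent.Work.Tools.Subspace.Stmts3

/-!
# The Subspace theorem: item U0 (ratios in a relation between S-units)
-/

namespace Pool.Agent.Work.Tools.Subspace

open Finset Matrix MvPolynomial NumberField Height

namespace IU0

/-- the elements of `J` without `j` -/
noncomputable def en {n : ℕ} (J : Finset (Fin n)) (j : Fin n) :
    Fin (J.erase j).card ≃ {x // x ∈ J.erase j} := (J.erase j).equivFin.symm

end IU0

open IU0 in
theorem prfU0 : ClaimU0 := by
  intro K _ _ S n hfin b hb
  classical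
  set a : (J : Finset (Fin n)) → (j : Fin n) → Fin (J.erase j).card → K := fun J j l =>
    -(b (en J j l).val / b j) with ha
  refine ⟨⋃ (J : Finset (Fin n)), ⋃ (j ∈ J), ⋃ l, (fun y : Fin (J.erase j).card → K => y l) ''
    USol S (a J j), ?_, ?_⟩
  · refine Set.finite_iUnion fun J => Set.Finite.biUnion (Finset.finite_toSet J) fun j hj =>
      Set.finite_iUnion fun l => Set.Finite.image _ (hfin _ _ ?_)
    refine lt_of_lt_of_le (Finset.card_erase_lt_of_mem hj) ?_
    simpa using Finset.card_le_univ J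
  intro x hx hsum
  set P := ((Finset.univ : Finset (Fin n)).filter (fun i => b i ≠ 0)).powerset.filter
    (fun J => J.Nonempty ∧ ∑ i ∈ J, b i * x i = 0) with hP
  have hPne : P.Nonempty := by
    refine ⟨(Finset.univ : Finset (Fin n)).filter (fun i => b i ≠ 0), ?_⟩
    rw [hP, Finset.mem_filter, Finset.mem_powerset]
    refine ⟨Finset.Subset.refl _, ?_, ?_⟩
    · obtain ⟨i, hi⟩ := Function.ne_iff.mp hb
      exact ⟨i, Finset.mem_filter.mpr ⟨Finset.mem_univ i, hi⟩⟩
    · rw [Finset.sum_filter]
      refine Eq.trans (Finset.sum_congr rfl fun i _ => ?_) hsum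
      split_ifs with h
      · rfl
      · push Not at h
        rw [h, zero_mul]
  obtain ⟨J, hJ, hmin⟩ := Finset.exists_min_image P Finset.card hPne
  rw [hP, Finset.mem_filter, Finset.mem_powerset] at hJ
  obtain ⟨hJb, ⟨j, hj⟩, hJs⟩ := hJ
  have hbJ : ∀ i ∈ J, b i ≠ 0 := fun i hi => (Finset.mem_filter.mp (hJb hi)).2
  have hbj := hbJ j hj
  have hxj := (hx j).1
  have hne : (J.erase j).Nonempty := by
    by_contra h
    rw [Finset.not_nonempty_iff_eq_empty] at h
    rw [← Finset.add_sum_erase J _ hj, h, Finset.sum_empty, add_zero] at hJs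
    exact (mul_ne_zero hbj hxj) hJs
  obtain ⟨i, hi⟩ := hne
  refine ⟨i, j, Finset.ne_of_mem_erase hi, ?_⟩
  rw [Set.mem_iUnion]
  refine ⟨J, ?_⟩
  rw [Set.mem_iUnion₂]
  refine ⟨j, hj, ?_⟩
  rw [Set.mem_iUnion]
  refine ⟨(en J j).symm ⟨i, hi⟩, ?_⟩
  have hterm : ∀ l, a J j l * (x (en J j l).val / x j) =
      -(b j * x j)⁻¹ * (b (en J j l).val * x (en J j l).val) := by
    intro l
    simp only [ha]
    field_simp
  refine ⟨fun l => x (en J j l).val / x j, ⟨?_, ?_, ?_⟩, ?_⟩
  · intro l
    refine ⟨div_ne_zero (hx _).1 hxj, fun v hv => ?_⟩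
    rw [map_div₀, (hx _).2 v hv, (hx _).2 v hv, div_one]
  · simp only [hterm]
    rw [← Finset.mul_sum, Equiv.sum_comp (en J j) (fun p => b p.val * x p.val),
      Finset.sum_coe_sort (J.erase j) (fun p => b p * x p)]
    have h1 := Finset.add_sum_erase J (fun i => b i * x i) hj
    rw [hJs] at h1
    have h2 : ∑ i ∈ J.erase j, b i * x i = -(b j * x j) := by
      rw [eq_neg_iff_add_eq_zero, add_comm]; exact h1
    rw [h2, neg_mul_neg, inv_mul_cancel₀ (mul_ne_zero hbj hxj)]
  · intro I hI
    simp only [hterm]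
    rw [← Finset.mul_sum]
    refine mul_ne_zero (neg_ne_zero.mpr (inv_ne_zero (mul_ne_zero hbj hxj))) fun h => ?_
    set I' := I.map ((en J j).toEmbedding.trans (Function.Embedding.subtype _)) with hI'
    have hsub : I' ⊆ J.erase j := by
      intro p hp
      rw [hI', Finset.mem_map] at hp
      obtain ⟨l, _, rfl⟩ := hp
      exact (en J j l).2
    have hIP : I' ∈ P := by
      rw [hP, Finset.mem_filter, Finset.mem_powerset]
      refine ⟨(hsub.trans (Finset.erase_subset j J)).trans hJb, Finset.map_nonempty.mpr hI, ?_⟩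
      rw [hI', Finset.sum_map]
      exact h
    have h1 := hmin I' hIP
    have h2 := Finset.card_le_card hsub
    have h3 := Finset.card_erase_lt_of_mem hj
    omega
  · simp

end Pool.Agent.Work.Tools.Subspace
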