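import Pool.Agent.Work.Tools.Subspace.Basic
import Pool.Agent.Work.Tools.Subspace.Stmts3

/-!
# Subspace theorem, item U1: `S`-units with a small sum
-/

namespace Pool.Agent.Work.Tools.Subspace

namespace IU1

open Finset Matrix MvPolynomial NumberField Height

variable {K : Type} [Field K] [NumberField K] (S : Finset (FinitePlace K))

theorem ne_pos_exp (v : NV K S) : max (ne S v) 1 ≠ 0 := by
  have := le_max_right (ne S v) 1
  omega

theorem inf_exp (v : InfinitePlace K) : max (ne S (Sum.inl v)) 1 = v.mult := by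
  have h : 1 ≤ v.mult := v.mult_pos
  exact max_eq_left h

theorem prod_NV (f : NV K S → ℝ) : ∏ v, f v = (∏ v : InfinitePlace K, f (Sum.inl v)) *
    ∏ v : {v : FinitePlace K // v ∈ S}, f (Sum.inr v) := Fintype.prod_sum_type f

theorem finprod_S (g : FinitePlace K → ℝ) (h : ∀ v, v ∉ S → g v = 1) :
    ∏ᶠ v : FinitePlace K, g v = ∏ v : {v : FinitePlace K // v ∈ S}, g v.val := by
  rw [finprod_eq_prod_of_mulSupport_subset (s := S)]
  · exact (Finset.prod_coe_sort S g).symm
  · intro v hv
    by_contra h1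
    exact hv (h v h1)

theorem prod_nN {x : K} (hx : x ∈ nU S) : ∏ v, nN S v x = 1 := by
  rw [prod_NV, ← prod_abs_eq_one hx.1, finprod_S S (fun w => w x) hx.2]
  congr 1
  · refine Finset.prod_congr rfl fun v _ => ?_
    unfold nN
    rw [inf_exp]
    rfl
  · refine Finset.prod_congr rfl fun v _ => ?_
    unfold nN
    have : max (ne S (Sum.inr v)) 1 = 1 := rfl
    rw [this, pow_one]
    rfl

theorem prod_nnrm {ι : Type} [Fintype ι] [Nonempty ι] {x : ι → K} (hx : ∀ i, x i ∈ nU S) :
    ∏ v, nnrm S v x = mulHeight x := by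
  have h0 : x ≠ 0 := by
    intro h
    exact (hx (Classical.arbitrary ι)).1 (by rw [h]; rfl)
  rw [prod_NV, NumberField.mulHeight_eq h0, finprod_S S (fun w => ⨆ i, w (x i))]
  · congr 1
    · refine Finset.prod_congr rfl fun v _ => ?_
      unfold nnrm
      rw [inf_exp]
      rfl
    · refine Finset.prod_congr rfl fun v _ => ?_
      unfold nnrm
      have : max (ne S (Sum.inr v)) 1 = 1 := rfl
      rw [this, pow_one]
      rfl
  · intro v hv
    simp only [(hx _).2 v hv]
    exact ciSup_const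

theorem nN_pos {x : K} (hx : x ≠ 0) (v : NV K S) : 0 < nN S v x :=
  pow_pos ((nabv S v).pos hx) _

theorem nN_one (v : NV K S) : nN S v (1 : K) = 1 := by simp [nN]

/-- the maximal coordinate -/
theorem exists_max {ι : Type} [Fintype ι] [Nonempty ι] (v : NV K S) (x : ι → K) :
    ∃ i, nnrm S v x = nN S v (x i) := by
  obtain ⟨i, hi⟩ := exists_eq_ciSup_of_finite (f := fun i => nabv S v (x i))
  refine ⟨i, ?_⟩
  unfold nnrm nN
  rw [← hi]

open Classical in
/-- the forms -/
noncomputable def forms {n : ℕ} (a : Fin n → K) (v0 : NV K S) (i0 : Fin n) (v : NV K S) :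
    Matrix (Fin n) (Fin n) K :=
  if v = v0 then (1 : Matrix (Fin n) (Fin n) K).updateRow i0 a else 1

theorem det_forms {n : ℕ} (a : Fin n → K) (ha : ∀ i, a i ≠ 0) (v0 : NV K S) (i0 : Fin n)
    (v : NV K S) : (forms S a v0 i0 v).det ≠ 0 := by
  unfold forms
  split_ifs
  · have h : ((1 : Matrix (Fin n) (Fin n) K).updateRow i0 a).det = a i0 := by
      rw [← Matrix.det_transpose, ← Matrix.updateCol_transpose, Matrix.transpose_one,
        ← Matrix.cramer_apply, Matrix.cramer_one]
      rfl
    rw [h]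
    exact ha i0
  · rw [Matrix.det_one]
    exact one_ne_zero

theorem prod_forms {n : ℕ} (a x : Fin n → K) (v0 : NV K S) (i0 : Fin n)
    (hx : ∀ i, x i ≠ 0) :
    ∏ v, ∏ i, nN S v ((forms S a v0 i0 v *ᵥ x) i) =
      (∏ v, ∏ i, nN S v (x i)) * (nN S v0 (∑ i, a i * x i) / nN S v0 (x i0)) := by
  classical
  have h1 : ∀ v, ∏ i, nN S v ((forms S a v0 i0 v *ᵥ x) i) = (∏ i, nN S v (x i)) *
      (if v = v0 then nN S v0 (∑ i, a i * x i) / nN S v0 (x i0) else 1) := by
    intro v
    by_cases hv : v = v0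
    · subst hv
      rw [if_pos rfl, ← Finset.mul_prod_erase univ _ (mem_univ i0),
        ← Finset.mul_prod_erase univ (fun i => nN S v (x i)) (mem_univ i0)]
      have h2 : (forms S a v i0 v *ᵥ x) i0 = ∑ i, a i * x i := by
        unfold forms
        rw [if_pos rfl]
        simp only [Matrix.mulVec, Matrix.updateRow_self, dotProduct]
      have h3 : ∏ i ∈ univ.erase i0, nN S v ((forms S a v i0 v *ᵥ x) i) =
          ∏ i ∈ univ.erase i0, nN S v (x i) := by
        refine Finset.prod_congr rfl fun i hi => ?_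
        congr 1
        unfold forms
        rw [if_pos rfl, Matrix.mulVec, Matrix.updateRow_ne (ne_of_mem_erase hi)]
        have := congrFun (Matrix.one_mulVec x) i
        exact this
      rw [h2, h3]
      have h4 := (nN_pos S (hx i0) v).ne'
      field_simp
    · rw [if_neg hv, mul_one]
      refine Finset.prod_congr rfl fun i _ => ?_
      unfold forms
      rw [if_neg hv, Matrix.one_mulVec]
  simp_rw [h1]
  rw [Finset.prod_mul_distrib, Finset.prod_ite_eq' univ v0, if_pos (mem_univ v0)]

end IU1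

open Finset Matrix MvPolynomial NumberField Height IU1 in
/-- U1: the Subspace theorem for `S`-units: `S`-units with a small sum -/
theorem prfU1 (hN : ClaimN) : ClaimU1 := by
  intro K _ _ S n a ε v₀ hn ha hε
  have : Nonempty (Fin n) := ⟨⟨0, by omega⟩⟩
  choose T hTfin hTtop hT using fun i0 : Fin n =>
    hN K S n (forms S a v₀ i0) ε hn (det_forms S a ha v₀ i0) hε
  refine ⟨⋃ i0, T i0, Set.finite_iUnion hTfin, ?_, ?_⟩
  · intro W hW
    obtain ⟨i0, hi0⟩ := Set.mem_iUnion.mp hW
    exact hTtop i0 W hi0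
  · intro x hx hle
    obtain ⟨i0, hi0⟩ := exists_max S v₀ x
    have hx0 : ∀ i, x i ≠ 0 := fun i => (hx i).1
    have hpos : ∀ v, 0 < nnrm S v x := by
      intro v
      obtain ⟨i, hi⟩ := exists_max S v x
      rw [hi]
      exact nN_pos S (hx0 i) v
    have hH : 0 < mulHeight x := zero_lt_one.trans_le (one_le_mulHeight x)
    obtain ⟨W, hW, hxW⟩ := hT i0 x (fun h => hx0 i0 (by rw [h]; rfl)) (by
      have h1 : ∏ v, ∏ i, nN S v ((forms S a v₀ i0 v *ᵥ x) i) / nnrm S v x =
          (∏ v, ∏ i, nN S v ((forms S a v₀ i0 v *ᵥ x) i)) / mulHeight x ^ n := by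
        rw [← prod_nnrm S hx, ← Finset.prod_pow, ← Finset.prod_div_distrib]
        refine Finset.prod_congr rfl fun v _ => ?_
        rw [Finset.prod_div_distrib, Finset.prod_const, Finset.card_univ, Fintype.card_fin]
      rw [h1, prod_forms S a x v₀ i0 hx0, ← hi0, Finset.prod_comm]
      have h2 : ∏ i, ∏ v, nN S v (x i) = 1 := Finset.prod_eq_one fun i _ => prod_nN S (hx i)
      rw [h2, one_mul, div_le_iff₀ (pow_pos hH n), ← Real.rpow_natCast (mulHeight x) n,
        ← Real.rpow_add hH, div_le_iff₀ (hpos v₀)]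
      have h3 : -(n : ℝ) - ε + n = -ε := by ring
      rw [h3, mul_comm]
      exact hle)
    exact ⟨W, Set.mem_iUnion.mpr ⟨i0, hW⟩, hxW⟩

end Pool.Agent.Work.Tools.Subspace
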