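import Pool.Agent.Work.Tools.Subspace.Stmts3

/-!
# The Subspace theorem: item U3 (nondegenerate solutions of S-unit equations)
-/

namespace Pool.Agent.Work.Tools.Subspace

open Finset Matrix MvPolynomial NumberField Height

namespace IU3

section

variable {K : Type} [Field K] [NumberField K] (S : Finset (FinitePlace K))

theorem nN_inl (v : InfinitePlace K) (x : K) : nN S (Sum.inl v) x = v x ^ v.mult := by
  have h : max v.mult 1 = v.mult := max_eq_left (show 1 ≤ v.mult from InfinitePlace.mult_pos)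
  simp only [nN, nabv, ne, h]
  rfl

theorem nN_inr (v : {v : FinitePlace K // v ∈ S}) (x : K) : nN S (Sum.inr v) x = v.val x := by
  simp only [nN, nabv, ne]
  rw [max_eq_right zero_le_one, pow_one]
  rfl

theorem nnrm_inl {ι : Type} (v : InfinitePlace K) (x : ι → K) :
    nnrm S (Sum.inl v) x = (⨆ i, v (x i)) ^ v.mult := by
  have h : max v.mult 1 = v.mult := max_eq_left (show 1 ≤ v.mult from InfinitePlace.mult_pos)
  simp only [nnrm, nabv, ne, h]
  rfl

theorem nnrm_inr {ι : Type} (v : {v : FinitePlace K // v ∈ S}) (x : ι → K) :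
    nnrm S (Sum.inr v) x = ⨆ i, v.val (x i) := by
  simp only [nnrm, nabv, ne]
  rw [max_eq_right zero_le_one, pow_one]
  rfl

theorem prod_nN_unit {x : K} (hx : x ∈ nU S) : ∏ v, nN S v x = 1 := by
  obtain ⟨h0, h1⟩ := hx
  rw [Fintype.prod_sum_type]
  simp only [nN_inl, nN_inr]
  have h2 := prod_abs_eq_one h0
  rw [finprod_eq_prod_of_mulSupport_subset (s := S) _ (by
    intro v hv
    by_contra h
    exact hv (h1 v h))] at h2
  rw [← h2]
  congr 1
  rw [← Finset.prod_coe_sort S]

theorem prod_nnrm_unit {n : ℕ} [Nonempty (Fin n)] {x : Fin n → K} (hx : ∀ i, x i ∈ nU S) :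
    ∏ v, nnrm S v x = mulHeight x := by
  have h0 : x ≠ 0 := by
    intro h
    obtain ⟨i⟩ := (inferInstance : Nonempty (Fin n))
    exact (hx i).1 (congrFun h i)
  rw [NumberField.mulHeight_eq h0, Fintype.prod_sum_type]
  simp only [nnrm_inl, nnrm_inr]
  rw [finprod_eq_prod_of_mulSupport_subset (s := S) _ (by
    intro v hv
    by_contra h
    apply hv
    have h3 : (fun i => v (x i)) = fun _ => (1 : ℝ) := funext fun i => (hx i).2 v h
    change ⨆ i, v (x i) = 1
    rw [h3]
    exact ciSup_const)]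
  congr 1
  rw [← Finset.prod_coe_sort S]

theorem nN_mul (v : NV K S) (x y : K) : nN S v (x * y) = nN S v x * nN S v y := by
  simp [nN, mul_pow]

theorem nN_one (v : NV K S) : nN S v 1 = 1 := by
  simp [nN]

theorem nN_pos (v : NV K S) {x : K} (hx : x ≠ 0) : 0 < nN S v x := by
  unfold nN
  exact pow_pos ((nabv S v).pos hx) _

theorem exists_nN_eq {n : ℕ} [Nonempty (Fin n)] (v : NV K S) (x : Fin n → K) :
    ∃ i, nnrm S v x = nN S v (x i) := by
  obtain ⟨i, hi⟩ := exists_eq_ciSup_of_finite (f := fun i => nabv S v (x i))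
  refine ⟨i, ?_⟩
  unfold nnrm nN
  rw [← hi]

end

/-- removing one unknown which is a multiple of another one -/
theorem finite_of_ratio {K : Type} [Field K] [NumberField K] (S : Finset (FinitePlace K)) {m : ℕ}
    (ih : ∀ a : Fin m → K, (USol S a).Finite) (a : Fin (m + 1) → K) (i j : Fin (m + 1))
    (hij : i ≠ j) (lam : K) : {x | x ∈ USol S a ∧ x i = lam * x j}.Finite := by
  classical
  obtain ⟨j', hj'⟩ := Fin.exists_succAbove_eq hij.symm
  set a' : Fin m → K := fun l => a (i.succAbove l) + if l = j' then a i * lam else 0 with ha'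
  refine ((ih a').image (fun x' => i.insertNth (lam * x' j') x')).subset ?_
  rintro x ⟨⟨hx1, hx2, hx3⟩, hx4⟩
  refine ⟨fun l => x (i.succAbove l), ⟨fun l => hx1 _, ?_, ?_⟩, ?_⟩
  · rw [Fin.sum_univ_succAbove _ i, hx4] at hx2
    rw [← hx2]
    simp only [ha', add_mul, Finset.sum_add_distrib, ite_mul, zero_mul, Finset.sum_ite_eq',
      Finset.mem_univ, if_true, hj']
    ring
  · intro I hI
    have key : ∑ l ∈ I, a' l * x (i.succAbove l) =
        ∑ l ∈ I.map i.succAboveEmb, a l * x l + if j' ∈ I then a i * x i else 0 := by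
      rw [Finset.sum_map]
      simp only [ha', add_mul, Finset.sum_add_distrib, ite_mul, zero_mul]
      congr 1
      rw [Finset.sum_ite_eq' I j']
      split_ifs with h
      · rw [hj', hx4]; ring
      · rfl
    rw [key]
    by_cases h : j' ∈ I
    · rw [if_pos h]
      have h1 : i ∉ I.map i.succAboveEmb := by
        rw [Finset.mem_map]
        rintro ⟨l, _, hl⟩
        exact Fin.succAbove_ne i l hl
      have h2 := hx3 (insert i (I.map i.succAboveEmb)) (Finset.insert_nonempty _ _)
      rw [Finset.sum_insert h1] at h2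
      rwa [add_comm]
    · rw [if_neg h, add_zero]
      exact hx3 _ (Finset.map_nonempty.mpr hI)
  · change i.insertNth (lam * x (i.succAbove j')) (fun l => x (i.succAbove l)) = x
    rw [hj', ← hx4]
    exact Fin.insertNth_self_removeNth i x

end IU3

open IU3 in
theorem prfU3 (hN : ClaimN) (h0 : ClaimU0) : ClaimU3 := by
  intro K _ _ S n
  induction n using Nat.strong_induction_on with
  | _ n IH =>
  intro a
  classical
  rcases Nat.lt_or_ge n 2 with hn | hn
  · interval_cases n
    · convert Set.finite_empty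
      ext x
      simp only [USol, Set.mem_ofPred_eq, Set.mem_empty_iff_false, iff_false]
      rintro ⟨_, h, _⟩
      simp at h
    · refine (Set.finite_singleton (fun _ : Fin 1 => (a 0)⁻¹)).subset ?_
      rintro x ⟨_, h, _⟩
      rw [Set.mem_singleton_iff]
      funext i
      fin_cases i
      simp only [Fin.sum_univ_one] at h
      exact (eq_inv_of_mul_eq_one_right h)
  by_cases ha : ∃ i, a i = 0
  · obtain ⟨i, hi⟩ := ha
    convert Set.finite_empty
    ext x
    simp only [Set.mem_empty_iff_false, iff_false]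
    rintro ⟨_, _, h⟩
    exact h {i} (Finset.singleton_nonempty i) (by simp [hi])
  push Not at ha
  have : Nonempty (Fin n) := ⟨⟨0, by omega⟩⟩
  have hA : ∀ (f : NV K S → Fin n) (v : NV K S),
      ((1 : Matrix (Fin n) (Fin n) K).updateRow (f v) a).det ≠ 0 := by
    intro f v
    rw [← Matrix.cramer_transpose_apply, Matrix.transpose_one, Matrix.cramer_one]
    exact ha _
  choose T hTf hTne hT using fun f : NV K S → Fin n =>
    hN K S n (fun v => (1 : Matrix (Fin n) (Fin n) K).updateRow (f v) a) 1 hn (hA f) one_pos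
  have hTall : (⋃ f, T f).Finite := Set.finite_iUnion hTf
  -- a relation for every subspace
  have hrel : ∀ W : Submodule K (Fin n → K), ∃ L : Set K, L.Finite ∧ (W ≠ ⊤ →
      ∀ x ∈ W, (∀ i, x i ∈ nU S) → ∃ i j, i ≠ j ∧ x i / x j ∈ L) := by
    intro W
    by_cases hW : W = ⊤
    · exact ⟨∅, Set.finite_empty, fun h => absurd hW h⟩
    obtain ⟨φ, hφ0, hφ⟩ := W.exists_le_ker_of_lt_top (lt_top_iff_ne_top.mpr hW)
    have hφs : ∀ x : Fin n → K, φ x = ∑ i, φ (Pi.single i 1) * x i := by
      intro x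
      conv_lhs => rw [← Finset.univ_sum_single x]
      rw [map_sum]
      refine Finset.sum_congr rfl fun i _ => ?_
      have h1 : Pi.single i (x i) = (x i) • (Pi.single i (1 : K) : Fin n → K) := by
        rw [← Pi.single_smul, smul_eq_mul, mul_one]
      rw [h1, map_smul, smul_eq_mul, mul_comm]
    have hb : (fun i => φ (Pi.single i 1)) ≠ 0 := by
      intro h
      apply hφ0
      ext x
      have h1 := congrFun h x
      simpa using h1
    obtain ⟨L, hL1, hL2⟩ := h0 K S n (fun m a' hm => IH m hm a') _ hb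
    refine ⟨L, hL1, fun _ x hx hxu => hL2 x hxu ?_⟩
    rw [← hφs]
    exact LinearMap.mem_ker.mp (hφ hx)
  choose L hLf hL using hrel
  have hLall : (⋃ W ∈ ⋃ f, T f, L W).Finite := hTall.biUnion fun W _ => hLf W
  obtain ⟨m, rfl⟩ : ∃ m, n = m + 1 := ⟨n - 1, by omega⟩
  have hfin : (⋃ (p : Fin (m + 1) × Fin (m + 1)), ⋃ lam ∈ (⋃ W ∈ ⋃ f, T f, L W),
      {x | x ∈ USol S a ∧ p.1 ≠ p.2 ∧ x p.1 = lam * x p.2}).Finite := by
    refine Set.finite_iUnion fun p => hLall.biUnion fun lam _ => ?_
    by_cases hp : p.1 = p.2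
    · convert Set.finite_empty
      ext x
      simp [hp]
    · refine (finite_of_ratio S (fun a' => IH m (by omega) a') a p.1 p.2 hp lam).subset ?_
      rintro x ⟨h1, _, h3⟩
      exact ⟨h1, h3⟩
  refine hfin.subset fun x hx => ?_
  obtain ⟨hx1, hx2, hx3⟩ := hx
  choose f hf using fun v => exists_nN_eq S v x
  have hx0 : x ≠ 0 := by
    intro h
    exact (hx1 0).1 (congrFun h 0)
  have hnpos : ∀ v, 0 < nnrm S v x := by
    intro v
    rw [hf v]
    exact nN_pos S v (hx1 _).1
  have hprod : ∏ v, ∏ i, nN S v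
      ((((1 : Matrix (Fin (m + 1)) (Fin (m + 1)) K).updateRow (f v) a) *ᵥ x) i) / nnrm S v x =
      (mulHeight x)⁻¹ ^ (m + 2) := by
    have h1 : ∀ v, ∏ i, nN S v
      ((((1 : Matrix (Fin (m + 1)) (Fin (m + 1)) K).updateRow (f v) a) *ᵥ x) i) / nnrm S v x =
        (∏ i, nN S v (x i)) * (nnrm S v x)⁻¹ ^ (m + 2) := by
      intro v
      have h2 : ∀ i, (((1 : Matrix (Fin (m + 1)) (Fin (m + 1)) K).updateRow (f v) a) *ᵥ x) i =
          if i = f v then 1 else x i := by
        intro i
        by_cases hi : i = f v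
        · rw [if_pos hi, Matrix.mulVec, hi, Matrix.updateRow_self]
          exact hx2
        · rw [if_neg hi, Matrix.mulVec, Matrix.updateRow_ne hi]
          simp [dotProduct, Matrix.one_apply]
      have h3 : ∏ i, nN S v (x i) = (∏ i, nN S v (if i = f v then 1 else x i)) * nnrm S v x := by
        rw [hf v, ← Finset.mul_prod_erase Finset.univ _ (Finset.mem_univ (f v)),
          ← Finset.mul_prod_erase Finset.univ
            (fun i => nN S v (if i = f v then 1 else x i)) (Finset.mem_univ (f v))]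
        simp only [if_true, nN_one, one_mul]
        rw [mul_comm]
        congr 1
        refine Finset.prod_congr rfl fun i hi => ?_
        rw [if_neg (Finset.ne_of_mem_erase hi)]
      rw [h3]
      simp only [h2]
      rw [Finset.prod_div_distrib, Finset.prod_const, Finset.card_univ, Fintype.card_fin]
      have hne := (hnpos v).ne'
      have e1 : (nnrm S v x)⁻¹ ^ (m + 2) = (nnrm S v x)⁻¹ * (nnrm S v x ^ (m + 1))⁻¹ := by
        rw [pow_succ', inv_pow]
      rw [e1, div_eq_mul_inv, mul_assoc, ← mul_assoc (nnrm S v x), mul_inv_cancel₀ hne, one_mul]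
    rw [Finset.prod_congr rfl fun v _ => h1 v, Finset.prod_mul_distrib, Finset.prod_comm]
    rw [Finset.prod_congr rfl fun i _ => prod_nN_unit S (hx1 i), Finset.prod_const_one, one_mul,
      Finset.prod_pow, Finset.prod_inv_distrib, prod_nnrm_unit S hx1]
  have hle : ∏ v, ∏ i, nN S v
      ((((1 : Matrix (Fin (m + 1)) (Fin (m + 1)) K).updateRow (f v) a) *ᵥ x) i) / nnrm S v x ≤
      mulHeight x ^ (-((m + 1 : ℕ) : ℝ) - 1) := by
    rw [hprod]
    have h5 : (-((m + 1 : ℕ) : ℝ) - 1) = -((m + 2 : ℕ) : ℝ) := by push_cast; ring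
    rw [h5, Real.rpow_neg (mulHeight_pos x).le, Real.rpow_natCast, inv_pow]
  obtain ⟨W, hW, hxW⟩ := hT f x hx0 hle
  obtain ⟨i, j, hij, hlam⟩ := hL W (hTne f W hW) x hxW hx1
  rw [Set.mem_iUnion]
  refine ⟨(i, j), ?_⟩
  rw [Set.mem_iUnion₂]
  refine ⟨x i / x j, ?_, ⟨hx1, hx2, hx3⟩, hij, ?_⟩
  · rw [Set.mem_iUnion₂]
    exact ⟨W, Set.mem_iUnion.mpr ⟨f, hW⟩, hlam⟩
  · exact (div_mul_cancel₀ _ (hx1 j).1).symm

end Pool.Agent.Work.Tools.Subspace
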