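import Pool.Agent.Work.Tools.Subspace.Stmts

/-!
# X1: from a multihomogeneous polynomial to a polynomial in few variables
-/

namespace Pool.Agent.Work.Tools.Subspace

open Finset Matrix MvPolynomial

namespace ItemX1

lemma aeval_upd_monomial {σ : Type} [DecidableEq σ] (q : σ) (t : σ →₀ ℕ) (c : ℤ) :
    aeval (Function.update X q 0 : σ → MvPolynomial σ ℤ) (monomial t c) =
      if t q = 0 then monomial t c else 0 := by
  rw [aeval_monomial]
  split_ifs with h
  · rw [monomial_eq]
    congr 1
    refine Finsupp.prod_congr fun i hi => ?_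
    have : i ≠ q := by
      rintro rfl
      exact (Finsupp.mem_support_iff.mp hi) h
    rw [Function.update_of_ne this]
  · rw [Finsupp.prod, Finset.prod_eq_zero (i := q) (Finsupp.mem_support_iff.mpr h), mul_zero]
    rw [Function.update_self, zero_pow h]

lemma coeff_aeval_upd {σ : Type} [DecidableEq σ] (q : σ) (F : MvPolynomial σ ℤ) (s : σ →₀ ℕ) :
    coeff s (aeval (Function.update X q 0 : σ → MvPolynomial σ ℤ) F) =
      if s q = 0 then coeff s F else 0 := by
  induction F using MvPolynomial.induction_on' with
  | monomial t c =>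
    rw [aeval_upd_monomial]
    by_cases hst : t = s
    · subst hst
      split_ifs <;> simp
    · split_ifs <;> simp [coeff_monomial, hst]
  | add p q hp hq =>
    rw [map_add, coeff_add, hp, hq, coeff_add]
    split_ifs <;> simp

lemma X_dvd_of_aeval_eq_zero {σ : Type} [DecidableEq σ] (q : σ) (F : MvPolynomial σ ℤ)
    (h : aeval (Function.update X q 0 : σ → MvPolynomial σ ℤ) F = 0) : X q ∣ F := by
  rw [X_dvd_iff_modMonomial_eq_zero]
  ext s
  rw [coeff_zero]
  by_cases hs : Finsupp.single q 1 ≤ s
  · rw [coeff_modMonomial_of_le _ hs]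
  · rw [coeff_modMonomial_of_not_le _ hs]
    have hq : s q = 0 := by
      by_contra hcon
      apply hs
      rw [Finsupp.single_le_iff]
      omega
    have h2 := coeff_aeval_upd q F s
    rw [h, coeff_zero, if_pos hq] at h2
    exact h2.symm

/-- the state of the induction -/
def Good {K : Type} [Field K] {m : ℕ} {ι : Type} [Fintype ι]
    (r : Fin m → ℕ) (M : Fin m → ι → K) (a b : Fin m → ι) (θ B : ℝ) (S : Finset (Fin m × ι))
    (r' : Fin m → ℕ) (F : MvPolynomial (Fin m × ι) ℤ) (M' : Fin m → ι → K) : Prop :=
  F ≠ 0 ∧ (∀ h, r' h ≤ r h) ∧ MH r' F ∧ CoefLe F B ∧ (∀ q ∈ S, degreeOf q F = 0) ∧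
    VanH r θ M' F ∧ (∀ h, M' h (a h) = M h (a h)) ∧ ∀ h, M' h (b h) = M h (b h)

lemma step (ha : ClaimX1a) (hb : ClaimX1b) {K : Type} [Field K] [CharZero K] {m : ℕ} {ι : Type}
    [Fintype ι] [DecidableEq ι] (r : Fin m → ℕ) (M : Fin m → ι → K) (a b : Fin m → ι) (θ B : ℝ)
    (hM : ∀ h, M h (a h) ≠ 0) (S : Finset (Fin m × ι)) (q : Fin m × ι) (hqa : q.2 ≠ a q.1)
    (hqb : q.2 ≠ b q.1) (M' : Fin m → ι → K) :
    ∀ (n : ℕ) (r' : Fin m → ℕ) (F : MvPolynomial (Fin m × ι) ℤ), r' q.1 ≤ n →
      Good r M a b θ B S r' F M' → ∃ r'' F'' M'', Good r M a b θ B (insert q S) r'' F'' M'' := by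
  intro n
  induction n with
  | zero =>
    intro r' F hn ⟨h1, h2, h3, h4, h5, h6, h7, h8⟩
    have hz : ∀ s ∈ F.support, s q = 0 := by
      intro s hs
      have := h3 s hs q.1
      have h9 : ∑ i, s (q.1, i) = 0 := by omega
      have := (Finset.sum_eq_zero_iff.mp h9) q.2 (mem_univ _)
      simpa using this
    refine ⟨r', F, M', h1, h2, h3, h4, ?_, h6, h7, h8⟩
    intro q' hq'
    rw [mem_insert] at hq'
    rcases hq' with rfl | hq'
    · have : degreeOf q' F ≤ 0 := (degreeOf_le_iff).mpr fun s hs => (hz s hs).le
      omega
    · exact h5 q' hq'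
  | succ n ih =>
    intro r' F hn ⟨h1, h2, h3, h4, h5, h6, h7, h8⟩
    by_cases hF : aeval (Function.update X q 0 : Fin m × ι → MvPolynomial (Fin m × ι) ℤ) F = 0
    · obtain ⟨G, rfl⟩ := X_dvd_of_aeval_eq_zero q F hF
      have hG : G ≠ 0 := by
        rintro rfl
        exact h1 (mul_zero _)
      have hsup : ∀ s ∈ G.support, Finsupp.single q 1 + s ∈ (X q * G).support := by
        intro s hs
        rw [mem_support_iff] at hs ⊢
        rwa [coeff_X_mul]
      refine ih (Function.update r' q.1 (r' q.1 - 1)) G ?_
        ⟨hG, ?_, ?_, ?_, ?_, ?_, h7, h8⟩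
      · rw [Function.update_self]
        omega
      · intro h
        by_cases hh : h = q.1
        · subst hh
          rw [Function.update_self]
          have := h2 q.1
          omega
        · rw [Function.update_of_ne hh]
          exact h2 h
      · intro s hs h
        have h9 := h3 _ (hsup s hs) h
        simp only [Finsupp.add_apply, Finset.sum_add_distrib] at h9
        by_cases hh : h = q.1
        · subst hh
          rw [Function.update_self]
          have h10 : ∑ i, (Finsupp.single q 1 : Fin m × ι →₀ ℕ) (q.1, i) = 1 := by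
            rw [Finset.sum_eq_single q.2]
            · simp
            · intro i _ hi
              rw [Finsupp.single_apply, if_neg]
              intro hcon
              apply hi
              rw [hcon]
            · intro hcon
              exact absurd (mem_univ _) hcon
          omega
        · rw [Function.update_of_ne hh]
          have h10 : ∑ i, (Finsupp.single q 1 : Fin m × ι →₀ ℕ) (h, i) = 0 := by
            refine Finset.sum_eq_zero fun i _ => ?_
            rw [Finsupp.single_apply, if_neg]
            intro hcon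
            apply hh
            rw [hcon]
          omega
      · intro s
        have := h4 (Finsupp.single q 1 + s)
        rwa [coeff_X_mul] at this
      · intro q' hq'
        have h9 := h5 q' hq'
        have h10 : degreeOf q' G ≤ 0 := by
          rw [degreeOf_le_iff]
          intro s hs
          have := (degreeOf_le_iff (d := 0)).mp h9.le _ (hsup s hs)
          rw [Finsupp.add_apply] at this
          omega
        omega
      · have := ha K m ι r G M' a θ q.1 q.2 (fun h => by rw [h7]; exact hM h) hqa
        exact this h6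
    · refine ⟨r', _, Function.update M' q.1 (Function.update (M' q.1) q.2 0), hF, h2, ?_, ?_, ?_,
        hb K m ι r F M' θ q.1 q.2 h6, ?_, ?_⟩
      · intro s hs
        rw [mem_support_iff, coeff_aeval_upd] at hs
        refine h3 s ?_
        rw [mem_support_iff]
        intro hcon
        apply hs
        rw [hcon, ite_self]
      · intro s
        rw [coeff_aeval_upd]
        split_ifs
        · exact h4 s
        · have := (abs_nonneg _).trans (h4 s)
          simpa using this
      · intro q' hq'
        have h9 : degreeOf q' (aeval (Function.update X q 0 :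
            Fin m × ι → MvPolynomial (Fin m × ι) ℤ) F) ≤ 0 := by
          rw [degreeOf_le_iff]
          intro s hs
          rw [mem_support_iff, coeff_aeval_upd] at hs
          rw [mem_insert] at hq'
          by_cases hsq : s q = 0
          · rw [if_pos hsq] at hs
            rcases hq' with rfl | hq'
            · omega
            · exact (degreeOf_le_iff (d := 0)).mp (h5 q' hq').le s (mem_support_iff.mpr hs)
          · rw [if_neg hsq] at hs
            exact absurd rfl hs
        omega
      · intro h
        rw [← h7 h]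
        by_cases hh : h = q.1
        · subst hh
          rw [Function.update_self, Function.update_of_ne (Ne.symm hqa)]
        · rw [Function.update_of_ne hh]
      · intro h
        rw [← h8 h]
        by_cases hh : h = q.1
        · subst hh
          rw [Function.update_self, Function.update_of_ne (Ne.symm hqb)]
        · rw [Function.update_of_ne hh]

end ItemX1

open ItemX1

theorem prfX1 (ha : ClaimX1a) (hb : ClaimX1b) (hc : ClaimX1c) : ClaimX1 := by
  intro K _ _ m ι _ _ r F M a b θ B hF hMH hco hr hM hab hvan
  have key : ∀ S : Finset (Fin m × ι), (∀ q ∈ S, q.2 ≠ a q.1 ∧ q.2 ≠ b q.1) →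
      ∃ r' F' M', Good r M a b θ B S r' F' M' := by
    intro S
    induction S using Finset.induction_on with
    | empty =>
      intro _
      exact ⟨r, F, M, hF, fun _ => le_rfl, hMH, hco, by simp, hvan, fun _ => rfl, fun _ => rfl⟩
    | insert q S hq ih =>
      intro hS
      obtain ⟨r', F', M', hg⟩ := ih fun q' hq' => hS q' (mem_insert_of_mem hq')
      exact step ha hb r M a b θ B hM S q (hS q (mem_insert_self _ _)).1
        (hS q (mem_insert_self _ _)).2 M' (r' q.1) r' F' le_rfl hg
  obtain ⟨r', F', M', h1, h2, h3, h4, h5, h6, h7, h8⟩ :=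
    key (univ.filter fun q => q.2 ≠ a q.1 ∧ q.2 ≠ b q.1) (fun q hq => (mem_filter.mp hq).2)
  obtain ⟨p, hp1, hp2, hp3, hp4⟩ := hc K m ι r r' F' M' a b θ B h1 h3 h2 h4
    (fun h => by rw [h7]; exact hM h) hab
    (fun h i hi1 hi2 => h5 (h, i) (mem_filter.mpr ⟨mem_univ _, hi1, hi2⟩)) h6
  refine ⟨p, hp1, hp2, hp3, ?_⟩
  have : (fun h => -(M' h (b h) / M' h (a h))) = fun h => -(M h (b h) / M h (a h)) := by
    funext h
    rw [h7, h8]
  rwa [this] at hp4

end Pool.Agent.Work.Tools.Subspace
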