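import Pool.Agent.Work.Tools.Subspace.Basic
import Pool.Agent.Work.Tools.Subspace.Stmts
import Pool.Agent.Work.Tools.Subspace.Stmts2

namespace Pool.Agent.Work.Tools.Subspace

open Finset Matrix MvPolynomial

namespace IX1a

theorem hd_X_mul {σ R : Type} [DecidableEq σ] [CommRing R] (k : σ →₀ ℕ) (p : σ)
    (F : MvPolynomial σ R) :
    hd k (X p * F) = X p * hd k F + if k p = 0 then 0 else hd (k - Finsupp.single p 1) F := by
  unfold hd
  rw [tay_mul, tay_X, add_mul, coeff_add, coeff_C_mul, coeff_X_mul']
  congr 1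
  by_cases hk : k p = 0
  · simp [hk]
  · simp [hk]

theorem wt_sub_le {m : ℕ} {ι : Type} [Fintype ι] [DecidableEq ι] (r : Fin m → ℕ)
    (k : Fin m × ι →₀ ℕ) (p : Fin m × ι) : wt r (k - Finsupp.single p 1) ≤ wt r k := by
  unfold wt
  apply Finset.sum_le_sum
  intro h _
  apply div_le_div_of_nonneg_right _ (Nat.cast_nonneg _)
  apply Finset.sum_le_sum
  intro i _
  have h1 : (k - Finsupp.single p 1 : Fin m × ι →₀ ℕ) (h, i) ≤ k (h, i) := by
    rw [Finsupp.tsub_apply]
    exact Nat.sub_le _ _
  exact_mod_cast h1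

theorem cancel {K : Type} [Field K] [CharZero K] {m : ℕ} {ι : Type} [Fintype ι] [DecidableEq ι]
    (M : Fin m → ι → K) (a : Fin m → ι) (h : Fin m) (i : ι) (ha : ∀ h, M h (a h) ≠ 0)
    (hi : i ≠ a h) (G : MvPolynomial (Fin m × ι) ℤ)
    (key : ∀ y : Fin m → ι → K, (∀ h, M h ⬝ᵥ y h = 0) →
      y h i * aeval (fun p : Fin m × ι => y p.1 p.2) G = 0) (y : Fin m → ι → K)
    (hy : ∀ h, M h ⬝ᵥ y h = 0) : aeval (fun p : Fin m × ι => y p.1 p.2) G = 0 := by
  by_cases h0 : y h i = 0
  · -- the direction
    set c : K := -(M h i / M h (a h)) with hc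
    set z : Fin m → ι → K := Function.update 0 h (Pi.single i 1 + Pi.single (a h) c) with hz
    have zh : z h = Pi.single i 1 + Pi.single (a h) c := by simp [hz]
    have zi : z h i = 1 := by
      rw [zh, Pi.add_apply, Pi.single_eq_same, Pi.single_eq_of_ne hi, add_zero]
    have zM : ∀ h', M h' ⬝ᵥ z h' = 0 := by
      intro h'
      by_cases hh : h' = h
      · subst hh
        rw [zh, dotProduct_add, dotProduct_single, dotProduct_single, hc]
        have := ha h'
        field_simp
        ring
      · simp [hz, hh]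
    have hv : ∀ t : K, t ≠ 0 →
        aeval (fun p : Fin m × ι => y p.1 p.2 + t * z p.1 p.2) G = 0 := by
      intro t ht
      have h1 := key (fun h' => y h' + t • z h') (fun h' => by
        rw [dotProduct_add, hy h', dotProduct_smul, zM h', smul_zero, add_zero])
      have h2 : (y h + t • z h) i = t := by
        rw [Pi.add_apply, Pi.smul_apply, h0, zi, smul_eq_mul]
        ring
      rw [h2] at h1
      rcases mul_eq_zero.mp h1 with h3 | h3
      · exact absurd h3 ht
      · exact h3
    set g : Polynomial K := aeval (fun p : Fin m × ι =>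
      Polynomial.C (y p.1 p.2) + Polynomial.X * Polynomial.C (z p.1 p.2)) G with hg
    have ev : ∀ t : K, g.eval t = aeval (fun p : Fin m × ι => y p.1 p.2 + t * z p.1 p.2) G := by
      intro t
      have h1 : g.eval t = (Polynomial.evalRingHom t) g := rfl
      rw [h1, hg]
      have h2 := MvPolynomial.map_aeval (fun p : Fin m × ι =>
        Polynomial.C (y p.1 p.2) + Polynomial.X * Polynomial.C (z p.1 p.2))
        (Polynomial.evalRingHom t) G
      rw [h2, aeval_def]
      have h3 : (Polynomial.evalRingHom t).comp (algebraMap ℤ (Polynomial K)) = algebraMap ℤ K :=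
        Subsingleton.elim _ _
      have h4 : (fun i : Fin m × ι => (Polynomial.evalRingHom t)
          (Polynomial.C (y i.1 i.2) + Polynomial.X * Polynomial.C (z i.1 i.2))) =
          (fun p => y p.1 p.2 + t * z p.1 p.2) := by
        funext p
        simp only [Polynomial.coe_evalRingHom, Polynomial.eval_add, Polynomial.eval_C,
          Polynomial.eval_mul, Polynomial.eval_X]
      rw [h3, coe_eval₂Hom, h4]
    have g0 : g = 0 := by
      apply Polynomial.eq_zero_of_infinite_isRoot
      have : Infinite K := CharZero.infinite K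
      refine Set.Infinite.mono (s := {t : K | t ≠ 0}) ?_ ?_
      · intro t ht
        show g.IsRoot t
        rw [Polynomial.IsRoot.def, ev t]
        exact hv t ht
      · exact Set.Finite.infinite_compl (Set.finite_singleton (0:K))
    have h4 := ev 0
    rw [g0] at h4
    simpa using h4.symm
  · rcases mul_eq_zero.mp (key y hy) with h3 | h3
    · exact absurd h3 h0
    · exact h3

theorem main {K : Type} [Field K] [CharZero K] {m : ℕ} {ι : Type} [Fintype ι] [DecidableEq ι]
    (r : Fin m → ℕ) (F : MvPolynomial (Fin m × ι) ℤ) (M : Fin m → ι → K) (a : Fin m → ι)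
    (θ : ℝ) (h : Fin m) (i : ι) (ha : ∀ h, M h (a h) ≠ 0) (hi : i ≠ a h)
    (H : VanH r θ M (X (h, i) * F)) :
    ∀ (n : ℕ) (k : Fin m × ι →₀ ℕ), k (h, i) = n → wt r k ≤ θ →
      ∀ y : Fin m → ι → K, (∀ h, M h ⬝ᵥ y h = 0) → tc F k (fun p => y p.1 p.2) = 0 := by
  intro n
  induction n with
  | zero =>
    intro k hk hw
    have key : ∀ y : Fin m → ι → K, (∀ h, M h ⬝ᵥ y h = 0) →
        y h i * tc F k (fun p => y p.1 p.2) = 0 := by
      intro y hy
      have h1 := H k hw y hy
      unfold tc at h1 ⊢
      rw [hd_X_mul, map_add, map_mul, aeval_X] at h1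
      simpa [hk] using h1
    exact fun y hy => cancel M a h i ha hi _ key y hy
  | succ n ih =>
    intro k hk hw
    have key : ∀ y : Fin m → ι → K, (∀ h, M h ⬝ᵥ y h = 0) →
        y h i * tc F k (fun p => y p.1 p.2) = 0 := by
      intro y hy
      have h1 := H k hw y hy
      have h2 := ih (k - Finsupp.single (h, i) 1) (by
        rw [Finsupp.tsub_apply, Finsupp.single_eq_same, hk]
        rfl) (le_trans (wt_sub_le r k _) hw) y hy
      unfold tc at h1 h2 ⊢
      rw [hd_X_mul, map_add, map_mul, aeval_X, if_neg (by omega), h2, add_zero] at h1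
      exact h1
    exact fun y hy => cancel M a h i ha hi _ key y hy

end IX1a

theorem prfX1a : ClaimX1a := by
  intro K _ _ m ι _ _ r F M a θ h i ha hi H k hk y hy
  exact IX1a.main r F M a θ h i ha hi H _ k rfl hk y hy

end Pool.Agent.Work.Tools.Subspace
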