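import Pool.Agent.Work.Tools.Subspace.Basic
import Pool.Agent.Work.Tools.Subspace.Stmts
import Pool.Agent.Work.Tools.Subspace.Stmts2

/-!
# The Subspace theorem: item X1b, a variable is put equal to zero
-/

namespace Pool.Agent.Work.Tools.Subspace

open Finset Matrix MvPolynomial

namespace IX1b

theorem coeff_kill {σ K : Type} [Field K] [DecidableEq σ] (p : σ) (k : σ →₀ ℕ)
    (Q : MvPolynomial σ K) :
    coeff k (aeval (Function.update X p 0 : σ → MvPolynomial σ K) Q) =
      if k p = 0 then coeff k Q else 0 := by
  induction Q using MvPolynomial.induction_on' with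
  | monomial s a =>
    by_cases hs : s p = 0
    · have h1 : aeval (Function.update X p 0 : σ → MvPolynomial σ K) (monomial s a) =
          monomial s a := by
        rw [aeval_monomial, monomial_eq, MvPolynomial.algebraMap_eq]
        congr 1
        refine Finsupp.prod_congr fun q hq => ?_
        have hqp : q ≠ p := by
          rintro rfl
          exact (Finsupp.mem_support_iff.mp hq) hs
        rw [Function.update_of_ne hqp]
      rw [h1]
      by_cases hk : k p = 0
      · rw [if_pos hk]
      · rw [if_neg hk, coeff_monomial, if_neg]
        rintro rfl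
        exact hk hs
    · have h1 : aeval (Function.update X p 0 : σ → MvPolynomial σ K) (monomial s a) = 0 := by
        rw [aeval_monomial]
        have : (s.prod fun i k => (Function.update X p 0 : σ → MvPolynomial σ K) i ^ k) = 0 := by
          refine Finset.prod_eq_zero (Finsupp.mem_support_iff.mpr hs) ?_
          simp only
          rw [Function.update_self, zero_pow hs]
        rw [this, mul_zero]
      rw [h1, coeff_zero]
      by_cases hk : k p = 0
      · rw [if_pos hk, coeff_monomial, if_neg]
        rintro rfl
        exact hs hk
      · rw [if_neg hk]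
  | add P Q hP hQ =>
    rw [map_add, coeff_add, hP, hQ, coeff_add]
    split_ifs <;> simp

theorem comp_kill {σ K : Type} [Field K] [DecidableEq σ] (p : σ) (Y Y' : σ → K)
    (h0 : Y' p = 0) (h1 : ∀ q, q ≠ p → Y' q = Y q) (F : MvPolynomial σ ℤ) :
    aeval (fun q : σ => (C (Y q) + X q : MvPolynomial σ K))
      (aeval (Function.update X p 0 : σ → MvPolynomial σ ℤ) F) =
      aeval (Function.update X p 0 : σ → MvPolynomial σ K)
        (aeval (fun q : σ => (C (Y' q) + X q : MvPolynomial σ K)) F) := by
  induction F using MvPolynomial.induction_on with
  | C a => simp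
  | add P Q hP hQ => simp only [map_add, hP, hQ]
  | mul_X P q hP =>
    simp only [map_mul, hP, aeval_X, map_add]
    congr 1
    by_cases hq : q = p
    · subst hq
      simp [h0]
    · rw [Function.update_of_ne hq, Function.update_of_ne hq, h1 q hq, aeval_X]
      simp

end IX1b

/-- X1b: a variable is put equal to zero -/
theorem prfX1b : ClaimX1b := by
  intro K _ _ m ι _ _ r F M θ h i hV k hk y hy
  set y' : Fin m → ι → K := Function.update y h (Function.update (y h) i 0) with hy'
  have hMy : ∀ h', M h' ⬝ᵥ y' h' = 0 := by
    intro h'
    have h1 := hy h'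
    by_cases hh : h' = h
    · subst hh
      rw [Function.update_self] at h1
      rw [hy', Function.update_self]
      refine Eq.trans (Finset.sum_congr rfl fun j _ => ?_) h1
      by_cases hj : j = i
      · subst hj; simp
      · simp [Function.update_of_ne hj]
    · rw [Function.update_of_ne hh] at h1
      rw [hy', Function.update_of_ne hh, h1]
  have hV' := hV k hk y' hMy
  rw [tc, aeval_hd] at hV' ⊢
  rw [IX1b.comp_kill (h, i) (fun q => y q.1 q.2) (fun q => y' q.1 q.2) (by simp [hy']) (by
    rintro ⟨h', j⟩ hne
    by_cases hh : h' = h
    · subst hh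
      have hj : j ≠ i := fun hj => hne (by rw [hj])
      simp [hy', Function.update_of_ne hj]
    · simp [hy', Function.update_of_ne hh]), IX1b.coeff_kill, hV', ite_self]

end Pool.Agent.Work.Tools.Subspace
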