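import Pool.Agent.Work.Tools.Subspace.ItemA
import Pool.Agent.Work.Tools.Subspace.ItemA0
import Pool.Agent.Work.Tools.Subspace.ItemA1
import Pool.Agent.Work.Tools.Subspace.ItemA2
import Pool.Agent.Work.Tools.Subspace.ItemA3
import Pool.Agent.Work.Tools.Subspace.ItemA4
import Pool.Agent.Work.Tools.Subspace.ItemC0
import Pool.Agent.Work.Tools.Subspace.ItemC1
import Pool.Agent.Work.Tools.Subspace.ItemC2
import Pool.Agent.Work.Tools.Subspace.ItemC3
import Pool.Agent.Work.Tools.Subspace.ItemC4
import Pool.Agent.Work.Tools.Subspace.ItemC5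
import Pool.Agent.Work.Tools.Subspace.ItemC6
import Pool.Agent.Work.Tools.Subspace.ItemC7
import Pool.Agent.Work.Tools.Subspace.ItemC8
import Pool.Agent.Work.Tools.Subspace.ItemC9
import Pool.Agent.Work.Tools.Subspace.ItemE
import Pool.Agent.Work.Tools.Subspace.ItemE0
import Pool.Agent.Work.Tools.Subspace.ItemE1
import Pool.Agent.Work.Tools.Subspace.ItemE2
import Pool.Agent.Work.Tools.Subspace.ItemE3
import Pool.Agent.Work.Tools.Subspace.ItemG1
import Pool.Agent.Work.Tools.Subspace.ItemG2
import Pool.Agent.Work.Tools.Subspace.ItemG3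
import Pool.Agent.Work.Tools.Subspace.ItemHC
import Pool.Agent.Work.Tools.Subspace.ItemL
import Pool.Agent.Work.Tools.Subspace.ItemL1
import Pool.Agent.Work.Tools.Subspace.ItemL2
import Pool.Agent.Work.Tools.Subspace.ItemL3
import Pool.Agent.Work.Tools.Subspace.ItemM
import Pool.Agent.Work.Tools.Subspace.ItemM1
import Pool.Agent.Work.Tools.Subspace.ItemM2
import Pool.Agent.Work.Tools.Subspace.ItemN
import Pool.Agent.Work.Tools.Subspace.ItemN1
import Pool.Agent.Work.Tools.Subspace.ItemN2
import Pool.Agent.Work.Tools.Subspace.ItemP1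
import Pool.Agent.Work.Tools.Subspace.ItemP2
import Pool.Agent.Work.Tools.Subspace.ItemP3
import Pool.Agent.Work.Tools.Subspace.ItemP3a
import Pool.Agent.Work.Tools.Subspace.ItemP3b
import Pool.Agent.Work.Tools.Subspace.ItemP3c
import Pool.Agent.Work.Tools.Subspace.ItemP4
import Pool.Agent.Work.Tools.Subspace.ItemP5
import Pool.Agent.Work.Tools.Subspace.ItemP6
import Pool.Agent.Work.Tools.Subspace.ItemP7
import Pool.Agent.Work.Tools.Subspace.ItemP8
import Pool.Agent.Work.Tools.Subspace.ItemP8a
import Pool.Agent.Work.Tools.Subspace.ItemP8b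
import Pool.Agent.Work.Tools.Subspace.ItemP9
import Pool.Agent.Work.Tools.Subspace.ItemPT
import Pool.Agent.Work.Tools.Subspace.ItemQ
import Pool.Agent.Work.Tools.Subspace.ItemQ1
import Pool.Agent.Work.Tools.Subspace.ItemQ2
import Pool.Agent.Work.Tools.Subspace.ItemQ3
import Pool.Agent.Work.Tools.Subspace.ItemQ4
import Pool.Agent.Work.Tools.Subspace.ItemQ5
import Pool.Agent.Work.Tools.Subspace.ItemQ6
import Pool.Agent.Work.Tools.Subspace.ItemQ7
import Pool.Agent.Work.Tools.Subspace.ItemR
import Pool.Agent.Work.Tools.Subspace.ItemR1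
import Pool.Agent.Work.Tools.Subspace.ItemR10
import Pool.Agent.Work.Tools.Subspace.ItemR2
import Pool.Agent.Work.Tools.Subspace.ItemR3
import Pool.Agent.Work.Tools.Subspace.ItemR4
import Pool.Agent.Work.Tools.Subspace.ItemR5
import Pool.Agent.Work.Tools.Subspace.ItemR6
import Pool.Agent.Work.Tools.Subspace.ItemR7
import Pool.Agent.Work.Tools.Subspace.ItemR8
import Pool.Agent.Work.Tools.Subspace.ItemR9
import Pool.Agent.Work.Tools.Subspace.ItemS1
import Pool.Agent.Work.Tools.Subspace.ItemST
import Pool.Agent.Work.Tools.Subspace.ItemT1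
import Pool.Agent.Work.Tools.Subspace.ItemT2
import Pool.Agent.Work.Tools.Subspace.ItemT3
import Pool.Agent.Work.Tools.Subspace.ItemT4
import Pool.Agent.Work.Tools.Subspace.ItemT5
import Pool.Agent.Work.Tools.Subspace.ItemU0
import Pool.Agent.Work.Tools.Subspace.ItemU1
import Pool.Agent.Work.Tools.Subspace.ItemU2
import Pool.Agent.Work.Tools.Subspace.ItemU3
import Pool.Agent.Work.Tools.Subspace.ItemX1
import Pool.Agent.Work.Tools.Subspace.ItemX1a
import Pool.Agent.Work.Tools.Subspace.ItemX1b
import Pool.Agent.Work.Tools.Subspace.ItemX1c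

/-!
# The Subspace theorem: assembly

Complete proofs of the Subspace theorem of Schmidt and Schlickewei over number fields
(`subspaceN`, and `subspaceN1` for `S`-integral points), of the finiteness of the nondegenerate
solutions of `S`-unit equations (`sunitU3`) and of the theorem of Evertse on sums of `S`-units
(`evertseU2`), of the lemma of Roth (`rothR`).
-/

namespace Pool.Agent.Work.Tools.Subspace

theorem rothR : ClaimR :=
  prfR prfR1 (prfR10 prfR1 (prfR5 prfT1 prfR2 (prfR3 prfR2) prfR4) (prfR6 (prfT3 prfT1) prfT5)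
    (prfR7 (prfT2 prfT1)) (prfR8 prfT1) prfR9)

theorem auxA : ClaimA := prfA prfA0 prfA1 prfA2 prfA3 prfA4

theorem evalE : ClaimE := prfE prfA0 (prfE2 prfA0 prfA4 prfE0 (prfE1 prfA4)) prfE3

theorem machineM : ClaimM :=
  prfM auxA evalE (prfG3 (prfT2 prfT1) (prfT4 prfT1) (prfG1 prfT1) prfG2)
    (prfX1 prfX1a prfX1b prfX1c) rothR prfM1 prfM2

theorem hyperHC : ClaimHC := prfHC (prfL (prfL2 prfL1) prfL3) machineM

theorem compC1 : ClaimC1 := prfC1 prfC0

theorem compC2 : ClaimC2 := prfC2 compC1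

theorem gapC9 : ClaimC9 :=
  prfC9 hyperHC compC2 prfC3 prfC4 (prfC5 prfC4) (prfC6 prfC0 compC2) (prfC7 compC1 compC2)
    (prfC8 prfQ1)

theorem reducedQ : ClaimQ := prfQ (prfQ3 prfQ1 prfQ2) prfQ4 prfQ5 prfQ6 prfQ7

/-- the parametric Subspace theorem -/
theorem parametricPT : ClaimPT := prfPT reducedQ gapC9 prfS1

/-- the Subspace theorem for abstract places -/
theorem subspaceST : ClaimST := prfST parametricPT prfL1

theorem pigP3 : ClaimP3 := prfP3 prfP2 (prfP3a prfP1) prfP3b prfP3c

/-- the Subspace theorem for `S`-integral points over number fields -/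
theorem subspaceN1 : ClaimN1 :=
  prfN1 subspaceST prfP1 prfP2 pigP3 prfP4 prfP5 prfP6 prfP7 (prfP8 prfP8a prfP8b) prfP9

/-- the Subspace theorem of Schmidt and Schlickewei over number fields -/
theorem subspaceN : ClaimN := prfN subspaceN1 (prfN2 prfP1 prfP5)

/-- finiteness of the nondegenerate solutions of `S`-unit equations -/
theorem sunitU3 : ClaimU3 := prfU3 subspaceN prfU0

theorem sumsU1 : ClaimU1 := prfU1 subspaceN

/-- the theorem of Evertse on sums of `S`-units -/
theorem evertseU2 : ClaimU2 := prfU2 prfU0 sumsU1 sunitU3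

end Pool.Agent.Work.Tools.Subspace
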