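import Pool.Agent.Work.Tools.Subspace.Defs

/-!
# The Subspace theorem: basic lemmas
-/

namespace Pool.Agent.Work.Tools.Subspace

open Finset Matrix MvPolynomial

section hasse

variable {σ R : Type} [CommRing R]

theorem tay_add (F G : MvPolynomial σ R) : tay (F + G) = tay F + tay G := by
  simp [tay]

theorem tay_mul (F G : MvPolynomial σ R) : tay (F * G) = tay F * tay G := by
  simp [tay]

theorem tay_C (a : R) : tay (C a : MvPolynomial σ R) = C (C a) := by
  simp [tay, MvPolynomial.algebraMap_apply]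

theorem tay_X (i : σ) : tay (X i : MvPolynomial σ R) = C (X i) + X i := by
  simp [tay]

theorem tay_sum {α : Type} (s : Finset α) (f : α → MvPolynomial σ R) :
    tay (∑ a ∈ s, f a) = ∑ a ∈ s, tay (f a) := by
  simp [tay]

theorem hd_add (k : σ →₀ ℕ) (F G : MvPolynomial σ R) : hd k (F + G) = hd k F + hd k G := by
  simp [hd, tay_add]

theorem hd_sum {α : Type} (s : Finset α) (k : σ →₀ ℕ) (f : α → MvPolynomial σ R) :
    hd k (∑ a ∈ s, f a) = ∑ a ∈ s, hd k (f a) := by
  simp [hd, tay_sum, MvPolynomial.coeff_sum]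

theorem hd_zero (k : σ →₀ ℕ) : hd k (0 : MvPolynomial σ R) = 0 := by
  simp [hd, tay]

theorem hd_C_mul (k : σ →₀ ℕ) (a : R) (F : MvPolynomial σ R) :
    hd k (C a * F) = C a * hd k F := by
  simp [hd, tay_mul, tay_C, MvPolynomial.coeff_C_mul]

/-- product rule -/
theorem hd_mul [DecidableEq σ] (k : σ →₀ ℕ) (F G : MvPolynomial σ R) :
    hd k (F * G) = ∑ x ∈ antidiagonal k, hd x.1 F * hd x.2 G := by
  simp [hd, tay_mul, MvPolynomial.coeff_mul]

/-- Taylor expansion at a point of a commutative algebra -/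
theorem aeval_hd {S : Type} [CommRing S] [Algebra R S] (k : σ →₀ ℕ) (F : MvPolynomial σ R)
    (y : σ → S) : aeval y (hd k F) =
      coeff k (aeval (fun i => (C (y i) + X i : MvPolynomial σ S)) F) := by
  have h : (aeval (fun i => (C (y i) + X i : MvPolynomial σ S)) F) =
      MvPolynomial.map (aeval y : MvPolynomial σ R →ₐ[R] S).toRingHom (tay F) := by
    rw [tay]
    induction F using MvPolynomial.induction_on with
    | C a => simp [MvPolynomial.algebraMap_apply]
    | add p q hp hq => simp only [map_add, hp, hq]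
    | mul_X p i hp => simp only [map_mul, hp, aeval_X]; simp
  rw [h, MvPolynomial.coeff_map]
  rfl

end hasse

section places

variable {K : Type} [Field K] (P : Places K)

theorem N_nonneg (v : P.V) (x : K) : 0 ≤ P.N v x := by
  unfold Places.N; positivity

theorem N_zero (v : P.V) : P.N v 0 = 0 := by
  simp [Places.N]

theorem N_one (v : P.V) : P.N v 1 = 1 := by
  simp [Places.N]

theorem N_mul (v : P.V) (x y : K) : P.N v (x * y) = P.N v x * P.N v y := by
  simp [Places.N, mul_pow]

theorem N_pos (v : P.V) {x : K} (hx : x ≠ 0) : 0 < P.N v x := by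
  unfold Places.N; exact pow_pos (P.abv v |>.pos hx) _

theorem N_neg (v : P.V) (x : K) : P.N v (-x) = P.N v x := by
  simp [Places.N]

theorem N_prod {α : Type} (v : P.V) (s : Finset α) (f : α → K) :
    P.N v (∏ a ∈ s, f a) = ∏ a ∈ s, P.N v (f a) := by
  classical
  induction s using Finset.induction_on with
  | empty => simp [N_one]
  | insert a s ha ih => rw [prod_insert ha, prod_insert ha, N_mul, ih]

theorem N_pow (v : P.V) (x : K) (k : ℕ) : P.N v (x ^ k) = P.N v x ^ k := by
  simp [Places.N, ← pow_mul, mul_comm]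

/-- ultrametric or triangle inequality for sums -/
theorem N_sum_le {α : Type} (v : P.V) (s : Finset α) (f : α → K) (B : ℝ) (hB : 0 ≤ B)
    (h : ∀ a ∈ s, P.N v (f a) ≤ B) : P.N v (∑ a ∈ s, f a) ≤ (s.card : ℝ) ^ P.e v * B := by
  classical
  by_cases he : P.e v = 0
  · simp only [he, pow_zero, one_mul]
    induction s using Finset.induction_on with
    | empty => simpa [N_zero] using hB
    | insert a s ha ih =>
      rw [sum_insert ha]
      have h1 := h a (mem_insert_self a s)
      have h2 := ih (fun b hb => h b (mem_insert_of_mem hb))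
      simp only [Places.N, he] at h1 h2 ⊢
      simp only [zero_le_one, max_eq_right, pow_one] at h1 h2 ⊢
      exact (P.nonarch v he _ _).trans (max_le h1 h2)
  · have h1 : 1 ≤ P.e v := Nat.one_le_iff_ne_zero.mpr he
    have hm : max (P.e v) 1 = P.e v := max_eq_left h1
    have hb : ∀ a ∈ s, P.abv v (f a) ≤ B ^ ((P.e v : ℝ)⁻¹) := by
      intro a ha
      have h2 := h a ha
      rw [Places.N, hm] at h2
      have h3 := Real.rpow_le_rpow (by positivity) h2 (by positivity : (0:ℝ) ≤ (P.e v : ℝ)⁻¹)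
      rwa [← Real.rpow_natCast, ← Real.rpow_mul (AbsoluteValue.nonneg _ _),
        mul_inv_cancel₀ (by exact_mod_cast he), Real.rpow_one] at h3
    have h4 : P.abv v (∑ a ∈ s, f a) ≤ (s.card : ℝ) * B ^ ((P.e v : ℝ)⁻¹) := by
      refine (AbsoluteValue.sum_le _ _ _).trans ?_
      refine (Finset.sum_le_card_nsmul _ _ _ hb).trans ?_
      simp
    rw [Places.N, hm]
    calc P.abv v (∑ a ∈ s, f a) ^ P.e v ≤ ((s.card : ℝ) * B ^ ((P.e v : ℝ)⁻¹)) ^ P.e v :=
          pow_le_pow_left₀ (AbsoluteValue.nonneg _ _) h4 _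
      _ = (s.card : ℝ) ^ P.e v * B := by
          rw [mul_pow, ← Real.rpow_natCast (B ^ ((P.e v : ℝ)⁻¹)), ← Real.rpow_mul hB,
            inv_mul_cancel₀ (by exact_mod_cast he), Real.rpow_one]

theorem N_le_nrm {ι : Type} [Finite ι] (v : P.V) (x : ι → K) (i : ι) :
    P.N v (x i) ≤ P.nrm v x := by
  unfold Places.N Places.nrm
  exact pow_le_pow_left₀ (AbsoluteValue.nonneg _ _)
    (le_ciSup (f := fun i => P.abv v (x i)) (Set.finite_range _).bddAbove i) _

theorem nrm_nonneg {ι : Type} (v : P.V) (x : ι → K) : 0 ≤ P.nrm v x := by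
  unfold Places.nrm
  exact pow_nonneg (Real.iSup_nonneg fun i => AbsoluteValue.nonneg _ _) _

/-- the sup norm is attained -/
theorem exists_N_eq_nrm {ι : Type} [Finite ι] [Nonempty ι] (v : P.V) (x : ι → K) :
    ∃ i, P.nrm v x = P.N v (x i) := by
  obtain ⟨i, hi⟩ := exists_eq_ciSup_of_finite (f := fun i => P.abv v (x i))
  refine ⟨i, ?_⟩
  unfold Places.nrm Places.N
  rw [← hi]

theorem card_V_pos : 0 < Fintype.card P.V := by
  obtain ⟨v, -⟩ := P.arch
  exact Fintype.card_pos_iff.mpr ⟨v⟩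

theorem D_pos : 0 < P.D := by
  obtain ⟨v, hv⟩ := P.arch
  unfold Places.D
  exact lt_of_lt_of_le (Nat.pos_of_ne_zero hv)
    (Finset.single_le_sum (f := fun v => P.e v) (fun _ _ => Nat.zero_le _) (mem_univ v))

/-- product formula -/
theorem one_le_prod_N {x : K} (hx : x ∈ P.O) (h0 : x ≠ 0) : 1 ≤ ∏ v, P.N v x := P.pf x hx h0

theorem N_intCast_le (v : P.V) (z : ℤ) {b : ℝ} (_h1 : 1 ≤ b) (hz : |(z : ℝ)| ≤ b) :
    P.N v (z : K) ≤ b ^ P.e v := by
  have key : ∀ n : ℕ, (n : ℝ) ≤ b → P.N v (n : K) ≤ b ^ P.e v := by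
    intro n hn
    have h : (n : K) = ∑ _a ∈ Finset.range n, (1 : K) := by simp
    rw [h]
    refine (N_sum_le P v _ _ 1 zero_le_one (fun a _ => (N_one P v).le)).trans ?_
    rw [Finset.card_range, mul_one]
    exact pow_le_pow_left₀ (Nat.cast_nonneg n) hn _
  obtain ⟨n, rfl | rfl⟩ := z.eq_nat_or_neg
  · have := key n (by simpa using hz)
    simpa using this
  · have := key n (by simpa using hz)
    rw [Int.cast_neg, N_neg]
    simpa using this

theorem N_nsmul_le (v : P.V) (n : ℕ) (x : K) (hn : 0 < n) :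
    P.N v (n • x) ≤ (n : ℝ) ^ P.e v * P.N v x := by
  rw [nsmul_eq_mul, N_mul]
  refine mul_le_mul_of_nonneg_right ?_ (N_nonneg P v x)
  have := N_intCast_le P v (n : ℤ) (b := n) (by exact_mod_cast hn) (by simp)
  simpa using this

/-- linear forms are bounded -/
theorem exists_dot_le {ι : Type} [Fintype ι] (v : P.V) (u : ι → K) : ∃ C : ℝ, 1 ≤ C ∧
    ∀ (x : ι → K) (B : ℝ), 0 ≤ B → (∀ j, u j ≠ 0 → P.N v (x j) ≤ B) → P.N v (u ⬝ᵥ x) ≤ C * B := by
  classical
  have hs : 0 ≤ ∑ j, P.N v (u j) := Finset.sum_nonneg fun j _ => N_nonneg P v (u j)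
  have hc : (1 : ℝ) ≤ (1 + Fintype.card ι : ℝ) ^ P.e v :=
    one_le_pow₀ (by have : (0 : ℝ) ≤ Fintype.card ι := Nat.cast_nonneg _; linarith)
  refine ⟨(1 + Fintype.card ι : ℝ) ^ P.e v * (1 + ∑ j, P.N v (u j)),
    by nlinarith, fun x B hB hx => ?_⟩
  have h1 : ∀ j ∈ (univ : Finset ι), P.N v (u j * x j) ≤ (1 + ∑ j, P.N v (u j)) * B := by
    intro j _
    rw [N_mul]
    by_cases h : u j = 0
    · rw [h, N_zero, zero_mul]; positivity
    · refine mul_le_mul ?_ (hx j h) (N_nonneg P v _) (by positivity)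
      have := Finset.single_le_sum (f := fun j => P.N v (u j)) (fun j _ => N_nonneg P v (u j))
        (mem_univ j)
      linarith
  refine (N_sum_le P v univ (fun j => u j * x j) _ (by positivity) h1).trans ?_
  rw [mul_assoc]
  refine mul_le_mul_of_nonneg_right ?_ (by positivity)
  refine pow_le_pow_left₀ (Nat.cast_nonneg _) ?_ _
  rw [Finset.card_univ]; linarith

/-- matrices are bounded -/
theorem exists_mulVec_le {ι κ : Type} [Fintype ι] [Fintype κ] (v : P.V) (A : Matrix κ ι K) :
    ∃ C : ℝ, 1 ≤ C ∧ ∀ (x : ι → K) (B : ℝ), 0 ≤ B → (∀ j, P.N v (x j) ≤ B) →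
      ∀ i, P.N v ((A *ᵥ x) i) ≤ C * B := by
  classical
  choose C hC h using fun i => exists_dot_le P v (A i)
  refine ⟨1 + ∑ i, C i, ?_, fun x B hB hx i => ?_⟩
  · have : 0 ≤ ∑ i, C i := Finset.sum_nonneg fun i _ => zero_le_one.trans (hC i)
    linarith
  · refine (h i x B hB (fun j _ => hx j)).trans (mul_le_mul_of_nonneg_right ?_ hB)
    have := Finset.single_le_sum (f := fun i => C i) (fun i _ => zero_le_one.trans (hC i))
      (mem_univ i)
    linarith

/-- determinants -/
theorem N_det_le {n : ℕ} (v : P.V) (E : Matrix (Fin n) (Fin n) K) (B : ℝ)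
    (h : ∀ σ : Equiv.Perm (Fin n), ∏ i, P.N v (E (σ i) i) ≤ B) (hB : 0 ≤ B) :
    P.N v E.det ≤ (n.factorial : ℝ) ^ P.e v * B := by
  rw [Matrix.det_apply]
  refine (N_sum_le P v univ _ B hB (fun σ _ => ?_)).trans ?_
  · have h1 : P.N v (Equiv.Perm.sign σ • ∏ i, E (σ i) i) = ∏ i, P.N v (E (σ i) i) := by
      rw [← N_prod]
      rcases Int.units_eq_one_or (Equiv.Perm.sign σ) with h | h <;> simp [h, N_neg]
    rw [h1]; exact h σ
  · rw [Finset.card_univ, Fintype.card_perm, Fintype.card_fin]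

theorem IsO.sub {ι : Type} {x y : ι → K} (hx : P.IsO x) (hy : P.IsO y) : P.IsO (x - y) :=
  fun i => P.O.sub_mem (hx i) (hy i)

theorem IsO.smul {ι : Type} {a : K} {x : ι → K} (ha : a ∈ P.O) (hx : P.IsO x) : P.IsO (a • x) :=
  fun i => P.O.mul_mem ha (hx i)

theorem IsO.sum {α ι : Type} (s : Finset α) {x : α → ι → K} (hx : ∀ a ∈ s, P.IsO (x a)) :
    P.IsO (∑ a ∈ s, x a) := by
  intro i
  rw [Finset.sum_apply]
  exact P.O.sum_mem fun a ha => hx a ha i

theorem det_mem {n : ℕ} {E : Matrix (Fin n) (Fin n) K} (h : ∀ i j, E i j ∈ P.O) :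
    E.det ∈ P.O := by
  rw [Matrix.det_apply]
  refine P.O.sum_mem fun σ _ => ?_
  have h1 := P.O.prod_mem fun i (_ : i ∈ (univ : Finset (Fin n))) => h (σ i) i
  rcases Int.units_eq_one_or (Equiv.Perm.sign σ) with h | h
  · simpa [h] using h1
  · simpa [h] using P.O.neg_mem h1

end places

section lsub

variable {m : ℕ} {ι R K : Type} [Fintype ι] [CommRing R] [Field K] [Algebra R K]

theorem lsub_add (B : Matrix ι ι K) (F G : MvPolynomial (Fin m × ι) R) :
    lsub B (F + G) = lsub B F + lsub B G := by simp [lsub]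

theorem lsub_mul (B : Matrix ι ι K) (F G : MvPolynomial (Fin m × ι) R) :
    lsub B (F * G) = lsub B F * lsub B G := by simp [lsub]

theorem lsub_sum {α : Type} (s : Finset α) (B : Matrix ι ι K)
    (f : α → MvPolynomial (Fin m × ι) R) : lsub B (∑ a ∈ s, f a) = ∑ a ∈ s, lsub B (f a) := by
  simp [lsub]

theorem lsub_monomial (B : Matrix ι ι K) (s : Fin m × ι →₀ ℕ) (a : R) :
    lsub B (monomial s a) = C (algebraMap R K a) *
      ∏ p : Fin m × ι, (∑ j, C (B p.2 j) * X (p.1, j)) ^ s p := by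
  classical
  rw [lsub, aeval_monomial, MvPolynomial.algebraMap_apply]
  congr 1
  exact Finsupp.prod_fintype _ _ (fun i => pow_zero _)

/-- evaluation of `lsub` -/
theorem aeval_lsub (B : Matrix ι ι K) (F : MvPolynomial (Fin m × ι) R) {S : Type} [CommRing S]
    [Algebra K S] [Algebra R S] [IsScalarTower R K S] (y : Fin m × ι → S) :
    aeval y (lsub B F) = aeval (fun p => ∑ j, algebraMap K S (B p.2 j) * y (p.1, j)) F := by
  induction F using MvPolynomial.induction_on with
  | C a => simp [lsub, MvPolynomial.algebraMap_apply, ← IsScalarTower.algebraMap_apply]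
  | add p q hp hq => rw [lsub_add, map_add, map_add, hp, hq]
  | mul_X p i hp =>
    rw [lsub_mul, map_mul, map_mul, hp]
    congr 1
    simp [lsub]

/-- substitutions compose -/
theorem lsub_lsub (A B : Matrix ι ι K) (F : MvPolynomial (Fin m × ι) R) :
    lsub A (lsub B F) = lsub (B * A) F := by
  induction F using MvPolynomial.induction_on with
  | C a => simp [lsub, MvPolynomial.algebraMap_apply]
  | add p q hp hq => simp only [lsub_add, hp, hq]
  | mul_X p i hp =>
    simp only [lsub_mul, hp]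
    congr 1
    simp only [lsub, aeval_X, map_sum, map_mul, aeval_C, MvPolynomial.algebraMap_apply,
      Algebra.algebraMap_self, RingHom.id_apply, Matrix.mul_apply, Finset.mul_sum, Finset.sum_mul]
    rw [Finset.sum_comm]
    refine Finset.sum_congr rfl fun j _ => Finset.sum_congr rfl fun l _ => by ring

theorem lsub_one [DecidableEq ι] (F : MvPolynomial (Fin m × ι) R) :
    lsub (1 : Matrix ι ι K) F = MvPolynomial.map (algebraMap R K) F := by
  induction F using MvPolynomial.induction_on with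
  | C a => simp [lsub, MvPolynomial.algebraMap_apply]
  | add p q hp hq => simp only [lsub_add, hp, hq, map_add]
  | mul_X p i hp =>
    simp only [lsub_mul, hp, map_mul, map_X]
    congr 1
    simp [lsub, Matrix.one_apply]

end lsub

end Pool.Agent.Work.Tools.Subspace
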