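import Mathlib

/-!
# The Subspace theorem: definitions

`Places K` is a finite set of normalised absolute values of a field `K` with a ring of `S`-integers
satisfying the product formula, together with a height function. All statements of the project are
proved for such an abstract structure, which is then constructed for number fields.
-/

namespace Pool.Agent.Work.Tools.Subspace

open Finset Matrix

/-- A finite set `V` of absolute values of `K`, the exponents `e v` (`0` for nonarchimedean, `1` for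
real, `2` for complex absolute values), a ring `O` of `S`-integers and a height of tuples. -/
structure Places (K : Type) [Field K] where
  /-- the places in `S` -/
  V : Type
  [fin : Fintype V]
  [dec : DecidableEq V]
  /-- the absolute values -/
  abv : V → AbsoluteValue K ℝ
  /-- `0` for nonarchimedean, local degree for archimedean places -/
  e : V → ℕ
  nonarch : ∀ v, e v = 0 → ∀ x y, abv v (x + y) ≤ max (abv v x) (abv v y)
  arch : ∃ v, e v ≠ 0
  /-- the ring of `S`-integers -/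
  O : Subring K
  frac : ∀ x : K, ∃ c ∈ O, c ≠ 0 ∧ c * x ∈ O
  /-- product formula for `S`-integers -/
  pf : ∀ x ∈ O, x ≠ 0 → 1 ≤ ∏ v, abv v x ^ max (e v) 1
  /-- pigeonhole principle -/
  pig : ∀ (ι : Type) [Fintype ι] [DecidableEq ι] [Nonempty ι] (A : V → Matrix ι ι K),
    ∃ C : ℝ, 0 < C ∧ ∀ θ : V → ι → ℝ, (∀ v i, 0 < θ v i) → C ≤ ∏ v, ∏ i, θ v i →
      ∃ x : ι → K, (∀ i, x i ∈ O) ∧ x ≠ 0 ∧ ∀ v i, abv v ((A v *ᵥ x) i) ^ max (e v) 1 ≤ θ v i
  /-- rounding at the archimedean places -/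
  round : ∃ C : ℝ, ∀ t : V → K, ∃ a ∈ O, ∀ v, (e v = 0 → abv v a ≤ 1) ∧
    (e v ≠ 0 → abv v (t v - a) ≤ C)
  /-- the height of a tuple -/
  H : ∀ {ι : Type} [Fintype ι], (ι → K) → ℝ
  one_le_H : ∀ {ι : Type} [Fintype ι] (x : ι → K), 1 ≤ H x
  H_smul : ∀ {ι : Type} [Fintype ι] (c : K) (x : ι → K), c ≠ 0 → H (c • x) = H x
  H_le : ∀ {ι : Type} [Fintype ι] (x : ι → K), (∀ i, x i ∈ O) → x ≠ 0 →
    H x ≤ ∏ v, (⨆ i, abv v (x i)) ^ max (e v) 1
  H_lin : ∀ {ι : Type} [Fintype ι] (M x : ι → K), (∀ i, x i ∈ O) → M ⬝ᵥ x ≠ 0 →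
    ∏ v, (⨆ i, abv v (M i)) ^ max (e v) 1 ≤ H M * ∏ v, abv v (M ⬝ᵥ x) ^ max (e v) 1
  H_pair : ∀ {ι : Type} [Fintype ι] [DecidableEq ι] (M : ι → K) (a : ι), M a ≠ 0 →
    H M ≤ ∏ b ∈ univ.erase a, H ![-(M b / M a), 1]
  /-- constant of `H_root` -/
  D₁ : ℕ
  /-- height of a zero of multiplicity `k` of an integer polynomial -/
  H_root : ∃ C : ℝ, 1 ≤ C ∧ ∀ (p : Polynomial ℤ) (k : ℕ) (ξ : K) (B : ℝ) (d : ℕ), p ≠ 0 →
    p.natDegree ≤ d → (∀ i, |(p.coeff i : ℝ)| ≤ B) →
    (Polynomial.X - Polynomial.C ξ) ^ k ∣ p.map (algebraMap ℤ K) →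
    H ![ξ, 1] ^ k ≤ C ^ d * B ^ D₁
  /-- number of integral coordinates -/
  D₂ : ℕ
  /-- coordinates over `ℚ` -/
  co : K →+ (Fin D₂ → ℚ)
  co_inj : Function.Injective co
  /-- constant of `co_mul` -/
  Cco : ℕ
  co_mul : ∀ (x y : K) (a b : ℕ), (∀ i, ∃ z : ℤ, co x i = z ∧ |z| ≤ a) →
    (∀ i, ∃ z : ℤ, co y i = z ∧ |z| ≤ b) → ∀ i, ∃ z : ℤ, co (x * y) i = z ∧ |z| ≤ Cco * a * b
  co_int : ∀ x : K, ∃ d : ℕ, 0 < d ∧ ∀ i, ∃ z : ℤ, co (d • x) i = z

attribute [instance] Places.fin Places.dec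

section

variable {K : Type} [Field K] (P : Places K) {ι : Type}

/-- the normalised absolute value (not subadditive at complex places) -/
noncomputable def Places.N (v : P.V) (x : K) : ℝ := P.abv v x ^ max (P.e v) 1

/-- the normalised sup norm of a tuple -/
noncomputable def Places.nrm (v : P.V) (x : ι → K) : ℝ := (⨆ i, P.abv v (x i)) ^ max (P.e v) 1

/-- tuples of `S`-integers -/
def Places.IsO (x : ι → K) : Prop := ∀ i, x i ∈ P.O

/-- the degree -/
def Places.D : ℕ := ∑ v, P.e v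

/-- the points of the domain with thresholds `θ`, dilated by `lam` at the archimedean places -/
def InDom [Fintype ι] (A : P.V → Matrix ι ι K) (θ : P.V → ι → ℝ) (lam : ℝ) (x : ι → K) : Prop :=
  P.IsO x ∧ ∀ v i, P.N v ((A v *ᵥ x) i) ≤ lam ^ P.e v * θ v i

/-- the span of the first `j` vectors of a family -/
def Fl {n : ℕ} (x : Fin n → ι → K) (j : ℕ) : Submodule K (ι → K) :=
  Submodule.span K (x '' {i | (i : ℕ) < j})

/-- the permutation `π` of the forms is adapted to the flag of `x` at the place `v`: on the span of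
the first `j + 1` vectors all forms are bounded by the first `j + 1` forms -/
def Adapted [Fintype ι] {n : ℕ} (v : P.V) (A : Matrix ι ι K) (θ : ι → ℝ) (x : Fin n → ι → K)
    (π : Fin n ≃ ι) (C : ℝ) : Prop :=
  ∀ j : Fin n, ∀ y ∈ Fl x (j + 1), ∀ i, ∃ l ≤ j,
    P.N v ((A *ᵥ y) i) / θ i ≤ C ^ P.e v * (P.N v ((A *ᵥ y) (π l)) / θ (π l))

/-- a hyperplane spanned by points of the domain with exponents `c` at `q`, twisted by `τ` -/
def InstW [Fintype ι] (A : P.V → Matrix ι ι K) (c : P.V → ι → ℝ) (q : ℝ) (τ : P.V → ℝ)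
    (W : Submodule K (ι → K)) : Prop :=
  (∀ v, 0 < τ v) ∧ ∏ v, τ v = 1 ∧ ∃ x : Fin (Fintype.card ι - 1) → ι → K,
    LinearIndependent K x ∧ (∀ j, P.IsO (x j)) ∧
    (∀ v i j, P.N v ((A v *ᵥ x j) i) ≤ τ v * Real.exp (c v i * q)) ∧
    W = Submodule.span K (Set.range x)

/-- `M` is a normal vector of the hyperplane `W` -/
def IsNormal [Fintype ι] (M : ι → K) (W : Submodule K (ι → K)) : Prop :=
  M ≠ 0 ∧ ∀ y, y ∈ W ↔ M ⬝ᵥ y = 0

end

section

/-- Taylor expansion `F (X + T)` as a polynomial in `T` -/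
noncomputable def tay {σ R : Type} [CommRing R] (F : MvPolynomial σ R) :
    MvPolynomial σ (MvPolynomial σ R) :=
  MvPolynomial.aeval (fun i => MvPolynomial.C (MvPolynomial.X i) + MvPolynomial.X i) F

/-- Hasse derivative -/
noncomputable def hd {σ R : Type} [CommRing R] (k : σ →₀ ℕ) (F : MvPolynomial σ R) :
    MvPolynomial σ R :=
  (tay F).coeff k

/-- Taylor coefficient of an integer polynomial at a point over `K` -/
noncomputable def tc {σ K : Type} [Field K] (F : MvPolynomial σ ℤ) (k : σ →₀ ℕ) (y : σ → K) : K :=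
  MvPolynomial.aeval y (hd k F)

/-- all coefficients of an integer polynomial are bounded by `B` -/
def CoefLe {σ : Type} (F : MvPolynomial σ ℤ) (B : ℝ) : Prop :=
  ∀ s, |((MvPolynomial.coeff s F : ℤ) : ℝ)| ≤ B

/-- homogeneous of degree `r h` in the `h`-th block of variables -/
def MH {m : ℕ} {ι R : Type} [Fintype ι] [CommRing R] (r : Fin m → ℕ)
    (F : MvPolynomial (Fin m × ι) R) : Prop :=
  ∀ s ∈ F.support, ∀ h, ∑ i, s (h, i) = r h

/-- the weight `∑ |k_h| / r_h` of a multi-index -/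
noncomputable def wt {m : ℕ} {ι : Type} [Fintype ι] (r : Fin m → ℕ) (k : Fin m × ι →₀ ℕ) : ℝ :=
  ∑ h, (∑ i, (k (h, i) : ℝ)) / r h

/-- substitution of the variables by linear forms in every block -/
noncomputable def lsub {m : ℕ} {ι R K : Type} [Fintype ι] [CommRing R] [Field K] [Algebra R K]
    (B : Matrix ι ι K) (F : MvPolynomial (Fin m × ι) R) : MvPolynomial (Fin m × ι) K :=
  MvPolynomial.aeval (fun p => ∑ j, MvPolynomial.C (B p.2 j) * MvPolynomial.X (p.1, j)) F

/-- the index of `p` at `ξ` is at least `θ` -/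
def IndGe {m : ℕ} {K : Type} [Field K] (p : MvPolynomial (Fin m) ℤ) (ξ : Fin m → K)
    (r : Fin m → ℕ) (θ : ℝ) : Prop :=
  ∀ k : Fin m →₀ ℕ, tc p k ξ ≠ 0 → θ ≤ ∑ h, (k h : ℝ) / r h

/-- compound matrix -/
def cmp {n : ℕ} {R : Type} [CommRing R] (p : ℕ) (A : Matrix (Fin n) (Fin n) R) :
    Matrix (Fin p ↪o Fin n) (Fin p ↪o Fin n) R :=
  fun I J => (A.submatrix I J).det

end

end Pool.Agent.Work.Tools.Subspace
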