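import Pool.Agent.Work.Tools.Subspace.Basic
import Pool.Agent.Work.Tools.Subspace.Stmts
import Pool.Agent.Work.Tools.Subspace.Stmts2

/-!
# Item A: the auxiliary polynomial
-/

namespace Pool.Agent.Work.Tools.Subspace

open Finset Matrix MvPolynomial

namespace IA

theorem toF_apply {m : ℕ} {ι : Type} [Fintype ι] (s : Fin m → ι → ℕ) (p : Fin m × ι) :
    toF s p = s p.1 p.2 := rfl

theorem toF_inj {m : ℕ} {ι : Type} [Fintype ι] : Function.Injective (toF (m := m) (ι := ι)) := by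
  intro s t h
  funext a b
  have := DFunLike.congr_fun h (a, b)
  simpa [toF_apply] using this

theorem mem_mons {m : ℕ} {ι : Type} [Fintype ι] [DecidableEq ι] (r : Fin m → ℕ)
    (s : Fin m → ι → ℕ) : s ∈ mons r ↔ ∀ h, ∑ i, s h i = r h := by
  unfold mons
  rw [Fintype.mem_piFinset]
  refine forall_congr' fun h => ?_
  rw [Finset.mem_piAntidiag]
  simp

theorem mons_nonempty {m : ℕ} {ι : Type} [Fintype ι] [DecidableEq ι] [Nonempty ι]
    (r : Fin m → ℕ) : (mons (ι := ι) r).Nonempty := by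
  obtain ⟨i0⟩ := ‹Nonempty ι›
  refine ⟨fun h => Pi.single i0 (r h), ?_⟩
  rw [mem_mons]
  intro h
  simp

end IA

theorem prfA (h0 : ClaimA0) (h1 : ClaimA1) (h2 : ClaimA2) (h3 : ClaimA3) (h4 : ClaimA4) :
    ClaimA := by
  intro K _ _ P ι _ _ _ A hA ε hε
  classical
  obtain ⟨m₀, hm₀⟩ := exists_nat_ge (2 * (P.D₂ : ℝ) * Fintype.card P.V / ε ^ 2)
  refine ⟨m₀, fun m hm hmpos => ?_⟩
  choose d Cf hd hC hB using fun v => h3 K P ι (A v)⁻¹
  set dd : ℕ := ∏ v, d v with hdd
  set CC : ℕ := ∏ v, Cf v with hCC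
  have hdd1 : 0 < dd := Finset.prod_pos fun v _ => hd v
  have hCC1 : 1 ≤ CC := Finset.one_le_prod' fun v _ => hC v
  have hcd : 1 ≤ CC * dd := Nat.mul_pos hCC1 hdd1
  refine ⟨((2 ^ Fintype.card ι * (CC * dd) ^ 2 : ℕ) : ℝ), ?_, fun r hr => ?_⟩
  · have : 1 ≤ 2 ^ Fintype.card ι * (CC * dd) ^ 2 :=
      Nat.mul_pos (by positivity) (by positivity)
    exact_mod_cast this
  set S : ℕ := ∑ h, r h with hS
  have hS1 : 1 ≤ S := by
    have := Finset.single_le_sum (f := r) (fun h _ => Nat.zero_le _) (mem_univ (⟨0, hmpos⟩ : Fin m))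
    exact le_trans (hr ⟨0, hmpos⟩) this
  -- the bad exponents
  set bad : Finset (Fin m → ι → ℕ) := (mons (ι := ι) r).filter fun s =>
    ∃ i, ∑ h, (s h i : ℝ) / r h < (1 / (Fintype.card ι : ℝ) - ε) * m with hbad
  have hbadcard : 2 * P.D₂ * (Fintype.card P.V * bad.card) ≤ (mons (ι := ι) r).card := by
    have e1 := h1 m ι r ε hr hε
    rw [← hbad] at e1
    have e2 : 2 * (P.D₂ : ℝ) * Fintype.card P.V ≤ ε ^ 2 * m := by
      have e3 : 2 * (P.D₂ : ℝ) * Fintype.card P.V / ε ^ 2 ≤ m :=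
        hm₀.trans (by exact_mod_cast hm)
      rw [div_le_iff₀ (by positivity)] at e3
      linarith
    have e4 : (2 * P.D₂ * (Fintype.card P.V * bad.card) : ℝ) ≤ (mons (ι := ι) r).card := by
      refine le_trans ?_ e1
      have e5 : (0 : ℝ) ≤ bad.card := by positivity
      nlinarith
    exact_mod_cast e4
  -- the lemma of Siegel
  have hcardα : Fintype.card {s // s ∈ mons (ι := ι) r} = (mons (ι := ι) r).card :=
    Fintype.card_coe _
  have hcardβ : Fintype.card (P.V × {t // t ∈ bad}) = Fintype.card P.V * bad.card := by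
    rw [Fintype.card_prod, Fintype.card_coe]
  have hint : ∀ (b : P.V × {t // t ∈ bad}) (a : {s // s ∈ mons (ι := ι) r}) (i : Fin P.D₂),
      ∃ z : ℤ, P.co (dd ^ (S + 1) •
        coeff (toF b.2.1) (lsub (A b.1)⁻¹ (monomial (toF a.1) (1 : ℤ)))) i = z ∧
        |z| ≤ (((CC * dd) ^ (S + 1) : ℕ) : ℤ) := by
    intro b a i
    obtain ⟨z, hz, hz'⟩ := hB b.1 m r a.1 a.2 (toF b.2.1) i
    rw [← hS] at hz hz'
    set e : ℕ := ∏ w ∈ univ.erase b.1, d w with he
    have hde : dd = e * d b.1 := by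
      rw [hdd, he, mul_comm]
      exact (Finset.mul_prod_erase univ d (mem_univ b.1)).symm
    refine ⟨(e ^ (S + 1) : ℕ) * z, ?_, ?_⟩
    · rw [hde, mul_pow, mul_smul, map_nsmul, Pi.smul_apply, hz]
      push_cast
      rw [nsmul_eq_mul]
      push_cast
      ring
    · rw [abs_mul, Nat.abs_cast]
      have e1 : Cf b.1 ≤ CC := by
        rw [hCC, ← Finset.mul_prod_erase univ Cf (mem_univ b.1)]
        exact Nat.le_mul_of_pos_right _ (Finset.prod_pos fun v _ => hC v)
      have e2 : e ≤ dd := by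
        rw [hde]
        exact Nat.le_mul_of_pos_right _ (hd b.1)
      calc ((e ^ (S + 1) : ℕ) : ℤ) * |z| ≤ ((e ^ (S + 1) : ℕ) : ℤ) * (Cf b.1 : ℤ) ^ (S + 1) := by
            gcongr
        _ = ((Cf b.1 * e : ℕ) : ℤ) ^ (S + 1) := by push_cast; ring
        _ ≤ ((CC * dd : ℕ) : ℤ) ^ (S + 1) := by
            have : Cf b.1 * e ≤ CC * dd := Nat.mul_le_mul e1 e2
            gcongr
        _ = (((CC * dd) ^ (S + 1) : ℕ) : ℤ) := by push_cast; ring
  obtain ⟨x, hx0, hxb, hxeq⟩ := h2 K P {s // s ∈ mons (ι := ι) r} (P.V × {t // t ∈ bad})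
    (fun b a => coeff (toF b.2.1) (lsub (A b.1)⁻¹ (monomial (toF a.1) (1 : ℤ))))
    (dd ^ (S + 1)) ((CC * dd) ^ (S + 1))
    (by rw [hcardα]; exact Finset.card_pos.2 (IA.mons_nonempty r))
    (by rw [hcardα, hcardβ]; exact hbadcard)
    (by positivity) (Nat.one_le_pow _ _ hcd) hint
  set F : MvPolynomial (Fin m × ι) ℤ := ∑ a : {s // s ∈ mons (ι := ι) r},
    monomial (toF a.1) (x a) with hF
  have hcoef : ∀ t, coeff t F = ∑ a : {s // s ∈ mons (ι := ι) r},
      if toF a.1 = t then x a else 0 := by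
    intro t
    rw [hF, MvPolynomial.coeff_sum]
    refine Finset.sum_congr rfl fun a _ => ?_
    rw [MvPolynomial.coeff_monomial]
  have hcoef1 : ∀ a : {s // s ∈ mons (ι := ι) r}, coeff (toF a.1) F = x a := by
    intro a
    rw [hcoef, Finset.sum_eq_single a]
    · rw [if_pos rfl]
    · intro b _ hb
      rw [if_neg]
      intro h
      exact hb (Subtype.ext (IA.toF_inj h))
    · intro h
      exact absurd (mem_univ a) h
  have hcoef2 : ∀ t, coeff t F ≠ 0 → ∃ a : {s // s ∈ mons (ι := ι) r}, toF a.1 = t := by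
    intro t ht
    rw [hcoef] at ht
    obtain ⟨a, -, ha⟩ := Finset.exists_ne_zero_of_sum_ne_zero ht
    refine ⟨a, ?_⟩
    by_contra h
    exact ha (if_neg h)
  have hMH : MH r F := by
    intro t ht h
    obtain ⟨a, rfl⟩ := hcoef2 t (mem_support_iff.1 ht)
    exact (IA.mem_mons r a.1).1 a.2 h
  refine ⟨F, ?_, hMH, ?_, ?_⟩
  · intro hF0
    apply hx0
    funext a
    rw [← hcoef1 a, hF0]
    simp
  · intro t
    by_cases ht : coeff t F = 0
    · rw [ht]
      simp only [Int.cast_zero, abs_zero]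
      positivity
    · obtain ⟨a, rfl⟩ := hcoef2 t ht
      rw [hcoef1]
      have e1 := hxb a
      rw [hcardα] at e1
      have e2 := h4 m ι r
      rw [← hS] at e2
      have e3 : (mons (ι := ι) r).card * (CC * dd) ^ (S + 1) ≤
          (2 ^ Fintype.card ι * (CC * dd) ^ 2) ^ S := by
        calc (mons (ι := ι) r).card * (CC * dd) ^ (S + 1)
            ≤ 2 ^ (Fintype.card ι * S) * (CC * dd) ^ (2 * S) :=
              Nat.mul_le_mul e2 (Nat.pow_le_pow_right hcd (by omega))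
          _ = (2 ^ Fintype.card ι * (CC * dd) ^ 2) ^ S := by
              rw [mul_pow (2 ^ Fintype.card ι) ((CC * dd) ^ 2) S, ← pow_mul, ← pow_mul]
      have e4 : |x a| ≤ (((2 ^ Fintype.card ι * (CC * dd) ^ 2) ^ S : ℕ) : ℤ) := by
        refine e1.trans ?_
        exact_mod_cast e3
      have e5 : ((|x a| : ℤ) : ℝ) ≤ (((((2 ^ Fintype.card ι * (CC * dd) ^ 2) ^ S : ℕ) : ℤ)) : ℝ) := by
        exact_mod_cast e4
      rw [Int.cast_abs] at e5
      refine e5.trans (le_of_eq ?_)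
      push_cast
      rfl
  · intro v t ht i
    by_contra hlt
    push Not at hlt
    have hMH2 : MH r (lsub (A v)⁻¹ F) := h0 K ℤ m ι (A v)⁻¹ r F hMH
    set t' : Fin m → ι → ℕ := fun h i => t (h, i) with ht'
    have htt : toF t' = t := by
      ext p
      rw [IA.toF_apply]
    have hmem : t' ∈ mons (ι := ι) r := by
      rw [IA.mem_mons]
      intro h
      exact hMH2 t ht h
    have hb : t' ∈ bad := by
      rw [hbad, Finset.mem_filter]
      exact ⟨hmem, i, hlt⟩
    have e1 := hxeq (v, ⟨t', hb⟩)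
    apply mem_support_iff.1 ht
    rw [← e1, hF]
    unfold lsub
    rw [map_sum, MvPolynomial.coeff_sum]
    refine Finset.sum_congr rfl fun a _ => ?_
    have e2 : (monomial (toF a.1) (x a) : MvPolynomial (Fin m × ι) ℤ) =
        x a • monomial (toF a.1) (1 : ℤ) := by
      rw [smul_monomial]
      simp
    rw [e2, map_zsmul, htt, mul_comm]
    rw [← zsmul_eq_mul]
    exact MvPolynomial.coeff_smul t (x a) _

end Pool.Agent.Work.Tools.Subspace
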