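import Pool.Agent.Work.Tools.Subspace.Basic
import Pool.Agent.Work.Tools.Subspace.Stmts
import Pool.Agent.Work.Tools.Subspace.Stmts2

set_option autoImplicit false

/-!
# Item C5: the product of the sizes
-/

namespace Pool.Agent.Work.Tools.Subspace

open Finset Matrix MvPolynomial

namespace IC5

variable {k p : ℕ}

/-- The image under `π` of the last `p` indices. -/
def T0 (k p : ℕ) (π : Fin (k + p) ≃ Fin (k + p)) : Finset (Fin (k + p)) :=
  (univ.map (Fin.natAddEmb k : Fin p ↪ Fin (k + p))).map π.toEmbedding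

theorem card_T0 (π : Fin (k + p) ≃ Fin (k + p)) : (T0 k p π).card = p := by
  rw [T0, Finset.card_map, Finset.card_map, Finset.card_univ, Fintype.card_fin]

theorem mem_T0 (π : Fin (k + p) ≃ Fin (k + p)) (x : Fin (k + p)) :
    x ∈ T0 k p π ↔ k ≤ (π.symm x : ℕ) := by
  unfold T0
  rw [Finset.mem_map]
  constructor
  · rintro ⟨y, hy, rfl⟩
    rw [Finset.mem_map] at hy
    obtain ⟨a, _, rfl⟩ := hy
    rw [Equiv.coe_toEmbedding, Equiv.symm_apply_apply]
    exact Nat.le_add_right k a
  · intro h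
    refine ⟨π.symm x, ?_, by rw [Equiv.coe_toEmbedding, Equiv.apply_symm_apply]⟩
    rw [Finset.mem_map]
    have hlt := (π.symm x).isLt
    refine ⟨⟨(π.symm x : ℕ) - k, by omega⟩, Finset.mem_univ _, ?_⟩
    apply Fin.ext
    show k + ((π.symm x : ℕ) - k) = (π.symm x : ℕ)
    omega

theorem cond_iff (π : Fin (k + p) ≃ Fin (k + p)) (I : Fin p ↪o Fin (k + p)) :
    (∀ i ∈ (univ.map I.toEmbedding).map π.symm.toEmbedding, k ≤ (i : ℕ)) ↔
      I = (T0 k p π).orderEmbOfFin (card_T0 π) := by
  constructor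
  · intro h
    refine Finset.orderEmbOfFin_unique' _ fun a => ?_
    rw [mem_T0]
    apply h
    rw [Finset.mem_map]
    refine ⟨I a, ?_, rfl⟩
    rw [Finset.mem_map]
    exact ⟨a, Finset.mem_univ a, rfl⟩
  · rintro hI i hi
    rw [Finset.mem_map] at hi
    obtain ⟨y, hy, rfl⟩ := hi
    rw [Finset.mem_map] at hy
    obtain ⟨a, _, rfl⟩ := hy
    have h := Finset.orderEmbOfFin_mem (T0 k p π) (card_T0 π) a
    rw [← hI, mem_T0] at h
    exact h

end IC5

open IC5 in
/-- C5: the product of the sizes. -/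
theorem prfC5 (h4 : ClaimC4) : ClaimC5 := by
  intro n p k μ π g hp hkp hμ hg
  subst hkp
  unfold wsz
  rw [Finset.prod_mul_distrib]
  congr 1
  · have h1 := h4 (k + p) p (fun i => μ (π.symm i)) hp (fun i => hμ _)
    rw [Equiv.prod_comp π.symm μ] at h1
    rw [← h1]
    refine Finset.prod_congr rfl fun I _ => ?_
    rw [Finset.prod_map, Finset.prod_map]
    rfl
  · rw [Finset.prod_eq_single ((T0 k p π).orderEmbOfFin (card_T0 π))]
    · rw [if_pos ((cond_iff π _).2 rfl)]
    · intro I _ hI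
      rw [if_neg (fun h => hI ((cond_iff π I).1 h))]
    · intro h
      exact absurd (Finset.mem_univ _) h

end Pool.Agent.Work.Tools.Subspace
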