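import Pool.Agent.Work.Tools.Subspace.Basic
import Pool.Agent.Work.Tools.Subspace.Stmts
import Pool.Agent.Work.Tools.Subspace.Stmts2

set_option autoImplicit false

namespace Pool.Agent.Work.Tools.Subspace

open Finset Matrix MvPolynomial

namespace IG3

lemma tay_map {σ R S : Type} [CommRing R] [CommRing S] (φ : R →+* S) (F : MvPolynomial σ R) :
    tay (map φ F) = map (map φ) (tay F) := by
  induction F using MvPolynomial.induction_on with
  | C a => simp [tay_C]
  | add p q hp hq => simp only [tay_add, map_add, hp, hq]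
  | mul_X p i hp => simp only [tay_mul, map_mul, hp, tay_X, map_X, map_add, map_C]

lemma hd_map {σ R S : Type} [CommRing R] [CommRing S] (φ : R →+* S) (k : σ →₀ ℕ)
    (F : MvPolynomial σ R) : hd k (map φ F) = map φ (hd k F) := by
  unfold hd
  rw [tay_map, coeff_map]

variable {K : Type} [Field K] {m ν : ℕ} {ι : Type} [Fintype ι]

omit [Fintype ι] in
lemma degreeOf_lin [DecidableEq (Fin m × Fin ν)] (x : Fin m → Fin ν → ι → K) (p : Fin m × ι)
    (q : Fin m × Fin ν) :
    degreeOf q (∑ j, C (x p.1 j p.2) * X (p.1, j) : MvPolynomial (Fin m × Fin ν) K) ≤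
      if p.1 = q.1 then 1 else 0 := by
  refine (degreeOf_sum_le _ _ _).trans ?_
  refine Finset.sup_le fun j _ => ?_
  refine (degreeOf_mul_le _ _ _).trans ?_
  rw [degreeOf_C, zero_add]
  by_cases h : q = (p.1, j)
  · subst h
    rw [if_pos rfl, degreeOf_X_self]
  · rw [degreeOf_X_of_ne h]
    exact Nat.zero_le _

lemma degreeOf_sub (r' : Fin m → ℕ) (G : MvPolynomial (Fin m × ι) K) (hG : MH r' G)
    (x : Fin m → Fin ν → ι → K) (q : Fin m × Fin ν) :
    degreeOf q (aeval (fun p => ∑ j, C (x p.1 j p.2) * X (p.1, j) :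
      Fin m × ι → MvPolynomial (Fin m × Fin ν) K) G) ≤ r' q.1 := by
  classical
  conv_lhs => rw [← support_sum_monomial_coeff G]
  rw [map_sum]
  refine (degreeOf_sum_le _ _ _).trans (Finset.sup_le fun s hs => ?_)
  rw [aeval_monomial]
  refine (degreeOf_mul_le _ _ _).trans ?_
  rw [MvPolynomial.algebraMap_eq, degreeOf_C, zero_add, Finsupp.prod_fintype _ _
    (fun i => pow_zero _)]
  refine (degreeOf_prod_le _ _ _).trans ?_
  rw [← hG s hs q.1, Fintype.sum_prod_type]
  have h1 : ∀ p : Fin m × ι, degreeOf q ((∑ j, C (x p.1 j p.2) * X (p.1, j) :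
      MvPolynomial (Fin m × Fin ν) K) ^ s p) ≤ if p.1 = q.1 then s p else 0 := by
    intro p
    refine (degreeOf_pow_le _ _ _).trans ?_
    have := degreeOf_lin x p q
    split_ifs at this ⊢ with h
    · calc _ ≤ s p * 1 := Nat.mul_le_mul_left _ this
        _ = s p := mul_one _
    · rw [Nat.le_zero.mp this, mul_zero]
  refine (Finset.sum_le_sum fun h _ => Finset.sum_le_sum fun i _ => h1 (h, i)).trans ?_
  rw [Finset.sum_eq_single q.1]
  · simp
  · intro h _ hh
    simp [hh]
  · intro h
    exact absurd (mem_univ _) h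

end IG3

open IG3 in
theorem prfG3 (h2 : ClaimT2) (h4 : ClaimT4) (g1 : ClaimG1) (g2 : ClaimG2) : ClaimG3 := by
  intro K _ _ m ν ι _ r F x θ B hF hr hm hν hθ hB hv l hl y hy
  classical
  choose a ha using fun h => (Submodule.mem_span_range_iff_exists_fun K).mp (hy h)
  let Fl : MvPolynomial (Fin m × ι) K := map (algebraMap ℤ K) (hd l F)
  let f : MvPolynomial (Fin m × Fin ν) K := aeval (fun p => ∑ j, C (x p.1 j p.2) * X (p.1, j) :
      Fin m × ι → MvPolynomial (Fin m × Fin ν) K) Fl
  have hmR : (0 : ℝ) < m := by exact_mod_cast hm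
  have hνR : (0 : ℝ) < ν := by exact_mod_cast hν
  have hrR : ∀ h, (0 : ℝ) < r h := fun h => by exact_mod_cast hr h
  have hFl : MH (fun h => r h - ∑ i, l (h, i)) Fl := by
    intro s hs h
    refine (h4 m ι ℤ r F l hF).1 s ?_ h
    rw [mem_support_iff] at hs ⊢
    intro h0
    apply hs
    simp only [Fl, coeff_map, h0, map_zero]
  have hdeg : ∀ q, degreeOf q f ≤ r q.1 := fun q =>
    (degreeOf_sub _ Fl hFl x q).trans (Nat.sub_le _ _)
  let o : Fin m × Fin ν → ℕ := fun p => ⌊θ * r p.1 / (m * ν)⌋₊
  have ho : ∀ p, (o p : ℝ) ≤ θ * r p.1 / (m * ν) := fun p =>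
    Nat.floor_le (by have := hrR p.1; positivity)
  have hf : f = 0 := by
    refine g1 K (Fin m × Fin ν) f (fun q => r q.1) o B hdeg ?_ ?_
    · intro p
      have h5 : θ * r p.1 / (m * ν) < (o p : ℝ) + 1 := Nat.lt_floor_add_one _
      have h6 : (r p.1 : ℝ) < (B + 1) * ((o p : ℝ) + 1) := by
        have hBp : (0 : ℝ) < (B : ℝ) + 1 := by positivity
        calc (r p.1 : ℝ) = (m * ν) * (r p.1 / (m * ν)) := by field_simp
          _ < ((B + 1) * θ) * (r p.1 / (m * ν)) :=
            mul_lt_mul_of_pos_right hB (by have := hrR p.1; positivity)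
          _ = (B + 1) * (θ * r p.1 / (m * ν)) := by ring
          _ < (B + 1) * ((o p : ℝ) + 1) := mul_lt_mul_of_pos_left h5 hBp
      exact_mod_cast h6
    · intro k' y' hk' hy'
      refine g2 K m ν ι Fl x k' (fun p => ((y' p : ℕ) : K)) ?_
      intro l' hl'
      simp only [Fl]
      rw [hd_map, h2 (Fin m × ι) ℤ l' l F, aeval_map_algebraMap, map_mul, aeval_C]
      have h7 : tc F (l' + l) (fun p => ∑ j, (y' (p.1, j) : K) * x p.1 j p.2) = 0 := by
        refine hv (l' + l) ?_ (fun h j => y' (h, j)) (fun h j => hy' (h, j))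
        have e1 : wt r (l' + l) = wt r l' + wt r l := by
          unfold wt
          rw [← Finset.sum_add_distrib]
          refine Finset.sum_congr rfl fun h _ => ?_
          rw [← add_div, ← Finset.sum_add_distrib]
          simp only [Finsupp.add_apply, Nat.cast_add]
        have e2 : wt r l' ≤ θ := by
          have e3 : ∀ h ∈ (univ : Finset (Fin m)), (∑ i, (l' (h, i) : ℝ)) / r h ≤ θ / m := by
            intro h _
            have e4 : (∑ i, (l' (h, i) : ℝ)) = ∑ j, (k' (h, j) : ℝ) := by
              exact_mod_cast hl' h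
            rw [e4, div_le_iff₀ (hrR h)]
            calc ∑ j, (k' (h, j) : ℝ) ≤ ∑ j : Fin ν, θ * r h / (m * ν) := by
                  refine Finset.sum_le_sum fun j _ => ?_
                  have e5 : ((k' (h, j) : ℕ) : ℝ) ≤ (o (h, j) : ℝ) := by
                    exact_mod_cast hk' (h, j)
                  exact e5.trans (ho (h, j))
              _ = θ / m * r h := by
                  rw [Finset.sum_const, Finset.card_univ, Fintype.card_fin, nsmul_eq_mul]
                  field_simp
          have e6 := Finset.sum_le_sum e3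
          rw [Finset.sum_const, Finset.card_univ, Fintype.card_fin, nsmul_eq_mul,
            mul_div_cancel₀ _ hmR.ne'] at e6
          exact e6
        rw [e1]
        linarith
      unfold tc at h7
      rw [h7, mul_zero]
  have h8 : tc F l (fun p => y p.1 p.2) = aeval (fun q : Fin m × Fin ν => a q.1 q.2) f := by
    simp only [f, tc]
    rw [← aeval_map_algebraMap K]
    change aeval (fun p : Fin m × ι => y p.1 p.2) Fl = _
    have h9 : ∀ G : MvPolynomial (Fin m × ι) K, aeval (fun p : Fin m × ι => y p.1 p.2) G =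
        aeval (fun q : Fin m × Fin ν => a q.1 q.2) (aeval (fun p => ∑ j, C (x p.1 j p.2) *
          X (p.1, j) : Fin m × ι → MvPolynomial (Fin m × Fin ν) K) G) := by
      intro G
      induction G using MvPolynomial.induction_on with
      | C c => simp
      | add p q hp hq => simp only [map_add, hp, hq]
      | mul_X p i hp =>
        rw [map_mul, map_mul, map_mul, hp]
        congr 1
        simp only [aeval_X, map_sum, map_mul, aeval_C]
        have h10 := congrFun (ha i.1) i.2
        rw [← h10, Finset.sum_apply]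
        refine Finset.sum_congr rfl fun j _ => ?_
        simp [mul_comm]
    exact h9 Fl
  rw [h8, hf, map_zero]

end Pool.Agent.Work.Tools.Subspace
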