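import Pool.Agent.Work.Tools.Subspace.Basic
import Pool.Agent.Work.Tools.Subspace.Stmts
import Pool.Agent.Work.Tools.Subspace.Stmts2
import Pool.Agent.Work.Tools.Subspace.Stmts3

/-!
# The Subspace theorem: denominators
-/

namespace Pool.Agent.Work.Tools.Subspace

open NumberField

theorem prfP1 : ClaimP1 := by
  intro K _ _ x
  obtain ⟨⟨d, hd⟩, z, hz⟩ := IsLocalization.exists_integer_multiple (nonZeroDivisors (𝓞 K)) x
  refine ⟨d, nonZeroDivisors.ne_zero hd, z, ?_⟩
  rw [Algebra.smul_def] at hz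
  exact hz.symm

end Pool.Agent.Work.Tools.Subspace
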