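import Pool.Agent.Work.Tools.Subspace.Basic
import Pool.Agent.Work.Tools.Subspace.Stmts3

set_option autoImplicit false

/-!
# Item P8b: the lemma of Gauss for a nonarchimedean absolute value
-/

namespace Pool.Agent.Work.Tools.Subspace

namespace IP8b

variable {K : Type} [Field K] {v : AbsoluteValue K ℝ}

theorem coeff_succ (g : Polynomial K) (ξ : K) (i : ℕ) :
    ((Polynomial.X - Polynomial.C ξ) * g).coeff (i + 1) = g.coeff i - ξ * g.coeff (i + 1) := by
  rw [sub_mul, Polynomial.coeff_sub, Polynomial.coeff_X_mul, Polynomial.coeff_C_mul]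

theorem coeff_zero' (g : Polynomial K) (ξ : K) :
    ((Polynomial.X - Polynomial.C ξ) * g).coeff 0 = - (ξ * g.coeff 0) := by
  rw [sub_mul, Polynomial.coeff_sub, Polynomial.mul_coeff_zero, Polynomial.coeff_X_zero,
    zero_mul, zero_sub, Polynomial.coeff_C_mul]

theorem one_step (hv : IsNonarchimedean v) {g : Polynomial K} {ξ : K} {R : ℝ}
    (h : ∀ i, v (((Polynomial.X - Polynomial.C ξ) * g).coeff i) ≤ R) (i : ℕ) :
    max (v ξ) 1 * v (g.coeff i) ≤ R := by
  have hR : 0 ≤ R := (v.nonneg _).trans (h 0)
  rcases le_or_gt (v ξ) 1 with h1 | h1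
  · rw [max_eq_right h1, one_mul]
    -- downward induction
    have key : ∀ m i : ℕ, g.natDegree < i + m → v (g.coeff i) ≤ R := by
      intro m
      induction m with
      | zero =>
        intro i hi
        rw [Polynomial.coeff_eq_zero_of_natDegree_lt (show g.natDegree < i from hi), map_zero]
        exact hR
      | succ m ih =>
        intro i hi
        have h2 := ih (i + 1) (by omega)
        have h3 : g.coeff i = ((Polynomial.X - Polynomial.C ξ) * g).coeff (i + 1) +
            ξ * g.coeff (i + 1) := by
          rw [coeff_succ]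
          ring
        rw [h3]
        refine (hv _ _).trans (max_le (h _) ?_)
        rw [map_mul]
        have := v.nonneg (g.coeff (i + 1))
        nlinarith
    exact key (g.natDegree + 1) i (by omega)
  · rw [max_eq_left h1.le]
    induction i with
    | zero =>
      have h2 := h 0
      rwa [coeff_zero', v.map_neg, map_mul] at h2
    | succ i ih =>
      have h3 : ξ * g.coeff (i + 1) = g.coeff i +
          -(((Polynomial.X - Polynomial.C ξ) * g).coeff (i + 1)) := by
        rw [coeff_succ]
        ring
      rw [← map_mul, h3]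
      refine (hv _ _).trans (max_le ?_ ?_)
      · have := v.nonneg (g.coeff i)
        nlinarith
      · rw [v.map_neg]
        exact h _

theorem step (hv : IsNonarchimedean v) (g : Polynomial K) (ξ : K) (k : ℕ) :
    ∀ R : ℝ, (∀ i, v (((Polynomial.X - Polynomial.C ξ) ^ k * g).coeff i) ≤ R) →
      ∀ i, max (v ξ) 1 ^ k * v (g.coeff i) ≤ R := by
  induction k generalizing g with
  | zero =>
    intro R h i
    rw [pow_zero, one_mul]
    have := h i
    rwa [pow_zero, one_mul] at this
  | succ k ih =>
    intro R h i
    have hm : (0 : ℝ) < max (v ξ) 1 := lt_max_of_lt_right one_pos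
    have h1 : ∀ i, max (v ξ) 1 ^ k *
        v (((Polynomial.X - Polynomial.C ξ) * g).coeff i) ≤ R := by
      apply ih
      intro i
      rw [← mul_assoc, ← pow_succ]
      exact h i
    have h2 := one_step hv (g := g) (ξ := ξ) (R := R / max (v ξ) 1 ^ k) (fun i => by
      rw [le_div_iff₀ (pow_pos hm k), mul_comm]
      exact h1 i) i
    rw [le_div_iff₀ (pow_pos hm k)] at h2
    calc max (v ξ) 1 ^ (k + 1) * v (g.coeff i) = max (v ξ) 1 * v (g.coeff i) * max (v ξ) 1 ^ k := by
          ring
      _ ≤ R := h2

end IP8b

open IP8b in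
/-- P8b: the lemma of Gauss for a nonarchimedean absolute value. -/
theorem prfP8b : ClaimP8b := by
  intro K _ v hv p g ξ k hp h i
  rw [hp] at h
  exact step hv g ξ k 1 h i

end Pool.Agent.Work.Tools.Subspace
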