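import Pool.Agent.Work.Tools.Subspace.Basic
import Pool.Agent.Work.Tools.Subspace.Stmts
import Pool.Agent.Work.Tools.Subspace.Stmts2

/-!
# The Subspace theorem: the lemma of Roth in one variable
-/

namespace Pool.Agent.Work.Tools.Subspace

open Finset Matrix MvPolynomial

namespace IR1

/-- coefficients of the one variable polynomial -/
theorem coeff_aeval {R : Type} [CommRing R] (q : MvPolynomial (Fin 1) R) (k : ℕ) :
    (aeval (fun _ => Polynomial.X : Fin 1 → Polynomial R) q).coeff k =
      coeff (Finsupp.single 0 k) q := by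
  induction q using MvPolynomial.induction_on' with
  | monomial s a =>
    rw [aeval_monomial, MvPolynomial.coeff_monomial, Finsupp.prod_fintype _ _ (fun i => pow_zero _),
      Fin.prod_univ_one, Polynomial.algebraMap_eq, Polynomial.coeff_C_mul_X_pow]
    have h : (k = s 0) ↔ s = Finsupp.single 0 k := by
      constructor
      · rintro rfl
        refine Finsupp.ext fun i => ?_
        rw [Subsingleton.elim i 0]; simp
      · intro h; rw [h]; simp
    by_cases hk : k = s 0
    · rw [if_pos hk, if_pos (h.mp hk)]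
    · rw [if_neg hk, if_neg (fun h' => hk (h.mpr h'))]
  | add p q hp hq => rw [map_add, Polynomial.coeff_add, hp, hq, MvPolynomial.coeff_add]

theorem tc_eq {K : Type} [Field K] (p : MvPolynomial (Fin 1) ℤ) (k : ℕ) (ξ : Fin 1 → K) :
    tc p (Finsupp.single 0 k) ξ =
      (((aeval (fun _ => Polynomial.X : Fin 1 → Polynomial ℤ) p).map (algebraMap ℤ K)).comp
        (Polynomial.X + Polynomial.C (ξ 0))).coeff k := by
  rw [tc, aeval_hd, ← coeff_aeval]
  congr 1
  induction p using MvPolynomial.induction_on with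
  | C a => simp
  | add p q hp hq =>
    rw [map_add, map_add, hp, hq, map_add, Polynomial.map_add, Polynomial.add_comp]
  | mul_X p i hp =>
    rw [map_mul, map_mul, hp, map_mul, Polynomial.map_mul, Polynomial.mul_comp]
    congr 1
    rw [Subsingleton.elim i 0]
    simp [add_comm]

end IR1

open IR1 in
theorem prfR1 : ClaimR1 := by
  intro K _ _ P ε hε
  obtain ⟨C₀, hC, hH⟩ := P.H_root
  have hL : 0 ≤ Real.log C₀ := Real.log_nonneg hC
  have hs : 0 < Real.log C₀ + P.D₁ + 1 := by positivity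
  refine ⟨ε / (2 * (Real.log C₀ + P.D₁ + 1)), by positivity, ?_⟩
  intro r ξ p B G hr hp hdeg hB hcoef hG hsmall hG0 hind
  set p₁ : Polynomial ℤ := aeval (fun _ => Polynomial.X : Fin 1 → Polynomial ℤ) p with hp₁
  have hcoef₁ : ∀ i, p₁.coeff i = coeff (Finsupp.single 0 i) p := fun i => coeff_aeval p i
  have hp₁0 : p₁ ≠ 0 := by
    intro h0
    apply hp
    ext s
    have hs : s = Finsupp.single 0 (s 0) := by
      refine Finsupp.ext fun i => ?_
      rw [Subsingleton.elim i 0]; simp
    rw [hs, ← hcoef₁, h0]; simp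
  have hdeg₁ : p₁.natDegree ≤ r 0 := by
    rw [Polynomial.natDegree_le_iff_coeff_eq_zero]
    intro N hN
    rw [hcoef₁]
    by_contra hne
    have h1 := MvPolynomial.monomial_le_degreeOf (0 : Fin 1) (mem_support_iff.mpr hne)
    simp at h1
    omega
  have hinj : Function.Injective (algebraMap ℤ K) := by
    simpa using (algebraMap ℤ K).injective_int
  have hmap : p₁.map (algebraMap ℤ K) ≠ 0 := (Polynomial.map_ne_zero_iff hinj).mpr hp₁0
  set k := (p₁.map (algebraMap ℤ K)).rootMultiplicity (ξ 0) with hk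
  have hdvd : (Polynomial.X - Polynomial.C (ξ 0)) ^ k ∣ p₁.map (algebraMap ℤ K) :=
    Polynomial.pow_rootMultiplicity_dvd _ _
  have htc : tc p (Finsupp.single 0 k) ξ ≠ 0 := by
    rw [tc_eq, hk, Polynomial.rootMultiplicity_eq_natTrailingDegree]
    have h2 : (p₁.map (algebraMap ℤ K)).comp (Polynomial.X + Polynomial.C (ξ 0)) ≠ 0 := by
      intro h
      apply hmap
      have h3 := congrArg (fun q => q.comp (Polynomial.X - Polynomial.C (ξ 0))) h
      simpa [Polynomial.comp_assoc] using h3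
    exact Polynomial.trailingCoeff_nonzero_iff_nonzero.mpr h2
  have hk1 := hind _ htc
  rw [Fin.sum_univ_one, Finsupp.single_eq_same] at hk1
  have hr' : (0 : ℝ) < r 0 := by exact_mod_cast hr
  rw [le_div_iff₀ hr'] at hk1
  have hHk := hH p₁ k (ξ 0) B (r 0) hp₁0 hdeg₁ (fun i => by rw [hcoef₁]; exact hcoef _) hdvd
  have hH1 : 1 ≤ P.H ![ξ 0, 1] := P.one_le_H _
  have hlogH : 0 ≤ Real.log (P.H ![ξ 0, 1]) := Real.log_nonneg hH1
  have hlogB : 0 ≤ Real.log B := Real.log_nonneg hB
  have h1 : (k : ℝ) * Real.log (P.H ![ξ 0, 1]) ≤ r 0 * Real.log C₀ + P.D₁ * Real.log B := by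
    have h2 := Real.log_le_log (pow_pos (zero_lt_one.trans_le hH1) k) hHk
    rw [Real.log_pow, Real.log_mul (by positivity) (by positivity), Real.log_pow,
      Real.log_pow] at h2
    exact h2
  have h2 : (r 0 : ℝ) * Real.log C₀ + P.D₁ * Real.log B ≤
      (Real.log C₀ + P.D₁) * (Real.log B + r 0) := by
    have a1 : 0 ≤ Real.log C₀ * Real.log B := mul_nonneg hL hlogB
    have a2 : 0 ≤ (P.D₁ : ℝ) * r 0 := by positivity
    nlinarith
  have h3 : (Real.log C₀ + P.D₁) * (Real.log B + r 0) ≤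
      (Real.log C₀ + P.D₁) * (ε / (2 * (Real.log C₀ + P.D₁ + 1)) * G) :=
    mul_le_mul_of_nonneg_left hsmall (by positivity)
  have h4 : (Real.log C₀ + P.D₁) * (ε / (2 * (Real.log C₀ + P.D₁ + 1)) * G) ≤ ε / 2 * G := by
    have : (Real.log C₀ + P.D₁) * (ε / (2 * (Real.log C₀ + P.D₁ + 1)) * G) =
        (Real.log C₀ + P.D₁) / (Real.log C₀ + P.D₁ + 1) * (ε / 2 * G) := by
      field_simp
    rw [this]
    refine mul_le_of_le_one_left (by positivity) ?_
    rw [div_le_one hs]; linarith
  have h5 : ε * G ≤ k * Real.log (P.H ![ξ 0, 1]) := by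
    calc ε * G ≤ ε * (r 0 * Real.log (P.H ![ξ 0, 1])) := mul_le_mul_of_nonneg_left hG hε.le
      _ = ε * r 0 * Real.log (P.H ![ξ 0, 1]) := by ring
      _ ≤ k * Real.log (P.H ![ξ 0, 1]) := mul_le_mul_of_nonneg_right hk1 hlogH
  have h6 : 0 < ε * G := mul_pos hε hG0
  linarith

end Pool.Agent.Work.Tools.Subspace
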