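import Pool.Agent.Work.Tools.Subspace.Basic
import Pool.Agent.Work.Tools.Subspace.Stmts
import Pool.Agent.Work.Tools.Subspace.Stmts2

/-!
# T1: Hasse derivatives of monomials
-/

set_option autoImplicit false

namespace Pool.Agent.Work.Tools.Subspace

open Finset MvPolynomial

namespace IT1

theorem prod_monomial {σ α A : Type} [CommRing A] (S : Finset α) (f : α → σ →₀ ℕ) (c : α → A) :
    ∏ i ∈ S, monomial (f i) (c i) = monomial (∑ i ∈ S, f i) (∏ i ∈ S, c i) := by
  classical
  induction S using Finset.induction_on with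
  | empty => simp
  | insert a S ha ih => rw [Finset.prod_insert ha, Finset.sum_insert ha, Finset.prod_insert ha, ih,
      monomial_mul]

theorem pow_eq {σ A : Type} [CommRing A] (b : A) (i : σ) (s : ℕ) :
    (C b + X i : MvPolynomial σ A) ^ s =
      ∑ j ∈ range (s + 1), monomial (Finsupp.single i j) ((s.choose j : A) * b ^ (s - j)) := by
  rw [add_comm, add_pow]
  refine Finset.sum_congr rfl ?_
  intro j _
  rw [X_pow_eq_monomial, ← C_pow, mul_assoc, mul_comm, mul_assoc]
  have h1 : ((s.choose j : ℕ) : MvPolynomial σ A) = C ((s.choose j : ℕ) : A) := by simp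
  rw [h1, C_mul_monomial, mul_one, C_mul_monomial, mul_comm]

theorem coeff_prod {σ A : Type} [Fintype σ] [CommRing A] (b : σ → A) (s k : σ →₀ ℕ) :
    coeff k (∏ i, (C (b i) + X i : MvPolynomial σ A) ^ (s i)) =
      ∏ i, ((s i).choose (k i) : A) * b i ^ (s i - k i) := by
  classical
  simp_rw [pow_eq]
  rw [Finset.prod_univ_sum, coeff_sum]
  have h1 : ∀ f : σ → ℕ, coeff k (∏ i, monomial (Finsupp.single i (f i))
      (((s i).choose (f i) : A) * b i ^ (s i - f i))) =
      if f = k then ∏ i, ((s i).choose (k i) : A) * b i ^ (s i - k i) else 0 := by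
    intro f
    rw [prod_monomial, coeff_monomial]
    have h2 : ∑ i, Finsupp.single i (f i) = Finsupp.equivFunOnFinite.symm f := by
      rw [← Finsupp.univ_sum_single (Finsupp.equivFunOnFinite.symm f)]
      rfl
    rw [h2]
    by_cases h : f = k
    · subst h
      simp
    · rw [if_neg h, if_neg]
      intro h3
      apply h
      rw [← h3]
      rfl
  rw [Finset.sum_congr rfl (fun f _ => h1 f), Finset.sum_ite_eq']
  by_cases h : (k : σ → ℕ) ∈ Fintype.piFinset fun i => range (s i + 1)
  · rw [if_pos h]
  · rw [if_neg h]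
    rw [Fintype.mem_piFinset] at h
    push Not at h
    obtain ⟨i, hi⟩ := h
    symm
    apply Finset.prod_eq_zero (Finset.mem_univ i)
    rw [Finset.mem_range, not_lt] at hi
    rw [Nat.choose_eq_zero_of_lt hi]
    simp

end IT1

theorem prfT1 : ClaimT1 := by
  intro σ R _ _ k s a
  unfold hd tay
  rw [aeval_monomial, Finsupp.prod_fintype _ _ (fun i => by simp)]
  have h1 : algebraMap R (MvPolynomial σ (MvPolynomial σ R)) a = C (C a) := rfl
  rw [h1, coeff_C_mul, IT1.coeff_prod, monomial_eq, Finsupp.prod_fintype _ _ (fun i => by simp),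
    C_mul, mul_assoc, map_prod, ← Finset.prod_mul_distrib]
  congr 1

end Pool.Agent.Work.Tools.Subspace
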