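import Pool.Agent.Work.Tools.Subspace.Basic
import Pool.Agent.Work.Tools.Subspace.Stmts
import Pool.Agent.Work.Tools.Subspace.Stmts2

/-!
# The Subspace theorem, item X1c: dehomogenisation
-/

namespace Pool.Agent.Work.Tools.Subspace

open Finset Matrix MvPolynomial

namespace IX1c

variable {m : ℕ} {ι : Type}

/-- the exponents of the variables `(h, a h)` -/
noncomputable def low (a : Fin m → ι) (s : Fin m × ι →₀ ℕ) : Fin m →₀ ℕ :=
  Finsupp.equivFunOnFinite.symm fun h => s (h, a h)

theorem low_apply (a : Fin m → ι) (s : Fin m × ι →₀ ℕ) (h : Fin m) :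
    low a s h = s (h, a h) := rfl

/-- the embedding of the variables -/
def emb (a : Fin m → ι) (h : Fin m) : Fin m × ι := (h, a h)

theorem emb_injective (a : Fin m → ι) : Function.Injective (emb a) := by
  intro h h' e
  exact (Prod.mk.inj e).1

/-- the substitution -/
noncomputable def gg [DecidableEq ι] (R : Type) [CommRing R] (a b : Fin m → ι) (x : Fin m × ι) :
    MvPolynomial (Fin m) R :=
  if x.2 = a x.1 then X x.1 else if x.2 = b x.1 then 1 else 0

theorem prod_gg [Fintype ι] [DecidableEq ι] (a b : Fin m → ι) (hab : ∀ h, a h ≠ b h)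
    (s : Fin m × ι →₀ ℕ) (hs : ∀ h i, i ≠ a h → i ≠ b h → s (h, i) = 0) :
    (s.prod fun i k => gg ℤ a b i ^ k) = monomial (low a s) 1 := by
  rw [Finsupp.prod_fintype _ _ (fun i => pow_zero _), Fintype.prod_prod_type,
    monomial_eq, C_1, one_mul, Finsupp.prod_fintype _ _ (fun i => pow_zero _)]
  refine Finset.prod_congr rfl fun h _ => ?_
  rw [Finset.prod_eq_single (a h)]
  · simp [gg, low_apply]
  · intro i _ hi
    by_cases hb : i = b h
    · simp [gg, hb, (hab h).symm]
    · rw [hs h i hi hb, pow_zero]
  · intro hh
    exact absurd (Finset.mem_univ _) hh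

end IX1c

open IX1c in
theorem prfX1c : ClaimX1c := by
  intro K _ _ m ι _ _ r r' F M a b θ B hF hMH hr' hB hMa hab hdeg hvan
  classical
  -- the monomials
  have hz : ∀ s ∈ F.support, ∀ h i, i ≠ a h → i ≠ b h → s (h, i) = 0 := by
    intro s hs h i h1 h2
    have := monomial_le_degreeOf (h, i) hs
    rw [hdeg h i h1 h2] at this
    omega
  have hsum : ∀ s ∈ F.support, ∀ h, s (h, a h) + s (h, b h) = r' h := by
    intro s hs h
    rw [← hMH s hs h, ← Finset.sum_pair (f := fun i => s (h, i)) (hab h)]
    refine Finset.sum_subset (Finset.subset_univ _) fun i _ hi => ?_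
    simp only [Finset.mem_insert, Finset.mem_singleton, not_or] at hi
    exact hz s hs h i hi.1 hi.2
  have hinj : ∀ s ∈ F.support, ∀ s' ∈ F.support, low a s = low a s' → s = s' := by
    intro s hs s' hs' e
    ext ⟨h, i⟩
    have e1 : s (h, a h) = s' (h, a h) := by
      have := DFunLike.congr_fun e h
      simpa [low_apply] using this
    by_cases h1 : i = a h
    · rw [h1, e1]
    · by_cases h2 : i = b h
      · have h3 := hsum s hs h
        have h4 := hsum s' hs' h
        rw [h2]
        omega
      · rw [hz s hs h i h1 h2, hz s' hs' h i h1 h2]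
  set p : MvPolynomial (Fin m) ℤ := aeval (gg ℤ a b) F with hp
  have hpsum : p = ∑ s ∈ F.support, monomial (low a s) (coeff s F) := by
    rw [hp]
    conv_lhs => rw [F.as_sum]
    rw [map_sum]
    refine Finset.sum_congr rfl fun s hs => ?_
    rw [aeval_monomial, prod_gg a b hab s (hz s hs)]
    change C (coeff s F) * _ = _
    rw [C_mul_monomial, mul_one]
  have hcoeff1 : ∀ s ∈ F.support, coeff (low a s) p = coeff s F := by
    intro s hs
    rw [hpsum, coeff_sum, Finset.sum_eq_single s]
    · rw [coeff_monomial, if_pos rfl]
    · intro s' hs' hne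
      rw [coeff_monomial, if_neg]
      intro e
      exact hne (hinj s' hs' s hs e)
    · intro h
      exact absurd hs h
  have hcoeff2 : ∀ t, (∀ s ∈ F.support, low a s ≠ t) → coeff t p = 0 := by
    intro t ht
    rw [hpsum, coeff_sum]
    refine Finset.sum_eq_zero fun s hs => ?_
    rw [coeff_monomial, if_neg (ht s hs)]
  have hsupp : ∀ t ∈ p.support, ∃ s ∈ F.support, low a s = t := by
    intro t ht
    by_contra hcon
    push Not at hcon
    exact (mem_support_iff.1 ht) (hcoeff2 t hcon)
  obtain ⟨s₀, hs₀⟩ : F.support.Nonempty := by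
    rw [Finset.nonempty_iff_ne_empty]
    intro h
    exact hF (support_eq_empty.1 h)
  refine ⟨p, ?_, ?_, ?_, ?_⟩
  · intro h0
    have := hcoeff1 s₀ hs₀
    rw [h0, coeff_zero] at this
    exact (mem_support_iff.1 hs₀) this.symm
  · intro t
    by_cases ht : ∃ s ∈ F.support, low a s = t
    · obtain ⟨s, hs, rfl⟩ := ht
      rw [hcoeff1 s hs]
      exact hB s
    · push Not at ht
      rw [hcoeff2 t ht]
      exact le_trans (by simp) ((abs_nonneg _).trans (hB s₀))
  · intro h
    rw [degreeOf_le_iff]
    intro t ht
    obtain ⟨s, hs, rfl⟩ := hsupp t ht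
    have := hsum s hs h
    rw [low_apply]
    exact le_trans (by omega) (hr' h)
  · intro k hk
    by_contra hcon
    push Not at hcon
    set ξ : Fin m → K := fun h => -(M h (b h) / M h (a h)) with hξ
    set y : Fin m → ι → K := fun h i => if i = a h then ξ h else if i = b h then 1 else 0 with hy
    have hwt : wt r (k.mapDomain (emb a)) = ∑ h, (k h : ℝ) / r h := by
      unfold wt
      refine Finset.sum_congr rfl fun h _ => ?_
      congr 1
      rw [Finset.sum_eq_single (a h)]
      · have : k.mapDomain (emb a) (emb a h) = k h :=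
          Finsupp.mapDomain_apply (emb_injective a) k h
        exact_mod_cast congrArg (fun n : ℕ => (n : ℝ)) this
      · intro i _ hi
        have : k.mapDomain (emb a) (h, i) = 0 := by
          refine Finsupp.mapDomain_of_notMem_range k _ ?_
          rintro ⟨h', e⟩
          have e1 := Prod.mk.inj e
          apply hi
          rw [← e1.2, e1.1]
        rw [this]
        simp
      · intro hh
        exact absurd (Finset.mem_univ _) hh
    have hdot : ∀ h, M h ⬝ᵥ y h = 0 := by
      intro h
      unfold dotProduct
      have h1 : ∑ i, M h i * y h i = ∑ i ∈ {a h, b h}, M h i * y h i := by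
        symm
        refine Finset.sum_subset (Finset.subset_univ _) fun i _ hi => ?_
        simp only [Finset.mem_insert, Finset.mem_singleton, not_or] at hi
        simp [hy, hi.1, hi.2]
      rw [h1, Finset.sum_pair (hab h)]
      simp only [hy, hξ, if_true, if_neg (hab h).symm]
      have := hMa h
      field_simp
      ring
    have h0 := hvan (k.mapDomain (emb a)) (by rw [hwt]; exact hcon.le) y hdot
    apply hk
    unfold tc at h0 ⊢
    rw [aeval_hd] at h0 ⊢
    rw [← coeff_killCompl (emb_injective a)] at h0
    rw [← h0]
    congr 1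
    have e1 : (aeval (fun i => (C (ξ i) + X i : MvPolynomial (Fin m) K))).comp
        (aeval (gg ℤ a b)) = ((killCompl (emb_injective a)).restrictScalars ℤ).comp
        (aeval (fun i => (C (y i.1 i.2) + X i : MvPolynomial (Fin m × ι) K))) := by
      refine MvPolynomial.algHom_ext fun x => ?_
      obtain ⟨h, i⟩ := x
      simp only [AlgHom.comp_apply, aeval_X, AlgHom.coe_restrictScalars', map_add, killCompl_C]
      by_cases h1 : i = a h
      · have e2 : (killCompl (emb_injective a) (X (h, i)) : MvPolynomial (Fin m) K) = X h := by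
          have := killCompl_rename_app (emb_injective a) (X h : MvPolynomial (Fin m) K)
          rw [rename_X] at this
          rw [h1]
          exact this
        rw [e2]
        simp [gg, hy, h1]
      · have e2 : (killCompl (emb_injective a) (X (h, i)) : MvPolynomial (Fin m) K) = 0 := by
          unfold killCompl
          rw [aeval_X, dif_neg]
          rintro ⟨h', e⟩
          have e3 := Prod.mk.inj e
          apply h1
          rw [← e3.2, e3.1]
        rw [e2]
        by_cases h2 : i = b h
        · simp [gg, hy, h2, (hab h).symm]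
        · simp [gg, hy, h1, h2]
    exact DFunLike.congr_fun e1 F

end Pool.Agent.Work.Tools.Subspace
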